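import Pool.Agent.Lib.MP_b7a6eb_gt.BraidAct

namespace Pool.Agent.Lib.MP_b7a6eb_gt

open Equiv Equiv.Perm

section AF1
variable {G : Type*} [Group G] (n : ℕ) (σ : ℕ → G)

private theorem af1_far (hcomm : ∀ i j, i ≤ n → j ≤ n → i + 1 < j → σ i * σ j = σ j * σ i)
    (t : ℕ → G) (ht0 : t (n + 1) = 1) (ht : ∀ k ≤ n, t k = t (k + 1) * σ k) (i : ℕ) :
    ∀ m j : ℕ, j + m = n + 1 → i + 1 < j → t j * σ i = σ i * t j := by
  intro m
  induction m with
  | zero =>
    intro j hj _
    have : j = n + 1 := by omega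
    rw [this, ht0, one_mul, mul_one]
  | succ m ih =>
    intro j hj hij
    have h1 := ih (j + 1) (by omega) (by omega)
    rw [ht j (by omega), mul_assoc, ← hcomm i j (by omega) (by omega) hij, ← mul_assoc, h1,
      mul_assoc]

private theorem af1_shift (hcomm : ∀ i j, i ≤ n → j ≤ n → i + 1 < j → σ i * σ j = σ j * σ i)
    (hbraid : ∀ i, i + 1 ≤ n → σ i * σ (i + 1) * σ i = σ (i + 1) * σ i * σ (i + 1))
    (t : ℕ → G) (ht0 : t (n + 1) = 1) (ht : ∀ k ≤ n, t k = t (k + 1) * σ k) (p : ℕ)
    (hp : p + 1 ≤ n) :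
    ∀ m k : ℕ, k + m = p → t k * σ (p + 1) = σ p * t k := by
  intro m
  induction m with
  | zero =>
    intro k hk
    have hkp : k = p := by omega
    subst hkp
    have h1 := af1_far n σ hcomm t ht0 ht k (n + 1 - (k + 2)) (k + 2) (by omega) (by omega)
    rw [ht k (by omega), ht (k + 1) hp]
    calc t (k + 1 + 1) * σ (k + 1) * σ k * σ (k + 1)
        = t (k + 2) * (σ (k + 1) * σ k * σ (k + 1)) := by simp only [mul_assoc]
      _ = t (k + 2) * (σ k * σ (k + 1) * σ k) := by rw [hbraid k hp]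
      _ = (t (k + 2) * σ k) * (σ (k + 1) * σ k) := by simp only [mul_assoc]
      _ = (σ k * t (k + 2)) * (σ (k + 1) * σ k) := by rw [h1]
      _ = σ k * (t (k + 1 + 1) * σ (k + 1) * σ k) := by simp only [mul_assoc]
  | succ m ih =>
    intro k hk
    have h1 := ih (k + 1) (by omega)
    rw [ht k (by omega)]
    calc t (k + 1) * σ k * σ (p + 1) = t (k + 1) * (σ k * σ (p + 1)) := by rw [mul_assoc]
      _ = t (k + 1) * (σ (p + 1) * σ k) := by
          rw [hcomm k (p + 1) (by omega) hp (by omega)]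
      _ = (t (k + 1) * σ (p + 1)) * σ k := by rw [mul_assoc]
      _ = (σ p * t (k + 1)) * σ k := by rw [h1]
      _ = σ p * (t (k + 1) * σ k) := by rw [mul_assoc]

/-- [AF1] Coset decomposition, for an abstract group with elements `σ 0, …, σ n` satisfying the
braid relations. -/
theorem coset_decomposition {G : Type*} [Group G] (n : ℕ) (σ : ℕ → G)
    (hcomm : ∀ i j, i ≤ n → j ≤ n → i + 1 < j → σ i * σ j = σ j * σ i)
    (hbraid : ∀ i, i + 1 ≤ n → σ i * σ (i + 1) * σ i = σ (i + 1) * σ i * σ (i + 1))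
    (t : ℕ → G) (ht0 : t (n + 1) = 1) (ht : ∀ k ≤ n, t k = t (k + 1) * σ k) (g : G)
    (hg : g ∈ Subgroup.closure {x | ∃ i ≤ n, x = σ i}) :
    ∃ u ∈ Subgroup.closure {x | ∃ j ≤ n, x = t (j + 1) * σ j * σ j * (t (j + 1))⁻¹},
    ∃ k ∈ Subgroup.closure {x | ∃ i < n, x = σ i}, ∃ j ≤ n + 1, g = u * k * t j := by
  set U : Subgroup G := Subgroup.closure {x | ∃ j ≤ n, x = t (j + 1) * σ j * σ j * (t (j + 1))⁻¹}
    with hU
  set K : Subgroup G := Subgroup.closure {x | ∃ i < n, x = σ i} with hK
  set A : ℕ → G := fun j => t (j + 1) * σ j * σ j * (t (j + 1))⁻¹ with hA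
  have hAU : ∀ j ≤ n, A j ∈ U := fun j hj => Subgroup.subset_closure ⟨j, hj, rfl⟩
  have hσK : ∀ i < n, σ i ∈ K := fun i hi => Subgroup.subset_closure ⟨i, hi, rfl⟩
  have hfar : ∀ i j, j ≤ n + 1 → i + 1 < j → t j * σ i = σ i * t j := fun i j hj hij =>
    af1_far n σ hcomm t ht0 ht i (n + 1 - j) j (by omega) hij
  have hshift : ∀ p k, p + 1 ≤ n → k ≤ p → t k * σ (p + 1) = σ p * t k := fun p k hp hk =>
    af1_shift n σ hcomm hbraid t ht0 ht p hp (p - k) k (by omega)
  -- conjugation of the generators of `U`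
  have hc1 : ∀ i j, i < n → j ≤ n → i + 1 < j → σ i * A j * (σ i)⁻¹ = A j := by
    intro i j hi hj hij
    have h1 := hfar i (j + 1) (by omega) (by omega)
    have h2 := hcomm i j hi.le hj hij
    have h3 : σ i * A j = A j * σ i := by
      have h4 : (t (j + 1))⁻¹ * σ i = σ i * (t (j + 1))⁻¹ := by
        rw [inv_mul_eq_iff_eq_mul, ← mul_assoc, h1, mul_assoc, mul_inv_cancel, mul_one]
      calc σ i * A j = (σ i * t (j + 1)) * σ j * σ j * (t (j + 1))⁻¹ := by
            simp only [hA, mul_assoc]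
        _ = t (j + 1) * (σ i * σ j) * σ j * (t (j + 1))⁻¹ := by
            rw [← h1]
            simp only [mul_assoc]
        _ = t (j + 1) * (σ j * σ i) * σ j * (t (j + 1))⁻¹ := by
            rw [h2]
        _ = t (j + 1) * σ j * (σ i * σ j) * (t (j + 1))⁻¹ := by
            simp only [mul_assoc]
        _ = t (j + 1) * σ j * (σ j * σ i) * (t (j + 1))⁻¹ := by
            rw [h2]
        _ = t (j + 1) * σ j * σ j * (σ i * (t (j + 1))⁻¹) := by
            simp only [mul_assoc]
        _ = A j * σ i := by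
            rw [← h4]
            simp only [hA, mul_assoc]
    rw [h3, mul_inv_cancel_right]
  have hc2 : ∀ i j, i < n → j ≤ n → j < i → σ i * A j * (σ i)⁻¹ = A j := by
    intro i j hi hj hij
    have h1 := hshift i (j + 1) (by omega) (by omega)
    have h2 := hcomm j (i + 1) hj (by omega) (by omega)
    have h3 : σ i * A j = A j * σ i := by
      have h4 : σ (i + 1) * (t (j + 1))⁻¹ = (t (j + 1))⁻¹ * σ i := by
        rw [eq_inv_mul_iff_mul_eq, ← mul_assoc, h1, mul_assoc, mul_inv_cancel, mul_one]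
      calc σ i * A j = (σ i * t (j + 1)) * σ j * σ j * (t (j + 1))⁻¹ := by
            simp only [hA, mul_assoc]
        _ = t (j + 1) * (σ (i + 1) * σ j) * σ j * (t (j + 1))⁻¹ := by
            rw [← h1]
            simp only [mul_assoc]
        _ = t (j + 1) * (σ j * σ (i + 1)) * σ j * (t (j + 1))⁻¹ := by
            rw [h2]
        _ = t (j + 1) * σ j * (σ (i + 1) * σ j) * (t (j + 1))⁻¹ := by
            simp only [mul_assoc]
        _ = t (j + 1) * σ j * (σ j * σ (i + 1)) * (t (j + 1))⁻¹ := by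
            rw [h2]
        _ = t (j + 1) * σ j * σ j * (σ (i + 1) * (t (j + 1))⁻¹) := by
            simp only [mul_assoc]
        _ = A j * σ i := by
            rw [h4]
            simp only [hA, mul_assoc]
    rw [h3, mul_inv_cancel_right]
  have hc3 : ∀ j, j < n → σ j * A j * (σ j)⁻¹ = A (j + 1) := by
    intro j hj
    have h1 := hfar j (j + 2) (by omega) (by omega)
    have h2 := hbraid j (by omega)
    have h3 : σ j * A j = A (j + 1) * σ j := by
      have h4 : (t (j + 2))⁻¹ * σ j = σ j * (t (j + 2))⁻¹ := by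
        rw [inv_mul_eq_iff_eq_mul, ← mul_assoc, h1, mul_assoc, mul_inv_cancel, mul_one]
      have h5 : σ j * (σ (j + 1))⁻¹ = (σ (j + 1))⁻¹ * (σ j)⁻¹ * σ (j + 1) * σ j := by
        rw [mul_inv_eq_iff_eq_mul]
        have : (σ (j + 1))⁻¹ * (σ j)⁻¹ * σ (j + 1) * σ j * σ (j + 1) =
            (σ (j + 1))⁻¹ * (σ j)⁻¹ * (σ (j + 1) * σ j * σ (j + 1)) := by
          simp only [mul_assoc]
        rw [this, ← h2]
        group
      calc σ j * A j = (σ j * t (j + 2)) * σ (j + 1) * σ j * σ j * (t (j + 2) * σ (j + 1))⁻¹ := by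
            simp only [hA]
            rw [ht (j + 1) (by omega)]
            simp only [mul_assoc]
        _ = t (j + 2) * (σ j * σ (j + 1) * σ j) * (σ j * (σ (j + 1))⁻¹) * (t (j + 2))⁻¹ := by
            rw [← h1, mul_inv_rev]
            simp only [mul_assoc]
        _ = t (j + 2) * (σ (j + 1) * σ j * σ (j + 1)) * ((σ (j + 1))⁻¹ * (σ j)⁻¹ * σ (j + 1) * σ j)
              * (t (j + 2))⁻¹ := by
            rw [h2, h5]
        _ = t (j + 2) * σ (j + 1) * σ (j + 1) * (σ j * (t (j + 2))⁻¹) := by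
            group
        _ = A (j + 1) * σ j := by
            rw [← h4]
            simp only [hA, mul_assoc]
    rw [h3, mul_inv_cancel_right]
  have hc4 : ∀ j, j < n → σ j * (A j * A (j + 1)) = (A j * A (j + 1)) * σ j := by
    intro j hj
    have h1 := hfar j (j + 2) (by omega) (by omega)
    have h2 := hbraid j (by omega)
    have h4 : (t (j + 2))⁻¹ * σ j = σ j * (t (j + 2))⁻¹ := by
      rw [inv_mul_eq_iff_eq_mul, ← mul_assoc, h1, mul_assoc, mul_inv_cancel, mul_one]
    have h5 : A j * A (j + 1) = t (j + 2) * (σ (j + 1) * σ j * σ j * σ (j + 1)) * (t (j + 2))⁻¹ := by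
      simp only [hA]
      rw [ht (j + 1) (by omega)]
      group
    have h6 : σ j * (σ (j + 1) * σ j * σ j * σ (j + 1)) =
        (σ (j + 1) * σ j * σ j * σ (j + 1)) * σ j := by
      calc σ j * (σ (j + 1) * σ j * σ j * σ (j + 1)) =
            (σ j * σ (j + 1) * σ j) * (σ j * σ (j + 1)) := by simp only [mul_assoc]
        _ = (σ (j + 1) * σ j * σ (j + 1)) * (σ j * σ (j + 1)) := by rw [h2]
        _ = σ (j + 1) * σ j * (σ (j + 1) * σ j * σ (j + 1)) := by simp only [mul_assoc]
        _ = σ (j + 1) * σ j * (σ j * σ (j + 1) * σ j) := by rw [h2]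
        _ = _ := by simp only [mul_assoc]
    rw [h5]
    calc σ j * (t (j + 2) * (σ (j + 1) * σ j * σ j * σ (j + 1)) * (t (j + 2))⁻¹) =
          (σ j * t (j + 2)) * (σ (j + 1) * σ j * σ j * σ (j + 1)) * (t (j + 2))⁻¹ := by
            simp only [mul_assoc]
      _ = t (j + 2) * (σ j * (σ (j + 1) * σ j * σ j * σ (j + 1))) * (t (j + 2))⁻¹ := by
            rw [← h1]
            simp only [mul_assoc]
      _ = t (j + 2) * (σ (j + 1) * σ j * σ j * σ (j + 1)) * (σ j * (t (j + 2))⁻¹) := by
            rw [h6]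
            simp only [mul_assoc]
      _ = _ := by
            rw [← h4]
            simp only [mul_assoc]
  -- `σ i` normalises `U`
  have hconj : ∀ i < n, ∀ u ∈ U, σ i * u * (σ i)⁻¹ ∈ U := by
    intro i hi
    have h1 : U ≤ U.comap (MulAut.conj (σ i)).toMonoidHom := by
      rw [hU, Subgroup.closure_le]
      rintro x ⟨j, hj, rfl⟩
      rw [← hU]
      show σ i * A j * (σ i)⁻¹ ∈ U
      rcases lt_trichotomy (i + 1) j with h | h | h
      · rw [hc1 i j hi hj h]
        exact hAU j hj
      · subst h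
        have h2 := hc4 i hi
        have h3 := hc3 i hi
        have h4 : σ i * A (i + 1) * (σ i)⁻¹ = (A (i + 1))⁻¹ * A i * A (i + 1) := by
          have h5 : σ i * A (i + 1) = (σ i * (A i)⁻¹ * (σ i)⁻¹) * (σ i * (A i * A (i + 1))) := by
            group
          have h6 : σ i * (A i)⁻¹ * (σ i)⁻¹ = (A (i + 1))⁻¹ := by
            rw [← h3]
            group
          rw [h5, h6, h2]
          group
        rw [h4]
        exact U.mul_mem (U.mul_mem (U.inv_mem (hAU _ hj)) (hAU _ hi.le)) (hAU _ hj)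
      · rcases Nat.lt_or_ge j i with h' | h'
        · rw [hc2 i j hi hj h']
          exact hAU j hj
        · have : j = i := by omega
          subst this
          rw [hc3 j hi]
          exact hAU _ (by omega)
    intro u hu
    exact h1 hu
  have hconj' : ∀ i < n, ∀ u ∈ U, (σ i)⁻¹ * u * σ i ∈ U := by
    intro i hi
    have h1 : U ≤ U.comap (MulAut.conj (σ i)⁻¹).toMonoidHom := by
      rw [hU, Subgroup.closure_le]
      rintro x ⟨j, hj, rfl⟩
      rw [← hU]
      show (σ i)⁻¹ * A j * ((σ i)⁻¹)⁻¹ ∈ U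
      rw [inv_inv]
      rcases lt_trichotomy (i + 1) j with h | h | h
      · have h2 := hc1 i j hi hj h
        have h3 : (σ i)⁻¹ * A j * σ i = A j := by
          rw [mul_inv_eq_iff_eq_mul] at h2
          rw [mul_assoc, ← h2, inv_mul_cancel_left]
        rw [h3]
        exact hAU j hj
      · subst h
        have h3 := hc3 i hi
        have h4 : (σ i)⁻¹ * A (i + 1) * σ i = A i := by
          rw [← h3]
          group
        rw [h4]
        exact hAU _ hi.le
      · rcases Nat.lt_or_ge j i with h' | h'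
        · have h2 := hc2 i j hi hj h'
          have h3 : (σ i)⁻¹ * A j * σ i = A j := by
            rw [mul_inv_eq_iff_eq_mul] at h2
            rw [mul_assoc, ← h2, inv_mul_cancel_left]
          rw [h3]
          exact hAU j hj
        · have : j = i := by omega
          subst this
          have h2 := hc4 j hi
          have h3 := hc3 j hi
          have h4 : (σ j)⁻¹ * A j * σ j = A j * A (j + 1) * (A j)⁻¹ := by
            have h5 : A j * A (j + 1) = (σ j)⁻¹ * (A j * A (j + 1)) * σ j :=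
              (eq_inv_mul_of_mul_eq h2).trans (mul_assoc _ _ _).symm
            have h6 : (σ j)⁻¹ * (A j * A (j + 1)) * σ j =
                ((σ j)⁻¹ * A j * σ j) * ((σ j)⁻¹ * A (j + 1) * σ j) := by
              group
            have h7 : (σ j)⁻¹ * A (j + 1) * σ j = A j := by
              rw [← h3]
              group
            rw [h6, h7] at h5
            rw [h5]
            group
          rw [h4]
          exact U.mul_mem (U.mul_mem (hAU _ hj) (hAU _ (by omega))) (U.inv_mem (hAU _ hj))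
    intro u hu
    have h2 := h1 hu
    have h3 : (σ i)⁻¹ * u * ((σ i)⁻¹)⁻¹ ∈ U := h2
    rwa [inv_inv] at h3
  have hKU : ∀ k ∈ K, ∀ u ∈ U, k * u * k⁻¹ ∈ U := by
    intro k hk
    induction hk using Subgroup.closure_induction'' with
    | one =>
      intro u hu
      rwa [one_mul, inv_one, mul_one]
    | mem x hx =>
      obtain ⟨i, hi, rfl⟩ := hx
      exact hconj i hi
    | inv_mem x hx =>
      obtain ⟨i, hi, rfl⟩ := hx
      intro u hu
      rw [inv_inv]
      exact hconj' i hi u hu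
    | mul x y _ _ hx hy =>
      intro u hu
      have h1 : x * y * u * (x * y)⁻¹ = x * (y * u * y⁻¹) * x⁻¹ := by group
      rw [h1]
      exact hx _ (hy u hu)
  -- right multiplication by the generators
  have hright : ∀ i ≤ n, ∀ x : G, (∃ u ∈ U, ∃ k ∈ K, ∃ j ≤ n + 1, x = u * k * t j) →
      ∃ u ∈ U, ∃ k ∈ K, ∃ j ≤ n + 1, x * σ i = u * k * t j := by
    rintro i hi x ⟨u, hu, k, hk, j, hj, rfl⟩
    rcases lt_trichotomy j i with h | h | h
    · obtain ⟨p, rfl⟩ : ∃ p, i = p + 1 := ⟨i - 1, by omega⟩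
      refine ⟨u, hu, k * σ p, K.mul_mem hk (hσK p (by omega)), j, hj, ?_⟩
      rw [mul_assoc, hshift p j hi (by omega)]
      simp only [mul_assoc]
    · subst h
      refine ⟨u * (k * A j * k⁻¹), U.mul_mem hu (hKU k hk _ (hAU j hi)), k, hk, j + 1, by omega, ?_⟩
      rw [ht j hi]
      simp only [hA]
      group
    · rcases Nat.lt_or_ge (i + 1) j with h' | h'
      · refine ⟨u, hu, k * σ i, K.mul_mem hk (hσK i (by omega)), j, hj, ?_⟩
        rw [mul_assoc, hfar i j hj h']
        simp only [mul_assoc]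
      · have : j = i + 1 := by omega
        subst this
        refine ⟨u, hu, k, hk, i, by omega, ?_⟩
        rw [ht i hi]
        simp only [mul_assoc]
  have hright' : ∀ i ≤ n, ∀ x : G, (∃ u ∈ U, ∃ k ∈ K, ∃ j ≤ n + 1, x = u * k * t j) →
      ∃ u ∈ U, ∃ k ∈ K, ∃ j ≤ n + 1, x * (σ i)⁻¹ = u * k * t j := by
    rintro i hi x ⟨u, hu, k, hk, j, hj, rfl⟩
    rcases lt_trichotomy j i with h | h | h
    · obtain ⟨p, rfl⟩ : ∃ p, i = p + 1 := ⟨i - 1, by omega⟩
      refine ⟨u, hu, k * (σ p)⁻¹, K.mul_mem hk (K.inv_mem (hσK p (by omega))), j, hj, ?_⟩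
      have h1 := hshift p j hi (by omega)
      have h2 : t j * (σ (p + 1))⁻¹ = (σ p)⁻¹ * t j := by
        rw [mul_inv_eq_iff_eq_mul, mul_assoc, h1, inv_mul_cancel_left]
      rw [mul_assoc, h2]
      simp only [mul_assoc]
    · subst h
      refine ⟨u, hu, k, hk, j + 1, by omega, ?_⟩
      rw [ht j hi]
      group
    · rcases Nat.lt_or_ge (i + 1) j with h' | h'
      · refine ⟨u, hu, k * (σ i)⁻¹, K.mul_mem hk (K.inv_mem (hσK i (by omega))), j, hj, ?_⟩
        have h1 := hfar i j hj h'
        have h2 : t j * (σ i)⁻¹ = (σ i)⁻¹ * t j := by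
          rw [mul_inv_eq_iff_eq_mul, mul_assoc, h1, inv_mul_cancel_left]
        rw [mul_assoc, h2]
        simp only [mul_assoc]
      · have : j = i + 1 := by omega
        subst this
        refine ⟨u * (k * (A i)⁻¹ * k⁻¹), U.mul_mem hu (hKU k hk _ (U.inv_mem (hAU i hi))), k, hk,
          i, by omega, ?_⟩
        rw [ht i hi]
        simp only [hA]
        group
  induction hg using Subgroup.closure_induction_right with
  | one =>
    exact ⟨1, U.one_mem, 1, K.one_mem, n + 1, le_rfl, by rw [ht0]; simp⟩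
  | mul_right x _ y hy ih =>
    obtain ⟨i, hi, rfl⟩ := hy
    exact hright i hi x ih
  | mul_inv_cancel x _ y hy ih =>
    obtain ⟨i, hi, rfl⟩ := hy
    exact hright' i hi x ih

end AF1

end Pool.Agent.Lib.MP_b7a6eb_gt
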