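import Pool.Agent.Lib.MP_b7a6eb_gt.BraidAct
import Pool.Agent.Lib.MP_b7a6eb_gt.AF1

namespace Pool.Agent.Lib.MP_b7a6eb_gt

open Equiv Equiv.Perm

namespace BG

private lemma af2_sN {n i : ℕ} (h : i < n + 1) : sN n i = s ⟨i, h⟩ := by
  simp [sN, h]

private lemma af2_mem {n : ℕ} (b : BG (n + 1)) :
    b ∈ Subgroup.closure {x | ∃ i ≤ n, x = sN n i} := by
  obtain ⟨w, rfl⟩ := mk_surjective b
  induction w with
  | nil => rw [mk_nil]; exact Subgroup.one_mem _
  | cons a w ih =>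
    rw [mk_cons]
    refine Subgroup.mul_mem _ ?_ ih
    have h1 : s a.1 ∈ Subgroup.closure {x : BG (n + 1) | ∃ i ≤ n, x = sN n i} := by
      refine Subgroup.subset_closure ⟨a.1.val, by omega, ?_⟩
      rw [af2_sN a.1.isLt]
    split_ifs
    · exact h1
    · exact Subgroup.inv_mem _ h1

/-- [AF2] -/
theorem exists_decomposition {n : ℕ} (b : BG (n + 1)) :
    ∃ (g : FreeGroup (Fin (n + 1))) (k : BG n) (j : ℕ), j ≤ n + 1 ∧
      b = FreeGroup.lift (fun i : Fin (n + 1) => AA n i.val) g * iota k * tt n j := by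
  obtain ⟨u, hu, k, hk, j, hj, he⟩ := coset_decomposition n (sN n)
    (by
      intro i j hi hj hij
      rw [af2_sN (n := n) (i := i) (by omega), af2_sN (n := n) (i := j) (by omega)]
      exact s_comm (by simpa using hij))
    (by
      intro i hi
      rw [af2_sN (n := n) (i := i) (by omega), af2_sN (n := n) (i := i + 1) (by omega)]
      exact s_braid rfl)
    (tt n) (tt_last n) (fun k hk => tt_succ hk) b (af2_mem b)
  have h1 : u ∈ (FreeGroup.lift (fun i : Fin (n + 1) => AA n i.val)).range := by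
    refine (Subgroup.closure_le _).2 ?_ hu
    rintro x ⟨i, hi, rfl⟩
    exact ⟨FreeGroup.of ⟨i, by omega⟩, by simp [AA]⟩
  have h2 : k ∈ (iota : BG n →* BG (n + 1)).range := by
    refine (Subgroup.closure_le _).2 ?_ hk
    rintro x ⟨i, hi, rfl⟩
    refine ⟨s ⟨i, hi⟩, ?_⟩
    rw [iota_s, af2_sN (n := n) (i := i) (by omega)]
    rfl
  obtain ⟨g, rfl⟩ := h1
  obtain ⟨k', rfl⟩ := h2
  exact ⟨g, k', j, hj, he⟩

end BG

end Pool.Agent.Lib.MP_b7a6eb_gt
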