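import Pool.Agent.Lib.MP_b7a6eb_gt.BraidAct

namespace Pool.Agent.Lib.MP_b7a6eb_gt

open Equiv Equiv.Perm

namespace BG

variable {n : ℕ}

private lemma af3_letter {H : Type*} [Group H] (a : Fin n × Bool) (x : Fin (n + 2) → H) :
    (fun i : Fin (n + 1) => actLetter (a.1.castSucc, a.2) x i.castSucc) =
      actLetter a (fun i => x i.castSucc) := by
  funext j
  have h1 : (j.castSucc = a.1.castSucc.castSucc) ↔ j = a.1.castSucc := Fin.castSucc_inj
  have h2 : (j.castSucc = a.1.succ.castSucc) ↔ j = a.1.succ := Fin.castSucc_inj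
  simp only [actLetter, h1, h2, Fin.succ_castSucc]

private lemma af3_letter_last {H : Type*} [Group H] (a : Fin n × Bool) (x : Fin (n + 2) → H) :
    actLetter (a.1.castSucc, a.2) x (Fin.last (n + 1)) = x (Fin.last (n + 1)) := by
  apply actLetter_other
  · exact (Fin.castSucc_lt_last _).ne'
  · intro h
    have := congrArg Fin.val h
    simp at this
    omega

/-- [AF3] -/
theorem act_iota {H : Type*} [Group H] (k : BG n) (x : Fin (n + 2) → H) :
    (∀ j : Fin (n + 1), act (iota k) x j.castSucc = act k (fun i => x i.castSucc) j) ∧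
    act (iota k) x (Fin.last (n + 1)) = x (Fin.last (n + 1)) := by
  obtain ⟨w, rfl⟩ := mk_surjective k
  rw [iota_mk, act_mk, act_mk]
  induction w generalizing x with
  | nil => exact ⟨fun j => rfl, rfl⟩
  | cons a w ih =>
    have h := ih (actLetter (a.1.castSucc, a.2) x)
    rw [af3_letter, af3_letter_last] at h
    exact h

private lemma af3_ext {H : Type*} [Group H] (x : Fin (n + 1) → H) (j : Fin (n + 1)) :
    ext x j.val = x j := by
  rw [ext, dif_pos j.isLt]

private lemma af3_ext' {H : Type*} [Group H] (x : Fin (n + 1) → H) (j : ℕ) (h : j < n + 1) :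
    ext x j = x ⟨j, h⟩ := by
  simp [ext, h]

private lemma af3_PP_last {H : Type*} [Group H] (x : Fin (n + 2) → H) :
    PP x (n + 1) = 1 := by simp [PP]

private lemma af3_PP_succ {H : Type*} [Group H] (x : Fin (n + 2) → H) {k : ℕ} (h : k ≤ n) :
    PP x k = ext x k * PP x (k + 1) := by
  have : n + 1 - k = (n + 1 - (k + 1)) + 1 := by omega
  rw [PP, PP, this, List.range'_succ]
  simp

private lemma af3_sN {i : ℕ} (h : i < n + 1) : sN n i = s ⟨i, h⟩ := by
  simp [sN, h]

/-- action of a generator -/
private lemma af3_act_sN {H : Type*} [Group H] {k : ℕ} (hk : k ≤ n) (y : Fin (n + 2) → H)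
    (j : Fin (n + 2)) : act (sN n k) y j =
      if j.val = k then ext y k * ext y (k + 1) * (ext y k)⁻¹
      else if j.val = k + 1 then ext y k
      else y j := by
  rw [af3_sN (by omega : k < n + 1), act_s, af3_ext' y k (by omega),
    af3_ext' y (k + 1) (by omega)]
  by_cases h1 : j.val = k
  · have hj : j = (⟨k, by omega⟩ : Fin (n + 1)).castSucc := Fin.ext h1
    rw [if_pos h1, hj]
    have := actLetter_castSucc ((⟨k, by omega⟩ : Fin (n + 1)), true) y
    rw [if_pos rfl] at this
    exact this
  · by_cases h2 : j.val = k + 1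
    · have hj : j = (⟨k, by omega⟩ : Fin (n + 1)).succ := Fin.ext h2
      rw [if_neg h1, if_pos h2, hj]
      have := actLetter_succ ((⟨k, by omega⟩ : Fin (n + 1)), true) y
      rw [if_pos rfl] at this
      exact this
    · rw [if_neg h1, if_neg h2]
      apply actLetter_other
      · intro h
        exact h1 (congrArg Fin.val h)
      · intro h
        exact h2 (congrArg Fin.val h)

/-- [AF3] -/
theorem act_tt {H : Type*} [Group H] (k : ℕ) (hk : k ≤ n + 1) (x : Fin (n + 2) → H)
    (j : Fin (n + 2)) : act (tt n k) x j =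
      if j.val < k then ext x j.val
      else if j.val = k then PP x k * x (Fin.last (n + 1)) * (PP x k)⁻¹
      else ext x (j.val - 1) := by
  obtain ⟨m, hm⟩ : ∃ m, k + m = n + 1 := ⟨n + 1 - k, by omega⟩
  induction m generalizing k j with
  | zero =>
    have hk' : k = n + 1 := by omega
    subst hk'
    rw [tt_last, act_one, af3_PP_last]
    by_cases h1 : j.val < n + 1
    · rw [if_pos h1, af3_ext]
    · have h2 : j = Fin.last (n + 1) := by
        apply Fin.ext
        have := j.isLt
        simp
        omega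
      rw [if_neg h1, if_pos (by rw [h2]; simp), h2]
      simp
  | succ m ih =>
    have ih' := fun j => ih (k + 1) (by omega) j (by omega)
    rw [tt_succ (by omega : k ≤ n), act_mul, af3_act_sN (by omega)]
    have e1 : ext (act (tt n (k + 1)) x) k = ext x k := by
      rw [af3_ext' _ k (by omega), ih', if_pos (by simp)]
    have e2 : ext (act (tt n (k + 1)) x) (k + 1) =
        PP x (k + 1) * x (Fin.last (n + 1)) * (PP x (k + 1))⁻¹ := by
      rw [af3_ext' _ (k + 1) (by omega), ih', if_neg (by simp), if_pos rfl]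
    rw [e1, e2, ih']
    by_cases h1 : j.val = k
    · rw [if_pos h1, if_neg (by omega), if_pos h1, af3_PP_succ x (by omega : k ≤ n)]
      simp only [mul_inv_rev, mul_assoc]
    · rw [if_neg h1]
      by_cases h2 : j.val = k + 1
      · rw [if_pos h2, if_neg (by omega), if_neg h1, h2, Nat.add_sub_cancel]
      · rw [if_neg h2]
        by_cases h3 : j.val < k
        · rw [if_pos (by omega), if_pos h3]
        · rw [if_neg (by omega), if_neg h2, if_neg h3, if_neg h1]

/-- [AF3] -/
theorem act_AA {H : Type*} [Group H] (j : ℕ) (hj : j ≤ n) (x : Fin (n + 2) → H)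
    (k : Fin (n + 2)) : act (AA n j) x k =
      if k.val = j then
        (ext x j * (PP x (j + 1) * x (Fin.last (n + 1)) * (PP x (j + 1))⁻¹)) * ext x j *
        (ext x j * (PP x (j + 1) * x (Fin.last (n + 1)) * (PP x (j + 1))⁻¹))⁻¹
      else if k = Fin.last (n + 1) then
        ((PP x (j + 1))⁻¹ * ext x j * PP x (j + 1)) * x (Fin.last (n + 1)) *
        ((PP x (j + 1))⁻¹ * ext x j * PP x (j + 1))⁻¹
      else x k := by
  set x' : Fin (n + 2) → H := fun k => if k.val = j then
        (ext x j * (PP x (j + 1) * x (Fin.last (n + 1)) * (PP x (j + 1))⁻¹)) * ext x j *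
        (ext x j * (PP x (j + 1) * x (Fin.last (n + 1)) * (PP x (j + 1))⁻¹))⁻¹
      else if k = Fin.last (n + 1) then
        ((PP x (j + 1))⁻¹ * ext x j * PP x (j + 1)) * x (Fin.last (n + 1)) *
        ((PP x (j + 1))⁻¹ * ext x j * PP x (j + 1))⁻¹
      else x k with hx'
  suffices hmain : act (AA n j) x = x' by rw [hmain]
  apply act_injective (tt n (j + 1))
  have hA : AA n j * tt n (j + 1) = tt n (j + 1) * sN n j * sN n j := by
    simp [AA, mul_assoc]
  rw [← act_mul, hA, act_mul, act_mul]
  have ext_other : ∀ i : ℕ, i ≠ j → i < n + 1 → ext x' i = ext x i := by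
    intro i hi hin
    rw [af3_ext' _ i (by omega), af3_ext' _ i (by omega), hx']
    simp only
    rw [if_neg hi, if_neg]
    intro h
    have := congrArg Fin.val h
    simp at this
    omega
  have hPP : ∀ m k : ℕ, k + m = n + 1 → j < k → PP x' k = PP x k := by
    intro m
    induction m with
    | zero =>
      intro k hk _
      have : k = n + 1 := by omega
      subst this
      rw [af3_PP_last, af3_PP_last]
    | succ m ih =>
      intro k hk hjk
      rw [af3_PP_succ x (by omega), af3_PP_succ x' (by omega), ih (k + 1) (by omega) (by omega),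
        ext_other k (by omega) (by omega)]
  have hlast : x' (Fin.last (n + 1)) =
      ((PP x (j + 1))⁻¹ * ext x j * PP x (j + 1)) * x (Fin.last (n + 1)) *
        ((PP x (j + 1))⁻¹ * ext x j * PP x (j + 1))⁻¹ := by
    rw [hx']
    simp only
    rw [if_neg (by simp; omega), if_pos trivial]
  have hj' : ext x' j = (ext x j * (PP x (j + 1) * x (Fin.last (n + 1)) * (PP x (j + 1))⁻¹)) *
      ext x j * (ext x j * (PP x (j + 1) * x (Fin.last (n + 1)) * (PP x (j + 1))⁻¹))⁻¹ := by
    rw [af3_ext' _ j (by omega), hx']
    simp only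
    rw [if_pos trivial]
  -- first application
  set y := act (tt n (j + 1)) x with hy
  have y1 : ext y j = ext x j := by
    rw [af3_ext' _ j (by omega), hy, act_tt _ (by omega), if_pos (by simp)]
  have y2 : ext y (j + 1) = PP x (j + 1) * x (Fin.last (n + 1)) * (PP x (j + 1))⁻¹ := by
    rw [af3_ext' _ (j + 1) (by omega), hy, act_tt _ (by omega), if_neg (by simp), if_pos rfl]
  have z1 : ext (act (sN n j) y) j = ext x j *
      (PP x (j + 1) * x (Fin.last (n + 1)) * (PP x (j + 1))⁻¹) * (ext x j)⁻¹ := by
    rw [af3_ext' _ j (by omega), af3_act_sN hj, if_pos rfl, y1, y2]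
  have z2 : ext (act (sN n j) y) (j + 1) = ext x j := by
    rw [af3_ext' _ (j + 1) (by omega), af3_act_sN hj, if_neg (by simp), if_pos rfl, y1]
  funext i
  rw [af3_act_sN hj, z1, z2, act_tt _ (by omega)]
  by_cases h1 : i.val = j
  · rw [if_pos h1, if_pos (by omega), h1, hj']
    group
  · rw [if_neg h1]
    by_cases h2 : i.val = j + 1
    · rw [if_pos h2, if_neg (by omega), if_pos h2, hPP (n + 1 - (j + 1)) (j + 1) (by omega)
        (by omega), hlast]
      group
    · rw [if_neg h2, af3_act_sN hj, if_neg h1, if_neg h2, hy, act_tt _ (by omega)]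
      by_cases h3 : i.val < j + 1
      · rw [if_pos h3, if_pos h3, ext_other _ h1 (by omega)]
      · have hi := i.isLt
        rw [if_neg h3, if_neg h2, if_neg h3, if_neg h2, ext_other _ (by omega) (by omega)]

end BG

end Pool.Agent.Lib.MP_b7a6eb_gt
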