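import Pool.Agent.Lib.MP_b7a6eb_gt.BraidAct

namespace Pool.Agent.Lib.MP_b7a6eb_gt

open Equiv Equiv.Perm

private lemma af4_single {F : Type} [Group F] [DecidableEq F] (g q : F)
    (a : Multiplicative (ZMod 2)) :
    (mulAutArrow g : MulAut (F → Multiplicative (ZMod 2))) (Pi.mulSingle q a) =
      Pi.mulSingle (g * q) a := by
  funext x
  change Pi.mulSingle (M := fun _ : F => Multiplicative (ZMod 2)) q a (g⁻¹ * x) = _
  by_cases h : x = g * q
  · subst h
    rw [inv_mul_cancel_left, Pi.mulSingle_eq_same, Pi.mulSingle_eq_same]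
  · rw [Pi.mulSingle_eq_of_ne, Pi.mulSingle_eq_of_ne]
    · exact h
    · intro h'
      exact h (by rw [← h', mul_inv_cancel_left])

/-- [AF4] wreath products -/
theorem exists_wreath (F : Type) [Group F] : ∃ (H : Type) (_ : Group H) (π : H →* F)
    (σ : F → H) (Y : F → H), (∀ q, π (σ q) = q) ∧ (∀ q, π (Y q) = 1) ∧
      Function.Injective Y ∧ ∀ c q, c * Y q * c⁻¹ = Y (π c * q) := by
  classical
  refine ⟨(F → Multiplicative (ZMod 2)) ⋊[mulAutArrow] F, inferInstance,
    SemidirectProduct.rightHom, fun q => SemidirectProduct.inr q,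
    fun q => SemidirectProduct.inl (Pi.mulSingle q (Multiplicative.ofAdd 1)), ?_, ?_, ?_, ?_⟩
  · intro q
    simp
  · intro q
    simp
  · intro p q h
    have h1 := SemidirectProduct.inl_injective h
    by_contra hne
    have h2 := congrFun h1 p
    rw [Pi.mulSingle_eq_same, Pi.mulSingle_eq_of_ne hne] at h2
    exact absurd h2 (by decide)
  · intro c q
    ext x
    · simp [af4_single]
    · simp

private lemma af4_PP {H : Type*} [Group H] {n : ℕ} (x : Fin (n + 2) → H) {k : ℕ} (hk : k ≤ n) :
    BG.PP x k = BG.ext x k * BG.PP x (k + 1) := by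
  have : n + 1 - k = (n + 1 - (k + 1)) + 1 := by omega
  rw [BG.PP, BG.PP, this, List.range'_succ]
  simp

private lemma af4_PP_last {H : Type*} [Group H] {n : ℕ} (x : Fin (n + 2) → H) :
    BG.PP x (n + 1) = 1 := by
  simp [BG.PP]

/-- [AF4] elements `g_0, …, g_n` of the free group (with `g_{n+1} = 1`) such that
`(g_{j+1} ⋯ g_n)⁻¹ g_j (g_{j+1} ⋯ g_n)` is the `j`-th generator -/
theorem exists_tuple (n : ℕ) : ∃ G : Fin (n + 2) → FreeGroup (Fin (n + 1)),
    G (Fin.last (n + 1)) = 1 ∧ ∀ j : Fin (n + 1),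
      (BG.PP G (j.val + 1))⁻¹ * BG.ext G j.val * BG.PP G (j.val + 1) = FreeGroup.of j := by
  -- `e i` the generators, `p k = e_n e_{n-1} … e_k`
  let e : ℕ → FreeGroup (Fin (n + 1)) := fun i =>
    if h : i < n + 1 then FreeGroup.of ⟨i, h⟩ else 1
  let p : ℕ → FreeGroup (Fin (n + 1)) := fun k =>
    ((List.range' k (n + 1 - k)).reverse.map e).prod
  have hp1 : p (n + 1) = 1 := by simp [p]
  have hp : ∀ k, k ≤ n → p k = p (k + 1) * e k := by
    intro k hk
    have : n + 1 - k = (n + 1 - (k + 1)) + 1 := by omega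
    simp only [p]
    rw [this, List.range'_succ]
    simp
  let G : Fin (n + 2) → FreeGroup (Fin (n + 1)) := fun j =>
    p (j.val + 1) * e j.val * (p (j.val + 1))⁻¹
  have hG : ∀ k, k ≤ n → BG.ext G k = p (k + 1) * e k * (p (k + 1))⁻¹ := by
    intro k hk
    have h : k < n + 1 + 1 := by omega
    simp only [BG.ext, dif_pos h, G]
  have hPP : ∀ m k, k + m = n + 1 → BG.PP G k = p k := by
    intro m
    induction m with
    | zero =>
      intro k hk
      have : k = n + 1 := by omega
      subst this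
      rw [af4_PP_last, hp1]
    | succ m ih =>
      intro k hk
      rw [af4_PP G (by omega : k ≤ n), ih (k + 1) (by omega), hG k (by omega), hp k (by omega)]
      group
  refine ⟨G, ?_, ?_⟩
  · simp [G, e]
  · intro j
    have hj : j.val ≤ n := Nat.lt_succ_iff.mp j.isLt
    rw [hPP (n - j.val) (j.val + 1) (by omega), hG j.val hj]
    have : e j.val = FreeGroup.of j := by
      simp only [e, dif_pos j.isLt]
    rw [this]
    group

end Pool.Agent.Lib.MP_b7a6eb_gt
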