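import Pool.Agent.Lib.MP_b7a6eb_gt.BraidAct
import Pool.Agent.Lib.MP_b7a6eb_gt.AF2
import Pool.Agent.Lib.MP_b7a6eb_gt.AF3
import Pool.Agent.Lib.MP_b7a6eb_gt.AF4

namespace Pool.Agent.Lib.MP_b7a6eb_gt

open Equiv Equiv.Perm

namespace BG

private lemma af5_PP_map {H F : Type*} [Group H] [Group F] {n : ℕ} (π : H →* F)
    (x : Fin (n + 2) → H) (k : ℕ) : π (PP x k) = PP (fun j => π (x j)) k := by
  rw [PP, PP, map_list_prod, List.map_map]
  congr 1
  refine List.map_congr_left fun i _ => ?_
  simp only [Function.comp, ext]
  split_ifs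
  · rfl
  · exact map_one π

private lemma af5_ext_map {H F : Type*} [Group H] [Group F] {n : ℕ} (π : H →* F)
    (x : Fin (n + 2) → H) (k : ℕ) : π (ext x k) = ext (fun j => π (x j)) k := by
  simp only [ext]
  split_ifs
  · rfl
  · exact map_one π

/-- `AA j` acts trivially on tuples with trivial last entry -/
private lemma af5_AA_trivial {H : Type*} [Group H] {n : ℕ} (j : ℕ) (hj : j ≤ n)
    (x : Fin (n + 2) → H) (hx : x (Fin.last (n + 1)) = 1) : act (AA n j) x = x := by
  funext k
  rw [act_AA j hj x k, hx]
  split_ifs with h1 h2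
  · have : ext x j = x k := by
      have h3 : j < n + 1 + 1 := by omega
      simp only [ext, dif_pos h3]
      congr 1
      exact Fin.ext h1.symm
    rw [this]
    group
  · rw [h2, hx]
    group
  · rfl

private lemma af5_lift_trivial {H : Type*} [Group H] {n : ℕ} (g : FreeGroup (Fin (n + 1)))
    (x : Fin (n + 2) → H) (hx : ∀ j : Fin (n + 1), act (AA n j.val) x = x) :
    act (FreeGroup.lift (fun i : Fin (n + 1) => AA n i.val) g) x = x := by
  induction g using FreeGroup.induction_on with
  | C1 => rw [map_one, act_one]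
  | of j => rw [FreeGroup.lift_apply_of]; exact hx j
  | inv_of j _ =>
    rw [map_inv, FreeGroup.lift_apply_of]
    have h1 : act (AA n j.val)⁻¹ (act (AA n j.val) x) = x := act_inv_act _ _
    rwa [hx j] at h1
  | mul a b ha hb => rw [map_mul, act_mul, ha, hb]

/-- [AF5] the pure part -/
theorem pure_faithful {n : ℕ} (g : FreeGroup (Fin (n + 1)))
    (h : ∀ (H : Type) [Group H] (x : Fin (n + 2) → H),
      act (FreeGroup.lift (fun i : Fin (n + 1) => AA n i.val) g) x = x) : g = 1 := by
  obtain ⟨H, instH, π, σ, Y, hσ, hY, hYinj, hconj⟩ := exists_wreath (FreeGroup (Fin (n + 1)))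
  obtain ⟨G, hG1, hG2⟩ := exists_tuple n
  -- the antihomomorphism fixing the generators
  let Λ : FreeGroup (Fin (n + 1)) →* FreeGroup (Fin (n + 1)) :=
    FreeGroup.lift (fun i => (FreeGroup.of i)⁻¹)
  have hΛΛ : ∀ x, Λ (Λ x) = x := by
    intro x
    have : (Λ.comp Λ) = MonoidHom.id _ := by
      ext i
      simp [Λ]
    exact DFunLike.congr_fun this x
  let θ : FreeGroup (Fin (n + 1)) → FreeGroup (Fin (n + 1)) := fun x => (Λ x)⁻¹
  have hθmul : ∀ x y, θ (x * y) = θ y * θ x := by
    intro x y
    simp [θ]
  have hθof : ∀ i, θ (FreeGroup.of i) = FreeGroup.of i := by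
    intro i
    simp [θ, Λ]
  have hθinv : ∀ i, θ (FreeGroup.of i)⁻¹ = (FreeGroup.of i)⁻¹ := by
    intro i
    simp [θ, Λ]
  have hθ1 : θ 1 = 1 := by simp [θ]
  -- last entry of `act (AA j) X`
  have hlast : ∀ (j : Fin (n + 1)) (X : Fin (n + 2) → H), (fun k => π (X k)) = G →
      ∀ q, X (Fin.last (n + 1)) = Y q →
        act (AA n j.val) X (Fin.last (n + 1)) = Y (FreeGroup.of j * q) := by
    intro j X hX q hq
    rw [act_AA j.val (by omega) X (Fin.last (n + 1)), if_neg, if_pos rfl, hq, hconj]
    · congr 1
      congr 1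
      rw [map_mul, map_mul, map_inv, af5_PP_map, af5_ext_map, hX]
      exact hG2 j
    · simp only [Fin.val_last]
      omega
  have hGfix : ∀ j : Fin (n + 1), act (AA n j.val) G = G := fun j =>
    af5_AA_trivial j.val (by omega) G hG1
  have key : ∀ (X : Fin (n + 2) → H) (q : FreeGroup (Fin (n + 1))),
      (fun k => π (X k)) = G → X (Fin.last (n + 1)) = Y q →
      (fun k => π (act (FreeGroup.lift (fun i : Fin (n + 1) => AA n i.val) g) X k)) = G ∧
      act (FreeGroup.lift (fun i : Fin (n + 1) => AA n i.val) g) X (Fin.last (n + 1)) =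
        Y (θ g * q) := by
    clear h
    induction g using FreeGroup.induction_on with
    | C1 =>
      intro X q h1 h2
      rw [map_one, act_one, hθ1, one_mul]
      exact ⟨h1, h2⟩
    | of j =>
      intro X q h1 h2
      rw [FreeGroup.lift_apply_of, hθof]
      refine ⟨?_, hlast j X h1 q h2⟩
      rw [← act_map π, h1, hGfix]
    | inv_of j _ =>
      intro X q h1 h2
      rw [map_inv, FreeGroup.lift_apply_of, hθinv]
      have h3 : (fun k => π (act (AA n j.val)⁻¹ X k)) = G := by
        rw [← act_map π, h1]
        have h4 : act (AA n j.val)⁻¹ (act (AA n j.val) G) = G := act_inv_act _ _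
        rwa [hGfix] at h4
      refine ⟨h3, ?_⟩
      set X' := act (AA n j.val)⁻¹ X with hX'
      have h5 : act (AA n j.val) X' = X := act_act_inv _ _
      have h6 := act_AA j.val (by omega) X' (Fin.last (n + 1))
      rw [h5, if_neg (by simp only [Fin.val_last]; omega), if_pos rfl, h2] at h6
      set c := (PP X' (j.val + 1))⁻¹ * ext X' j.val * PP X' (j.val + 1) with hc
      have h7 : π c = FreeGroup.of j := by
        rw [hc, map_mul, map_mul, map_inv, af5_PP_map, af5_ext_map, h3]
        exact hG2 j
      have h8 : X' (Fin.last (n + 1)) = c⁻¹ * Y q * c := by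
        rw [h6]
        group
      have h9 := hconj c⁻¹ q
      rw [inv_inv, map_inv, h7] at h9
      rw [h8, h9]
    | mul a b ha hb =>
      intro X q h1 h2
      obtain ⟨h3, h4⟩ := ha X q h1 h2
      obtain ⟨h5, h6⟩ := hb _ _ h3 h4
      rw [map_mul, act_mul, hθmul, mul_assoc]
      exact ⟨h5, h6⟩
  -- the tuple
  let X : Fin (n + 2) → H := Function.update (fun k => σ (G k)) (Fin.last (n + 1)) (Y 1)
  have hX1 : (fun k => π (X k)) = G := by
    funext k
    by_cases hk : k = Fin.last (n + 1)
    · subst hk
      simp only [X, Function.update_self, hY, hG1]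
    · simp only [X, Function.update_of_ne hk, hσ]
  have hX2 : X (Fin.last (n + 1)) = Y 1 := by simp only [X, Function.update_self]
  obtain ⟨-, h2⟩ := key X 1 hX1 hX2
  rw [h H X, hX2, mul_one] at h2
  have h3 : θ g = 1 := (hYinj h2).symm
  have h4 : Λ g = 1 := by
    have : (Λ g)⁻¹ = 1 := h3
    exact inv_eq_one.mp this
  rw [← hΛΛ g, h4, map_one]

private lemma af5_act_one_tuple {H : Type*} [Group H] {n : ℕ} (b : BG n) :
    act b (fun _ => (1 : H)) = fun _ => 1 := by
  have := act_map (H := H) (1 : H →* H) b (fun _ => 1)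
  simpa using this

/-- [AF5] faithfulness of the Artin representation -/
theorem faithful : ∀ (n : ℕ) (b : BG n),
    (∀ (H : Type) [Group H] (x : Fin (n + 1) → H), act b x = x) → b = 1 := by
  intro n
  induction n with
  | zero =>
    intro b _
    obtain ⟨w, rfl⟩ := mk_surjective b
    cases w with
    | nil => rfl
    | cons a w => exact a.1.elim0
  | succ n ih =>
    intro b hb
    obtain ⟨g, k, j, hj, rfl⟩ := exists_decomposition b
    -- the permutation is trivial
    have hj1 : j = n + 1 := by
      by_contra hne
      have hjn : j ≤ n := by omega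
      let x : Fin (n + 2) → Multiplicative (ZMod 2) :=
        Pi.mulSingle (Fin.last (n + 1)) (Multiplicative.ofAdd 1)
      have hx1 : ∀ i : Fin (n + 1), x i.castSucc = 1 := fun i =>
        Pi.mulSingle_eq_of_ne (Fin.castSucc_lt_last i).ne _
      have hxl : x (Fin.last (n + 1)) = Multiplicative.ofAdd 1 := Pi.mulSingle_eq_same _ _
      have h1 := hb (Multiplicative (ZMod 2)) x
      rw [act_mul, act_mul] at h1
      have h2 : act (FreeGroup.lift (fun i : Fin (n + 1) => AA n i.val) g) x = x := by
        apply af5_lift_trivial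
        intro i
        funext l
        rw [act_AA i.val (by omega) x l]
        split_ifs with h3 h4
        · have : ext x i.val = x l := by
            have h5 : i.val < n + 1 + 1 := by omega
            simp only [ext, dif_pos h5]
            congr 1
            exact Fin.ext h3.symm
          rw [this, mul_comm, inv_mul_cancel_left]
        · rw [h4, mul_comm, inv_mul_cancel_left]
        · rfl
      have h3 : act (iota k) x = x := by
        obtain ⟨h4, h5⟩ := act_iota k x
        have h6 : (fun i : Fin (n + 1) => x i.castSucc) = fun _ => 1 := funext hx1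
        funext l
        refine Fin.lastCases ?_ (fun i => ?_) l
        · exact h5
        · rw [h4 i, h6, af5_act_one_tuple, hx1]
      rw [h2, h3] at h1
      have h4 := act_tt j (by omega) x (Fin.last (n + 1))
      rw [h1, hxl, if_neg (by simp only [Fin.val_last]; omega),
        if_neg (by simp only [Fin.val_last]; omega)] at h4
      have h5 : ext x ((Fin.last (n + 1)).val - 1) = 1 := by
        have h6 : (Fin.last (n + 1)).val - 1 = n := by simp
        have h7 : n < n + 1 + 1 := by omega
        rw [h6]
        simp only [ext, dif_pos h7]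
        exact hx1 ⟨n, by omega⟩
      rw [h5] at h4
      exact absurd h4 (by decide)
    subst hj1
    rw [tt_last, mul_one] at hb ⊢
    have hu : ∀ (H : Type) [Group H] (x : Fin (n + 2) → H), x (Fin.last (n + 1)) = 1 →
        act (FreeGroup.lift (fun i : Fin (n + 1) => AA n i.val) g) x = x := by
      intro H _ x hx
      exact af5_lift_trivial g x fun i => af5_AA_trivial i.val (by omega) x hx
    have hk : k = 1 := by
      apply ih
      intro H _ y
      let x : Fin (n + 2) → H := Fin.snoc (α := fun _ => H) y 1
      have hxl : x (Fin.last (n + 1)) = 1 := Fin.snoc_last (α := fun _ => H) _ _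
      have hxc : (fun i : Fin (n + 1) => x i.castSucc) = y := by
        funext i
        exact Fin.snoc_castSucc (α := fun _ => H) _ _ _
      have h1 := hb H x
      rw [act_mul, hu H x hxl] at h1
      obtain ⟨h4, -⟩ := act_iota k x
      rw [hxc, h1] at h4
      funext i
      rw [← h4 i]
      exact congrFun hxc i
    subst hk
    rw [map_one, mul_one] at hb ⊢
    rw [pure_faithful g hb, map_one]

end BG

end Pool.Agent.Lib.MP_b7a6eb_gt
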