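import Pool.Agent.Lib.MP_b7a6eb_gt.Constr2

namespace Pool.Agent.Lib.MP_b7a6eb_gt

open Equiv Equiv.Perm

section
variable (m n : ℕ) (c : ℕ → Option (Fin n × Bool))

private lemma br1_stepN (v : Fin m) (hv : (c v.val).isSome = true) :
    stepN m c (v.castSucc : Fin (m + 1)).val =
      Equiv.swap ((c v.val).get hv).1.castSucc ((c v.val).get hv).1.succ := by
  obtain ⟨a, ha⟩ := Option.isSome_iff_exists.1 hv
  simp only [stepN, Fin.val_castSucc, v.isLt, if_true]
  simp only [ha, Option.get_some]

private lemma br1_step_step (k : ℕ) (j : Fin (n + 1)) : stepN m c k (stepN m c k j) = j := by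
  rw [stepN]
  split_ifs
  · rcases c k with _ | a
    · simp
    · simp
  · simp

private lemma br1_prev (k : Fin (m + 1)) (j : Fin (n + 1)) :
    (closureN m n c).prev (finRotate (m + 1) k, j) = (k, stepN m c k.val j) := by
  refine ((closureN m n c).prev_eq_iff).2 ?_
  refine Eq.trans (b := (finRotate (m + 1) k, stepN m c k.val (stepN m c k.val j))) ?_ rfl
  rw [br1_step_step]

private lemma br1_l (v : Fin m) (hv : (c v.val).isSome = true) :
    (closureN m n c).l ⟨v, hv⟩ = (v.castSucc, ((c v.val).get hv).1.castSucc) := by
  refine Eq.trans (b := (v.castSucc, if ((c v.val).get hv).2 = ((c v.val).get hv).2 then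
    ((c v.val).get hv).1.castSucc else ((c v.val).get hv).1.succ)) rfl ?_
  rw [if_pos rfl]

private lemma br1_r (v : Fin m) (hv : (c v.val).isSome = true) :
    (closureN m n c).r ⟨v, hv⟩ = (v.castSucc, ((c v.val).get hv).1.succ) := by
  refine Eq.trans (b := (v.castSucc, if (!((c v.val).get hv).2) = ((c v.val).get hv).2 then
    ((c v.val).get hv).1.castSucc else ((c v.val).get hv).1.succ)) rfl ?_
  rw [if_neg (by cases ((c v.val).get hv).2 <;> simp)]

/-- the flow in the position `j` after time `k` -/
private def br1x (φ : Fin (m + 1) × Fin (n + 1) → ℤ) (k : Fin (m + 1)) (j : Fin (n + 1)) : ℤ :=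
  φ (k, stepN m c k.val j)

private def br1V (φ : Fin (m + 1) × Fin (n + 1) → ℤ) (k : Fin (m + 1)) (a : ℕ) : ℤ :=
  ∑ j : Fin (n + 1), if a ≤ j.val then br1x m n c φ k j else 0

private lemma br1V_sub (φ : Fin (m + 1) × Fin (n + 1) → ℤ) (k : Fin (m + 1)) (j : Fin (n + 1)) :
    br1V m n c φ k j.val - br1V m n c φ k (j.val + 1) = br1x m n c φ k j := by
  rw [br1V, br1V, ← Finset.sum_sub_distrib, Finset.sum_eq_single j]
  · simp
  · intro b _ hb
    have : b.val ≠ j.val := fun h => hb (Fin.ext h)
    by_cases h1 : j.val ≤ b.val
    · rw [if_pos h1, if_pos (by omega), sub_self]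
    · rw [if_neg h1, if_neg (by omega), sub_self]
  · intro h; exact absurd (Finset.mem_univ _) h

private lemma br1_x_marker (φ : Fin (m + 1) × Fin (n + 1) → ℤ) (hφ : (closureN m n c).IsFlow φ)
    (k : Fin (m + 1)) (j : Fin (n + 1))
    (hl : (closureN m n c).lab (finRotate (m + 1) k, j) = none)
    (hs : stepN m c (finRotate (m + 1) k).val j = j) :
    br1x m n c φ (finRotate (m + 1) k) j = br1x m n c φ k j := by
  have h1 := hφ.1 _ hl
  rw [br1x, br1x, hs]
  refine h1.symm.trans ?_
  exact congrArg φ (br1_prev m n c k j)

private lemma br1_lab (k : Fin (m + 1)) (j : Fin (n + 1)) :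
    ((closureN m n c).lab (k, j) = none ∧ stepN m c k.val j = j) ∨
    ∃ (v : Fin m) (hv : (c v.val).isSome = true), k = v.castSucc ∧
      (j = ((c v.val).get hv).1.castSucc ∨ j = ((c v.val).get hv).1.succ) := by
  by_cases h : ∃ (v : Fin m) (hv : (c v.val).isSome = true), k = v.castSucc ∧
      (j = ((c v.val).get hv).1.castSucc ∨ j = ((c v.val).get hv).1.succ)
  · exact Or.inr h
  · left
    have hl : (closureN m n c).lab (k, j) = none := by
      refine ((closureN m n c).lab_eq_none).2 ?_
      rintro ⟨⟨v, hv⟩, x⟩ hx
      apply h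
      have hx1 : (v.castSucc, if x = ((c v.val).get hv).2 then
        ((c v.val).get hv).1.castSucc else ((c v.val).get hv).1.succ) = (k, j) := hx
      have hx2 := congrArg Prod.fst hx1
      have hx3 := congrArg Prod.snd hx1
      simp only at hx2 hx3
      refine ⟨v, hv, hx2.symm, ?_⟩
      split_ifs at hx3
      · exact Or.inl hx3.symm
      · exact Or.inr hx3.symm
    refine ⟨hl, ?_⟩
    by_cases hk : k.val < m
    · obtain ⟨v, rfl⟩ : ∃ v : Fin m, k = v.castSucc := ⟨⟨_, hk⟩, rfl⟩
      by_cases hv : (c v.val).isSome = true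
      · rw [br1_stepN m n c v hv]
        apply Equiv.swap_apply_of_ne_of_ne
        · intro hj
          exact h ⟨v, hv, rfl, Or.inl hj⟩
        · intro hj
          exact h ⟨v, hv, rfl, Or.inr hj⟩
      · have h0 : c v.val = none := by simpa using hv
        simp only [stepN, Fin.val_castSucc, h0]
        simp
    · rw [stepN, if_neg hk]
      rfl

/-- conservation -/
private lemma br1_cons (φ : Fin (m + 1) × Fin (n + 1) → ℤ) (hφ : (closureN m n c).IsFlow φ)
    (k : Fin (m + 1)) (a : ℕ)
    (ha : ∀ (v : Fin m) (hv : (c v.val).isSome = true), finRotate (m + 1) k = v.castSucc →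
      a ≠ ((c v.val).get hv).1.val + 1) :
    br1V m n c φ (finRotate (m + 1) k) a = br1V m n c φ k a := by
  rw [← sub_eq_zero, br1V, br1V, ← Finset.sum_sub_distrib]
  by_cases h : ∃ (v : Fin m) (hv : (c v.val).isSome = true), finRotate (m + 1) k = v.castSucc
  · obtain ⟨v, hv, hk⟩ := h
    obtain ⟨i, hi⟩ : ∃ i, i = ((c v.val).get hv).1 := ⟨_, rfl⟩
    have ha' := ha v hv hk
    rw [← hi] at ha'
    have hne : i.castSucc ≠ i.succ := (Fin.castSucc_lt_succ (i := i)).ne
    have hst : stepN m c (finRotate (m + 1) k).val = Equiv.swap i.castSucc i.succ := by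
      rw [hk, hi]; exact br1_stepN m n c v hv
    rw [Fintype.sum_eq_add i.castSucc i.succ hne]
    · have h2 := hφ.2 ⟨v, hv⟩
      have hsum : br1x m n c φ (finRotate (m + 1) k) i.castSucc +
          br1x m n c φ (finRotate (m + 1) k) i.succ = br1x m n c φ k i.castSucc +
          br1x m n c φ k i.succ := by
        rw [br1x, br1x, hst, Equiv.swap_apply_left, Equiv.swap_apply_right]
        have e1 : φ (finRotate (m + 1) k, i.castSucc) = φ ((closureN m n c).l ⟨v, hv⟩) := by
          refine congrArg φ ?_
          refine Eq.trans ?_ (br1_l m n c v hv).symm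
          rw [hk, hi]
        have e2 : φ (finRotate (m + 1) k, i.succ) = φ ((closureN m n c).r ⟨v, hv⟩) := by
          refine congrArg φ ?_
          refine Eq.trans ?_ (br1_r m n c v hv).symm
          rw [hk, hi]
        have e3 : br1x m n c φ k i.castSucc =
            φ ((closureN m n c).prev ((closureN m n c).l ⟨v, hv⟩)) := by
          refine congrArg φ ?_
          refine (br1_prev m n c k i.castSucc).symm.trans ?_
          refine congrArg _ ?_
          refine Eq.trans ?_ (br1_l m n c v hv).symm
          rw [hk, hi]
        have e4 : br1x m n c φ k i.succ =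
            φ ((closureN m n c).prev ((closureN m n c).r ⟨v, hv⟩)) := by
          refine congrArg φ ?_
          refine (br1_prev m n c k i.succ).symm.trans ?_
          refine congrArg _ ?_
          refine Eq.trans ?_ (br1_r m n c v hv).symm
          rw [hk, hi]
        rw [e1, e2, e3, e4]
        unfold Diagram.l Diagram.r
        rcases hs : (closureN m n c).sign ⟨v, hv⟩ with _ | _
        · simp only [Bool.not_false]
          linarith
        · simp only [Bool.not_true]
          linarith
      have h3 : a ≤ i.castSucc.val ↔ a ≤ i.succ.val := by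
        simp only [Fin.val_castSucc, Fin.val_succ]
        omega
      by_cases h4 : a ≤ i.castSucc.val
      · rw [if_pos h4, if_pos h4, if_pos (h3.1 h4), if_pos (h3.1 h4)]
        linarith
      · rw [if_neg h4, if_neg h4, if_neg (fun h5 => h4 (h3.2 h5)),
          if_neg (fun h5 => h4 (h3.2 h5))]
        simp
    · rintro j ⟨hj1, hj2⟩
      have h5 : br1x m n c φ (finRotate (m + 1) k) j = br1x m n c φ k j := by
        rcases br1_lab m n c (finRotate (m + 1) k) j with ⟨h6, h7⟩ | ⟨u, hu, h6, h7⟩
        · exact br1_x_marker m n c φ hφ k j h6 h7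
        · exfalso
          have : u = v := Fin.castSucc_injective _ (h6.symm.trans hk)
          subst this
          rw [← hi] at h7
          rcases h7 with h7 | h7
          · exact hj1 h7
          · exact hj2 h7
      rw [h5, sub_self]
  · apply Finset.sum_eq_zero
    intro j _
    have h5 : br1x m n c φ (finRotate (m + 1) k) j = br1x m n c φ k j := by
      rcases br1_lab m n c (finRotate (m + 1) k) j with ⟨h6, h7⟩ | ⟨u, hu, h6, h7⟩
      · exact br1_x_marker m n c φ hφ k j h6 h7
      · exact absurd ⟨u, hu, h6⟩ h
    rw [h5, sub_self]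

/-- the potential -/
private def br1U (φ : Fin (m + 1) × Fin (n + 1) → ℤ)
    (s : (Fin (m + 1) × Fin (n + 1)) × Bool) : ℤ :=
  br1V m n c φ s.1.1 ((stepN m c s.1.1.val s.1.2).val + (if s.2 = true then 0 else 1))

end

/-- [BR1] -/
theorem closureN_planar (m n : ℕ) (c : ℕ → Option (Fin n × Bool)) :
    (closureN m n c).Planar := by
  intro φ hφ
  refine ⟨br1U m n c φ, ?_, ?_⟩
  · have hprev : ∀ (k : Fin (m + 1)) (j : Fin (n + 1)) (s : Bool),
        br1U m n c φ ((closureN m n c).prev (finRotate (m + 1) k, j), s) =
          br1V m n c φ k (j.val + (if s = true then 0 else 1)) := by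
      intro k j s
      refine (congrArg (fun p => br1U m n c φ (p, s)) (br1_prev m n c k j)).trans ?_
      simp only [br1U, br1_step_step]
    have hrot : ∀ k' : Fin (m + 1), ∃ k, finRotate (m + 1) k = k' := fun k' =>
      (finRotate _).surjective k'
    have key : ∀ (v : Fin m) (hv : (c v.val).isSome = true) (k : Fin (m + 1)),
        finRotate (m + 1) k = v.castSucc → ∀ a, a ≠ ((c v.val).get hv).1.val + 1 →
        br1V m n c φ v.castSucc a = br1V m n c φ k a := by
      intro v hv k hk a ha
      rw [← hk]
      refine br1_cons m n c φ hφ k a ?_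
      intro u hu hk'
      have : u = v := Fin.castSucc_injective _ (hk'.symm.trans hk)
      subst this
      exact ha
    have hl : ∀ (v : Fin m) (hv : (c v.val).isSome = true) (s : Bool),
        br1U m n c φ ((closureN m n c).l ⟨v, hv⟩, s) =
          br1V m n c φ v.castSucc (((c v.val).get hv).1.val + 1 + (if s = true then 0 else 1)) := by
      intro v hv s
      refine (congrArg (fun p => br1U m n c φ (p, s)) (br1_l m n c v hv)).trans ?_
      simp only [br1U]
      rw [br1_stepN m n c v hv, Equiv.swap_apply_left, Fin.val_succ]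
    have hr : ∀ (v : Fin m) (hv : (c v.val).isSome = true) (s : Bool),
        br1U m n c φ ((closureN m n c).r ⟨v, hv⟩, s) =
          br1V m n c φ v.castSucc (((c v.val).get hv).1.val + (if s = true then 0 else 1)) := by
      intro v hv s
      refine (congrArg (fun p => br1U m n c φ (p, s)) (br1_r m n c v hv)).trans ?_
      simp only [br1U]
      rw [br1_stepN m n c v hv, Equiv.swap_apply_right, Fin.val_castSucc]
    have hpl : ∀ (v : Fin m) (hv : (c v.val).isSome = true) (k : Fin (m + 1)),
        finRotate (m + 1) k = v.castSucc → ∀ (s : Bool),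
        br1U m n c φ ((closureN m n c).prev ((closureN m n c).l ⟨v, hv⟩), s) =
          br1V m n c φ k (((c v.val).get hv).1.val + (if s = true then 0 else 1)) := by
      intro v hv k hk s
      refine Eq.trans ?_ (hprev k ((c v.val).get hv).1.castSucc s)
      refine congrArg (fun p => br1U m n c φ ((closureN m n c).prev p, s)) ?_
      refine (br1_l m n c v hv).trans ?_
      rw [hk]
    have hpr : ∀ (v : Fin m) (hv : (c v.val).isSome = true) (k : Fin (m + 1)),
        finRotate (m + 1) k = v.castSucc → ∀ (s : Bool),
        br1U m n c φ ((closureN m n c).prev ((closureN m n c).r ⟨v, hv⟩), s) =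
          br1V m n c φ k (((c v.val).get hv).1.val + 1 + (if s = true then 0 else 1)) := by
      intro v hv k hk s
      refine Eq.trans ?_ (hprev k ((c v.val).get hv).1.succ s)
      refine congrArg (fun p => br1U m n c φ ((closureN m n c).prev p, s)) ?_
      refine (br1_r m n c v hv).trans ?_
      rw [hk]
    have hmark : ∀ (k : Fin (m + 1)) (j : Fin (n + 1)) (s : Bool),
        (closureN m n c).lab (finRotate (m + 1) k, j) = none →
        br1U m n c φ ((finRotate (m + 1) k, j), s) =
          br1V m n c φ k (j.val + (if s = true then 0 else 1)) := by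
      intro k j s hlab
      rcases br1_lab m n c (finRotate (m + 1) k) j with ⟨h6, h7⟩ | ⟨u, hu, h6, h7⟩
      · simp only [br1U]
        rw [h7]
        refine br1_cons m n c φ hφ k _ ?_
        intro v hv hk hcon
        have hj1 : j ≠ ((c v.val).get hv).1.castSucc := by
          intro hj
          have h8 := (closureN m n c).lab_l ⟨v, hv⟩
          have h9 : (closureN m n c).l ⟨v, hv⟩ = (finRotate (m + 1) k, j) :=
            (br1_l m n c v hv).trans (by rw [hk, hj])
          rw [h9] at h8
          rw [h8] at hlab
          exact absurd hlab (by simp)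
        have hj2 : j ≠ ((c v.val).get hv).1.succ := by
          intro hj
          have h8 := (closureN m n c).lab_r ⟨v, hv⟩
          have h9 : (closureN m n c).r ⟨v, hv⟩ = (finRotate (m + 1) k, j) :=
            (br1_r m n c v hv).trans (by rw [hk, hj])
          rw [h9] at h8
          rw [h8] at hlab
          exact absurd hlab (by simp)
        have hj1' : j.val ≠ ((c v.val).get hv).1.val := fun h => hj1 (Fin.ext h)
        have hj2' : j.val ≠ ((c v.val).get hv).1.val + 1 := fun h => hj2 (Fin.ext h)
        split_ifs at hcon <;> omega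
      · exfalso
        rcases h7 with h7 | h7
        · have h8 := (closureN m n c).lab_l ⟨u, hu⟩
          have h9 : (closureN m n c).l ⟨u, hu⟩ = (finRotate (m + 1) k, j) :=
            (br1_l m n c u hu).trans (by rw [h6, h7])
          rw [h9] at h8
          rw [h8] at hlab
          exact absurd hlab (by simp)
        · have h8 := (closureN m n c).lab_r ⟨u, hu⟩
          have h9 : (closureN m n c).r ⟨u, hu⟩ = (finRotate (m + 1) k, j) :=
            (br1_r m n c u hu).trans (by rw [h6, h7])
          rw [h9] at h8
          rw [h8] at hlab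
          exact absurd hlab (by simp)
    rintro ⟨p, s⟩
    cases s
    · rcases (closureN m n c).point_cases ((closureN m n c).next p) with h | ⟨⟨v, hv⟩, h⟩ |
        ⟨⟨v, hv⟩, h⟩
      · refine (congrArg (br1U m n c φ) ((closureN m n c).face_false_marker h)).trans ?_
        obtain ⟨k, j⟩ : Fin (m + 1) × Fin (n + 1) := p
        exact hmark k (stepN m c k.val j) false h
      · have h' : p = (closureN m n c).prev ((closureN m n c).l ⟨v, hv⟩) := by rw [← h]; simp
        subst h'
        obtain ⟨k, hk⟩ := hrot v.castSucc
        refine (congrArg (br1U m n c φ) ((closureN m n c).face_S ⟨v, hv⟩)).trans ?_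
        refine (hpr v hv k hk true).trans (Eq.trans ?_ (hpl v hv k hk false).symm)
        simp
      · have h' : p = (closureN m n c).prev ((closureN m n c).r ⟨v, hv⟩) := by rw [← h]; simp
        subst h'
        obtain ⟨k, hk⟩ := hrot v.castSucc
        refine (congrArg (br1U m n c φ) ((closureN m n c).face_E ⟨v, hv⟩)).trans ?_
        refine (hl v hv false).trans (Eq.trans ?_ (hpr v hv k hk false).symm)
        exact key v hv k hk _ (by simp)
    · rcases (closureN m n c).point_cases p with h | ⟨⟨v, hv⟩, h⟩ | ⟨⟨v, hv⟩, h⟩
      · refine (congrArg (br1U m n c φ) ((closureN m n c).face_true_marker h)).trans ?_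
        obtain ⟨k', j⟩ : Fin (m + 1) × Fin (n + 1) := p
        obtain ⟨k, rfl⟩ := hrot k'
        exact (hprev k j true).trans (hmark k j true h).symm
      · subst h
        refine (congrArg (br1U m n c φ) ((closureN m n c).face_N ⟨v, hv⟩)).trans ?_
        refine (hr v hv false).trans (Eq.trans ?_ (hl v hv true).symm)
        simp
      · subst h
        obtain ⟨k, hk⟩ := hrot v.castSucc
        refine (congrArg (br1U m n c φ) ((closureN m n c).face_W ⟨v, hv⟩)).trans ?_
        refine (hpl v hv k hk true).trans (Eq.trans ?_ (hr v hv true).symm)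
        exact (key v hv k hk _ (by simp)).symm
  · rintro ⟨k, j⟩
    have h1 := br1V_sub m n c φ k (stepN m c k.val j)
    refine Eq.trans (b := br1x m n c φ k (stepN m c k.val j)) ?_ ?_
    · refine Eq.trans ?_ h1
      simp [br1U]
    · exact congrArg (fun i => φ (k, i)) (br1_step_step m n c k.val j)

end Pool.Agent.Lib.MP_b7a6eb_gt
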