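import Pool.Agent.Lib.MP_b7a6eb_gt.Defs

/-! Braid words, their action on tuples of group elements, the braid group. -/

namespace Pool.Agent.Lib.MP_b7a6eb_gt

open Equiv Equiv.Perm

section Braid

variable {n : ℕ}

/-- action of a letter on tuples of group elements -/
def actLetter {H : Type*} [Group H] (a : Fin n × Bool) (x : Fin (n + 1) → H) :
    Fin (n + 1) → H := fun j =>
  if j = a.1.castSucc then
    (if a.2 = true then x a.1.castSucc * x a.1.succ * (x a.1.castSucc)⁻¹ else x a.1.succ)
  else if j = a.1.succ then
    (if a.2 = true then x a.1.castSucc else (x a.1.succ)⁻¹ * x a.1.castSucc * x a.1.succ)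
  else x j

/-- action of a braid word (the first letter acts first) -/
def actWord {H : Type*} [Group H] (w : Word n) (x : Fin (n + 1) → H) : Fin (n + 1) → H :=
  w.foldl (fun y a => actLetter a y) x

@[simp] lemma actWord_nil {H : Type*} [Group H] (x : Fin (n + 1) → H) :
    actWord ([] : Word n) x = x := rfl

@[simp] lemma actWord_cons {H : Type*} [Group H] (a : Fin n × Bool) (w : Word n)
    (x : Fin (n + 1) → H) : actWord (a :: w) x = actWord w (actLetter a x) := rfl

lemma actWord_append {H : Type*} [Group H] (u v : Word n) (x : Fin (n + 1) → H) :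
    actWord (u ++ v) x = actWord v (actWord u x) := by
  simp [actWord]

/-- remove the letters at the positions satisfying `Y` -/
noncomputable def dropM : Word n → (ℕ → Prop) → Word n
  | [], _ => []
  | a :: w, Y => open Classical in
    if Y 0 then dropM w (fun k => Y (k + 1)) else a :: dropM w (fun k => Y (k + 1))

/-- elementary relations between braid words -/
inductive BRel : Word n → Word n → Prop
  | cancel (i : Fin n) (s : Bool) : BRel [(i, s), (i, !s)] []
  | comm (i j : Fin n) (s t : Bool) (h : i.val + 1 < j.val ∨ j.val + 1 < i.val) :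
      BRel [(i, s), (j, t)] [(j, t), (i, s)]
  | braid (i j : Fin n) (h : i.val + 1 = j.val) :
      BRel [(i, true), (j, true), (i, true)] [(j, true), (i, true), (j, true)]

/-- equality in the braid group -/
def BraidEq (w w' : Word n) : Prop :=
  Relation.EqvGen (fun u v => ∃ x y s t : Word n, BRel s t ∧ u = x ++ s ++ y ∧ v = x ++ t ++ y) w w'

lemma BraidEq.refl (w : Word n) : BraidEq w w := Relation.EqvGen.refl w
lemma BraidEq.symm {u v : Word n} (h : BraidEq u v) : BraidEq v u := Relation.EqvGen.symm _ _ h
lemma BraidEq.trans {u v w : Word n} (h : BraidEq u v) (h' : BraidEq v w) : BraidEq u w :=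
  Relation.EqvGen.trans _ _ _ h h'

lemma BraidEq.of_rel {s t : Word n} (h : BRel s t) : BraidEq s t :=
  Relation.EqvGen.rel _ _ ⟨[], [], s, t, h, by simp, by simp⟩

lemma BraidEq.context (a b : Word n) {u v : Word n} (h : BraidEq u v) :
    BraidEq (a ++ u ++ b) (a ++ v ++ b) := by
  induction h with
  | rel u v h =>
    obtain ⟨x, y, s, t, h1, rfl, rfl⟩ := h
    exact Relation.EqvGen.rel _ _ ⟨a ++ x, y ++ b, s, t, h1, by simp, by simp⟩
  | refl => exact Relation.EqvGen.refl _
  | symm _ _ _ ih => exact ih.symm
  | trans _ _ _ _ _ ih1 ih2 => exact ih1.trans ih2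

lemma BraidEq.append {u v u' v' : Word n} (h : BraidEq u v) (h' : BraidEq u' v') :
    BraidEq (u ++ u') (v ++ v') := by
  have h1 := h.context [] u'
  have h2 := h'.context v []
  simp only [List.nil_append, List.append_nil] at h1 h2
  exact h1.trans h2

@[simp] lemma invWord_nil : invWord ([] : Word n) = [] := rfl

lemma invWord_cons (a : Fin n × Bool) (w : Word n) :
    invWord (a :: w) = invWord w ++ [(a.1, !a.2)] := by
  simp [invWord]

lemma invWord_append (u v : Word n) : invWord (u ++ v) = invWord v ++ invWord u := by
  simp [invWord]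

@[simp] lemma invWord_invWord (u : Word n) : invWord (invWord u) = u := by
  induction u with
  | nil => rfl
  | cons a w ih => rw [invWord_cons, invWord_append, ih]; simp [invWord]

lemma BraidEq.self_append_inv (u : Word n) : BraidEq (u ++ invWord u) [] := by
  induction u with
  | nil => exact BraidEq.refl _
  | cons a w ih =>
    rw [invWord_cons]
    have h1 := ih.context [a] [(a.1, !a.2)]
    have h2 : BraidEq [a, (a.1, !a.2)] [] := BraidEq.of_rel (BRel.cancel a.1 a.2)
    simp only [List.cons_append, List.nil_append, List.append_nil, List.append_assoc] at h1 ⊢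
    exact h1.trans h2

lemma BraidEq.inv_append_self (u : Word n) : BraidEq (invWord u ++ u) [] := by
  have := BraidEq.self_append_inv (invWord u)
  rwa [invWord_invWord] at this

lemma BraidEq.inv {u v : Word n} (h : BraidEq u v) : BraidEq (invWord u) (invWord v) := by
  -- `inv u ≈ inv u · v · inv v ≈ inv u · u · inv v ≈ inv v`
  have h1 : BraidEq (invWord u) (invWord u ++ (v ++ invWord v)) := by
    have := ((BraidEq.self_append_inv v).context (invWord u) []).symm
    simpa using this
  have h2 : BraidEq (invWord u ++ (v ++ invWord v)) (invWord u ++ (u ++ invWord v)) :=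
    (BraidEq.refl _).append (h.symm.append (BraidEq.refl _))
  have h3 : BraidEq (invWord u ++ (u ++ invWord v)) (invWord v) := by
    have := (BraidEq.inv_append_self u).context [] (invWord v)
    simpa using this
  exact h1.trans (h2.trans h3)

/-- equality in the braid group as a setoid -/
def braidSetoid (n : ℕ) : Setoid (Word n) := ⟨BraidEq, BraidEq.refl, BraidEq.symm, BraidEq.trans⟩

/-- the braid group on `n + 1` strands -/
def BG (n : ℕ) : Type := Quotient (braidSetoid n)

namespace BG

/-- the braid of a word -/
def mk (w : Word n) : BG n := Quotient.mk (braidSetoid n) w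

lemma mk_eq_iff {u v : Word n} : mk u = mk v ↔ BraidEq u v :=
  ⟨fun h => Quotient.exact h, fun h => Quotient.sound h⟩

instance : Group (BG n) where
  mul := Quotient.map₂ (fun u v : Word n => u ++ v) (fun _ _ h _ _ h' => BraidEq.append h h')
  one := mk []
  inv := Quotient.map invWord (fun _ _ h => BraidEq.inv h)
  mul_assoc := by
    rintro ⟨a⟩ ⟨b⟩ ⟨c⟩
    exact congrArg mk (List.append_assoc a b c)
  one_mul := by
    rintro ⟨a⟩
    exact congrArg mk (List.nil_append a)
  mul_one := by
    rintro ⟨a⟩
    exact congrArg mk (List.append_nil a)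
  inv_mul_cancel := by
    rintro ⟨a⟩
    exact Quotient.sound (BraidEq.inv_append_self a)

lemma mk_append (u v : Word n) : mk (u ++ v) = mk u * mk v := rfl
@[simp] lemma mk_nil : mk ([] : Word n) = 1 := rfl
lemma mk_inv (u : Word n) : mk (invWord u) = (mk u)⁻¹ := rfl

/-- the standard generators -/
def s (i : Fin n) : BG n := mk [(i, true)]

lemma mk_false (i : Fin n) : mk [(i, false)] = (s i)⁻¹ := rfl

lemma mk_cons (a : Fin n × Bool) (w : Word n) :
    mk (a :: w) = (if a.2 = true then s a.1 else (s a.1)⁻¹) * mk w := by
  rw [show a :: w = [a] ++ w from rfl, mk_append]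
  obtain ⟨i, b⟩ := a
  cases b <;> rfl

lemma mk_surjective : Function.Surjective (mk : Word n → BG n) := Quotient.mk_surjective

lemma s_comm {i j : Fin n} (h : i.val + 1 < j.val) : s i * s j = s j * s i :=
  Quotient.sound (BraidEq.of_rel (BRel.comm i j true true (Or.inl h)))

lemma s_braid {i j : Fin n} (h : i.val + 1 = j.val) : s i * s j * s i = s j * s i * s j :=
  Quotient.sound (BraidEq.of_rel (BRel.braid i j h))

end BG

end Braid

end Pool.Agent.Lib.MP_b7a6eb_gt
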