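import Pool.Agent.Lib.MP_b7a6eb_gt.Basic
import Pool.Agent.Lib.MP_b7a6eb_gt.Braid

namespace Pool.Agent.Lib.MP_b7a6eb_gt

open Equiv Equiv.Perm

private lemma br2_dropM_append {n : ℕ} (u v : Word n) : ∀ (Y : ℕ → Prop),
    dropM (u ++ v) Y = dropM u Y ++ dropM v (fun k => Y (u.length + k)) := by
  induction u with
  | nil => intro Y; simp [dropM]
  | cons a u ih =>
    intro Y
    have e : (fun k => Y ((a :: u).length + k)) = fun k => (fun k => Y (k + 1)) (u.length + k) := by
      funext k
      simp only [List.length_cons]
      congr 1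
      omega
    rw [List.cons_append, dropM, dropM, e]
    by_cases h : Y 0
    · rw [if_pos h, if_pos h, ih]
    · rw [if_neg h, if_neg h, ih, List.cons_append]

section

variable {n : ℕ} {H : Type} [Group H] (w : Word n) (Y : ℕ → Prop)

/-- state before time `k` -/
private noncomputable def br2z (k : ℕ) (x : Fin (n + 1) → H) : Fin (n + 1) → H :=
  actWord (dropM (w.take k) Y) x

open Classical in
private noncomputable def br2T (k : ℕ) (x : Fin (n + 1) → H) : Fin (n + 1) → H :=
  if h : k < w.length then (if Y k then x else actLetter (w[k]) x) else x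

private lemma br2z_zero (x : Fin (n + 1) → H) : br2z w Y 0 x = x := by
  simp [br2z, dropM]

private lemma br2z_succ (k : ℕ) (x : Fin (n + 1) → H) :
    br2z w Y (k + 1) x = br2T w Y k (br2z w Y k x) := by
  by_cases h : k < w.length
  · rw [br2z, br2T, dif_pos h, List.take_succ_eq_append_getElem h, br2_dropM_append,
      actWord_append]
    have hl : (w.take k).length = k := by simp; omega
    rw [hl]
    by_cases hY : Y k
    · rw [if_pos hY, dropM, if_pos (by simpa using hY)]
      simp [dropM, br2z]
    · rw [if_neg hY, dropM, if_neg (by simpa using hY)]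
      simp [dropM, br2z]
  · rw [br2T, dif_neg h, br2z, br2z, List.take_of_length_le (by omega),
      List.take_of_length_le (by omega)]

private lemma br2z_last (k : ℕ) (hk : w.length ≤ k) (x : Fin (n + 1) → H) :
    br2z w Y k x = actWord (dropM w Y) x := by
  rw [br2z, List.take_of_length_le hk]

end

private lemma br2_step {n : ℕ} (w : Word n) (v : Fin w.length) :
    stepPerm w v.castSucc = Equiv.swap (w.get v).1.castSucc (w.get v).1.succ := by
  have h : (v.castSucc : Fin (w.length + 1)).val < w.length := by simp
  rw [stepPerm, dif_pos h]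
  rfl

private lemma br2_step_step {n : ℕ} (w : Word n) (k : Fin (w.length + 1)) (j : Fin (n + 1)) :
    stepPerm w k (stepPerm w k j) = j := by
  rw [stepPerm]
  split_ifs
  · simp
  · simp

private lemma br2_prev {n : ℕ} (w : Word n) (k : Fin (w.length + 1)) (j : Fin (n + 1)) :
    (closure n w).prev (finRotate (w.length + 1) k, j) = (k, stepPerm w k j) := by
  refine ((closure n w).prev_eq_iff).2 ?_
  refine Eq.trans (b := (finRotate (w.length + 1) k, stepPerm w k (stepPerm w k j))) ?_ rfl
  rw [br2_step_step]

private lemma br2_v {n : ℕ} {H : Type} [Group H] (w : Word n) (Y : ℕ → Prop)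
    (c : Fin (w.length + 1) × Fin (n + 1) → H) (v : Fin w.length) (k : Fin (w.length + 1))
    (hk : finRotate _ k = v.castSucc) :
    ((Y v.val → ∀ x, c ((closure n w).cr (v, x)) =
        c ((closure n w).prev ((closure n w).cr (v, !x)))) ∧
      (¬ Y v.val → c ((closure n w).cr (v, true)) =
        c ((closure n w).prev ((closure n w).cr (v, true))) ∧
        c ((closure n w).cr (v, false)) = if (closure n w).sign v = true then
      c ((closure n w).cr (v, true)) * c ((closure n w).prev ((closure n w).cr (v, false))) *
        (c ((closure n w).cr (v, true)))⁻¹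
      else (c ((closure n w).cr (v, true)))⁻¹ * c ((closure n w).prev ((closure n w).cr (v, false)))
        * c ((closure n w).cr (v, true)))) ↔
    (c (v.castSucc, (w.get v).1.succ) =
        br2T w Y v.val (fun j => c (k, stepPerm w k j)) (w.get v).1.castSucc ∧
      c (v.castSucc, (w.get v).1.castSucc) =
        br2T w Y v.val (fun j => c (k, stepPerm w k j)) (w.get v).1.succ) := by
  have hne : (w.get v).1.succ ≠ (w.get v).1.castSucc :=
    (Fin.castSucc_lt_succ (i := (w.get v).1)).ne'
  have hp : ∀ j, c ((closure n w).prev (v.castSucc, j)) = c (k, stepPerm w k j) := fun j =>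
    congrArg c (hk ▸ br2_prev w k j)
  have hcr : ∀ x : Bool, (closure n w).cr (v, x) =
      (v.castSucc, if x = (w.get v).2 then (w.get v).1.castSucc else (w.get v).1.succ) :=
    fun x => rfl
  have hsg : (closure n w).sign v = (w.get v).2 := rfl
  have hc : ∀ x : Bool, c ((closure n w).cr (v, x)) =
      c (v.castSucc, if x = (w.get v).2 then (w.get v).1.castSucc else (w.get v).1.succ) :=
    fun x => rfl
  have hpc : ∀ x : Bool, c ((closure n w).prev ((closure n w).cr (v, x))) =
      c (k, stepPerm w k (if x = (w.get v).2 then (w.get v).1.castSucc else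
        (w.get v).1.succ)) := fun x => hp _
  rw [hsg]
  simp only [hc, hpc]
  obtain ⟨Z, hZ⟩ : ∃ Z : Fin (n + 1) → H, Z = fun j => c (k, stepPerm w k j) := ⟨_, rfl⟩
  have hZ' : ∀ j, c (k, stepPerm w k j) = Z j := fun j => (congrFun hZ j).symm
  simp only [hZ']
  have hT1 : Y v.val → br2T w Y v.val Z = Z := by
    intro h
    rw [br2T, dif_pos v.isLt, if_pos h]
  have hT2 : ¬ Y v.val → br2T w Y v.val Z = actLetter (w.get v) Z := by
    intro h
    rw [br2T, dif_pos v.isLt, if_neg h]
    rfl
  by_cases hY : Y v.val
  · rw [hT1 hY]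
    simp only [hY, not_true, false_imp_iff, true_imp_iff, and_true]
    constructor
    · intro h
      have h1 := h (w.get v).2
      have h2 := h (!(w.get v).2)
      have hnb : (!(w.get v).2) ≠ (w.get v).2 := by cases (w.get v).2 <;> simp
      rw [if_pos rfl, if_neg hnb] at h1
      rw [Bool.not_not, if_pos rfl, if_neg hnb] at h2
      exact ⟨h2, h1⟩
    · rintro ⟨h1, h2⟩ x
      by_cases hx : x = (w.get v).2
      · have hx2 : (!x) ≠ (w.get v).2 := by rw [← hx]; cases x <;> simp
        rw [if_pos hx, if_neg hx2]
        exact h2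
      · have hx2 : (!x) = (w.get v).2 := by
          revert hx; cases x <;> cases (w.get v).2 <;> simp
        rw [if_neg hx, if_pos hx2]
        exact h1
  · rw [hT2 hY]
    simp only [hY, not_false_iff, false_imp_iff, true_imp_iff, true_and]
    have e1 : actLetter (w.get v) Z (w.get v).1.castSucc = if (w.get v).2 = true then
        Z (w.get v).1.castSucc * Z (w.get v).1.succ * (Z (w.get v).1.castSucc)⁻¹
        else Z (w.get v).1.succ := by
      simp [actLetter]
    have e2 : actLetter (w.get v) Z (w.get v).1.succ = if (w.get v).2 = true then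
        Z (w.get v).1.castSucc else
        (Z (w.get v).1.succ)⁻¹ * Z (w.get v).1.castSucc * Z (w.get v).1.succ := by
      rw [actLetter, if_neg hne, if_pos rfl]
    rw [e1, e2]
    cases hs : (w.get v).2
    · simp only [Bool.false_eq_true, if_true, if_false, Bool.true_eq_false]
      constructor
      · rintro ⟨h1, h2⟩
        rw [h1] at h2
        exact ⟨h1, h2⟩
      · rintro ⟨h1, h2⟩
        rw [h1]
        exact ⟨rfl, h2⟩
    · simp only [if_true, if_false, Bool.false_eq_true]
      constructor
      · rintro ⟨h1, h2⟩
        rw [h1] at h2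
        exact ⟨h2, h1⟩
      · rintro ⟨h1, h2⟩
        rw [h2]
        exact ⟨rfl, h1⟩

/-- the local condition at time `k`, `X` = state after time `k`, `Z` state before -/
private lemma br2_local {n : ℕ} {H : Type} [Group H] (w : Word n) (Y : ℕ → Prop)
    (c : Fin (w.length + 1) × Fin (n + 1) → H) :
    (closure n w).IsCol {k : Fin w.length | Y k.val} c ↔
      ∀ k : Fin (w.length + 1), (fun j => c (finRotate _ k, stepPerm w (finRotate _ k) j)) =
        br2T w Y (finRotate _ k).val (fun j => c (k, stepPerm w k j)) := by
  have hp : ∀ k j, c ((closure n w).prev (finRotate _ k, j)) = c (k, stepPerm w k j) :=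
    fun k j => congrArg c (br2_prev w k j)
  have hother : ∀ (v : Fin w.length) (Z : Fin (n + 1) → H) (j : Fin (n + 1)),
      j ≠ (w.get v).1.castSucc → j ≠ (w.get v).1.succ → br2T w Y v.val Z j = Z j := by
    intro v Z j h1 h2
    rw [br2T, dif_pos v.isLt]
    split_ifs
    · rfl
    · change actLetter (w.get v) Z j = Z j
      rw [actLetter, if_neg h1, if_neg h2]
  have hlab : ∀ p : Fin (w.length + 1) × Fin (n + 1), (closure n w).lab p = none ↔
      ∀ (v : Fin w.length) (x : Bool), ((v.castSucc, if x = (w.get v).2 then
        (w.get v).1.castSucc else (w.get v).1.succ) : Fin (w.length + 1) × Fin (n + 1)) ≠ p :=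
    fun p => ((closure n w).lab_eq_none).trans ⟨fun h v x => h (v, x), fun h x => h x.1 x.2⟩
  have hlab1 : ∀ (v : Fin w.length) (j : Fin (n + 1)), j ≠ (w.get v).1.castSucc →
      j ≠ (w.get v).1.succ → (closure n w).lab (v.castSucc, j) = none := by
    intro v j h1 h2
    refine (hlab _).2 ?_
    intro u x hu
    have hu1 := congrArg Prod.fst hu
    have hu2 := congrArg Prod.snd hu
    simp only at hu1 hu2
    have : u = v := Fin.castSucc_injective _ hu1
    subst this
    split_ifs at hu2
    · exact h1 hu2.symm
    · exact h2 hu2.symm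
  have hlab2 : ∀ (k : Fin (w.length + 1)) (j : Fin (n + 1)), ¬ k.val < w.length →
      (closure n w).lab (k, j) = none := by
    intro k j hk
    refine (hlab _).2 ?_
    intro u x hu
    have hu1 := congrArg Fin.val (congrArg Prod.fst hu)
    simp only [Fin.val_castSucc] at hu1
    exact hk (hu1 ▸ u.isLt)
  constructor
  · rintro ⟨h1, h2, h3⟩ k
    by_cases hk : (finRotate _ k).val < w.length
    · obtain ⟨v, hv⟩ : ∃ v : Fin w.length, finRotate _ k = v.castSucc := ⟨⟨_, hk⟩, rfl⟩
      have h4 := (br2_v w Y c v k hv).1 ⟨fun h => h2 v h, fun h => h3 v h⟩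
      rw [hv]
      funext j
      rw [br2_step]
      by_cases hj1 : j = (w.get v).1.castSucc
      · rw [hj1, Equiv.swap_apply_left]
        exact h4.1
      · by_cases hj2 : j = (w.get v).1.succ
        · rw [hj2, Equiv.swap_apply_right]
          exact h4.2
        · rw [Equiv.swap_apply_of_ne_of_ne hj1 hj2]
          refine Eq.trans ?_ (hother v _ j hj1 hj2).symm
          have h5 := h1 (v.castSucc, j) (hlab1 v j hj1 hj2)
          rw [h5, ← hv]
          exact hp k j
    · have hT : ∀ Z : Fin (n + 1) → H, br2T w Y (finRotate _ k).val Z = Z := by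
        intro Z
        rw [br2T, dif_neg hk]
      rw [hT]
      funext j
      have : stepPerm w (finRotate _ k) = 1 := by rw [stepPerm, dif_neg hk]
      rw [this, Perm.one_apply]
      have h5 := h1 (finRotate _ k, j) (hlab2 _ j hk)
      rw [h5]
      exact hp k j
  · intro h
    have hrot : ∀ k' : Fin (w.length + 1), ∃ k, finRotate _ k = k' := fun k' =>
      (finRotate _).surjective k'
    choose κ hκ using hrot
    have h4' : ∀ v : Fin w.length, c (v.castSucc, (w.get v).1.succ) =
        br2T w Y v.val (fun j => c (κ v.castSucc, stepPerm w (κ v.castSucc) j))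
          (w.get v).1.castSucc ∧
      c (v.castSucc, (w.get v).1.castSucc) =
        br2T w Y v.val (fun j => c (κ v.castSucc, stepPerm w (κ v.castSucc) j))
          (w.get v).1.succ := by
      intro v
      have h5 := h (κ v.castSucc)
      rw [hκ v.castSucc] at h5
      have h6 := congrFun h5 (w.get v).1.castSucc
      have h7 := congrFun h5 (w.get v).1.succ
      simp only [br2_step, Equiv.swap_apply_left, Equiv.swap_apply_right] at h6 h7
      exact ⟨h6, h7⟩
    have h4 := fun v => (br2_v w Y c v (κ v.castSucc) (hκ _)).2 (h4' v)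
    refine ⟨?_, fun v hv x => (h4 v).1 hv x, fun v hv => (h4 v).2 hv⟩
    rintro ⟨k', j⟩ hl
    obtain ⟨k, rfl⟩ : ∃ k, finRotate _ k = k' := ⟨κ k', hκ k'⟩
    refine Eq.trans ?_ (hp k j).symm
    have h5 := h k
    by_cases hk : (finRotate _ k).val < w.length
    · obtain ⟨v, hv⟩ : ∃ v : Fin w.length, finRotate _ k = v.castSucc := ⟨⟨_, hk⟩, rfl⟩
      rw [hv] at h5 hl ⊢
      have hl' := (hlab (v.castSucc, j)).1 hl v
      have hj1 : j ≠ (w.get v).1.castSucc := by
        intro hj
        apply hl' (w.get v).2
        rw [if_pos rfl, hj]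
      have hj2 : j ≠ (w.get v).1.succ := by
        intro hj
        apply hl' (!(w.get v).2)
        rw [if_neg (by cases (w.get v).2 <;> simp), hj]
      have h6 := congrFun h5 j
      rw [br2_step, Equiv.swap_apply_of_ne_of_ne hj1 hj2] at h6
      exact h6.trans (hother v _ j hj1 hj2)
    · have hT : ∀ Z : Fin (n + 1) → H, br2T w Y (finRotate _ k).val Z = Z := by
        intro Z
        rw [br2T, dif_neg hk]
      rw [hT] at h5
      have h6 := congrFun h5 j
      have : stepPerm w (finRotate _ k) = 1 := by rw [stepPerm, dif_neg hk]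
      rw [this, Perm.one_apply] at h6
      exact h6

/-- [BR2] -/
theorem closure_ncol {n : ℕ} (w : Word n) (Y : ℕ → Prop) (H : Type) [Group H] :
    (closure n w).ncol {k : Fin w.length | Y k.val} H =
      Nat.card {x : Fin (n + 1) → H // actWord (dropM w Y) x = x} := by
  have hlast : stepPerm w (Fin.last w.length) = 1 := by
    rw [stepPerm, dif_neg (by simp)]
  have hrl : finRotate (w.length + 1) (Fin.last w.length) = 0 := by
    rw [finRotate_last]
  have hrc : ∀ (k : ℕ) (hk : k < w.length), finRotate (w.length + 1) ⟨k, by omega⟩ =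
      ⟨k + 1, by omega⟩ := by
    intro k hk
    rw [finRotate_apply]
    apply Fin.ext
    rw [Fin.val_add_one_of_lt']
    simpa using hk
  -- forward recursion
  have hrec : ∀ c : Fin (w.length + 1) × Fin (n + 1) → H,
      (closure n w).IsCol {k : Fin w.length | Y k.val} c →
      ∀ (k : ℕ) (hk : k < w.length + 1), (fun j => c (⟨k, hk⟩, stepPerm w ⟨k, hk⟩ j)) =
        br2z w Y (k + 1) (fun j => c (Fin.last w.length, j)) := by
    intro c hc k
    rw [br2_local] at hc
    induction k with
    | zero =>
      intro hk
      have h1 := hc (Fin.last w.length)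
      rw [hrl, hlast] at h1
      rw [br2z_succ, br2z_zero]
      exact h1
    | succ k ih =>
      intro hk
      have h1 := hc ⟨k, by omega⟩
      rw [hrc k (by omega), ih (by omega)] at h1
      rw [br2z_succ]
      exact h1
  have hfix : ∀ c : Fin (w.length + 1) × Fin (n + 1) → H,
      (closure n w).IsCol {k : Fin w.length | Y k.val} c →
      actWord (dropM w Y) (fun j => c (Fin.last w.length, j)) =
        (fun j => c (Fin.last w.length, j)) := by
    intro c hc
    have h1 := hrec c hc w.length (by omega)
    rw [br2z_last w Y _ (by omega)] at h1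
    rw [← h1]
    funext j
    have : stepPerm w ⟨w.length, by omega⟩ = 1 := hlast
    rw [this]
    rfl
  have hcol : ∀ x : Fin (n + 1) → H, actWord (dropM w Y) x = x →
      (closure n w).IsCol {k : Fin w.length | Y k.val}
        (fun p : Fin (w.length + 1) × Fin (n + 1) =>
          br2z w Y (p.1.val + 1) x (stepPerm w p.1 p.2)) := by
    intro x hx
    refine (br2_local w Y _).2 ?_
    intro k
    simp only [br2_step_step]
    by_cases hk : k.val < w.length
    · have : finRotate (w.length + 1) k = ⟨k.val + 1, by omega⟩ := hrc k.val hk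
      rw [this]
      exact br2z_succ w Y (k.val + 1) x
    · have hk' : k = Fin.last w.length := Fin.ext (by have := k.isLt; simp; omega)
      rw [hk', hrl]
      simp only [Fin.val_zero, Fin.val_last]
      change br2z w Y (0 + 1) x = br2T w Y 0 (br2z w Y (w.length + 1) x)
      rw [br2z_last w Y (w.length + 1) (by omega), hx, br2z_succ, br2z_zero]
  refine Nat.card_congr
    { toFun := fun c => ⟨fun j => c.1 (Fin.last w.length, j), hfix c.1 c.2⟩
      invFun := fun x => ⟨_, hcol x.1 x.2⟩
      left_inv := ?_
      right_inv := ?_ }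
  · rintro ⟨c, hc⟩
    apply Subtype.ext
    funext p
    obtain ⟨k, j⟩ : Fin (w.length + 1) × Fin (n + 1) := p
    have := congrFun (hrec c hc k.val k.isLt) (stepPerm w k j)
    simp only at this ⊢
    rw [← this]
    simp only [Fin.eta, br2_step_step]
  · rintro ⟨x, hx⟩
    apply Subtype.ext
    simp only
    funext j
    simp only [Fin.val_last]
    rw [br2z_last w Y _ (by omega), hlast, hx]
    rfl

end Pool.Agent.Lib.MP_b7a6eb_gt
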