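import Pool.Agent.Lib.MP_b7a6eb_gt.Basic

namespace Pool.Agent.Lib.MP_b7a6eb_gt

open Equiv Equiv.Perm

private lemma br3_step {n : ℕ} (w : Word n) (v : Fin w.length) :
    stepPerm w v.castSucc = Equiv.swap (w.get v).1.castSucc (w.get v).1.succ := by
  have h : (v.castSucc : Fin (w.length + 1)).val < w.length := by simp
  rw [stepPerm, dif_pos h]
  rfl

private lemma br3_seif_cr (D : Diagram) (v : D.V) (x : Bool) :
    D.seif (D.cr (v, x)) = D.next (D.cr (v, !x)) := by
  rw [Diagram.seif_apply, D.osw_cr_mem (Set.mem_univ _)]

/-- [BR3] the Seifert circles of a closed braid are the strand positions -/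
theorem closure_seif {n : ℕ} (w : Word n) : (closure n w).seif =
    Equiv.prodCongr (finRotate (w.length + 1)) (Equiv.refl (Fin (n + 1))) := by
  have key : ∀ i : Fin n, i.succ ≠ i.castSucc := fun i => (Fin.castSucc_lt_succ (i := i)).ne'
  have hcr : ∀ (v : Fin w.length) (x : Bool), (closure n w).cr (v, x) =
      (v.castSucc, if x = (w.get v).2 then (w.get v).1.castSucc else (w.get v).1.succ) :=
    fun v x => rfl
  have hnx : ∀ (v : Fin w.length) (x : Bool), (closure n w).next ((closure n w).cr (v, x)) =
      (finRotate (w.length + 1) v.castSucc,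
        if x = (w.get v).2 then (w.get v).1.succ else (w.get v).1.castSucc) := by
    intro v x
    refine Eq.trans (b := (finRotate (w.length + 1) v.castSucc, stepPerm w v.castSucc
      (if x = (w.get v).2 then (w.get v).1.castSucc else (w.get v).1.succ))) rfl ?_
    rw [br3_step]
    split_ifs
    · rw [Equiv.swap_apply_left]
    · rw [Equiv.swap_apply_right]
  have hseif : ∀ (v : Fin w.length) (x : Bool), (closure n w).seif ((closure n w).cr (v, x)) =
      (finRotate (w.length + 1) v.castSucc,
        if (!x) = (w.get v).2 then (w.get v).1.succ else (w.get v).1.castSucc) :=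
    fun v x => (br3_seif_cr (closure n w) v x).trans (hnx v (!x))
  have hlab : ∀ p : Fin (w.length + 1) × Fin (n + 1),
      (∀ (v : Fin w.length) (x : Bool), (v.castSucc, if x = (w.get v).2 then
        (w.get v).1.castSucc else (w.get v).1.succ) ≠ p) →
      (closure n w).seif p = (finRotate (w.length + 1) p.1, stepPerm w p.1 p.2) := by
    intro p hp
    have h1 : (closure n w).lab p = none := (closure n w).lab_eq_none.2 (fun x => hp x.1 x.2)
    exact (closure n w).seif_marker h1
  apply Equiv.ext
  rintro ⟨k, j⟩
  change (closure n w).seif _ = (finRotate (w.length + 1) k, j)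
  by_cases hk : k.val < w.length
  · obtain ⟨v, rfl⟩ : ∃ v : Fin w.length, k = v.castSucc := ⟨⟨k.val, hk⟩, rfl⟩
    have hnb : (!(w.get v).2) ≠ (w.get v).2 := by cases (w.get v).2 <;> simp
    by_cases h1 : j = (w.get v).1.castSucc
    · subst h1
      refine Eq.trans (b := (closure n w).seif ((closure n w).cr (v, (w.get v).2))) ?_ ?_
      · congr 1
        rw [hcr, if_pos rfl]
      · refine (hseif v _).trans ?_
        rw [if_neg hnb]
    · by_cases h2 : j = (w.get v).1.succ
      · subst h2
        refine Eq.trans (b := (closure n w).seif ((closure n w).cr (v, !(w.get v).2))) ?_ ?_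
        · congr 1
          rw [hcr, if_neg hnb]
        · refine (hseif v _).trans ?_
          rw [Bool.not_not, if_pos rfl]
      · refine (hlab (v.castSucc, j) ?_).trans ?_
        · intro u x hu
          have hu1 := congrArg Prod.fst hu
          have hu2 := congrArg Prod.snd hu
          simp only at hu1 hu2
          have : u = v := Fin.castSucc_injective _ hu1
          subst this
          split_ifs at hu2
          · exact h1 hu2.symm
          · exact h2 hu2.symm
        · simp only
          rw [br3_step, Equiv.swap_apply_of_ne_of_ne h1 h2]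
  · refine (hlab (k, j) ?_).trans ?_
    · intro u x hu
      have hu1 := congrArg Fin.val (congrArg Prod.fst hu)
      simp only [Fin.val_castSucc] at hu1
      exact hk (hu1 ▸ u.isLt)
    · simp only
      rw [stepPerm, dif_neg hk]
      rfl

/-- [BR3] -/
theorem closure_cyc {n : ℕ} (w : Word n) : cyc (closure n w).seif = n + 1 := by
  rw [closure_seif]
  obtain ⟨f, hf⟩ : ∃ f : Perm (Fin (w.length + 1) × Fin (n + 1)), f =
    Equiv.prodCongr (finRotate (w.length + 1)) (Equiv.refl (Fin (n + 1))) := ⟨_, rfl⟩
  have hf1 : ∀ k j, f (k, j) = (finRotate (w.length + 1) k, j) := by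
    intro k j
    rw [hf]
    rfl
  have hpow : ∀ (i : ℕ) (p : Fin (w.length + 1) × Fin (n + 1)), ((f ^ i) p).2 = p.2 := by
    intro i
    induction i with
    | zero => intro p; simp
    | succ i ih =>
      intro p
      rw [pow_succ, Perm.mul_apply, ih, hf1]
  have hpow2 : ∀ (i : ℕ) (hi : i < w.length + 1) (j : Fin (n + 1)),
      (f ^ i) (0, j) = (⟨i, hi⟩, j) := by
    intro i
    induction i with
    | zero => intro hi j; simp
    | succ i ih =>
      intro hi j
      rw [pow_succ', Perm.mul_apply, ih (by omega), hf1]
      congr 1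
      rw [finRotate_apply]
      apply Fin.ext
      rw [Fin.val_add_one_of_lt']
      simpa using hi
  have hzero : ∀ k j, f.SameCycle (0, j) (k, j) := fun k j => ⟨(k.val : ℤ), by
    rw [zpow_natCast, hpow2 k.val k.isLt]⟩
  have hsame : ∀ p q : Fin (w.length + 1) × Fin (n + 1), f.SameCycle p q ↔ p.2 = q.2 := by
    rintro ⟨k, j⟩ ⟨k', j'⟩
    constructor
    · intro h
      obtain ⟨i, -, hi⟩ := h.exists_pow_eq'
      rw [← hi, hpow]
    · intro h
      simp only at h
      subst h
      exact (hzero k j).symm.trans (hzero k' j)
  have e : Quotient (SameCycle.setoid f) ≃ Fin (n + 1) :=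
    { toFun := Quotient.lift Prod.snd (fun p q h => (hsame p q).1 h)
      invFun := fun j => Quotient.mk _ (0, j)
      left_inv := by
        intro q
        induction q using Quotient.inductionOn with | _ p => ?_
        exact Quotient.sound ((hsame _ _).2 rfl)
      right_inv := fun j => rfl }
  have h2 : cyc f = n + 1 := by
    unfold cyc
    rw [Nat.card_congr e, Nat.card_eq_fintype_card, Fintype.card_fin]
  rw [← hf]
  exact h2

end Pool.Agent.Lib.MP_b7a6eb_gt
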