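import Pool.Agent.Lib.MP_b7a6eb_gt.Braid

namespace Pool.Agent.Lib.MP_b7a6eb_gt

open Equiv Equiv.Perm

private theorem rf_extend {α : Type} [Finite α] (R : α → α → Prop)
    (h1 : ∀ a b b', R a b → R a b' → b = b') (h2 : ∀ a a' b, R a b → R a' b → a = a') :
    ∃ σ : Perm α, ∀ a b, R a b → σ a = b := by
  classical
  have := Fintype.ofFinite α
  let p : α → Prop := fun a => ∃ b, R a b
  let f : {x // p x} → α := fun x => x.2.choose
  have hf : ∀ x : {x // p x}, R x.1 (f x) := fun x => x.2.choose_spec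
  have hinj : Function.Injective f := fun x y h => Subtype.ext (h2 _ _ (f x) (hf x) (h ▸ hf y))
  let e : {x // p x} ≃ {x // x ∈ Set.range f} := Equiv.ofInjective f hinj
  refine ⟨e.extendSubtype, fun a b hab => ?_⟩
  have ha : p a := ⟨b, hab⟩
  rw [Equiv.extendSubtype_apply_of_mem e a ha]
  exact h1 a _ _ (hf ⟨a, ha⟩) hab

/-- [RF] free groups are residually finite -/
theorem free_residually_finite {X : Type} [Finite X] (g : FreeGroup X) (hg : g ≠ 1) :
    ∃ (H : Type) (_ : Group H) (_ : Finite H) (f : FreeGroup X →* H), f g ≠ 1 := by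
  classical
  obtain ⟨L, hL⟩ : ∃ L, L = g.toWord := ⟨_, rfl⟩
  have hred : FreeGroup.IsReduced L := hL ▸ FreeGroup.isReduced_toWord
  have hchain := List.isChain_iff_getElem.1 hred
  have hne : L ≠ [] := fun h => hg (FreeGroup.toWord_eq_nil_iff.1 (hL ▸ h))
  have hmk : g = FreeGroup.mk L := by rw [hL, FreeGroup.mk_toWord]
  let R : X → Fin (L.length + 1) → Fin (L.length + 1) → Prop := fun x a b =>
    (∃ (k : ℕ) (hk : k < L.length), L[k] = (x, true) ∧ a.val = k + 1 ∧ b.val = k) ∨
    (∃ (k : ℕ) (hk : k < L.length), L[k] = (x, false) ∧ a.val = k ∧ b.val = k + 1)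
  have hcon : ∀ (x : X) (k : ℕ) (hk : k < L.length) (k' : ℕ) (hk' : k' < L.length) (s : Bool),
      L[k] = (x, s) → L[k'] = (x, !s) → k' = k + 1 → False := by
    intro x k hk k' hk' s h1 h2 h3
    subst h3
    have := hchain k hk' (by rw [h1, h2])
    rw [h1, h2] at this
    cases s <;> simp at this
  have hR : ∀ x, ∃ σ : Perm (Fin (L.length + 1)), ∀ a b, R x a b → σ a = b := by
    intro x
    apply rf_extend
    · rintro a b b' (⟨k, hk, e1, e2, e3⟩ | ⟨k, hk, e1, e2, e3⟩)
        (⟨k', hk', e1', e2', e3'⟩ | ⟨k', hk', e1', e2', e3'⟩)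
      · apply Fin.ext; omega
      · exact absurd (hcon x k hk k' hk' true e1 e1' (by omega)) id
      · exact absurd (hcon x k' hk' k hk true e1' e1 (by omega)) id
      · apply Fin.ext; omega
    · rintro a a' b (⟨k, hk, e1, e2, e3⟩ | ⟨k, hk, e1, e2, e3⟩)
        (⟨k', hk', e1', e2', e3'⟩ | ⟨k', hk', e1', e2', e3'⟩)
      · apply Fin.ext; omega
      · exact absurd (hcon x k' hk' k hk false e1' e1 (by omega)) id
      · exact absurd (hcon x k hk k' hk' false e1 e1' (by omega)) id
      · apply Fin.ext; omega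
  choose σ hσ using hR
  refine ⟨Perm (Fin (L.length + 1)), inferInstance, inferInstance, FreeGroup.lift σ, ?_⟩
  have key : ∀ (k : ℕ) (hk : k < L.length + 1),
      (((L.take k).map fun x => cond x.2 (σ x.1) (σ x.1)⁻¹).prod) ⟨k, hk⟩ = 0 := by
    intro k
    induction k with
    | zero => intro hk; simp
    | succ k ih =>
      intro hk
      have hk' : k < L.length := by omega
      rw [List.take_succ_eq_append_getElem hk', List.map_append, List.prod_append, Perm.mul_apply]
      have hstep : ((List.map (fun x : X × Bool => cond x.2 (σ x.1) (σ x.1)⁻¹) [L[k]]).prod)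
          (⟨k + 1, hk⟩ : Fin (L.length + 1)) = ⟨k, by omega⟩ := by
        rw [List.map_singleton, List.prod_singleton]
        rcases hx : L[k] with ⟨x, s⟩
        cases s with
        | true => exact hσ x _ _ (Or.inl ⟨k, hk', hx, rfl, rfl⟩)
        | false =>
          have := hσ x (⟨k, by omega⟩ : Fin (L.length + 1)) ⟨k + 1, hk⟩
            (Or.inr ⟨k, hk', hx, rfl, rfl⟩)
          show (σ x)⁻¹ _ = _
          rw [← this]
          exact (σ x).symm_apply_apply _
      rw [hstep]
      exact ih _
  intro h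
  have h1 := key L.length (by omega)
  rw [List.take_length, ← FreeGroup.lift_mk, ← hmk, h, Perm.one_apply] at h1
  have h2 := congrArg Fin.val h1
  simp at h2
  exact hne h2

end Pool.Agent.Lib.MP_b7a6eb_gt
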