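import Pool.Agent.Lib.MP_b7a6eb_gt.BraidAct
import Pool.Agent.Lib.MP_b7a6eb_gt.RF
import Pool.Agent.Lib.MP_b7a6eb_gt.AF5

namespace Pool.Agent.Lib.MP_b7a6eb_gt

open Equiv Equiv.Perm

/-- [BR4] -/
theorem braidEq_nil_of_act {n : ℕ} (w : Word n)
    (h : ∀ (H : Type) [Group H] [Finite H] (x : Fin (n + 1) → H), actWord w x = x) :
    BraidEq w [] := by
  have h1 : actWord w (FreeGroup.of : Fin (n + 1) → FreeGroup (Fin (n + 1))) =
      FreeGroup.of := by
    funext j
    by_contra hne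
    obtain ⟨H, hG, hF, f, hf⟩ := free_residually_finite
      (actWord w FreeGroup.of j * (FreeGroup.of j)⁻¹) (fun h0 => hne (mul_inv_eq_one.1 h0))
    apply hf
    have h2 := h H (fun j => f (FreeGroup.of j))
    rw [BG.actWord_map] at h2
    rw [map_mul, map_inv, congrFun h2 j, mul_inv_cancel]
  have h2 : BG.mk w = 1 := BG.faithful n (BG.mk w) (fun H _ x => by
    have h3 := BG.actWord_map (FreeGroup.lift x) w FreeGroup.of
    rw [BG.act_mk]
    rw [h1] at h3
    simpa using h3)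
  exact BG.mk_eq_iff.1 (h2.trans BG.mk_nil.symm)

end Pool.Agent.Lib.MP_b7a6eb_gt
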