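import Pool.Agent.Lib.MP_b7a6eb_gt.BraidAct

namespace Pool.Agent.Lib.MP_b7a6eb_gt

open Equiv Equiv.Perm

private lemma br5_qp_cons {n : ℕ} (a : Word n × Fin n) (c : List (Word n × Fin n)) :
    BG.mk (qpWord (a :: c)) =
      BG.mk a.1 * BG.s a.2 * (BG.mk a.1)⁻¹ * BG.mk (qpWord c) := by
  have h : qpWord (a :: c) = (a.1 ++ ([(a.2, true)] ++ invWord a.1)) ++ qpWord c := by
    simp [qpWord]
  rw [h, BG.mk_append, BG.mk_append, BG.mk_append, BG.mk_inv, BG.s]
  simp only [mul_assoc]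

private lemma br5_conj {n : ℕ} (a : Fin n × Bool) (c : List (Word n × Fin n)) :
    BG.mk (qpWord (c.map fun b => (a :: b.1, b.2))) =
      BG.mk [a] * BG.mk (qpWord c) * (BG.mk [a])⁻¹ := by
  induction c with
  | nil => simp [qpWord]
  | cons b c ih =>
    rw [List.map_cons, br5_qp_cons, br5_qp_cons, ih]
    simp only
    rw [show a :: b.1 = [a] ++ b.1 from rfl, BG.mk_append]
    group

private lemma br5_main {n : ℕ} (w : Word n) : ∀ (Y : ℕ → Prop),
    (∀ k (hk : k < w.length), Y k → (w[k]).2 = true) →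
    ∃ c, BG.mk w = BG.mk (qpWord c) * BG.mk (dropM w Y) := by
  induction w with
  | nil =>
    intro Y _
    exact ⟨[], by simp [qpWord, dropM]⟩
  | cons a w ih =>
    intro Y hY
    obtain ⟨c, hc⟩ := ih (fun k => Y (k + 1)) (fun k hk hk' => by
      have := hY (k + 1) (by simpa using hk) hk'
      simpa using this)
    by_cases h0 : Y 0
    · refine ⟨([], a.1) :: c, ?_⟩
      have ha : a.2 = true := by
        have := hY 0 (by simp) h0
        simpa using this
      rw [br5_qp_cons, dropM, if_pos h0, BG.mk_cons, if_pos ha, hc]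
      simp [mul_assoc]
    · refine ⟨c.map fun b => (a :: b.1, b.2), ?_⟩
      rw [br5_conj, dropM, if_neg h0, show a :: w = [a] ++ w from rfl,
        show a :: dropM w (fun k => Y (k + 1)) = [a] ++ dropM w (fun k => Y (k + 1)) from rfl,
        BG.mk_append, BG.mk_append, hc]
      group

/-- [BR5] -/
theorem exists_qpWord {n : ℕ} (w : Word n) (Y : ℕ → Prop)
    (hY : ∀ k (hk : k < w.length), Y k → (w[k]).2 = true) (h : BraidEq (dropM w Y) []) :
    ∃ c, BraidEq w (qpWord c) := by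
  obtain ⟨c, hc⟩ := br5_main w Y hY
  refine ⟨c, BG.mk_eq_iff.1 ?_⟩
  rw [hc, BG.mk_eq_iff.2 h, BG.mk_nil, mul_one]

end Pool.Agent.Lib.MP_b7a6eb_gt
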