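import Pool.Agent.Lib.MP_b7a6eb_gt.Constr

/-! First return permutations, restriction of a diagram, closures with empty time slots. -/

namespace Pool.Agent.Lib.MP_b7a6eb_gt

open Equiv Equiv.Perm

section FirstRet

variable {α : Type*} [Finite α] (f : Perm α) (S : Set α)

lemma exists_return (x : S) : ∃ n : ℕ, (f ^ (n + 1)) x ∈ S :=
  ⟨orderOf f - 1, by
    rw [Nat.sub_add_cancel (orderOf_pos f), pow_orderOf_eq_one]; exact x.2⟩

open Classical in
/-- first return to the set `S` -/
noncomputable def firstRetFun (x : S) : S :=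
  ⟨(f ^ (Nat.find (exists_return f S x) + 1)) x, Nat.find_spec (exists_return f S x)⟩

lemma firstRetFun_spec (x : S) : ∃ n : ℕ, (f ^ (n + 1)) (x : α) = firstRetFun f S x ∧
    ∀ k < n, (f ^ (k + 1)) (x : α) ∉ S := by
  classical
  exact ⟨_, rfl, fun k hk => Nat.find_min (exists_return f S x) hk⟩

lemma firstRetFun_injective : Function.Injective (firstRetFun f S) := by
  have key : ∀ (x y : S) (a b : ℕ), (f ^ (a + 1)) (x : α) = (f ^ (b + 1)) (y : α) → a ≤ b →
      (∀ k < b, (f ^ (k + 1)) (y : α) ∉ S) → x = y := by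
    intro x y a b h hab hb
    obtain ⟨c, rfl⟩ := Nat.exists_eq_add_of_le hab
    have h2 : (f ^ (a + 1)) (x : α) = (f ^ (a + 1)) ((f ^ c) (y : α)) := by
      rw [h, ← Perm.mul_apply, ← pow_add]; congr 2; ring
    have h3 := (f ^ (a + 1)).injective h2
    rcases c with _ | c
    · exact Subtype.ext h3
    · exact absurd (h3 ▸ x.2) (hb c (by omega))
  intro x y hxy
  obtain ⟨a, ha, ha'⟩ := firstRetFun_spec f S x
  obtain ⟨b, hb, hb'⟩ := firstRetFun_spec f S y
  rw [hxy] at ha
  rcases le_total a b with h | h
  · exact key x y a b (ha.trans hb.symm) h hb'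
  · exact (key y x b a (hb.trans ha.symm) h ha').symm

/-- the first return permutation of the set `S` -/
noncomputable def firstRet : Perm S :=
  Equiv.ofBijective (firstRetFun f S) (Finite.injective_iff_bijective.1 (firstRetFun_injective f S))

lemma firstRet_spec (x : S) : ∃ n : ℕ, (f ^ (n + 1)) (x : α) = firstRet f S x ∧
    ∀ k < n, (f ^ (k + 1)) (x : α) ∉ S := firstRetFun_spec f S x

lemma firstRet_of_mem (x : S) (h : f x ∈ S) : firstRet f S x = ⟨f x, h⟩ := by
  obtain ⟨n, h1, h2⟩ := firstRet_spec f S x
  rcases n with _ | n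
  · exact Subtype.ext (by rw [← h1]; simp)
  · exact absurd (by simpa using h) (h2 0 (by omega))

lemma firstRet_psub (hc : ∀ q, ∃ p ∈ S, f.SameCycle p q) :
    PSub (firstRet f S) f (Subtype.val : S → α) := by
  refine ⟨Subtype.val_injective, fun p => ?_, fun q => ?_⟩
  · obtain ⟨n, h1, h2⟩ := firstRet_spec f S p
    refine ⟨n, h1, fun k hk => ?_⟩
    rw [Subtype.range_coe]; exact h2 k hk
  · obtain ⟨p, hp, h⟩ := hc q
    exact ⟨⟨p, hp⟩, h⟩

end FirstRet

/-- The diagram `D` with only the points in `S` and the crossings in `W`. -/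
noncomputable def Diagram.restrict (D : Diagram) (S : Set D.P) (W : Set D.V)
    (h : ∀ v ∈ W, ∀ x, D.cr (v, x) ∈ S) : Diagram where
  P := S
  V := W
  finP := inferInstance
  finV := inferInstance
  next := firstRet D.next S
  cr := fun x => ⟨D.cr (x.1.val, x.2), h _ x.1.2 _⟩
  lab := fun p => open Classical in
    match D.lab p.val with
    | none => none
    | some (v, x) => if hv : v ∈ W then some (⟨v, hv⟩, x) else none
  lab_iff := by
    classical
    rintro ⟨p, hp⟩ ⟨⟨v, hv⟩, x⟩
    rcases hl : D.lab p with _ | ⟨w, y⟩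
    · simp only [hl, reduceCtorEq, Subtype.mk.injEq, false_iff]
      intro h2
      rw [← D.lab_iff, hl] at h2
      exact absurd h2 (by simp)
    · have h2 := D.cr_of_lab hl
      subst h2
      simp only [hl]
      by_cases hw : w ∈ W
      · simp only [hw, ↓reduceDIte, Option.some.injEq, Prod.mk.injEq, Subtype.mk.injEq,
          Diagram.cr_eq_cr]
        constructor
        · rintro ⟨rfl, rfl⟩; exact ⟨rfl, rfl⟩
        · rintro ⟨rfl, rfl⟩; exact ⟨rfl, rfl⟩
      · simp only [hw, ↓reduceDIte, reduceCtorEq, Subtype.mk.injEq, Diagram.cr_eq_cr,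
          Prod.mk.injEq, false_iff, not_and]
        rintro rfl
        exact absurd hv hw
  sign := fun v => D.sign v.val

section ClosureN

variable {n : ℕ}

/-- exchange of positions at time `k` (`m` slots; at time `m` nothing happens) -/
def stepN (m : ℕ) (c : ℕ → Option (Fin n × Bool)) (k : ℕ) : Perm (Fin (n + 1)) :=
  if k < m then
    match c k with
    | none => 1
    | some a => Equiv.swap a.1.castSucc a.1.succ
  else 1

/-- Closure of a braid given by `m` time slots, each of which contains at most one letter. -/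
def closureN (m n : ℕ) (c : ℕ → Option (Fin n × Bool)) : Diagram where
  P := Fin (m + 1) × Fin (n + 1)
  V := {k : Fin m // (c k.val).isSome = true}
  finP := inferInstance
  finV := inferInstance
  next := Equiv.prodShear (finRotate (m + 1)) (fun k => stepN m c k.val)
  cr := fun x => (x.1.val.castSucc,
    if x.2 = ((c x.1.val.val).get x.1.2).2 then ((c x.1.val.val).get x.1.2).1.castSucc
    else ((c x.1.val.val).get x.1.2).1.succ)
  lab := fun p => if h : p.1.val < m ∧ (c p.1.val).isSome = true then
      if p.2 = ((c p.1.val).get h.2).1.castSucc then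
        some (⟨⟨p.1.val, h.1⟩, h.2⟩, ((c p.1.val).get h.2).2)
      else if p.2 = ((c p.1.val).get h.2).1.succ then
        some (⟨⟨p.1.val, h.1⟩, h.2⟩, !((c p.1.val).get h.2).2)
      else none
    else none
  lab_iff := by
    rintro ⟨k, j⟩ ⟨⟨v, hv⟩, x⟩
    have key : ∀ i : Fin n, i.castSucc ≠ i.succ := fun i => (Fin.castSucc_lt_succ (i := i)).ne
    constructor
    · intro h
      dsimp only at h ⊢
      split_ifs at h with h1 h2 h3
      · rw [Option.some.injEq, Prod.mk.injEq, Subtype.mk.injEq] at h
        obtain ⟨rfl, rfl⟩ := h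
        simp [h2, Fin.ext_iff]
      · rw [Option.some.injEq, Prod.mk.injEq, Subtype.mk.injEq] at h
        obtain ⟨rfl, rfl⟩ := h
        simp [h3, Fin.ext_iff]
    · intro h
      dsimp only at h ⊢
      rw [Prod.mk.injEq] at h
      obtain ⟨rfl, rfl⟩ := h
      have hv1 : (v.castSucc : Fin (m + 1)).val < m ∧
          (c (v.castSucc : Fin (m + 1)).val).isSome = true := ⟨by simp, hv⟩
      rw [dif_pos hv1]
      by_cases hx : x = ((c v.val).get hv).2
      · simp [hx]
      · have h3 : x = !((c v.val).get hv).2 := by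
          cases x <;> cases h : ((c v.val).get hv).2 <;> simp_all
        have h2 : ((((c v.val).get hv).1).succ : Fin (n + 1)) ≠ (((c v.val).get hv).1).castSucc :=
          (key _).symm
        simp only [Fin.val_castSucc] at *
        simp [h3, h2]
  sign := fun k => ((c k.val.val).get k.2).2

end ClosureN

end Pool.Agent.Lib.MP_b7a6eb_gt
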