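import Pool.Agent.Lib.MP_b7a6eb_gt.MK1

namespace Pool.Agent.Lib.MP_b7a6eb_gt

open Equiv Equiv.Perm

theorem mk2_lab {D D' : Diagram} {i : D.P → D'.P} {j : D.V ≃ D'.V}
    (h : MSub D D' i j) {p : D.P} (hp : D.lab p = none) : D'.lab (i p) = none := by
  rw [D'.lab_eq_none]
  rintro ⟨w, x⟩ h2
  have h3 : i (D.cr (j.symm w, x)) = i p := by
    rw [← h.cr, Equiv.apply_symm_apply, h2]
  exact (D.lab_eq_none.1 hp) _ (h.psub.inj h3)

theorem mk2_out {D D' : Diagram} {i : D.P → D'.P} {j : D.V ≃ D'.V}
    (h : MSub D D' i j) {q : D'.P} (hq : q ∉ Set.range i) : D'.lab q = none :=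
  mk1_lab_range h.cr hq

theorem mk2_exists_base {D D' : Diagram} {i : D.P → D'.P} {j : D.V ≃ D'.V}
    (h : MSub D D' i j) (q : D'.P) : ∃ p : D.P, ∃ m : ℕ, (D'.next ^ m) (i p) = q ∧
      ∀ k, 1 ≤ k → k ≤ m → (D'.next ^ k) (i p) ∉ Set.range i := by
  have key : ∀ (m : ℕ) (p : D.P), ∃ p' : D.P, ∃ m' : ℕ,
      (D'.next ^ m') (i p') = (D'.next ^ m) (i p) ∧
      ∀ k, 1 ≤ k → k ≤ m' → (D'.next ^ k) (i p') ∉ Set.range i := by
    intro m p
    induction m with
    | zero => exact ⟨p, 0, rfl, fun k h1 h2 => by omega⟩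
    | succ m ih =>
      obtain ⟨p', m', h1, h2⟩ := ih
      by_cases hr : (D'.next ^ (m + 1)) (i p) ∈ Set.range i
      · obtain ⟨p0, hp0⟩ := hr
        exact ⟨p0, 0, by simpa using hp0, fun k h1 h2 => by omega⟩
      · have h3 : (D'.next ^ (m' + 1)) (i p') = (D'.next ^ (m + 1)) (i p) := by
          rw [pow_succ', Perm.mul_apply, h1, pow_succ', Perm.mul_apply]
        refine ⟨p', m' + 1, h3, fun k hk1 hk2 => ?_⟩
        rcases Nat.lt_or_ge m' k with h4 | h4
        · have : k = m' + 1 := by omega
          rw [this, h3]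
          exact hr
        · exact h2 k hk1 h4
  obtain ⟨p, hp⟩ := h.psub.cover q
  obtain ⟨m, hm⟩ := hp.exists_nat_pow_eq
  rw [← hm]
  exact key m p

/-- the last point of `D` before or at `q` -/
noncomputable def mk2_base {D D' : Diagram} {i : D.P → D'.P} {j : D.V ≃ D'.V}
    (h : MSub D D' i j) (q : D'.P) : D.P := (mk2_exists_base h q).choose

theorem mk2_base_spec {D D' : Diagram} {i : D.P → D'.P} {j : D.V ≃ D'.V}
    (h : MSub D D' i j) (q : D'.P) : ∃ m : ℕ, (D'.next ^ m) (i (mk2_base h q)) = q ∧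
      ∀ k, 1 ≤ k → k ≤ m → (D'.next ^ k) (i (mk2_base h q)) ∉ Set.range i :=
  (mk2_exists_base h q).choose_spec

/-- induction along inserted points -/
theorem mk2_induct {D D' : Diagram} {i : D.P → D'.P} {j : D.V ≃ D'.V}
    (h : MSub D D' i j) (M : D'.P → D'.P → Prop) (h0 : ∀ p, M p p)
    (h1 : ∀ a q, M a q → D'.next q ∉ Set.range i → M a (D'.next q)) (q : D'.P) :
    M (i (mk2_base h q)) q := by
  obtain ⟨m, hm1, hm2⟩ := mk2_base_spec h q
  have key : ∀ k, k ≤ m → M (i (mk2_base h q)) ((D'.next ^ k) (i (mk2_base h q))) := by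
    intro k
    induction k with
    | zero => intro _; exact h0 _
    | succ k ih =>
      intro hk
      have h3 := hm2 (k + 1) (by omega) hk
      rw [pow_succ', Perm.mul_apply] at h3 ⊢
      exact h1 _ _ (ih (by omega)) h3
  have := key m le_rfl
  rwa [hm1] at this

theorem mk2_base_i {D D' : Diagram} {i : D.P → D'.P} {j : D.V ≃ D'.V}
    (h : MSub D D' i j) (p : D.P) : mk2_base h (i p) = p := by
  obtain ⟨m, hm1, hm2⟩ := mk2_base_spec h (i p)
  rcases Nat.eq_zero_or_pos m with h0 | h0
  · rw [h0] at hm1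
    exact h.psub.inj (by simpa using hm1)
  · have := hm2 m h0 le_rfl
    rw [hm1] at this
    exact absurd (Set.mem_range_self p) this

theorem mk2_base_next_mem {D D' : Diagram} {i : D.P → D'.P} {j : D.V ≃ D'.V}
    (h : MSub D D' i j) {q : D'.P} (hq : D'.next q ∈ Set.range i) :
    D'.next q = i (D.next (mk2_base h q)) := by
  obtain ⟨m, hm1, hm2⟩ := mk2_base_spec h q
  obtain ⟨n, hn1, hn2⟩ := h.psub.step (mk2_base h q)
  have h1 : (D'.next ^ (m + 1)) (i (mk2_base h q)) = D'.next q := by
    rw [pow_succ', Perm.mul_apply, hm1]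
  have h2 : n ≤ m := by
    by_contra hlt
    refine hn2 m (by omega) ?_
    rw [h1]
    exact hq
  have h3 : m ≤ n := by
    by_contra hlt
    refine hm2 (n + 1) (by omega) (by omega) ?_
    rw [hn1]
    exact Set.mem_range_self _
  have h4 : m = n := le_antisymm h3 h2
  rw [← h1, h4, hn1]

theorem mk2_unique {D D' : Diagram} {i : D.P → D'.P} {j : D.V ≃ D'.V}
    (h : MSub D D' i j) {a b : D.P} {m n : ℕ} (hmn : m ≤ n)
    (h1 : (D'.next ^ m) (i a) = (D'.next ^ n) (i b))
    (h3 : ∀ k, 1 ≤ k → k ≤ n → (D'.next ^ k) (i b) ∉ Set.range i) : a = b := by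
  have h4 : i a = (D'.next ^ (n - m)) (i b) := by
    apply (D'.next ^ m).injective
    rw [h1, ← Perm.mul_apply, ← pow_add, Nat.add_sub_cancel' hmn]
  rcases Nat.eq_zero_or_pos (n - m) with h0 | h0
  · rw [h0] at h4
    exact h.psub.inj (by simpa using h4)
  · refine absurd ?_ (h3 (n - m) h0 (by omega))
    rw [← h4]
    exact Set.mem_range_self _

theorem mk2_base_next_not {D D' : Diagram} {i : D.P → D'.P} {j : D.V ≃ D'.V}
    (h : MSub D D' i j) {q : D'.P} (hq : D'.next q ∉ Set.range i) :
    mk2_base h (D'.next q) = mk2_base h q := by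
  obtain ⟨m, hm1, hm2⟩ := mk2_base_spec h q
  obtain ⟨n, hn1, hn2⟩ := mk2_base_spec h (D'.next q)
  have h1 : (D'.next ^ (m + 1)) (i (mk2_base h q)) = D'.next q := by
    rw [pow_succ', Perm.mul_apply, hm1]
  have hm3 : ∀ k, 1 ≤ k → k ≤ m + 1 → (D'.next ^ k) (i (mk2_base h q)) ∉ Set.range i := by
    intro k hk1 hk2
    rcases Nat.lt_or_ge m k with h4 | h4
    · have : k = m + 1 := by omega
      rw [this, h1]
      exact hq
    · exact hm2 k hk1 h4
  rcases le_total n (m + 1) with h5 | h5
  · exact mk2_unique h h5 (hn1.trans h1.symm) hm3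
  · exact (mk2_unique h h5 (h1.trans hn1.symm) hn2).symm

theorem mk2_base_prev_i {D D' : Diagram} {i : D.P → D'.P} {j : D.V ≃ D'.V}
    (h : MSub D D' i j) (p : D.P) : mk2_base h (D'.prev (i p)) = D.prev p := by
  have h1 : D'.next (D'.prev (i p)) ∈ Set.range i := by
    rw [D'.next_prev]
    exact Set.mem_range_self p
  have h2 := mk2_base_next_mem h h1
  rw [D'.next_prev] at h2
  rw [h.psub.inj h2, D.prev_next, ← h.psub.inj h2]

theorem mk2_base_prev_not {D D' : Diagram} {i : D.P → D'.P} {j : D.V ≃ D'.V}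
    (h : MSub D D' i j) {q : D'.P} (hq : q ∉ Set.range i) :
    mk2_base h (D'.prev q) = mk2_base h q := by
  have h1 : D'.next (D'.prev q) ∉ Set.range i := by rwa [D'.next_prev]
  have h2 := mk2_base_next_not h h1
  rw [D'.next_prev] at h2
  exact h2.symm

theorem mk2_lr {D D' : Diagram} {i : D.P → D'.P} {j : D.V ≃ D'.V}
    (h : MSub D D' i j) (v : D.V) : D'.l (j v) = i (D.l v) ∧ D'.r (j v) = i (D.r v) := by
  constructor
  · rw [Diagram.l, Diagram.l, h.cr, h.sign]
  · rw [Diagram.r, Diagram.r, h.cr, h.sign]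

theorem mk2_face_false {D D' : Diagram} {i : D.P → D'.P} {j : D.V ≃ D'.V}
    (h : MSub D D' i j) {q : D'.P} (hq : D'.next q ∈ Set.range i) :
    (mk2_base h (D'.face (q, false)).1, (D'.face (q, false)).2) =
      D.face (mk2_base h q, false) := by
  have h1 := mk2_base_next_mem h hq
  rcases D.point_cases (D.next (mk2_base h q)) with h2 | ⟨v, h2⟩ | ⟨v, h2⟩
  · have h3 := mk2_lab h h2
    rw [← h1] at h3
    rw [D'.face_false_marker h3, D.face_false_marker h2]
    simp only
    rw [h1, mk2_base_i]
  · have h3 : q = D'.prev (D'.l (j v)) := by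
      rw [(mk2_lr h v).1, ← h2, ← h1, D'.prev_next]
    have h4 : mk2_base h q = D.prev (D.l v) := by rw [← h2, D.prev_next]
    rw [h4, h3, D'.face_S, D.face_S]
    simp only
    rw [(mk2_lr h v).2, mk2_base_prev_i]
  · have h3 : q = D'.prev (D'.r (j v)) := by
      rw [(mk2_lr h v).2, ← h2, ← h1, D'.prev_next]
    have h4 : mk2_base h q = D.prev (D.r v) := by rw [← h2, D.prev_next]
    rw [h4, h3, D'.face_E, D.face_E]
    simp only
    rw [(mk2_lr h v).1, mk2_base_i]

theorem mk2_face_true {D D' : Diagram} {i : D.P → D'.P} {j : D.V ≃ D'.V}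
    (h : MSub D D' i j) (p : D.P) :
    (mk2_base h (D'.face (i p, true)).1, (D'.face (i p, true)).2) = D.face (p, true) := by
  rcases D.point_cases p with h2 | ⟨v, h2⟩ | ⟨v, h2⟩
  · rw [D'.face_true_marker (mk2_lab h h2), D.face_true_marker h2]
    simp only
    rw [mk2_base_prev_i]
  · subst h2
    rw [← (mk2_lr h v).1, D'.face_N, D.face_N]
    simp only
    rw [(mk2_lr h v).2, mk2_base_i]
  · subst h2
    rw [← (mk2_lr h v).2, D'.face_W, D.face_W]
    simp only
    rw [(mk2_lr h v).1, mk2_base_prev_i]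

/-- a flow is constant along inserted markers -/
theorem mk2_flow_base {D D' : Diagram} {i : D.P → D'.P} {j : D.V ≃ D'.V}
    (h : MSub D D' i j) {φ' : D'.P → ℤ} (hφ : D'.IsFlow φ') (q : D'.P) :
    φ' (i (mk2_base h q)) = φ' q := by
  refine mk2_induct h (fun a q => φ' a = φ' q) (fun _ => rfl) ?_ q
  intro a q haq hq
  have := hφ.1 (D'.next q) (mk2_out h hq)
  rw [D'.prev_next] at this
  rw [haq, this]

/-- [MK2] -/
theorem MSub.planar_iff {D D' : Diagram} {i : D.P → D'.P} {j : D.V ≃ D'.V} (h : MSub D D' i j) :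
    D.Planar ↔ D'.Planar := by
  constructor
  · intro hD φ' hφ'
    have hflow : D.IsFlow (fun p => φ' (i p)) := by
      refine ⟨?_, ?_⟩
      · intro p hp
        simp only
        rw [← mk2_base_prev_i h, mk2_flow_base h hφ']
        exact hφ'.1 _ (mk2_lab h hp)
      · intro v
        simp only
        rw [← mk2_base_prev_i h, ← mk2_base_prev_i h, mk2_flow_base h hφ', mk2_flow_base h hφ',
          ← h.cr, ← h.cr]
        exact hφ'.2 (j v)
    obtain ⟨U, hU1, hU2⟩ := hD _ hflow
    refine ⟨fun s => U (mk2_base h s.1, s.2), ?_, ?_⟩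
    · rintro ⟨q, s⟩
      cases s
      · by_cases hq : D'.next q ∈ Set.range i
        · have h1 := mk2_face_false h hq
          simp only
          rw [h1, hU1]
        · rw [D'.face_false_marker (mk2_out h hq)]
          simp only
          rw [mk2_base_next_not h hq]
      · by_cases hq : q ∈ Set.range i
        · obtain ⟨p, rfl⟩ := hq
          have h1 := mk2_face_true h p
          simp only
          rw [h1, hU1, mk2_base_i]
        · rw [D'.face_true_marker (mk2_out h hq)]
          simp only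
          rw [mk2_base_prev_not h hq]
    · intro q
      simp only
      rw [hU2]
      exact mk2_flow_base h hφ' q
  · intro hD' φ hφ
    have hflow : D'.IsFlow (fun q => φ (mk2_base h q)) := by
      refine ⟨?_, ?_⟩
      · intro q hq
        by_cases hr : q ∈ Set.range i
        · obtain ⟨p, rfl⟩ := hr
          simp only
          rw [mk2_base_prev_i, mk2_base_i]
          refine hφ.1 p ?_
          rcases hp : D.lab p with _ | ⟨v, x⟩
          · rfl
          · have h2 := D.cr_of_lab hp
            rw [← h2, ← h.cr, D'.lab_cr] at hq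
            exact absurd hq (by simp)
        · simp only
          rw [mk2_base_prev_not h hr]
      · intro w
        obtain ⟨v, rfl⟩ := j.surjective w
        simp only [h.cr, mk2_base_prev_i, mk2_base_i]
        exact hφ.2 v
    obtain ⟨U', hU1, hU2⟩ := hD' _ hflow
    have hf : ∀ q, U' (i (mk2_base h q), false) = U' (q, false) := by
      intro q
      refine mk2_induct h (fun a q => U' (a, false) = U' (q, false)) (fun _ => rfl) ?_ q
      intro a q haq hq
      have := hU1 (q, false)
      rw [D'.face_false_marker (mk2_out h hq)] at this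
      rw [haq, this]
    have ht : ∀ q, U' (i (mk2_base h q), true) = U' (q, true) := by
      intro q
      refine mk2_induct h (fun a q => U' (a, true) = U' (q, true)) (fun _ => rfl) ?_ q
      intro a q haq hq
      have := hU1 (D'.next q, true)
      rw [D'.face_true_marker (mk2_out h hq), D'.prev_next] at this
      rw [haq, this]
    have hft : ∀ s : D'.P × Bool, U' (i (mk2_base h s.1), s.2) = U' s := by
      rintro ⟨q, s⟩
      cases s
      · exact hf q
      · exact ht q
    refine ⟨fun s => U' (i s.1, s.2), ?_, ?_⟩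
    · rintro ⟨p, s⟩
      cases s
      · have hq : D'.next (D'.prev (i (D.next p))) ∈ Set.range i := by
          rw [D'.next_prev]
          exact Set.mem_range_self _
        have h1 := mk2_face_false h hq
        rw [mk2_base_prev_i, D.prev_next] at h1
        rw [← h1]
        simp only
        rw [hft, hU1, ← hf, mk2_base_prev_i, D.prev_next]
      · have h1 := mk2_face_true h p
        rw [← h1]
        simp only
        rw [hft, hU1]
    · intro p
      simp only
      rw [hU2, mk2_base_i]

end Pool.Agent.Lib.MP_b7a6eb_gt
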