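import Pool.Agent.Lib.MP_b7a6eb_gt.Basic
import Pool.Agent.Lib.MP_b7a6eb_gt.MK2
import Pool.Agent.Lib.MP_b7a6eb_gt.Constr2

namespace Pool.Agent.Lib.MP_b7a6eb_gt

open Equiv Equiv.Perm

theorem mk4_overArc_refl (D : Diagram) (b : D.P) : OverArc D b D :=
  ⟨id, id, Function.injective_id, Function.injective_id, fun _ _ => rfl, fun _ => rfl,
    fun w hw => absurd ⟨w, rfl⟩ hw, fun _ _ => rfl, fun q hq => absurd ⟨q, rfl⟩ hq⟩

theorem mk4_overArc_bij {D D' : Diagram} {i : D.P → D'.P} {j : D.V ≃ D'.V} (h : MSub D D' i j)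
    (hs : Function.Surjective i) (b : D.P) : OverArc D b D' := by
  refine ⟨i, j, h.psub.inj, j.injective, h.cr, h.sign, ?_, ?_, ?_⟩
  · intro w hw
    exact absurd (j.surjective w) hw
  · intro p _
    obtain ⟨n, hn1, hn2⟩ := h.psub.step p
    rcases Nat.eq_zero_or_pos n with h0 | h0
    · rw [h0] at hn1
      simpa using hn1
    · exact absurd (hs _) (hn2 0 h0)
  · intro q hq
    exact absurd (hs q) hq

theorem mk4_step {D D' : Diagram} {i : D.P → D'.P} {j : D.V ≃ D'.V} (h : MSub D D' i j)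
    (hns : ¬ Function.Surjective i) : ∃ (D1 : Diagram) (i1 : D1.P → D'.P) (j1 : D1.V ≃ D'.V)
      (p : D.P), MSub D1 D' i1 j1 ∧ OverArc D p D1 ∧ Nat.card D.P < Nat.card D1.P := by
  classical
  -- a point whose successor is new
  obtain ⟨p, hp⟩ : ∃ p, D'.next (i p) ∉ Set.range i := by
    rw [Function.Surjective] at hns
    push Not at hns
    obtain ⟨q, hq⟩ := hns
    obtain ⟨m, hm1, hm2⟩ := mk2_base_spec h q
    rcases Nat.eq_zero_or_pos m with h0 | h0
    · rw [h0] at hm1
      exact absurd (by simpa using hm1) (hq (mk2_base h q))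
    · exact ⟨mk2_base h q, by simpa using hm2 1 le_rfl h0⟩
  set S : Set D'.P := insert (D'.next (i p)) (Set.range i) with hS
  have hcr : ∀ v ∈ (Set.univ : Set D'.V), ∀ x, D'.cr (v, x) ∈ S := by
    intro v _ x
    right
    refine ⟨D.cr (j.symm v, x), ?_⟩
    rw [← h.cr, Equiv.apply_symm_apply]
  have hiS : ∀ x, i x ∈ S := fun x => Or.inr ⟨x, rfl⟩
  have hqS : D'.next (i p) ∈ S := Or.inl rfl
  set D1 : Diagram := D'.restrict S Set.univ hcr with hD1
  obtain ⟨i1, hi1⟩ : ∃ i1 : D1.P → D'.P, ∀ p, i1 p = p.val := ⟨fun p => p.val, fun _ => rfl⟩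
  have hi1' : i1 = (Subtype.val : S → D'.P) := funext hi1
  obtain ⟨j1, hj1⟩ : ∃ j1 : D1.V ≃ D'.V, ∀ v, j1 v = v.val := ⟨Equiv.Set.univ D'.V, fun _ => rfl⟩
  have hsub : MSub D1 D' i1 j1 := by
    refine ⟨?_, fun v x => ?_, fun v => ?_⟩
    · rw [hi1']
      refine firstRet_psub D'.next S (fun q => ?_)
      obtain ⟨x, hx⟩ := h.psub.cover q
      exact ⟨i x, hiS x, hx⟩
    · rw [hi1, hj1]
      rfl
    · rw [hj1]
      rfl
  -- the map from `D`
  obtain ⟨i2, hi2⟩ : ∃ i2 : D.P → D1.P, ∀ x, i1 (i2 x) = i x :=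
    ⟨fun x => ⟨i x, hiS x⟩, fun x => hi1 ⟨i x, hiS x⟩⟩
  obtain ⟨q1, hq1⟩ : ∃ q1 : D1.P, i1 q1 = D'.next (i p) := ⟨⟨_, hqS⟩, hi1 ⟨_, hqS⟩⟩
  have hi1inj := hsub.psub.inj
  have hi2inj : Function.Injective i2 := by
    intro x y hxy
    apply h.psub.inj
    rw [← hi2, ← hi2, hxy]
  have hq1n : ∀ x, i2 x ≠ q1 := by
    intro x hx
    apply hp
    rw [← hq1, ← hx, hi2]
    exact ⟨x, rfl⟩
  have hcases : ∀ y : D1.P, y = q1 ∨ ∃ x, i2 x = y := by
    intro y
    have hy : i1 y ∈ S := by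
      rw [hi1]
      exact y.2
    rcases hy with hy | ⟨x, hx⟩
    · left
      apply hi1inj
      rw [hy, hq1]
    · right
      exact ⟨x, hi1inj (by rw [hi2, hx])⟩
  have hnext : D1.next (i2 p) = q1 := by
    obtain ⟨n, hn1, hn2⟩ := hsub.psub.step (i2 p)
    rcases Nat.eq_zero_or_pos n with h0 | h0
    · rw [h0] at hn1
      apply hi1inj
      rw [← hn1, hq1, hi2]
      simp
    · refine absurd ?_ (hn2 0 h0)
      rw [hi2]
      exact ⟨q1, by simpa using hq1⟩
  have hnext2 : ∀ x, x ≠ p → D1.next (i2 x) = i2 (D.next x) := by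
    intro x hx
    obtain ⟨n, hn1, hn2⟩ := hsub.psub.step (i2 x)
    obtain ⟨m, hm1, hm2⟩ := h.psub.step x
    rw [hi2] at hn1 hn2
    have hmn : n ≤ m := by
      by_contra hlt
      refine hn2 m (by omega) ?_
      rw [hm1, ← hi2]
      exact ⟨_, rfl⟩
    have hnm : m ≤ n := by
      by_contra hlt
      -- the point reached after `n + 1` steps is in `S`
      rcases hcases (D1.next (i2 x)) with h1 | ⟨y, hy⟩
      · rw [h1, hq1, pow_succ', Perm.mul_apply] at hn1
        have h2 := D'.next.injective hn1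
        rcases Nat.eq_zero_or_pos n with h0 | h0
        · rw [h0] at h2
          exact hx (h.psub.inj (by simpa using h2))
        · refine hm2 (n - 1) (by omega) ?_
          rw [Nat.sub_add_cancel h0, h2]
          exact ⟨p, rfl⟩
      · refine hm2 n (by omega) ?_
        rw [hn1, ← hy, hi2]
        exact ⟨y, rfl⟩
    have h4 : n = m := le_antisymm hmn hnm
    apply hi1inj
    rw [← hn1, hi2, h4, hm1]
  refine ⟨D1, i1, j1, p, hsub, ⟨i2, fun v => j1.symm (j v), hi2inj, ?_, ?_, ?_, ?_, hnext2, ?_⟩, ?_⟩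
  · intro v w hvw
    exact j.injective (j1.symm.injective hvw)
  · intro v x
    apply hi1inj
    rw [← hsub.cr, Equiv.apply_symm_apply, hi2, h.cr]
  · intro v
    rw [← hsub.sign, Equiv.apply_symm_apply, h.sign]
  · intro w hw
    refine absurd ?_ hw
    exact ⟨j.symm (j1 w), by simp⟩
  · intro q hq
    rcases hcases q with h1 | ⟨x, hx⟩
    · rw [h1, ← hnext]
      exact ⟨1, by simp⟩
    · exact absurd ⟨x, hx⟩ hq
  · have : Fintype D.P := Fintype.ofFinite _
    have : Fintype D1.P := Fintype.ofFinite _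
    rw [Nat.card_eq_fintype_card, Nat.card_eq_fintype_card]
    refine Fintype.card_lt_of_injective_not_surjective i2 hi2inj ?_
    intro hsur
    obtain ⟨x, hx⟩ := hsur q1
    exact hq1n x hx

/-- [MK4] -/
theorem MSub.isotopic {D D' : Diagram} {i : D.P → D'.P} {j : D.V ≃ D'.V} (h : MSub D D' i j)
    (hne : Nonempty D.P) (hD : D.Planar) : Isotopic D D' := by
  have key : ∀ (n : ℕ) (D : Diagram) (i : D.P → D'.P) (j : D.V ≃ D'.V), MSub D D' i j →
      Nonempty D.P → D.Planar → Nat.card D'.P - Nat.card D.P ≤ n → Isotopic D D' := by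
    intro n
    induction n with
    | zero =>
      intro D i j h hne hD hn
      obtain ⟨b⟩ := hne
      have hs : Function.Surjective i := by
        by_contra hns
        obtain ⟨D1, i1, j1, p, hsub, _, hlt⟩ := mk4_step h hns
        have := Nat.card_le_card_of_injective i1 hsub.psub.inj
        omega
      exact Relation.EqvGen.rel _ _ ⟨hD, h.planar_iff.1 hD, D, b, mk4_overArc_refl D b,
        mk4_overArc_bij h hs b⟩
    | succ n ih =>
      intro D i j h hne hD hn
      by_cases hs : Function.Surjective i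
      · obtain ⟨b⟩ := hne
        exact Relation.EqvGen.rel _ _ ⟨hD, h.planar_iff.1 hD, D, b, mk4_overArc_refl D b,
          mk4_overArc_bij h hs b⟩
      · obtain ⟨D1, i1, j1, p, hsub, hover, hlt⟩ := mk4_step h hs
        have hD' := h.planar_iff.1 hD
        have hD1 := hsub.planar_iff.2 hD'
        have h1 : Isotopic D D1 := Relation.EqvGen.rel _ _ ⟨hD, hD1, D, p,
          mk4_overArc_refl D p, hover⟩
        have hne1 : Nonempty D1.P := by
          have : 0 < Nat.card D1.P := by omega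
          exact (Nat.card_pos_iff.1 this).1
        refine h1.trans (ih D1 i1 j1 hsub hne1 hD1 ?_)
        omega
  exact key _ D i j h hne hD le_rfl

end Pool.Agent.Lib.MP_b7a6eb_gt
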