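import Pool.Agent.Lib.MP_b7a6eb_gt.Basic

namespace Pool.Agent.Lib.MP_b7a6eb_gt

open Equiv Equiv.Perm

theorem mk1_lab_range {D D' : Diagram} {i : D.P → D'.P} {j : D.V ≃ D'.V}
    (hcr : ∀ v x, D'.cr (j v, x) = i (D.cr (v, x))) {q : D'.P} (hq : q ∉ Set.range i) :
    D'.lab q = none := by
  rw [D'.lab_eq_none]
  rintro ⟨w, x⟩ h
  apply hq
  refine ⟨D.cr (j.symm w, x), ?_⟩
  rw [← hcr, Equiv.apply_symm_apply, h]

theorem mk1_osw {D D' : Diagram} {i : D.P → D'.P} {j : D.V ≃ D'.V}
    (hi : Function.Injective i)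
    (hcr : ∀ v x, D'.cr (j v, x) = i (D.cr (v, x))) (S : Set D.V) (p : D.P) :
    D'.osw (j '' S) (i p) = i (D.osw S p) := by
  rcases hp : D.lab p with _ | ⟨v, x⟩
  · rw [D.osw_marker S hp, D'.osw_marker]
    rw [D'.lab_eq_none]
    rintro ⟨w, x⟩ h
    have h2 : i (D.cr (j.symm w, x)) = i p := by
      rw [← hcr, Equiv.apply_symm_apply, h]
    have h3 := hi h2
    exact (D.lab_eq_none.1 hp) _ h3
  · have h := D.cr_of_lab hp
    rw [← h, ← hcr]
    by_cases hv : v ∈ S
    · have hv' : j v ∈ j '' S := Set.mem_image_of_mem _ hv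
      rw [D.osw_cr_mem hv, D'.osw_cr_mem hv', hcr]
    · have hv' : j v ∉ j '' S := by
        rintro ⟨v', hv', he⟩
        rw [j.injective he] at hv'
        exact hv hv'
      rw [D.osw_cr_not_mem hv, D'.osw_cr_not_mem hv', hcr]

/-- [MK1] -/
theorem psub_thr_change {D D' : Diagram} {i : D.P → D'.P} {j : D.V ≃ D'.V}
    (hcr : ∀ v x, D'.cr (j v, x) = i (D.cr (v, x))) (S S' : Set D.V)
    (h : PSub (D.thr S) (D'.thr (j '' S)) i) : PSub (D.thr S') (D'.thr (j '' S')) i := by
  have hi := h.inj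
  set g := D'.thr (j '' S) with hg
  set g' := D'.thr (j '' S') with hg'
  -- outside the range the two maps agree
  have hout : ∀ q, q ∉ Set.range i → g' q = g q := by
    intro q hq
    have hl := mk1_lab_range hcr hq
    rw [hg, hg', D'.thr_apply, D'.thr_apply, D'.osw_marker _ hl, D'.osw_marker _ hl]
  have hfirst : ∀ p q, D.osw S q = D.osw S' p → g' (i p) = g (i q) := by
    intro p q hpq
    rw [hg, hg', D'.thr_apply, D'.thr_apply, mk1_osw hi hcr, mk1_osw hi hcr, hpq]
  refine ⟨hi, ?_, ?_⟩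
  · intro p
    set q := D.osw S (D.osw S' p) with hq
    have hq1 : D.osw S q = D.osw S' p := D.osw_osw S _
    obtain ⟨n, hn1, hn2⟩ := h.step q
    have hk : ∀ k, k ≤ n → (g' ^ (k + 1)) (i p) = (g ^ (k + 1)) (i q) := by
      intro k
      induction k with
      | zero =>
        intro _
        simpa using hfirst p q hq1
      | succ k ih =>
        intro hk
        have h1 := ih (by omega)
        rw [pow_succ', Perm.mul_apply, h1, hout _ (hn2 k (by omega)), ← Perm.mul_apply,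
          ← pow_succ']
    refine ⟨n, ?_, ?_⟩
    · rw [hk n le_rfl, hn1, D.thr_apply, D.thr_apply, hq1]
    · intro k hkn
      rw [hk k (by omega)]
      exact hn2 k hkn
  · have key : ∀ (m : ℕ) (p : D.P), ∃ p', g'.SameCycle (i p') ((g ^ m) (i p)) := by
      intro m p
      induction m with
      | zero => exact ⟨p, by simpa using SameCycle.refl g' (i p)⟩
      | succ m ih =>
        obtain ⟨p', hp'⟩ := ih
        rw [pow_succ', Perm.mul_apply]
        by_cases hr : (g ^ m) (i p) ∈ Set.range i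
        · obtain ⟨p0, hp0⟩ := hr
          refine ⟨D.osw S' (D.osw S p0), ?_⟩
          rw [← hp0, ← hfirst (D.osw S' (D.osw S p0)) p0 (D.osw_osw S' _).symm]
          exact ⟨1, by simp⟩
        · refine ⟨p', ?_⟩
          rw [← hout _ hr]
          exact hp'.trans ⟨1, by simp⟩
    intro q
    obtain ⟨p, hp⟩ := h.cover q
    have := D'.finP
    obtain ⟨m, hm⟩ := hp.exists_nat_pow_eq
    obtain ⟨p', hp'⟩ := key m p
    rw [hm] at hp'
    exact ⟨p', hp'⟩

/-- [MK1] -/
theorem Diagram.thr_empty (D : Diagram) : D.thr ∅ = D.next := by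
  ext p
  rw [D.thr_apply]
  rcases hp : D.lab p with _ | ⟨v, x⟩
  · rw [D.osw_marker _ hp]
  · rw [← D.cr_of_lab hp, D.osw_cr_not_mem (Set.notMem_empty v)]

/-- [MK1] -/
theorem MSub.thr {D D' : Diagram} {i : D.P → D'.P} {j : D.V ≃ D'.V} (h : MSub D D' i j)
    (S : Set D.V) : PSub (D.thr S) (D'.thr (j '' S)) i := by
  refine psub_thr_change h.cr ∅ S ?_
  rw [Set.image_empty, D.thr_empty, D'.thr_empty]
  exact h.psub

/-- [MK1] to verify `MSub` it is enough to look at the Seifert circles -/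
theorem MSub.of_seif {D D' : Diagram} {i : D.P → D'.P} {j : D.V ≃ D'.V}
    (hcr : ∀ v x, D'.cr (j v, x) = i (D.cr (v, x))) (hs : ∀ v, D'.sign (j v) = D.sign v)
    (h : PSub D.seif D'.seif i) : MSub D D' i j := by
  refine ⟨?_, hcr, hs⟩
  have h1 : PSub (D.thr Set.univ) (D'.thr (j '' Set.univ)) i := by
    rw [Set.image_univ, j.surjective.range_eq]
    exact h
  have h2 := psub_thr_change hcr Set.univ ∅ h1
  rwa [Set.image_empty, D.thr_empty, D'.thr_empty] at h2

/-- [MK1] isomorphic diagrams -/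
theorem MSub.of_equiv {D D' : Diagram} (e : D.P ≃ D'.P) (j : D.V ≃ D'.V)
    (hn : ∀ p, D'.next (e p) = e (D.next p))
    (hcr : ∀ v x, D'.cr (j v, x) = e (D.cr (v, x))) (hs : ∀ v, D'.sign (j v) = D.sign v) :
    MSub D D' e j := by
  refine ⟨⟨e.injective, ?_, ?_⟩, hcr, hs⟩
  · intro p
    exact ⟨0, by simpa using hn p, fun k hk => by omega⟩
  · intro q
    exact ⟨e.symm q, by rw [Equiv.apply_symm_apply]⟩

end Pool.Agent.Lib.MP_b7a6eb_gt
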