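import Pool.Agent.Lib.MP_b7a6eb_gt.Constr2
import Pool.Agent.Lib.MP_b7a6eb_gt.MK1

namespace Pool.Agent.Lib.MP_b7a6eb_gt

open Equiv Equiv.Perm

/-- [SP1] -/
theorem closure_iso_closureN {n : ℕ} (w : Word n) :
    ∃ (i : (closure n w).P → (closureN w.length n (fun k => w[k]?)).P)
      (j : (closure n w).V ≃ (closureN w.length n (fun k => w[k]?)).V), MSub _ _ i j := by
  have hst : ∀ k : Fin (w.length + 1),
      stepN w.length (fun k => w[k]?) k.val = stepPerm w k := by
    intro k
    unfold stepN stepPerm
    split_ifs with h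
    · have h1 : w[k.val]? = some (w.get ⟨k.val, h⟩) := by
        simp [List.getElem?_eq_getElem h]
      dsimp only
      rw [h1]
    · rfl
  have hget : ∀ (v : Fin w.length) (h : (w[v.val]?).isSome = true),
      (w[v.val]?).get h = w.get v := by
    intro v h
    simp
  refine ⟨_, _, MSub.of_equiv (D := closure n w) (D' := closureN w.length n (fun k => w[k]?))
    (Equiv.refl (Fin (w.length + 1) × Fin (n + 1)))
    ⟨fun v : Fin w.length => (⟨v, by simp⟩ :
        {k : Fin w.length // ((fun k : ℕ => w[k]?) k.val).isSome = true}),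
      fun v => v.val, fun v => rfl, fun v => rfl⟩ ?_ ?_ ?_⟩
  · rintro ⟨k, j⟩
    exact Prod.ext rfl (congrArg (fun f : Perm (Fin (n + 1)) => f j) (hst k))
  · intro v x
    change ((v : Fin w.length).castSucc, if x = ((w[v.val]?).get _).2 then
      ((w[v.val]?).get _).1.castSucc else ((w[v.val]?).get _).1.succ) =
      ((v : Fin w.length).castSucc, if x = (w.get v).2 then (w.get v).1.castSucc
        else (w.get v).1.succ)
    rw [hget]
  · intro v
    change ((w[v.val]?).get _).2 = (w.get v).2
    rw [hget]

end Pool.Agent.Lib.MP_b7a6eb_gt
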