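import Pool.Agent.Lib.MP_b7a6eb_gt.Constr2

namespace Pool.Agent.Lib.MP_b7a6eb_gt

open Equiv Equiv.Perm

/-- new time of an old time -/
def sp2t (a k : ℕ) : ℕ := if k < a then k else k + 1

/-- new slots -/
def sp2c {n : ℕ} (c : ℕ → Option (Fin n × Bool)) (a : ℕ) : ℕ → Option (Fin n × Bool) :=
  fun k => if k < a then c k else if k = a then none else c (k - 1)

lemma sp2c_t {n : ℕ} (c : ℕ → Option (Fin n × Bool)) (a k : ℕ) : sp2c c a (sp2t a k) = c k := by
  unfold sp2c sp2t
  split_ifs <;> first | rfl | omega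

lemma sp2t_ne (a k : ℕ) : sp2t a k ≠ a := by
  unfold sp2t
  split_ifs <;> omega

lemma sp2t_inj {a k k' : ℕ} (h : sp2t a k = sp2t a k') : k = k' := by
  unfold sp2t at h
  split_ifs at h <;> omega

lemma sp2t_surj {a k' : ℕ} (h : k' ≠ a) :
    ∃ k, sp2t a k = k' ∧ k = if k' < a then k' else k' - 1 := by
  refine ⟨_, ?_, rfl⟩
  unfold sp2t
  split_ifs <;> omega

lemma sp2_step {n : ℕ} (c : ℕ → Option (Fin n × Bool)) {a m : ℕ} (ha : a ≤ m) (k : ℕ) :
    stepN (m + 1) (sp2c c a) (sp2t a k) = stepN m c k := by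
  have h1 : sp2t a k < m + 1 ↔ k < m := by
    unfold sp2t
    split_ifs <;> omega
  unfold stepN
  rw [sp2c_t]
  simp only [h1]

lemma sp2_step_a {n : ℕ} (c : ℕ → Option (Fin n × Bool)) {a m : ℕ} :
    stepN (m + 1) (sp2c c a) a = 1 := by
  have h : sp2c c a a = none := by
    unfold sp2c
    simp
  unfold stepN
  rw [h]
  simp

lemma sp2_rot {m : ℕ} (k : Fin (m + 1)) :
    (k.val < m ∧ (finRotate (m + 1) k).val = k.val + 1) ∨
      (k.val = m ∧ (finRotate (m + 1) k).val = 0) := by
  rcases Nat.lt_or_ge k.val m with h | h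
  · left
    refine ⟨h, ?_⟩
    rw [finRotate_of_lt h]
  · right
    have h2 : k = Fin.last m := Fin.ext (by have := k.2; simp; omega)
    subst h2
    simp

/-- new points of the old points -/
def sp2i {m n : ℕ} (c : ℕ → Option (Fin n × Bool)) (a : ℕ) (ha : a ≤ m)
    (p : (closureN m n c).P) : (closureN (m + 1) n (sp2c c a)).P :=
  (⟨sp2t a p.1.val, by have := p.1.2; unfold sp2t; split_ifs <;> omega⟩, p.2)

/-- new crossings of the old crossings -/
def sp2j {m n : ℕ} (c : ℕ → Option (Fin n × Bool)) (a : ℕ) (ha : a ≤ m)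
    (v : (closureN m n c).V) : (closureN (m + 1) n (sp2c c a)).V :=
  ⟨⟨sp2t a v.val.val, by have := v.val.2; unfold sp2t; split_ifs <;> omega⟩, by
    dsimp only
    rw [sp2c_t]
    exact v.2⟩

lemma sp2j_bij {m n : ℕ} (c : ℕ → Option (Fin n × Bool)) (a : ℕ) (ha : a ≤ m) :
    Function.Bijective (sp2j (m := m) c a ha) := by
  constructor
  · intro v w h
    have h1 : sp2t a v.val.val = sp2t a w.val.val := congrArg (fun x => x.val.val) h
    exact Subtype.ext (Fin.ext (sp2t_inj h1))
  · rintro ⟨⟨k', hk'⟩, hs⟩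
    have hka : k' ≠ a := by
      rintro rfl
      unfold sp2c at hs
      simp at hs
    obtain ⟨k, h1, h2⟩ := sp2t_surj hka
    have hkm : k < m := by
      rw [h2]
      split_ifs <;> omega
    subst h1
    refine ⟨⟨⟨k, hkm⟩, ?_⟩, rfl⟩
    dsimp only at hs ⊢
    rw [sp2c_t] at hs
    exact hs

lemma sp2_get {m n : ℕ} (c : ℕ → Option (Fin n × Bool)) (a : ℕ) (ha : a ≤ m)
    (v : (closureN m n c).V) :
    (sp2c c a (sp2j c a ha v).val.val).get (sp2j c a ha v).2 = (c v.val.val).get v.2 := by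
  apply Option.some_injective
  rw [Option.some_get, Option.some_get]
  exact sp2c_t c a v.val.val

lemma sp2_main {m n : ℕ} (c : ℕ → Option (Fin n × Bool)) (a : ℕ) (ha : a ≤ m) :
    MSub (closureN m n c) (closureN (m + 1) n (sp2c c a)) (sp2i c a ha)
      (Equiv.ofBijective _ (sp2j_bij c a ha)) := by
  have hnx : ∀ (k : Fin (m + 1)) (j : Fin (n + 1)),
      (closureN (m + 1) n (sp2c c a)).next (sp2i c a ha (k, j)) =
        (finRotate (m + 2) (sp2i c a ha (k, j)).1, stepN m c k.val j) := by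
    intro k j
    refine Prod.ext rfl ?_
    change stepN (m + 1) (sp2c c a) (sp2t a k.val) j = stepN m c k.val j
    rw [sp2_step c ha]
  have hnx2 : ∀ (j : Fin (n + 1)),
      (closureN (m + 1) n (sp2c c a)).next ((⟨a, by omega⟩ : Fin (m + 2)), j) =
        ((⟨a + 1, by omega⟩ : Fin (m + 2)), j) := by
    intro j
    refine Prod.ext ?_ ?_
    · apply Fin.ext
      change (finRotate (m + 2) (⟨a, by omega⟩ : Fin (m + 2))).val = a + 1
      rcases sp2_rot (⟨a, by omega⟩ : Fin (m + 2)) with ⟨_, h⟩ | ⟨h, _⟩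
      · exact h
      · change a = m + 1 at h
        omega
    · change stepN (m + 1) (sp2c c a) a j = j
      rw [sp2_step_a]
      rfl
  have hran : ∀ j : Fin (n + 1),
      (((⟨a, by omega⟩ : Fin (m + 2)), j) : (closureN (m + 1) n (sp2c c a)).P) ∉
        Set.range (sp2i c a ha) := by
    rintro j ⟨p, hp⟩
    have h1 : sp2t a p.1.val = a := congrArg (fun x : Fin (m + 2) × Fin (n + 1) => x.1.val) hp
    exact sp2t_ne a p.1.val h1
  refine ⟨⟨?_, ?_, ?_⟩, ?_, ?_⟩
  · intro p q h
    have h1 : sp2t a p.1.val = sp2t a q.1.val :=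
      congrArg (fun x : Fin (m + 2) × Fin (n + 1) => x.1.val) h
    have h2 : p.2 = q.2 := congrArg (fun x : Fin (m + 2) × Fin (n + 1) => x.2) h
    exact Prod.ext (Fin.ext (sp2t_inj h1)) h2
  · rintro ⟨k, j⟩
    have hk2 := k.2
    have hE : (sp2i c a ha (k, j)).1.val = sp2t a k.val := rfl
    by_cases hr : (finRotate (m + 2) (sp2i c a ha (k, j)).1).val = a
    · refine ⟨1, ?_, ?_⟩
      · have h1 : ((closureN (m + 1) n (sp2c c a)).next ^ (1 + 1)) (sp2i c a ha (k, j)) =
            (closureN (m + 1) n (sp2c c a)).next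
              ((closureN (m + 1) n (sp2c c a)).next (sp2i c a ha (k, j))) := by
          rw [pow_succ, pow_one, Perm.mul_apply]
        rw [h1, hnx k j]
        have h2 : finRotate (m + 2) (sp2i c a ha (k, j)).1 = ⟨a, by omega⟩ := Fin.ext hr
        rw [h2, hnx2]
        refine Prod.ext ?_ rfl
        apply Fin.ext
        change a + 1 = sp2t a (finRotate (m + 1) k).val
        rcases sp2_rot (sp2i c a ha (k, j)).1 with ⟨h3, h4⟩ | ⟨h3, h4⟩ <;>
          rcases sp2_rot k with ⟨h5, h6⟩ | ⟨h5, h6⟩ <;>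
          rw [hE] at h3 <;> rw [hr] at h4 <;> rw [h6] <;>
          (try rw [hE] at h4) <;>
          unfold sp2t at * <;> split_ifs at * <;> omega
      · intro t ht
        have h3 : t = 0 := by omega
        subst h3
        have h1 : ((closureN (m + 1) n (sp2c c a)).next ^ (0 + 1)) (sp2i c a ha (k, j)) =
            (closureN (m + 1) n (sp2c c a)).next (sp2i c a ha (k, j)) := by
          rw [zero_add, pow_one]
        rw [h1, hnx k j]
        have h2 : finRotate (m + 2) (sp2i c a ha (k, j)).1 = ⟨a, by omega⟩ := Fin.ext hr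
        rw [h2]
        exact hran _
    · refine ⟨0, ?_, fun t ht => by omega⟩
      have h1 : ((closureN (m + 1) n (sp2c c a)).next ^ (0 + 1)) (sp2i c a ha (k, j)) =
          (closureN (m + 1) n (sp2c c a)).next (sp2i c a ha (k, j)) := by
        rw [zero_add, pow_one]
      rw [h1, hnx k j]
      refine Prod.ext ?_ rfl
      apply Fin.ext
      change (finRotate (m + 2) (sp2i c a ha (k, j)).1).val = sp2t a (finRotate (m + 1) k).val
      rcases sp2_rot (sp2i c a ha (k, j)).1 with ⟨h3, h4⟩ | ⟨h3, h4⟩ <;>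
        rcases sp2_rot k with ⟨h5, h6⟩ | ⟨h5, h6⟩ <;>
        rw [hE] at h3 <;> (try rw [hE] at h4) <;> rw [h4] at hr ⊢ <;> rw [h6] <;>
        unfold sp2t at * <;> split_ifs at * <;> omega
  · rintro ⟨k', j⟩
    by_cases hk : k'.val = a
    · refine ⟨((⟨a, by omega⟩ : Fin (m + 1)), j), ?_⟩
      have h2 : ((k', j) : (closureN (m + 1) n (sp2c c a)).P) =
          ((⟨a, by omega⟩ : Fin (m + 2)), j) := Prod.ext (Fin.ext hk) rfl
      rw [h2]
      have h3 : sp2i c a ha (((⟨a, by omega⟩ : Fin (m + 1)), j) : (closureN m n c).P) =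
          ((⟨a + 1, by omega⟩ : Fin (m + 2)), j) := by
        refine Prod.ext ?_ rfl
        apply Fin.ext
        change sp2t a a = a + 1
        unfold sp2t
        simp
      rw [h3, ← hnx2]
      exact SameCycle.symm (sameCycle_apply_right.2 (SameCycle.refl _ _))
    · obtain ⟨k, h1, h2⟩ := sp2t_surj hk
      have hk2 := k'.2
      refine ⟨((⟨k, by rw [h2]; split_ifs <;> omega⟩ : Fin (m + 1)), j), ?_⟩
      have h3 : sp2i c a ha (((⟨k, by rw [h2]; split_ifs <;> omega⟩ : Fin (m + 1)), j) :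
          (closureN m n c).P) = (k', j) := Prod.ext (Fin.ext h1) rfl
      rw [h3]
  · intro v x
    refine Prod.ext rfl ?_
    change (if x = ((sp2c c a (sp2j c a ha v).val.val).get (sp2j c a ha v).2).2
      then ((sp2c c a (sp2j c a ha v).val.val).get (sp2j c a ha v).2).1.castSucc
      else ((sp2c c a (sp2j c a ha v).val.val).get (sp2j c a ha v).2).1.succ) =
      (if x = ((c v.val.val).get v.2).2 then ((c v.val.val).get v.2).1.castSucc
      else ((c v.val.val).get v.2).1.succ)
    rw [sp2_get]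
  · intro v
    change ((sp2c c a (sp2j c a ha v).val.val).get (sp2j c a ha v).2).2 =
      ((c v.val.val).get v.2).2
    rw [sp2_get]

/-- [SP2] insertion of an empty slot -/
theorem closureN_insert (m n : ℕ) (c : ℕ → Option (Fin n × Bool)) (a : ℕ) (ha : a ≤ m) :
    ∃ (i : (closureN m n c).P → (closureN (m + 1) n
        (fun k => if k < a then c k else if k = a then none else c (k - 1))).P)
      (j : (closureN m n c).V ≃ (closureN (m + 1) n
        (fun k => if k < a then c k else if k = a then none else c (k - 1))).V),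
      MSub _ _ i j :=
  ⟨_, _, sp2_main c a ha⟩

end Pool.Agent.Lib.MP_b7a6eb_gt
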