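import Pool.Agent.Lib.MP_b7a6eb_gt.Constr2
import Pool.Agent.Lib.MP_b7a6eb_gt.MK4
import Pool.Agent.Lib.MP_b7a6eb_gt.BR1
import Pool.Agent.Lib.MP_b7a6eb_gt.SP1
import Pool.Agent.Lib.MP_b7a6eb_gt.SP2

namespace Pool.Agent.Lib.MP_b7a6eb_gt

open Equiv Equiv.Perm

lemma sp2b_list {n : ℕ} (A : Word n) (L : List (Option (Fin n × Bool))) :
    (fun k : ℕ => ((A.map some ++ none :: L)[k]?).join) =
      fun k => if k < A.length then ((A.map some ++ L)[k]?).join
        else if k = A.length then none else ((A.map some ++ L)[k - 1]?).join := by
  funext k
  split_ifs with h1 h2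
  · rw [List.getElem?_append_left (by simpa using h1),
      List.getElem?_append_left (by simpa using h1)]
  · subst h2
    rw [List.getElem?_append_right (by simp)]
    simp
  · rw [List.getElem?_append_right (by simp; omega),
      List.getElem?_append_right (by simp; omega)]
    have h3 : k - (A.map some).length = (k - 1 - (A.map some).length) + 1 := by
      simp only [List.length_map]
      omega
    rw [h3, List.getElem?_cons_succ]

lemma sp2b_main {n : ℕ} (L : List (Option (Fin n × Bool))) : ∀ A : Word n,
    Isotopic (closure n (A ++ L.reduceOption))
      (closureN (A.length + L.length) n (fun k => ((A.map some ++ L)[k]?).join)) := by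
  induction L with
  | nil =>
    intro A
    obtain ⟨i, j, h⟩ := closure_iso_closureN A
    have hp : (closure n A).Planar := h.planar_iff.2 (closureN_planar _ _ _)
    have h1 := h.isotopic ⟨(⟨0, by omega⟩, ⟨0, by omega⟩)⟩ hp
    have h2 : (fun k : ℕ => ((A.map some ++ [])[k]?).join) = fun k => A[k]? := by
      funext k
      rw [List.append_nil, List.getElem?_map]
      cases A[k]? <;> rfl
    rw [List.reduceOption_nil, List.append_nil, h2]
    exact h1
  | cons x L ih =>
    intro A
    cases x with
    | some x =>
      have h1 := ih (A ++ [x])
      rw [List.reduceOption_cons_of_some]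
      have h2 : A ++ [x] ++ L.reduceOption = A ++ x :: L.reduceOption := by simp
      have h3 : (A ++ [x]).map some ++ L = A.map some ++ some x :: L := by simp
      have h4 : (A ++ [x]).length + L.length = A.length + (some x :: L).length := by
        simp only [List.length_append, List.length_cons, List.length_nil]
        omega
      rw [h2, h3, h4] at h1
      exact h1
    | none =>
      have h1 := ih A
      rw [List.reduceOption_cons_of_none]
      obtain ⟨i, j, h⟩ := closureN_insert (A.length + L.length) n
        (fun k => ((A.map some ++ L)[k]?).join) A.length (by omega)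
      have h2 := h.isotopic ⟨(⟨0, by omega⟩, ⟨0, by omega⟩)⟩ (closureN_planar _ _ _)
      have h3 := sp2b_list A L
      rw [← h3] at h2
      exact h1.trans h2

/-- [SP2b] -/
theorem isotopic_spaced {n : ℕ} (L : List (Option (Fin n × Bool))) :
    Isotopic (closure n L.reduceOption) (closureN L.length n (fun k => (L[k]?).join)) := by
  have h := sp2b_main L []
  simp only [List.nil_append, List.map_nil, List.length_nil, Nat.zero_add] at h
  exact h

end Pool.Agent.Lib.MP_b7a6eb_gt
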