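import Pool.Agent.Lib.MP_b7a6eb_gt.Constr2

namespace Pool.Agent.Lib.MP_b7a6eb_gt

open Equiv Equiv.Perm

/-- [SP3] Replacement of an over-arc `A`, in diagrams with the same points and successors. -/
theorem isotopic_of_arc {D D' : Diagram} (e : D.P ≃ D'.P)
    (hn : ∀ p, D'.next (e p) = e (D.next p)) (hD : D.Planar) (hD' : D'.Planar)
    (A : Set D.P) (b : D.P) (hb : b ∉ A)
    (hA : ∀ p, p ∉ A → p ≠ b → D.next p ∉ A)
    (hAb : ∀ p ∈ A, D.next.SameCycle b p)
    (hc : ∀ v, D.cr (v, false) ∉ A)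
    (hc' : ∀ v, e.symm (D'.cr (v, false)) ∉ A)
    (f : {v : D.V // D.cr (v, true) ∉ A} ≃ {v : D'.V // e.symm (D'.cr (v, true)) ∉ A})
    (hf : ∀ v x, D'.cr ((f v).val, x) = e (D.cr (v.val, x)))
    (hs : ∀ v, D'.sign (f v).val = D.sign v.val) : Isotopic D D' := by
  have hW : ∀ v ∈ {v : D.V | D.cr (v, true) ∉ A}, ∀ x, D.cr (v, x) ∈ Aᶜ := by
    intro v hv x
    cases x
    · exact hc v
    · exact hv
  have hnext : ∀ p : (Aᶜ : Set D.P), p.val ≠ b →
      (firstRet D.next Aᶜ p).val = D.next p.val := by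
    intro p hp
    have h1 : D.next p.val ∈ Aᶜ := hA p.val p.2 hp
    rw [firstRet_of_mem D.next Aᶜ p h1]
  have o1 : OverArc (D.restrict Aᶜ {v | D.cr (v, true) ∉ A} hW) ⟨b, hb⟩ D := by
    refine ⟨Subtype.val, Subtype.val, Subtype.val_injective, Subtype.val_injective,
      fun v x => rfl, fun v => rfl, ?_, ?_, ?_⟩
    · intro w hw
      have hwA : D.cr (w, true) ∈ A := by
        by_contra h
        exact hw ⟨⟨w, h⟩, rfl⟩
      refine ⟨?_, ⟨⟨D.cr (w, false), hc w⟩, rfl⟩⟩
      rintro ⟨p, hp⟩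
      apply p.2
      rw [hp]
      exact hwA
    · intro p hp
      exact (hnext p fun h => hp (Subtype.ext h)).symm
    · intro q hq
      have hqA : q ∈ A := by
        by_contra h
        exact hq ⟨⟨q, h⟩, rfl⟩
      exact hAb q hqA
  have o2 : OverArc (D.restrict Aᶜ {v | D.cr (v, true) ∉ A} hW) ⟨b, hb⟩ D' := by
    refine ⟨fun p => e p.val, fun v => (f v).val, ?_, ?_, ?_, ?_, ?_, ?_, ?_⟩
    · intro p q h
      exact Subtype.ext (e.injective h)
    · intro v w h
      exact f.injective (Subtype.ext h)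
    · intro v x
      exact hf v x
    · intro v
      exact hs v
    · intro w hw
      have hwA : e.symm (D'.cr (w, true)) ∈ A := by
        by_contra h
        apply hw
        refine ⟨f.symm ⟨w, h⟩, ?_⟩
        change (f (f.symm ⟨w, h⟩)).val = w
        rw [Equiv.apply_symm_apply]
      refine ⟨?_, ⟨⟨e.symm (D'.cr (w, false)), hc' w⟩, by simp⟩⟩
      rintro ⟨p, hp⟩
      apply p.2
      have h1 : e.symm (D'.cr (w, true)) = p.val := by rw [← hp]; simp
      rw [← h1]
      exact hwA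
    · intro p hp
      have h1 := hnext p fun h => hp (Subtype.ext h)
      change D'.next (e p.val) = e (firstRet D.next Aᶜ p).val
      rw [hn, h1]
    · intro q hq
      have hqA : e.symm q ∈ A := by
        by_contra h
        exact hq ⟨⟨e.symm q, h⟩, by simp⟩
      obtain ⟨k, hk⟩ := SameCycle.exists_nat_pow_eq (hAb _ hqA)
      refine ⟨(k : ℤ), ?_⟩
      have key : ∀ k : ℕ, (D'.next ^ k) (e b) = e ((D.next ^ k) b) := by
        intro k
        induction k with
        | zero => rfl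
        | succ k ih => rw [pow_succ', Perm.mul_apply, ih, hn, pow_succ', Perm.mul_apply]
      rw [zpow_natCast]
      change (D'.next ^ k) (e b) = q
      rw [key, hk, Equiv.apply_symm_apply]
  exact Relation.EqvGen.rel _ _ ⟨hD, hD', _, _, o1, o2⟩

end Pool.Agent.Lib.MP_b7a6eb_gt
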