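import Pool.Agent.Lib.MP_b7a6eb_gt.Constr2
import Pool.Agent.Lib.MP_b7a6eb_gt.BR1
import Pool.Agent.Lib.MP_b7a6eb_gt.SP3

namespace Pool.Agent.Lib.MP_b7a6eb_gt

open Equiv Equiv.Perm

/-- position of the strands relative to the time `lo`: the strand in position `j` at time `lo` is in
position `rho m c lo d j` at time `lo + d` -/
def rho {n : ℕ} (m : ℕ) (c : ℕ → Option (Fin n × Bool)) (lo : ℕ) : ℕ → Perm (Fin (n + 1))
  | 0 => 1
  | d + 1 => stepN m c (lo + d) * rho m c lo d

/-- position in which the over strand arrives at a letter -/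
def overPos {n : ℕ} (a : Fin n × Bool) : Fin (n + 1) := if a.2 = true then a.1.castSucc else a.1.succ

/-- position in which the under strand arrives at a letter -/
def underPos {n : ℕ} (a : Fin n × Bool) : Fin (n + 1) :=
  if a.2 = true then a.1.succ else a.1.castSucc

lemma sp4_inv {α : Type*} (f : Perm α) (x : α) : f⁻¹ (f x) = x := f.symm_apply_apply x

lemma sp4_ne {n : ℕ} (a : Fin n × Bool) : overPos a ≠ underPos a := by
  have key : a.1.castSucc ≠ a.1.succ := (Fin.castSucc_lt_succ (i := a.1)).ne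
  unfold overPos underPos
  split_ifs
  · exact key
  · exact key.symm

lemma sp4_over {m n : ℕ} {c : ℕ → Option (Fin n × Bool)} (v : (closureN m n c).V)
    {a : Fin n × Bool} (h : c v.val.val = some a) :
    (closureN m n c).cr (v, true) = (v.val.castSucc, overPos a) := by
  have h1 : (c v.val.val).get v.2 = a := by simp [h]
  have h2 : (closureN m n c).cr (v, true) = (v.val.castSucc,
    if true = ((c v.val.val).get v.2).2 then ((c v.val.val).get v.2).1.castSucc
    else ((c v.val.val).get v.2).1.succ) := rfl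
  rw [h2, h1]
  cases h3 : a.2 <;> simp [overPos, h3]

lemma sp4_under {m n : ℕ} {c : ℕ → Option (Fin n × Bool)} (v : (closureN m n c).V)
    {a : Fin n × Bool} (h : c v.val.val = some a) :
    (closureN m n c).cr (v, false) = (v.val.castSucc, underPos a) := by
  have h1 : (c v.val.val).get v.2 = a := by simp [h]
  have h2 : (closureN m n c).cr (v, false) = (v.val.castSucc,
    if false = ((c v.val.val).get v.2).2 then ((c v.val.val).get v.2).1.castSucc
    else ((c v.val.val).get v.2).1.succ) := rfl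
  rw [h2, h1]
  cases h3 : a.2 <;> simp [underPos, h3]

lemma sp4_sign {m n : ℕ} {c : ℕ → Option (Fin n × Bool)} (v : (closureN m n c).V)
    {a : Fin n × Bool} (h : c v.val.val = some a) :
    (closureN m n c).sign v = a.2 := by
  have h1 : (c v.val.val).get v.2 = a := by simp [h]
  have h2 : (closureN m n c).sign v = ((c v.val.val).get v.2).2 := rfl
  rw [h2, h1]

lemma sp4_some {m n : ℕ} {c : ℕ → Option (Fin n × Bool)} (v : (closureN m n c).V) :
    ∃ a, c v.val.val = some a := Option.isSome_iff_exists.1 v.2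

lemma sp4_next {m n : ℕ} (c : ℕ → Option (Fin n × Bool)) (k : Fin (m + 1)) (j : Fin (n + 1)) :
    (closureN m n c).next (k, j) = (finRotate (m + 1) k, stepN m c k.val j) := rfl

lemma sp4_rot {m : ℕ} (k : Fin (m + 1)) :
    (k.val < m ∧ (finRotate (m + 1) k).val = k.val + 1) ∨
      (k.val = m ∧ (finRotate (m + 1) k).val = 0) := by
  rcases Nat.lt_or_ge k.val m with h | h
  · left
    refine ⟨h, ?_⟩
    rw [finRotate_of_lt h]
  · right
    have h2 : k = Fin.last m := Fin.ext (by have := k.2; simp; omega)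
    subst h2
    simp

/-- change of the positions in the window -/
def sp4E {n : ℕ} (m : ℕ) (c c' : ℕ → Option (Fin n × Bool)) (lo d : ℕ) (k : ℕ) :
    Perm (Fin (n + 1)) :=
  if lo ≤ k ∧ k < lo + d then rho m c' lo (k - lo) * (rho m c lo (k - lo))⁻¹ else 1

lemma sp4_E_step {m n : ℕ} {c c' : ℕ → Option (Fin n × Bool)} {lo d : ℕ}
    (hout : ∀ k, k < lo ∨ lo + d ≤ k → c k = c' k)
    (hrho : rho m c lo d = rho m c' lo d) (k : ℕ) :
    sp4E m c c' lo d (k + 1) * stepN m c k = stepN m c' k * sp4E m c c' lo d k := by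
  have hst : ∀ k, k < lo ∨ lo + d ≤ k → stepN m c k = stepN m c' k := by
    intro k hk
    unfold stepN
    rw [hout k hk]
  rcases Nat.lt_or_ge k lo with h | h
  · have h1 : sp4E m c c' lo d k = 1 := by
      unfold sp4E
      rw [if_neg (by omega)]
    have h2 : sp4E m c c' lo d (k + 1) = 1 := by
      unfold sp4E
      split_ifs with h3
      · have h4 : k + 1 - lo = 0 := by omega
        rw [h4]
        simp [rho]
      · rfl
    rw [h1, h2, hst k (Or.inl h), one_mul, mul_one]
  · rcases Nat.lt_or_ge k (lo + d) with h' | h'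
    · have h1 : sp4E m c c' lo d k = rho m c' lo (k - lo) * (rho m c lo (k - lo))⁻¹ := by
        unfold sp4E
        rw [if_pos ⟨h, h'⟩]
      have h2 : sp4E m c c' lo d (k + 1) =
          rho m c' lo (k + 1 - lo) * (rho m c lo (k + 1 - lo))⁻¹ := by
        unfold sp4E
        split_ifs with h3
        · rfl
        · have h4 : k + 1 - lo = d := by omega
          rw [h4, hrho, mul_inv_cancel]
      have h5 : k + 1 - lo = (k - lo) + 1 := by omega
      have h6 : lo + (k - lo) = k := by omega
      rw [h1, h2, h5]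
      simp only [rho, h6]
      group
    · have h1 : sp4E m c c' lo d k = 1 := by
        unfold sp4E
        rw [if_neg (by omega)]
      have h2 : sp4E m c c' lo d (k + 1) = 1 := by
        unfold sp4E
        rw [if_neg (by omega)]
      rw [h1, h2, hst k (Or.inr h'), one_mul, mul_one]

/-- the identification of the points -/
def sp4e {n : ℕ} (m : ℕ) (c c' : ℕ → Option (Fin n × Bool)) (lo d : ℕ) :
    (closureN m n c).P ≃ (closureN m n c').P :=
  Equiv.prodShear (Equiv.refl (Fin (m + 1))) (fun k => sp4E m c c' lo d k.val)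

lemma sp4e_apply {n : ℕ} (m : ℕ) (c c' : ℕ → Option (Fin n × Bool)) (lo d : ℕ) (k : Fin (m + 1))
    (j : Fin (n + 1)) : sp4e m c c' lo d (k, j) = (k, sp4E m c c' lo d k.val j) := rfl

lemma sp4e_symm {n : ℕ} (m : ℕ) (c c' : ℕ → Option (Fin n × Bool)) (lo d : ℕ) (k : Fin (m + 1))
    (j : Fin (n + 1)) :
    (sp4e m c c' lo d).symm (k, j) = (k, (sp4E m c c' lo d k.val)⁻¹ j) := rfl

lemma sp4e_next {m n : ℕ} {c c' : ℕ → Option (Fin n × Bool)} {lo d : ℕ} (hlo : 0 < lo)
    (hm : lo + d ≤ m) (hout : ∀ k, k < lo ∨ lo + d ≤ k → c k = c' k)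
    (hrho : rho m c lo d = rho m c' lo d) (p : (closureN m n c).P) :
    (closureN m n c').next (sp4e m c c' lo d p) =
      sp4e m c c' lo d ((closureN m n c).next p) := by
  obtain ⟨k, j⟩ := p
  rw [sp4_next, sp4e_apply]
  rw [sp4e_apply, sp4_next]
  refine Prod.ext rfl ?_
  change stepN m c' k.val (sp4E m c c' lo d k.val j) =
    sp4E m c c' lo d (finRotate (m + 1) k).val (stepN m c k.val j)
  rcases sp4_rot k with ⟨h1, h2⟩ | ⟨h1, h2⟩
  · rw [h2, ← Perm.mul_apply, ← Perm.mul_apply, sp4_E_step hout hrho]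
  · rw [h2, h1]
    have h3 : sp4E m c c' lo d m = 1 := by
      unfold sp4E
      rw [if_neg (by omega)]
    have h4 : sp4E m c c' lo d 0 = 1 := by
      unfold sp4E
      rw [if_neg (by omega)]
    rw [h3, h4]
    simp [stepN]

/-- the arc -/
def sp4A {n : ℕ} (m : ℕ) (c : ℕ → Option (Fin n × Bool)) (lo d : ℕ) (a0 : Fin (n + 1)) :
    Set (closureN m n c).P :=
  {p | lo ≤ p.1.val ∧ p.1.val < lo + d ∧ p.2 = rho m c lo (p.1.val - lo) a0}

lemma sp4_mem {m n : ℕ} {c : ℕ → Option (Fin n × Bool)} {lo d : ℕ} {a0 : Fin (n + 1)}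
    {k : Fin (m + 1)} {j : Fin (n + 1)} :
    (((k, j) : Fin (m + 1) × Fin (n + 1)) : (closureN m n c).P) ∈ sp4A m c lo d a0 ↔
      lo ≤ k.val ∧ k.val < lo + d ∧ j = rho m c lo (k.val - lo) a0 := Iff.rfl

lemma sp4_memE {m n : ℕ} {c c' : ℕ → Option (Fin n × Bool)} {lo d : ℕ} {a0 : Fin (n + 1)}
    {k : Fin (m + 1)} {j : Fin (n + 1)} :
    (sp4e m c c' lo d).symm (((k, j) : Fin (m + 1) × Fin (n + 1)) : (closureN m n c').P) ∈
      sp4A m c lo d a0 ↔
      lo ≤ k.val ∧ k.val < lo + d ∧ j = rho m c' lo (k.val - lo) a0 := by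
  rw [sp4e_symm]
  constructor
  · rintro ⟨h1, h2, h3⟩
    refine ⟨h1, h2, ?_⟩
    have h4 : (sp4E m c c' lo d k.val)⁻¹ j = rho m c lo (k.val - lo) a0 := h3
    unfold sp4E at h4
    rw [if_pos ⟨h1, h2⟩, mul_inv_rev, inv_inv, Perm.mul_apply] at h4
    have h5 := (rho m c lo (k.val - lo)).injective h4
    rw [Perm.inv_eq_iff_eq] at h5
    exact h5
  · rintro ⟨h1, h2, h3⟩
    refine ⟨h1, h2, ?_⟩
    change (sp4E m c c' lo d k.val)⁻¹ j = rho m c lo (k.val - lo) a0
    unfold sp4E
    rw [if_pos ⟨h1, h2⟩, mul_inv_rev, inv_inv, Perm.mul_apply, h3, sp4_inv]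

lemma sp4_cycle {m n : ℕ} (c : ℕ → Option (Fin n × Bool)) {lo d : ℕ} (hlo : 0 < lo)
    (hm : lo + d ≤ m) (a0 : Fin (n + 1)) (b : (closureN m n c).P)
    (hb : (closureN m n c).next b = ((⟨lo, by omega⟩ : Fin (m + 1)), a0)) (t : ℕ) (ht : t < d) :
    (closureN m n c).next.SameCycle b ((⟨lo + t, by omega⟩ : Fin (m + 1)), rho m c lo t a0) := by
  induction t with
  | zero =>
    have h1 : (closureN m n c).next.SameCycle b ((closureN m n c).next b) :=
      sameCycle_apply_right.2 (SameCycle.refl _ _)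
    rw [hb] at h1
    exact h1
  | succ t ih =>
    have h1 := ih (by omega)
    have h2 : (closureN m n c).next ((⟨lo + t, by omega⟩ : Fin (m + 1)), rho m c lo t a0) =
        ((⟨lo + (t + 1), by omega⟩ : Fin (m + 1)), rho m c lo (t + 1) a0) := by
      rw [sp4_next]
      refine Prod.ext ?_ rfl
      apply Fin.ext
      rcases sp4_rot (⟨lo + t, by omega⟩ : Fin (m + 1)) with ⟨_, h4⟩ | ⟨h3, _⟩
      · rw [h4]
        rfl
      · exfalso
        change lo + t = m at h3
        omega
    rw [← h2]
    exact sameCycle_apply_right.2 h1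

/-- [SP4] replacement of an over-arc in the time window `[lo, lo + d)`; the arc is the strand `a0` -/
theorem closureN_move (m n : ℕ) (c c' : ℕ → Option (Fin n × Bool)) (lo d : ℕ) (hlo : 0 < lo)
    (hm : lo + d ≤ m) (hout : ∀ k, k < lo ∨ lo + d ≤ k → c k = c' k)
    (hrho : rho m c lo d = rho m c' lo d) (a0 : Fin (n + 1))
    (h1 : ∀ k < d, ∀ a, c (lo + k) = some a →
      rho m c lo k a0 = overPos a ∨ ∃ a' x y, x ≠ a0 ∧ y ≠ a0 ∧ c' (lo + k) = some a' ∧
        a'.2 = a.2 ∧ overPos a = rho m c lo k x ∧ overPos a' = rho m c' lo k x ∧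
        underPos a = rho m c lo k y ∧ underPos a' = rho m c' lo k y)
    (h2 : ∀ k < d, ∀ a', c' (lo + k) = some a' →
      rho m c' lo k a0 = overPos a' ∨ ∃ a x y, x ≠ a0 ∧ y ≠ a0 ∧ c (lo + k) = some a ∧
        a'.2 = a.2 ∧ overPos a = rho m c lo k x ∧ overPos a' = rho m c' lo k x ∧
        underPos a = rho m c lo k y ∧ underPos a' = rho m c' lo k y) :
    Isotopic (closureN m n c) (closureN m n c') := by
  have h1' : ∀ (k : ℕ), lo ≤ k → k < lo + d → ∀ a, c k = some a →
      rho m c lo (k - lo) a0 = overPos a ∨ ∃ a' x y, x ≠ a0 ∧ y ≠ a0 ∧ c' k = some a' ∧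
        a'.2 = a.2 ∧ overPos a = rho m c lo (k - lo) x ∧ overPos a' = rho m c' lo (k - lo) x ∧
        underPos a = rho m c lo (k - lo) y ∧ underPos a' = rho m c' lo (k - lo) y := by
    intro k hk1 hk2 a ha
    have h := h1 (k - lo) (by omega) a (by rw [Nat.add_sub_cancel' hk1]; exact ha)
    rw [Nat.add_sub_cancel' hk1] at h
    exact h
  have h2' : ∀ (k : ℕ), lo ≤ k → k < lo + d → ∀ a', c' k = some a' →
      rho m c' lo (k - lo) a0 = overPos a' ∨ ∃ a x y, x ≠ a0 ∧ y ≠ a0 ∧ c k = some a ∧
        a'.2 = a.2 ∧ overPos a = rho m c lo (k - lo) x ∧ overPos a' = rho m c' lo (k - lo) x ∧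
        underPos a = rho m c lo (k - lo) y ∧ underPos a' = rho m c' lo (k - lo) y := by
    intro k hk1 hk2 a ha
    have h := h2 (k - lo) (by omega) a (by rw [Nat.add_sub_cancel' hk1]; exact ha)
    rw [Nat.add_sub_cancel' hk1] at h
    exact h
  obtain ⟨b, hb⟩ : ∃ b : (closureN m n c).P,
      (closureN m n c).next b = ((⟨lo, by omega⟩ : Fin (m + 1)), a0) :=
    ⟨(closureN m n c).prev ((⟨lo, by omega⟩ : Fin (m + 1)), a0), Diagram.next_prev _ _⟩
  have hbt : b.1.val + 1 = lo := by
    obtain ⟨k, j⟩ := b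
    rw [sp4_next] at hb
    have h3 : finRotate (m + 1) k = (⟨lo, by omega⟩ : Fin (m + 1)) := congrArg Prod.fst hb
    have h4 : (finRotate (m + 1) k).val = lo := by rw [h3]
    rcases sp4_rot k with ⟨_, h6⟩ | ⟨_, h6⟩
    · change k.val + 1 = lo
      omega
    · omega
  -- the two directions of the correspondence of the crossings
  have hfw : ∀ v : (closureN m n c).V, (closureN m n c).cr (v, true) ∉ sp4A m c lo d a0 →
      ∃ h : (c' v.val.val).isSome = true,
        (∀ x, (closureN m n c').cr (⟨v.val, h⟩, x) =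
          sp4e m c c' lo d ((closureN m n c).cr (v, x))) ∧
        (closureN m n c').sign ⟨v.val, h⟩ = (closureN m n c).sign v := by
    intro v hv
    obtain ⟨a, ha⟩ := sp4_some v
    rcases Classical.em (lo ≤ v.val.val ∧ v.val.val < lo + d) with hw | hw
    · rcases h1' v.val.val hw.1 hw.2 a ha with h3 | ⟨a', x, y, hx, hy, h4, h5, h6, h7, h8, h9⟩
      · exfalso
        apply hv
        rw [sp4_over v ha]
        exact ⟨hw.1, hw.2, h3.symm⟩
      · have hE : sp4E m c c' lo d v.val.val =
            rho m c' lo (v.val.val - lo) * (rho m c lo (v.val.val - lo))⁻¹ := by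
          unfold sp4E
          rw [if_pos hw]
        refine ⟨by rw [h4]; rfl, ?_, ?_⟩
        · intro z
          cases z
          · rw [sp4_under v ha, sp4_under _ h4, sp4e_apply]
            refine Prod.ext rfl ?_
            change underPos a' = sp4E m c c' lo d v.val.val (underPos a)
            rw [hE, h8, h9, Perm.mul_apply, sp4_inv]
          · rw [sp4_over v ha, sp4_over _ h4, sp4e_apply]
            refine Prod.ext rfl ?_
            change overPos a' = sp4E m c c' lo d v.val.val (overPos a)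
            rw [hE, h6, h7, Perm.mul_apply, sp4_inv]
        · rw [sp4_sign v ha, sp4_sign _ h4, h5]
    · have h3 : c' v.val.val = some a := by
        rw [← hout v.val.val (by omega)]; exact ha
      have hE : sp4E m c c' lo d v.val.val = 1 := by
        unfold sp4E
        rw [if_neg hw]
      refine ⟨by rw [h3]; rfl, ?_, ?_⟩
      · intro z
        cases z
        · rw [sp4_under v ha, sp4_under _ h3, sp4e_apply]
          refine Prod.ext rfl ?_
          change underPos a = sp4E m c c' lo d v.val.val (underPos a)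
          rw [hE, Perm.one_apply]
        · rw [sp4_over v ha, sp4_over _ h3, sp4e_apply]
          refine Prod.ext rfl ?_
          change overPos a = sp4E m c c' lo d v.val.val (overPos a)
          rw [hE, Perm.one_apply]
      · rw [sp4_sign v ha, sp4_sign _ h3]
  have hbw : ∀ v : (closureN m n c').V,
      (sp4e m c c' lo d).symm ((closureN m n c').cr (v, true)) ∉ sp4A m c lo d a0 →
      ∃ h : (c v.val.val).isSome = true,
        (closureN m n c).cr (⟨v.val, h⟩, true) ∉ sp4A m c lo d a0 := by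
    intro v hv
    obtain ⟨a', ha'⟩ := sp4_some v
    rw [sp4_over v ha'] at hv
    rcases Classical.em (lo ≤ v.val.val ∧ v.val.val < lo + d) with hw | hw
    · rcases h2' v.val.val hw.1 hw.2 a' ha' with h3 | ⟨a, x, y, hx, hy, h4, h5, h6, h7, h8, h9⟩
      · exfalso
        apply hv
        exact sp4_memE.2 ⟨hw.1, hw.2, h3.symm⟩
      · refine ⟨by rw [h4]; rfl, ?_⟩
        rw [sp4_over _ h4]
        rintro ⟨_, _, h10⟩
        change overPos a = rho m c lo (v.val.val - lo) a0 at h10
        rw [h6] at h10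
        exact hx ((rho m c lo (v.val.val - lo)).injective h10)
    · have h3 : c v.val.val = some a' := by
        rw [hout v.val.val (by omega)]; exact ha'
      refine ⟨by rw [h3]; rfl, ?_⟩
      rw [sp4_over _ h3]
      rintro ⟨h4, h5, _⟩
      exact hw ⟨h4, h5⟩
  have hfw2 : ∀ (v : (closureN m n c).V) (hv : (closureN m n c).cr (v, true) ∉ sp4A m c lo d a0),
      (sp4e m c c' lo d).symm ((closureN m n c').cr (⟨v.val, (hfw v hv).choose⟩, true)) ∉
        sp4A m c lo d a0 := by
    intro v hv
    rw [(hfw v hv).choose_spec.1 true, Equiv.symm_apply_apply]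
    exact hv
  refine isotopic_of_arc (sp4e m c c' lo d) (sp4e_next hlo hm hout hrho)
    (closureN_planar m n c) (closureN_planar m n c') (sp4A m c lo d a0) b ?_ ?_ ?_ ?_ ?_
    ⟨fun v => ⟨⟨v.val.val, (hfw v.val v.2).choose⟩, hfw2 v.val v.2⟩,
     fun v => ⟨⟨v.val.val, (hbw v.val v.2).choose⟩, (hbw v.val v.2).choose_spec⟩,
     fun v => rfl, fun v => rfl⟩
    ?_ ?_
  · rintro ⟨h3, _, _⟩
    omega
  · rintro ⟨k, j⟩ hp hpb hq
    rw [sp4_next] at hq
    obtain ⟨h3, h4, h5⟩ := hq
    change lo ≤ (finRotate (m + 1) k).val at h3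
    change (finRotate (m + 1) k).val < lo + d at h4
    change stepN m c k.val j = rho m c lo ((finRotate (m + 1) k).val - lo) a0 at h5
    rcases sp4_rot k with ⟨h6, h7⟩ | ⟨h6, h7⟩
    · rw [h7] at h3 h4 h5
      rcases Nat.lt_or_ge k.val lo with h8 | h8
      · have h9 : k.val + 1 - lo = 0 := by omega
        rw [h9] at h5
        apply hpb
        apply (closureN m n c).next.injective
        rw [hb, sp4_next]
        refine Prod.ext ?_ h5
        apply Fin.ext
        change (finRotate (m + 1) k).val = lo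
        omega
      · apply hp
        refine ⟨h8, by change k.val < lo + d; omega, ?_⟩
        change j = rho m c lo (k.val - lo) a0
        have h9 : k.val + 1 - lo = (k.val - lo) + 1 := by omega
        rw [h9] at h5
        simp only [rho] at h5
        rw [Nat.add_sub_cancel' h8, Perm.mul_apply] at h5
        exact (stepN m c k.val).injective h5
    · rw [h7] at h3
      omega
  · rintro ⟨k, j⟩ ⟨h3, h4, h5⟩
    change lo ≤ k.val at h3
    change k.val < lo + d at h4
    change j = rho m c lo (k.val - lo) a0 at h5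
    have h6 := sp4_cycle c hlo hm a0 b hb (k.val - lo) (by omega)
    have h7 : ((⟨lo + (k.val - lo), by omega⟩ : Fin (m + 1)), rho m c lo (k.val - lo) a0) =
        (k, j) := by
      refine Prod.ext ?_ h5.symm
      apply Fin.ext
      change lo + (k.val - lo) = k.val
      omega
    rw [h7] at h6
    exact h6
  · intro v hv
    obtain ⟨a, ha⟩ := sp4_some v
    rw [sp4_under v ha] at hv
    obtain ⟨h3, h4, h5⟩ := sp4_mem.1 hv
    change lo ≤ v.val.val at h3
    change v.val.val < lo + d at h4
    change underPos a = rho m c lo (v.val.val - lo) a0 at h5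
    rcases h1' v.val.val h3 h4 a ha with h6 | ⟨a', x, y, hx, hy, _, _, _, _, h8, _⟩
    · exact sp4_ne a (by rw [← h6, h5])
    · rw [h8] at h5
      exact hy ((rho m c lo (v.val.val - lo)).injective h5)
  · intro v hv
    obtain ⟨a', ha'⟩ := sp4_some v
    rw [sp4_under v ha'] at hv
    obtain ⟨h3, h4, h5⟩ := sp4_memE.1 hv
    change lo ≤ v.val.val at h3
    change v.val.val < lo + d at h4
    change underPos a' = rho m c' lo (v.val.val - lo) a0 at h5
    rcases h2' v.val.val h3 h4 a' ha' with h6 | ⟨a, x, y, hx, hy, _, _, _, _, _, h8⟩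
    · exact sp4_ne a' (by rw [← h6, h5])
    · rw [h8] at h5
      exact hy ((rho m c' lo (v.val.val - lo)).injective h5)
  · intro v x
    exact (hfw v.val v.2).choose_spec.1 x
  · intro v
    exact (hfw v.val v.2).choose_spec.2

end Pool.Agent.Lib.MP_b7a6eb_gt
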