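import Pool.Agent.Lib.MP_b7a6eb_gt.Constr2
import Pool.Agent.Lib.MP_b7a6eb_gt.Braid
import Pool.Agent.Lib.MP_b7a6eb_gt.SP2b
import Pool.Agent.Lib.MP_b7a6eb_gt.SP4

namespace Pool.Agent.Lib.MP_b7a6eb_gt

open Equiv Equiv.Perm

/-- the exchange of positions at an optional letter -/
def br6_st {n : ℕ} (a : Option (Fin n × Bool)) : Perm (Fin (n + 1)) :=
  match a with
  | none => 1
  | some a => Equiv.swap a.1.castSucc a.1.succ

/-- positions in a window -/
def br6_rho {n : ℕ} (W : List (Option (Fin n × Bool))) : ℕ → Perm (Fin (n + 1))
  | 0 => 1
  | k + 1 => br6_st (W[k]?).join * br6_rho W k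

/-- replacement of a window -/
lemma br6_window {n : ℕ} (x y : Word n) (W W' : List (Option (Fin n × Bool)))
    (hlen : W.length = W'.length) (hrho : br6_rho W W.length = br6_rho W' W.length)
    (a0 : Fin (n + 1))
    (h1 : ∀ k < W.length, ∀ a, (W[k]?).join = some a →
      br6_rho W k a0 = overPos a ∨ ∃ a' x y, x ≠ a0 ∧ y ≠ a0 ∧ (W'[k]?).join = some a' ∧
        a'.2 = a.2 ∧ overPos a = br6_rho W k x ∧ overPos a' = br6_rho W' k x ∧
        underPos a = br6_rho W k y ∧ underPos a' = br6_rho W' k y)
    (h2 : ∀ k < W.length, ∀ a', (W'[k]?).join = some a' →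
      br6_rho W' k a0 = overPos a' ∨ ∃ a x y, x ≠ a0 ∧ y ≠ a0 ∧ (W[k]?).join = some a ∧
        a'.2 = a.2 ∧ overPos a = br6_rho W k x ∧ overPos a' = br6_rho W' k x ∧
        underPos a = br6_rho W k y ∧ underPos a' = br6_rho W' k y) :
    Isotopic (closure n (x ++ W.reduceOption ++ y)) (closure n (x ++ W'.reduceOption ++ y)) := by
  set L : List (Option (Fin n × Bool)) := (none :: x.map some) ++ (W ++ y.map some) with hL
  set L' : List (Option (Fin n × Bool)) := (none :: x.map some) ++ (W' ++ y.map some) with hL'
  have hmap : ∀ z : Word n, (z.map some).reduceOption = z := by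
    intro z
    induction z with
    | nil => rfl
    | cons a z ih => rw [List.map_cons, List.reduceOption_cons_of_some, ih]
  have hr : L.reduceOption = x ++ W.reduceOption ++ y := by
    rw [hL, List.reduceOption_append, List.reduceOption_append, List.reduceOption_cons_of_none,
      hmap, hmap, List.append_assoc]
  have hr' : L'.reduceOption = x ++ W'.reduceOption ++ y := by
    rw [hL', List.reduceOption_append, List.reduceOption_append, List.reduceOption_cons_of_none,
      hmap, hmap, List.append_assoc]
  have hlenL : L'.length = L.length := by
    rw [hL, hL']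
    simp [hlen]
  have hplen : (none :: x.map some : List (Option (Fin n × Bool))).length = x.length + 1 := by
    simp
  have e1 := isotopic_spaced L
  have e2 := isotopic_spaced L'
  rw [hr] at e1
  rw [hr', hlenL] at e2
  refine e1.trans (Isotopic.trans ?_ e2.symm)
  have hin : ∀ k < W.length, (L[x.length + 1 + k]?).join = (W[k]?).join := by
    intro k hk
    rw [hL, List.getElem?_append_right (by rw [hplen]; omega), hplen,
      List.getElem?_append_left (by omega)]
    congr 2
    omega
  have hin' : ∀ k < W.length, (L'[x.length + 1 + k]?).join = (W'[k]?).join := by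
    intro k hk
    rw [hL', List.getElem?_append_right (by rw [hplen]; omega), hplen,
      List.getElem?_append_left (by omega)]
    congr 2
    omega
  have hm : x.length + 1 + W.length ≤ L.length := by
    rw [hL]
    simp only [List.length_append, List.length_cons, List.length_map]
    omega
  have hrho1 : ∀ k ≤ W.length, rho L.length (fun k => (L[k]?).join) (x.length + 1) k =
      br6_rho W k := by
    intro k
    induction k with
    | zero => intro _; rfl
    | succ k ih =>
      intro hk
      have hk' : k < W.length := by omega
      rw [rho, br6_rho, ih (by omega), stepN, if_pos (by omega), ← hin k hk']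
      rfl
  have hrho2 : ∀ k ≤ W.length, rho L.length (fun k => (L'[k]?).join) (x.length + 1) k =
      br6_rho W' k := by
    intro k
    induction k with
    | zero => intro _; rfl
    | succ k ih =>
      intro hk
      have hk' : k < W.length := by omega
      rw [rho, br6_rho, ih (by omega), stepN, if_pos (by omega), ← hin' k hk']
      rfl
  apply closureN_move L.length n _ _ (x.length + 1) W.length (by omega) hm ?_ ?_ a0 ?_ ?_
  · intro k hk
    rcases hk with hk | hk
    · rw [hL, hL', List.getElem?_append_left (by rw [hplen]; exact hk),
        List.getElem?_append_left (by rw [hplen]; exact hk)]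
    · rw [hL, hL', List.getElem?_append_right (by rw [hplen]; omega),
        List.getElem?_append_right (by rw [hplen]; omega), hplen,
        List.getElem?_append_right (by omega),
        List.getElem?_append_right (by rw [hplen]; omega), hlen, hplen]
  · rw [hrho1 _ le_rfl, hrho2 _ le_rfl, hrho]
  · intro k hk a ha
    simp only [hin k hk, hin' k hk] at ha ⊢
    rw [hrho1 k hk.le, hrho2 k hk.le]
    exact h1 k hk a ha
  · intro k hk a ha
    simp only [hin k hk, hin' k hk] at ha ⊢
    rw [hrho1 k hk.le, hrho2 k hk.le]
    exact h2 k hk a ha

/-- [BR6] -/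
theorem isotopic_of_bRel {n : ℕ} (x y s t : Word n) (h : BRel s t) :
    Isotopic (closure n (x ++ s ++ y)) (closure n (x ++ t ++ y)) := by
  cases h with
  | cancel i s =>
    have hne : i.castSucc ≠ i.succ := (Fin.castSucc_lt_succ (i := i)).ne
    have := br6_window x y [some (i, s), some (i, !s)] [none, none] rfl ?_ (overPos (i, s)) ?_ ?_
    · exact this
    · simp [br6_rho, br6_st]
    · intro k hk a ha
      simp only [List.length_cons, List.length_nil] at hk
      left
      interval_cases k
      · simp at ha
        rw [← ha]
        simp [br6_rho]
      · simp at ha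
        rw [← ha]
        cases s <;> simp [br6_rho, br6_st, overPos]
    · intro k hk a ha
      simp only [List.length_cons, List.length_nil] at hk
      interval_cases k <;> simp at ha
  | comm i j s t h =>
    have hne : i.castSucc ≠ i.succ := (Fin.castSucc_lt_succ (i := i)).ne
    have hne' : j.castSucc ≠ j.succ := (Fin.castSucc_lt_succ (i := j)).ne
    have d1 : i.castSucc ≠ j.castSucc := by
      intro h'; have := congrArg Fin.val h'; simp at this; omega
    have d2 : i.castSucc ≠ j.succ := by
      intro h'; have := congrArg Fin.val h'; simp at this; omega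
    have d3 : i.succ ≠ j.castSucc := by
      intro h'; have := congrArg Fin.val h'; simp at this; omega
    have d4 : i.succ ≠ j.succ := by
      intro h'; have := congrArg Fin.val h'; simp at this; omega
    have hov : ∀ u : Bool, overPos (j, u) ≠ i.castSucc ∧ overPos (j, u) ≠ i.succ := by
      intro u; cases u
      · exact ⟨d2.symm, d4.symm⟩
      · exact ⟨d1.symm, d3.symm⟩
    have hun : ∀ u : Bool, underPos (j, u) ≠ i.castSucc ∧ underPos (j, u) ≠ i.succ := by
      intro u; cases u
      · exact ⟨d1.symm, d3.symm⟩
      · exact ⟨d2.symm, d4.symm⟩
    have hoi : ∀ u : Bool, overPos (i, u) = i.castSucc ∨ overPos (i, u) = i.succ := by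
      intro u; cases u
      · right; rfl
      · left; rfl
    have hoj : ∀ u : Bool, overPos (i, u) ≠ j.castSucc ∧ overPos (i, u) ≠ j.succ := by
      intro u; cases u
      · exact ⟨d3, d4⟩
      · exact ⟨d1, d2⟩
    have hx : overPos (j, t) ≠ overPos (i, s) := by
      rcases hoi s with h' | h' <;> rw [h']
      · exact (hov t).1
      · exact (hov t).2
    have hy : underPos (j, t) ≠ overPos (i, s) := by
      rcases hoi s with h' | h' <;> rw [h']
      · exact (hun t).1
      · exact (hun t).2
    have hcomm : Equiv.swap j.castSucc j.succ * Equiv.swap i.castSucc i.succ =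
        Equiv.swap i.castSucc i.succ * Equiv.swap j.castSucc j.succ := by
      have hdis : Equiv.Perm.Disjoint (Equiv.swap j.castSucc j.succ)
          (Equiv.swap i.castSucc i.succ) := by
        intro z
        by_cases h1 : z = i.castSucc
        · left
          rw [h1, Equiv.swap_apply_of_ne_of_ne d1 d2]
        · by_cases h2 : z = i.succ
          · left
            rw [h2, Equiv.swap_apply_of_ne_of_ne d3 d4]
          · right
            exact Equiv.swap_apply_of_ne_of_ne h1 h2
      exact hdis.commute
    have := br6_window x y [some (i, s), some (j, t), none] [none, some (j, t), some (i, s)] rfl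
      ?_ (overPos (i, s)) ?_ ?_
    · exact this
    · simp [br6_rho, br6_st, hcomm]
    · intro k hk a ha
      simp only [List.length_cons, List.length_nil] at hk
      interval_cases k
      · simp at ha
        rw [← ha]
        left
        simp [br6_rho]
      · simp at ha
        rw [← ha]
        right
        refine ⟨(j, t), overPos (j, t), underPos (j, t), hx, hy, ?_, rfl, ?_, ?_, ?_, ?_⟩
        · simp
        · simp [br6_rho, br6_st, Equiv.swap_apply_of_ne_of_ne (hov t).1 (hov t).2]
        · simp [br6_rho, br6_st]
        · simp [br6_rho, br6_st, Equiv.swap_apply_of_ne_of_ne (hun t).1 (hun t).2]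
        · simp [br6_rho, br6_st]
      · simp at ha
    · intro k hk a ha
      simp only [List.length_cons, List.length_nil] at hk
      interval_cases k
      · simp at ha
      · simp at ha
        rw [← ha]
        right
        refine ⟨(j, t), overPos (j, t), underPos (j, t), hx, hy, ?_, rfl, ?_, ?_, ?_, ?_⟩
        · simp
        · simp [br6_rho, br6_st, Equiv.swap_apply_of_ne_of_ne (hov t).1 (hov t).2]
        · simp [br6_rho, br6_st]
        · simp [br6_rho, br6_st, Equiv.swap_apply_of_ne_of_ne (hun t).1 (hun t).2]
        · simp [br6_rho, br6_st]
      · simp at ha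
        rw [← ha]
        left
        simp [br6_rho, br6_st, Equiv.swap_apply_of_ne_of_ne (hoj s).1 (hoj s).2]
  | braid i j h =>
    have hne : i.castSucc ≠ i.succ := (Fin.castSucc_lt_succ (i := i)).ne
    have hne' : j.castSucc ≠ j.succ := (Fin.castSucc_lt_succ (i := j)).ne
    have hB : j.castSucc = i.succ := by
      apply Fin.ext
      simp
      omega
    rw [hB] at hne'
    have hAC : i.castSucc ≠ j.succ := by
      intro h'; have := congrArg Fin.val h'; simp at this; omega
    have hbr : Equiv.swap i.castSucc i.succ * (Equiv.swap i.succ j.succ *
        Equiv.swap i.castSucc i.succ) = Equiv.swap i.succ j.succ *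
        (Equiv.swap i.castSucc i.succ * Equiv.swap i.succ j.succ) := by
      ext z
      simp only [Perm.mul_apply, Equiv.swap_apply_def]
      split_ifs <;> simp_all
    have := br6_window x y [some (i, true), some (j, true), some (i, true), none, none]
      [none, none, some (j, true), some (i, true), some (j, true)] rfl ?_ i.castSucc ?_ ?_
    · exact this
    · simp only [List.length_cons, List.length_nil]
      simp [br6_rho, br6_st, hB, hbr]
    · intro k hk a ha
      simp only [List.length_cons, List.length_nil] at hk
      interval_cases k
      · simp at ha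
        rw [← ha]
        left
        simp [br6_rho, overPos]
      · simp at ha
        rw [← ha]
        left
        simp [br6_rho, br6_st, overPos, hB]
      · simp at ha
        rw [← ha]
        right
        refine ⟨(j, true), i.succ, j.succ, hne.symm, hAC.symm, ?_, rfl, ?_, ?_, ?_, ?_⟩
        · simp
        · simp [br6_rho, br6_st, overPos, hB, Equiv.swap_apply_of_ne_of_ne hne hAC]
        · simp [br6_rho, br6_st, overPos, hB]
        · simp [br6_rho, br6_st, underPos, hB, Equiv.swap_apply_of_ne_of_ne hAC.symm hne'.symm]
        · simp [br6_rho, br6_st, underPos]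
      · simp at ha
      · simp at ha
    · intro k hk a ha
      simp only [List.length_cons, List.length_nil] at hk
      interval_cases k
      · simp at ha
      · simp at ha
      · simp at ha
        rw [← ha]
        right
        refine ⟨(i, true), i.succ, j.succ, hne.symm, hAC.symm, ?_, rfl, ?_, ?_, ?_, ?_⟩
        · simp
        · simp [br6_rho, br6_st, overPos, hB, Equiv.swap_apply_of_ne_of_ne hne hAC]
        · simp [br6_rho, br6_st, overPos, hB]
        · simp [br6_rho, br6_st, underPos, hB, Equiv.swap_apply_of_ne_of_ne hAC.symm hne'.symm]
        · simp [br6_rho, br6_st, underPos]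
      · simp at ha
        rw [← ha]
        left
        simp [br6_rho, br6_st, overPos, hB, Equiv.swap_apply_of_ne_of_ne hne hAC]
      · simp at ha
        rw [← ha]
        left
        simp [br6_rho, br6_st, overPos, hB, Equiv.swap_apply_of_ne_of_ne hne hAC]

end Pool.Agent.Lib.MP_b7a6eb_gt
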