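import Pool.Agent.Lib.MP_b7a6eb_gt.Defs

namespace Pool.Agent.Lib.MP_b7a6eb_gt

open Equiv Equiv.Perm

attribute [instance] Diagram.finP Diagram.finV

/-- number of cycles (fixed points included) of a permutation -/
noncomputable def cyc {α : Type*} (f : Perm α) : ℕ :=
  Nat.card (Quotient (SameCycle.setoid f))

namespace Diagram

variable (D : Diagram)

@[simp] lemma lab_cr (x : D.V × Bool) : D.lab (D.cr x) = some x := (D.lab_iff _ _).2 rfl

lemma cr_inj : Function.Injective D.cr := by
  intro x y h
  have h1 := D.lab_cr x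
  rw [h, lab_cr] at h1
  exact (Option.some.inj h1).symm

@[simp] lemma cr_eq_cr {x y : D.V × Bool} : D.cr x = D.cr y ↔ x = y := D.cr_inj.eq_iff

lemma cr_of_lab {p : D.P} {x : D.V × Bool} (h : D.lab p = some x) : D.cr x = p :=
  (D.lab_iff _ _).1 h

lemma lab_eq_none {p : D.P} : D.lab p = none ↔ ∀ x, D.cr x ≠ p := by
  constructor
  · intro h x hx
    rw [← hx, lab_cr] at h
    exact Option.some_ne_none _ h
  · intro h
    rcases hp : D.lab p with _ | x
    · rfl
    · exact absurd (D.cr_of_lab hp) (h x)

@[simp] lemma next_prev (p : D.P) : D.next (D.prev p) = p := D.next.apply_symm_apply p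
@[simp] lemma prev_next (p : D.P) : D.prev (D.next p) = p := D.next.symm_apply_apply p

lemma prev_eq_iff {p q : D.P} : D.prev p = q ↔ p = D.next q := by
  constructor
  · rintro rfl; simp
  · rintro rfl; simp

lemma prev_inj : Function.Injective D.prev := D.next.symm.injective

@[simp] lemma lab_l (v : D.V) : D.lab (D.l v) = some (v, D.sign v) := D.lab_cr _
@[simp] lemma lab_r (v : D.V) : D.lab (D.r v) = some (v, !D.sign v) := D.lab_cr _

lemma l_ne_r (v w : D.V) : D.l v ≠ D.r w := by
  intro h
  have := D.cr_inj h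
  rw [Prod.mk.injEq] at this
  obtain ⟨rfl, h2⟩ := this
  cases h3 : D.sign v <;> simp [h3] at h2

/-- a point is a marker, or some `l v`, or some `r v` -/
lemma point_cases (p : D.P) : D.lab p = none ∨ (∃ v, p = D.l v) ∨ ∃ v, p = D.r v := by
  rcases hp : D.lab p with _ | ⟨v, x⟩
  · exact Or.inl rfl
  · right
    have h := (D.cr_of_lab hp).symm
    by_cases hx : x = D.sign v
    · left; exact ⟨v, by rw [h, hx]; rfl⟩
    · right
      refine ⟨v, ?_⟩
      have : x = !D.sign v := by cases x <;> cases h3 : D.sign v <;> simp_all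
      rw [h, this]; rfl

/-- exchange of the two points of the crossings in `S` -/
def oswFun (S : Set D.V) [DecidablePred (· ∈ S)] (p : D.P) : D.P :=
  match D.lab p with
  | none => p
  | some (v, x) => if v ∈ S then D.cr (v, !x) else p

lemma oswFun_invol (S : Set D.V) [DecidablePred (· ∈ S)] : Function.Involutive (D.oswFun S) := by
  intro p
  rcases hp : D.lab p with _ | ⟨v, x⟩
  · simp [oswFun, hp]
  · by_cases hv : v ∈ S
    · have h := D.cr_of_lab hp
      simp [oswFun, hp, hv, h]
    · simp [oswFun, hp, hv]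

/-- exchange of the two points of the crossings in `S`, as a permutation -/
noncomputable def osw (S : Set D.V) : Perm D.P :=
  open Classical in (D.oswFun_invol S).toPerm

lemma osw_marker (S : Set D.V) {p : D.P} (h : D.lab p = none) : D.osw S p = p := by
  classical
  simp [osw, oswFun, h]

lemma osw_cr_mem {S : Set D.V} {v : D.V} (h : v ∈ S) (x : Bool) :
    D.osw S (D.cr (v, x)) = D.cr (v, !x) := by
  classical
  simp [osw, oswFun, h]

lemma osw_cr_not_mem {S : Set D.V} {v : D.V} (h : v ∉ S) (x : Bool) :
    D.osw S (D.cr (v, x)) = D.cr (v, x) := by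
  classical
  simp [osw, oswFun, h]

lemma osw_osw (S : Set D.V) (p : D.P) : D.osw S (D.osw S p) = p := by
  classical
  exact D.oswFun_invol S p

/-- The permutation of the points obtained by following the strands, with the crossings in `S`
smoothed: one arrives at the point `p` along the edge `prev p` and leaves along the edge
`osw S p`. -/
noncomputable def thr (S : Set D.V) : Perm D.P := D.next * D.osw S

lemma thr_apply (S : Set D.V) (p : D.P) : D.thr S p = D.next (D.osw S p) := rfl

/-- The Seifert permutation; its cycles are the Seifert circles.  The point `l v` is passed by the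
left circle at `v` and `r v` by the right circle. -/
noncomputable def seif : Perm D.P := D.thr Set.univ

lemma seif_apply (p : D.P) : D.seif p = D.next (D.osw Set.univ p) := rfl

@[simp] lemma seif_l (v : D.V) : D.seif (D.l v) = D.next (D.r v) := by
  rw [seif_apply, l, D.osw_cr_mem (Set.mem_univ _)]; rfl

@[simp] lemma seif_r (v : D.V) : D.seif (D.r v) = D.next (D.l v) := by
  rw [seif_apply, r, D.osw_cr_mem (Set.mem_univ _), Bool.not_not]; rfl

lemma seif_marker {p : D.P} (h : D.lab p = none) : D.seif p = D.next p := by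
  rw [seif_apply, D.osw_marker _ h]

lemma face_false_marker {p : D.P} (h : D.lab (D.next p) = none) :
    D.face (p, false) = (D.next p, false) := by
  simp [face, h]

lemma face_true_marker {p : D.P} (h : D.lab p = none) :
    D.face (p, true) = (D.prev p, true) := by
  simp [face, h]

/-- south corner -/
@[simp] lemma face_S (v : D.V) : D.face (D.prev (D.l v), false) = (D.prev (D.r v), true) := by
  simp [face]

/-- east corner -/
@[simp] lemma face_E (v : D.V) : D.face (D.prev (D.r v), false) = (D.l v, false) := by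
  have : (!D.sign v) ≠ D.sign v := by cases D.sign v <;> simp
  simp [face]

/-- north corner -/
@[simp] lemma face_N (v : D.V) : D.face (D.l v, true) = (D.r v, false) := by
  simp [face]

/-- west corner -/
@[simp] lemma face_W (v : D.V) : D.face (D.r v, true) = (D.prev (D.l v), true) := by
  simp [face]

lemma face_injective : Function.Injective D.face := by
  rintro ⟨p, s⟩ ⟨q, t⟩ h
  -- normal forms of the sides
  have key : ∀ (p : D.P) (s : Bool),
      (s = false ∧ D.lab (D.next p) = none ∧ D.face (p, s) = (D.next p, false)) ∨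
      (s = true ∧ D.lab p = none ∧ D.face (p, s) = (D.prev p, true)) ∨
      (∃ v, s = false ∧ p = D.prev (D.l v) ∧ D.face (p, s) = (D.prev (D.r v), true)) ∨
      (∃ v, s = false ∧ p = D.prev (D.r v) ∧ D.face (p, s) = (D.l v, false)) ∨
      (∃ v, s = true ∧ p = D.l v ∧ D.face (p, s) = (D.r v, false)) ∨
      (∃ v, s = true ∧ p = D.r v ∧ D.face (p, s) = (D.prev (D.l v), true)) := by
    intro p s
    cases s
    · rcases D.point_cases (D.next p) with h | ⟨v, h⟩ | ⟨v, h⟩
      · exact Or.inl ⟨rfl, h, D.face_false_marker h⟩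
      · have h' : p = D.prev (D.l v) := by rw [← h]; simp
        subst h'
        exact Or.inr (Or.inr (Or.inl ⟨v, rfl, rfl, by simp⟩))
      · have h' : p = D.prev (D.r v) := by rw [← h]; simp
        subst h'
        exact Or.inr (Or.inr (Or.inr (Or.inl ⟨v, rfl, rfl, by simp⟩)))
    · rcases D.point_cases p with h | ⟨v, h⟩ | ⟨v, h⟩
      · exact Or.inr (Or.inl ⟨rfl, h, D.face_true_marker h⟩)
      · subst h
        exact Or.inr (Or.inr (Or.inr (Or.inr (Or.inl ⟨v, rfl, rfl, by simp⟩))))
      · subst h
        exact Or.inr (Or.inr (Or.inr (Or.inr (Or.inr ⟨v, rfl, rfl, by simp⟩))))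
  have hl : ∀ v, D.lab (D.l v) ≠ none := fun v => by simp
  have hr : ∀ v, D.lab (D.r v) ≠ none := fun v => by simp
  have hlr : ∀ v w, D.l v ≠ D.r w := D.l_ne_r
  have hll : ∀ v w, D.l v = D.l w → v = w := fun v w h => (Prod.mk.inj (D.cr_inj h)).1
  have hrr : ∀ v w, D.r v = D.r w → v = w := fun v w h => (Prod.mk.inj (D.cr_inj h)).1
  have hp := D.prev_inj
  rcases key p s with ⟨rfl, h1, h2⟩ | ⟨rfl, h1, h2⟩ | ⟨v, rfl, rfl, h2⟩ | ⟨v, rfl, rfl, h2⟩ |
    ⟨v, rfl, rfl, h2⟩ | ⟨v, rfl, rfl, h2⟩ <;>
  rcases key q t with ⟨rfl, h3, h4⟩ | ⟨rfl, h3, h4⟩ | ⟨w, rfl, rfl, h4⟩ | ⟨w, rfl, rfl, h4⟩ |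
    ⟨w, rfl, rfl, h4⟩ | ⟨w, rfl, rfl, h4⟩ <;>
  rw [h2, h4, Prod.mk.injEq] at h <;> obtain ⟨h5, h6⟩ := h <;> simp at h6
  · rw [D.next.injective h5]
  · rw [h5] at h1; exact absurd h1 (hl _)
  · rw [h5] at h1; exact absurd h1 (hr _)
  · rw [hp h5]
  · rw [hp h5] at h1; exact absurd h1 (hr _)
  · rw [hp h5] at h1; exact absurd h1 (hl _)
  · rw [← hp h5] at h3; exact absurd h3 (hr _)
  · rw [hrr _ _ (hp h5)]
  · exact absurd (hp h5).symm (hlr _ _)
  · rw [← h5] at h3; exact absurd h3 (hl _)
  · rw [hll _ _ h5]
  · exact absurd h5 (hlr _ _)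
  · rw [← h5] at h3; exact absurd h3 (hr _)
  · exact absurd h5.symm (hlr _ _)
  · rw [hrr _ _ h5]
  · rw [← hp h5] at h3; exact absurd h3 (hl _)
  · exact absurd (hp h5) (hlr _ _)
  · rw [hll _ _ (hp h5)]

/-- the face map as a permutation of the sides -/
noncomputable def faceP : Perm (D.P × Bool) :=
  Equiv.ofBijective D.face (Finite.injective_iff_bijective.1 D.face_injective)

@[simp] lemma faceP_apply (s : D.P × Bool) : D.faceP s = D.face s := rfl

/-- Colourings of the edges by a group: at the crossings in `Y` the smoothed diagram is used, at the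
other crossings the colour of the over strand does not change and the colour of the under strand is
conjugated by it. -/
def IsCol (Y : Set D.V) {H : Type} [Group H] (c : D.P → H) : Prop :=
  (∀ p, D.lab p = none → c p = c (D.prev p)) ∧
  (∀ v ∈ Y, ∀ x, c (D.cr (v, x)) = c (D.prev (D.cr (v, !x)))) ∧
  (∀ v ∉ Y, c (D.cr (v, true)) = c (D.prev (D.cr (v, true))) ∧
    c (D.cr (v, false)) = if D.sign v = true then
      c (D.cr (v, true)) * c (D.prev (D.cr (v, false))) * (c (D.cr (v, true)))⁻¹
      else (c (D.cr (v, true)))⁻¹ * c (D.prev (D.cr (v, false))) * c (D.cr (v, true)))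

/-- number of colourings -/
noncomputable def ncol (Y : Set D.V) (H : Type) [Group H] : ℕ :=
  Nat.card {c : D.P → H // D.IsCol Y c}

/-- A diagram with a set `Y` of positive crossings, such that smoothing `Y` gives a diagram with the
same number of colourings as the unlink with as many components as `D` has Seifert circles. -/
structure Good (Y : Set D.V) : Prop where
  ne : Nonempty D.P
  planar : D.Planar
  pos : ∀ v ∈ Y, D.sign v = true
  col : ∀ (H : Type) [Group H] [Finite H], D.ncol Y H = Nat.card H ^ cyc D.seif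

/-- connectivity relation of points -/
def Conn : D.P → D.P → Prop :=
  Relation.EqvGen fun p q => q = D.next p ∨ ∃ v, p = D.cr (v, true) ∧ q = D.cr (v, false)

/-- connected diagrams -/
def Connected : Prop := ∀ p q, D.Conn p q

/-- circles having chords from a common circle on the right agree -/
def PL : Prop :=
  ∀ v w, D.seif.SameCycle (D.r v) (D.r w) → D.seif.SameCycle (D.l v) (D.l w)

/-- circles having chords from a common circle on the left agree -/
def PR : Prop :=
  ∀ v w, D.seif.SameCycle (D.l v) (D.l w) → D.seif.SameCycle (D.r v) (D.r w)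

end Diagram

/-- `i` exhibits the permutation `g` as `f` with additional points inserted in its cycles -/
structure PSub {α β : Type*} (f : Perm α) (g : Perm β) (i : α → β) : Prop where
  inj : Function.Injective i
  step : ∀ p, ∃ n : ℕ, (g ^ (n + 1)) (i p) = i (f p) ∧
    ∀ k < n, (g ^ (k + 1)) (i p) ∉ Set.range i
  cover : ∀ q, ∃ p, g.SameCycle (i p) q

/-- `D'` is `D` with additional markers -/
structure MSub (D D' : Diagram) (i : D.P → D'.P) (j : D.V ≃ D'.V) : Prop where
  psub : PSub D.next D'.next i
  cr : ∀ v x, D'.cr (j v, x) = i (D.cr (v, x))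
  sign : ∀ v, D'.sign (j v) = D.sign v

lemma Isotopic.refl (D : Diagram) : Isotopic D D := Relation.EqvGen.refl D
lemma Isotopic.symm {D D' : Diagram} (h : Isotopic D D') : Isotopic D' D :=
  Relation.EqvGen.symm _ _ h
lemma Isotopic.trans {D D' D'' : Diagram} (h : Isotopic D D') (h' : Isotopic D' D'') :
    Isotopic D D'' := Relation.EqvGen.trans _ _ _ h h'

end Pool.Agent.Lib.MP_b7a6eb_gt
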