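import Pool.Agent.Lib.MP_b7a6eb_gt.Braid

/-! The action of the braid group on tuples of group elements. -/

namespace Pool.Agent.Lib.MP_b7a6eb_gt

open Equiv Equiv.Perm

variable {n : ℕ}

section

variable {H : Type*} [Group H]

lemma actLetter_castSucc (a : Fin n × Bool) (x : Fin (n + 1) → H) :
    actLetter a x a.1.castSucc = if a.2 = true then
      x a.1.castSucc * x a.1.succ * (x a.1.castSucc)⁻¹ else x a.1.succ := by
  simp [actLetter]

lemma actLetter_succ (a : Fin n × Bool) (x : Fin (n + 1) → H) :
    actLetter a x a.1.succ = if a.2 = true then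
      x a.1.castSucc else (x a.1.succ)⁻¹ * x a.1.castSucc * x a.1.succ := by
  have : a.1.succ ≠ a.1.castSucc := (Fin.castSucc_lt_succ (i := a.1)).ne'
  simp [actLetter, this]

lemma actLetter_other (a : Fin n × Bool) (x : Fin (n + 1) → H) {j : Fin (n + 1)}
    (h1 : j ≠ a.1.castSucc) (h2 : j ≠ a.1.succ) : actLetter a x j = x j := by
  simp [actLetter, h1, h2]

lemma actLetter_cancel (i : Fin n) (s : Bool) (x : Fin (n + 1) → H) :
    actLetter (i, !s) (actLetter (i, s) x) = x := by
  have key : i.castSucc ≠ i.succ := (Fin.castSucc_lt_succ (i := i)).ne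
  funext j
  by_cases h1 : j = i.castSucc
  · subst h1
    cases s <;> simp [actLetter, key, key.symm, mul_assoc]
  · by_cases h2 : j = i.succ
    · subst h2
      cases s <;> simp [actLetter, key, key.symm, mul_assoc]
    · simp [actLetter, h1, h2]

lemma actLetter_comm {i j : Fin n} (h : i.val + 1 < j.val) (s t : Bool) (x : Fin (n + 1) → H) :
    actLetter (j, t) (actLetter (i, s) x) = actLetter (i, s) (actLetter (j, t) x) := by
  have e1 : i.castSucc ≠ i.succ := (Fin.castSucc_lt_succ (i := i)).ne
  have e2 : j.castSucc ≠ j.succ := (Fin.castSucc_lt_succ (i := j)).ne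
  have e3 : i.castSucc ≠ j.castSucc := fun h' => by
    have := congrArg Fin.val h'; simp at this; omega
  have e4 : i.castSucc ≠ j.succ := fun h' => by
    have := congrArg Fin.val h'; simp at this; omega
  have e5 : i.succ ≠ j.castSucc := fun h' => by
    have := congrArg Fin.val h'; simp at this; omega
  have e6 : i.succ ≠ j.succ := fun h' => by
    have := congrArg Fin.val h'; simp at this; omega
  funext k
  by_cases h1 : k = i.castSucc
  · subst h1
    simp [actLetter, e1, e2, e3, e4, e5, e6, e1.symm, e2.symm, e3.symm, e4.symm, e5.symm, e6.symm]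
  · by_cases h2 : k = i.succ
    · subst h2
      simp [actLetter, e1, e2, e3, e4, e5, e6, e1.symm, e2.symm, e3.symm, e4.symm, e5.symm,
        e6.symm]
    · by_cases h3 : k = j.castSucc
      · subst h3
        simp [actLetter, e1, e2, e3, e4, e5, e6, e1.symm, e2.symm, e3.symm, e4.symm, e5.symm,
          e6.symm]
      · by_cases h4 : k = j.succ
        · subst h4
          simp [actLetter, e1, e2, e3, e4, e5, e6, e1.symm, e2.symm, e3.symm, e4.symm, e5.symm,
            e6.symm]
        · simp [actLetter, h1, h2, h3, h4]

lemma actLetter_braid {i j : Fin n} (h : i.val + 1 = j.val) (x : Fin (n + 1) → H) :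
    actLetter (i, true) (actLetter (j, true) (actLetter (i, true) x)) =
      actLetter (j, true) (actLetter (i, true) (actLetter (j, true) x)) := by
  have e0 : j.castSucc = i.succ := by
    apply Fin.ext; simp; omega
  have e1 : i.castSucc ≠ i.succ := (Fin.castSucc_lt_succ (i := i)).ne
  have e2 : i.succ ≠ j.succ := fun h' => by
    have := congrArg Fin.val h'; simp at this; omega
  have e3 : i.castSucc ≠ j.succ := fun h' => by
    have := congrArg Fin.val h'; simp at this; omega
  funext k
  by_cases h1 : k = i.castSucc
  · subst h1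
    simp [actLetter, e0, e1, e2, e3, e1.symm, e2.symm, e3.symm, mul_assoc]
  · by_cases h2 : k = i.succ
    · subst h2
      simp [actLetter, e0, e1, e2, e3, e1.symm, e2.symm, e3.symm, mul_assoc]
    · by_cases h3 : k = j.succ
      · subst h3
        simp [actLetter, e0, e1, e2, e3, e1.symm, e2.symm, e3.symm, mul_assoc]
      · simp [actLetter, e0, h1, h2, h3]

lemma actWord_of_bRel {u v : Word n} (h : BRel u v) (x : Fin (n + 1) → H) :
    actWord u x = actWord v x := by
  cases h with
  | cancel i s => simp [actLetter_cancel]
  | comm i j s t h =>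
    rcases h with h | h
    · simp [actLetter_comm h]
    · simp [actLetter_comm h]
  | braid i j h => simp [actLetter_braid h]

lemma actWord_of_braidEq {u v : Word n} (h : BraidEq u v) (x : Fin (n + 1) → H) :
    actWord u x = actWord v x := by
  induction h generalizing x with
  | rel u v h =>
    obtain ⟨a, b, s, t, h1, rfl, rfl⟩ := h
    simp [actWord_append, actWord_of_bRel h1]
  | refl => rfl
  | symm _ _ _ ih => exact (ih x).symm
  | trans _ _ _ _ _ ih1 ih2 => exact (ih1 x).trans (ih2 x)

end

namespace BG

/-- Action of braids on tuples (a right action: the first factor acts first). -/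
def act {H : Type*} [Group H] (b : BG n) (x : Fin (n + 1) → H) : Fin (n + 1) → H :=
  Quotient.lift (s := braidSetoid n) (fun w : Word n => actWord w x)
    (fun u v h => actWord_of_braidEq (show BraidEq u v from h) x) b

variable {H : Type*} [Group H]

lemma act_mk (w : Word n) (x : Fin (n + 1) → H) : act (mk w) x = actWord w x := rfl

@[simp] lemma act_one (x : Fin (n + 1) → H) : act (1 : BG n) x = x := rfl

lemma act_mul (a b : BG n) (x : Fin (n + 1) → H) : act (a * b) x = act b (act a x) := by
  induction a using Quotient.inductionOn with | _ u => ?_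
  induction b using Quotient.inductionOn with | _ v => ?_
  exact actWord_append u v x

@[simp] lemma act_inv_act (a : BG n) (x : Fin (n + 1) → H) : act a⁻¹ (act a x) = x := by
  rw [← act_mul, mul_inv_cancel, act_one]

@[simp] lemma act_act_inv (a : BG n) (x : Fin (n + 1) → H) : act a (act a⁻¹ x) = x := by
  rw [← act_mul, inv_mul_cancel, act_one]

lemma act_injective (a : BG n) : Function.Injective (act a : (Fin (n + 1) → H) → _) :=
  Function.LeftInverse.injective (act_inv_act a)

lemma act_s (i : Fin n) (x : Fin (n + 1) → H) : act (s i) x = actLetter (i, true) x := rfl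

/-- naturality -/
lemma actWord_map {H' : Type*} [Group H'] (f : H →* H') (w : Word n) (x : Fin (n + 1) → H) :
    actWord w (fun j => f (x j)) = fun j => f (actWord w x j) := by
  induction w generalizing x with
  | nil => rfl
  | cons a w ih =>
    rw [actWord_cons, actWord_cons, ← ih]
    congr 1
    funext j
    simp only [actLetter]
    split_ifs <;> simp

lemma act_map {H' : Type*} [Group H'] (f : H →* H') (b : BG n) (x : Fin (n + 1) → H) :
    act b (fun j => f (x j)) = fun j => f (act b x j) := by
  induction b using Quotient.inductionOn with | _ w => ?_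
  exact actWord_map f w x

/-- adding a strand on the right -/
def iotaWord (w : Word n) : Word (n + 1) := w.map fun a => (a.1.castSucc, a.2)

lemma iotaWord_append (u v : Word n) : iotaWord (u ++ v) = iotaWord u ++ iotaWord v := by
  simp [iotaWord]

lemma iotaWord_bRel {u v : Word n} (h : BRel u v) : BRel (iotaWord u) (iotaWord v) := by
  cases h with
  | cancel i s => exact BRel.cancel i.castSucc s
  | comm i j s t h => exact BRel.comm i.castSucc j.castSucc s t h
  | braid i j h => exact BRel.braid i.castSucc j.castSucc h

lemma iotaWord_braidEq {u v : Word n} (h : BraidEq u v) : BraidEq (iotaWord u) (iotaWord v) := by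
  induction h with
  | rel u v h =>
    obtain ⟨a, b, s, t, h1, rfl, rfl⟩ := h
    refine Relation.EqvGen.rel _ _ ⟨iotaWord a, iotaWord b, _, _, iotaWord_bRel h1, ?_, ?_⟩ <;>
    simp [iotaWord_append]
  | refl => exact Relation.EqvGen.refl _
  | symm _ _ _ ih => exact ih.symm
  | trans _ _ _ _ _ ih1 ih2 => exact ih1.trans ih2

/-- adding a strand on the right, as a homomorphism -/
def iota : BG n →* BG (n + 1) where
  toFun := Quotient.map iotaWord (fun _ _ h => iotaWord_braidEq h)
  map_one' := rfl
  map_mul' := by
    rintro ⟨a⟩ ⟨b⟩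
    exact congrArg mk (iotaWord_append a b)

lemma iota_s (i : Fin n) : iota (s i) = s i.castSucc := rfl

lemma iota_mk (w : Word n) : iota (mk w) = mk (iotaWord w) := rfl

/-- the generators indexed by natural numbers -/
def sN (n : ℕ) (i : ℕ) : BG (n + 1) := if h : i < n + 1 then s ⟨i, h⟩ else 1

/-- `tt n k = σ_n σ_{n-1} … σ_k`; the last strand moves to the position `k` -/
def tt (n : ℕ) (k : ℕ) : BG (n + 1) :=
  ((List.range' k (n + 1 - k)).reverse.map (sN n)).prod

lemma tt_last (n : ℕ) : tt n (n + 1) = 1 := by simp [tt]

lemma tt_succ {n k : ℕ} (h : k ≤ n) : tt n k = tt n (k + 1) * sN n k := by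
  have : n + 1 - k = (n + 1 - (k + 1)) + 1 := by omega
  rw [tt, tt, this, List.range'_succ]
  simp

/-- the last strand goes around the strand `j` -/
def AA (n : ℕ) (j : ℕ) : BG (n + 1) := tt n (j + 1) * sN n j * sN n j * (tt n (j + 1))⁻¹

/-- extension of a tuple by `1` -/
def ext (x : Fin (n + 1) → H) (i : ℕ) : H := if h : i < n + 1 then x ⟨i, h⟩ else 1

/-- `PP x k = x_k x_{k+1} … x_n` for a tuple `x_0, …, x_{n+1}` -/
def PP (x : Fin (n + 2) → H) (k : ℕ) : H := ((List.range' k (n + 1 - k)).map (ext x)).prod

end BG

end Pool.Agent.Lib.MP_b7a6eb_gt
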