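import Pool.Agent.Lib.MP_b7a6eb_gt.Basic

/-! Constructions of diagrams: reversal, subdivision, Vogel fold, over-arc closure. -/

namespace Pool.Agent.Lib.MP_b7a6eb_gt

open Equiv Equiv.Perm

namespace Diagram

variable (D : Diagram)

/-- reversed orientation -/
def rev : Diagram where
  P := D.P
  V := D.V
  finP := D.finP
  finV := D.finV
  next := D.next.symm
  cr := D.cr
  lab := D.lab
  lab_iff := D.lab_iff
  sign := D.sign

/-- every point `p` is followed by the three markers `(p, 1)`, `(p, 2)`, `(p, 3)` -/
def sub4 : Diagram where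
  P := D.P × Fin 4
  V := D.V
  finP := inferInstance
  finV := D.finV
  next :=
    { toFun := fun x => if x.2 = 3 then (D.next x.1, 0) else (x.1, x.2 + 1)
      invFun := fun x => if x.2 = 0 then (D.next.symm x.1, 3) else (x.1, x.2 - 1)
      left_inv := by
        rintro ⟨p, k⟩
        fin_cases k <;> simp
      right_inv := by
        rintro ⟨p, k⟩
        fin_cases k <;> simp }
  cr := fun x => (D.cr x, 0)
  lab := fun x => if x.2 = 0 then D.lab x.1 else none
  lab_iff := by
    rintro ⟨p, k⟩ x
    by_cases hk : k = 0
    · subst hk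
      simp [D.lab_iff]
    · simp [hk, Ne.symm hk]
  sign := D.sign

/-- The successor permutation of the fold: `inr 0, inr 1` are inserted after `p`, and
`inr 2, inr 3` after `q`. -/
noncomputable def foldNext (p q : D.P) : Perm (D.P ⊕ Fin 4) :=
  letI : DecidableEq (D.P ⊕ Fin 4) := Classical.decEq _
  Equiv.sumCongr D.next (Equiv.refl (Fin 4)) *
    (swap (Sum.inl p) (Sum.inr 0) * swap (Sum.inr 0) (Sum.inr 1)) *
    (swap (Sum.inl q) (Sum.inr 2) * swap (Sum.inr 2) (Sum.inr 3))

/-- Vogel move (an antiparallel Reidemeister move of type two on the right sides of the edges `p`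
and `q`): the edge `p` is pulled over the edge `q`.  The new crossing `inr true` (negative) is passed
over at `inr 0` and under at `inr 3`, the new crossing `inr false` (positive) over at `inr 1` and
under at `inr 2`. -/
noncomputable def fold (p q : D.P) : Diagram where
  P := D.P ⊕ Fin 4
  V := D.V ⊕ Bool
  finP := inferInstance
  finV := inferInstance
  next := D.foldNext p q
  cr := fun x => match x with
    | (Sum.inl v, s) => Sum.inl (D.cr (v, s))
    | (Sum.inr true, true) => Sum.inr 0
    | (Sum.inr true, false) => Sum.inr 3
    | (Sum.inr false, true) => Sum.inr 1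
    | (Sum.inr false, false) => Sum.inr 2
  lab := fun x => match x with
    | Sum.inl r => (D.lab r).map fun y => (Sum.inl y.1, y.2)
    | Sum.inr 0 => some (Sum.inr true, true)
    | Sum.inr 3 => some (Sum.inr true, false)
    | Sum.inr 1 => some (Sum.inr false, true)
    | Sum.inr 2 => some (Sum.inr false, false)
  lab_iff := by
    rintro (p | k) ⟨v | b, s⟩
    · simp only [Option.map_eq_some_iff, Sum.inl.injEq]
      rw [← D.lab_iff]
      constructor
      · rintro ⟨y, h1, h2⟩
        rw [Prod.mk.injEq, Sum.inl.injEq] at h2
        obtain ⟨h3, h4⟩ := h2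
        rw [h1, ← h3, ← h4]
      · intro h
        exact ⟨_, h, rfl⟩
    · cases b <;> cases s <;> simp
    · fin_cases k <;> simp
    · fin_cases k <;> cases b <;> cases s <;> simp
  sign := fun v => match v with
    | Sum.inl v => D.sign v
    | Sum.inr b => !b

@[simp] lemma foldNext_inl {p q x : D.P} (hp : x ≠ p) (hq : x ≠ q) :
    D.foldNext p q (Sum.inl x) = Sum.inl (D.next x) := by
  classical
  simp [foldNext, Perm.mul_apply, Equiv.swap_apply_def, hp, hq]

lemma foldNext_p {p q : D.P} (hpq : p ≠ q) : D.foldNext p q (Sum.inl p) = Sum.inr 0 := by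
  classical
  simp [foldNext, Perm.mul_apply, Equiv.swap_apply_def, hpq]

lemma foldNext_q {p q : D.P} : D.foldNext p q (Sum.inl q) = Sum.inr 2 := by
  classical
  simp [foldNext, Perm.mul_apply, Equiv.swap_apply_def]

@[simp] lemma foldNext_0 {p q : D.P} : D.foldNext p q (Sum.inr 0) = Sum.inr 1 := by
  classical
  simp [foldNext, Perm.mul_apply, Equiv.swap_apply_def]

@[simp] lemma foldNext_1 {p q : D.P} : D.foldNext p q (Sum.inr 1) = Sum.inl (D.next p) := by
  classical
  simp [foldNext, Perm.mul_apply, Equiv.swap_apply_def]

@[simp] lemma foldNext_2 {p q : D.P} : D.foldNext p q (Sum.inr 2) = Sum.inr 3 := by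
  classical
  simp [foldNext, Perm.mul_apply, Equiv.swap_apply_def]

@[simp] lemma foldNext_3 {p q : D.P} (hpq : p ≠ q) :
    D.foldNext p q (Sum.inr 3) = Sum.inl (D.next q) := by
  classical
  simp [foldNext, Perm.mul_apply, Equiv.swap_apply_def, hpq.symm]

/-! ### over-arc closure -/

/-- the points of the arc, together with its starting point -/
noncomputable def arcEmb (b : D.P) (m : ℕ) : Fin (m + 1) ↪ D.P ⊕ Fin m where
  toFun := fun k => Fin.cases (motive := fun _ => D.P ⊕ Fin m) (Sum.inl b) (fun j => Sum.inr j) k
  inj' := by
    intro x y h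
    induction x using Fin.cases with
    | zero => induction y using Fin.cases with
      | zero => rfl
      | succ y => simp at h
    | succ x => induction y using Fin.cases with
      | zero => simp at h
      | succ y => simpa using h

/-- admissible data for the new crossings of an over-arc: `u k` is the point passed under -/
structure ArcOK {m : ℕ} (u : Fin m → D.P) : Prop where
  inj : Function.Injective u
  marker : ∀ k, D.lab (u k) = none

/-- The edge of `b` is replaced by an arc with `m` crossings, which passes over the points `u k`,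
with the signs `s k`. -/
noncomputable def overClosure (b : D.P) {m : ℕ} (u : Fin m → D.P) (s : Fin m → Bool)
    (h : D.ArcOK u) : Diagram where
  P := D.P ⊕ Fin m
  V := D.V ⊕ Fin m
  finP := inferInstance
  finV := inferInstance
  next := Equiv.sumCongr D.next (Equiv.refl (Fin m)) *
    (finRotate (m + 1)).viaEmbedding (D.arcEmb b m)
  cr := fun x => match x with
    | (Sum.inl v, t) => Sum.inl (D.cr (v, t))
    | (Sum.inr k, true) => Sum.inr k
    | (Sum.inr k, false) => Sum.inl (u k)
  lab := fun x => match x with
    | Sum.inl p => open Classical in if h : ∃ k, u k = p then some (Sum.inr h.choose, false)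
        else (D.lab p).map fun y => (Sum.inl y.1, y.2)
    | Sum.inr k => some (Sum.inr k, true)
  lab_iff := by
    classical
    rintro (p | k) ⟨v | j, t⟩
    · by_cases hk : ∃ k, u k = p
      · simp only [hk, ↓reduceDIte, Option.some.injEq, Prod.mk.injEq, reduceCtorEq, false_and,
          Sum.inl.injEq, false_iff]
        intro h2
        obtain ⟨k, hk⟩ := hk
        have := h.marker k
        rw [hk, ← h2, lab_cr] at this
        exact Option.some_ne_none _ this
      · simp only [hk, ↓reduceDIte, Option.map_eq_some_iff, Sum.inl.injEq]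
        rw [← D.lab_iff]
        constructor
        · rintro ⟨y, h1, h2⟩
          rw [Prod.mk.injEq, Sum.inl.injEq] at h2
          obtain ⟨h3, h4⟩ := h2
          rw [h1, ← h3, ← h4]
        · intro h
          exact ⟨_, h, rfl⟩
    · by_cases hk : ∃ k, u k = p
      · simp only [hk, ↓reduceDIte, Option.some.injEq, Prod.mk.injEq, Sum.inr.injEq]
        have hc := hk.choose_spec
        cases t
        · simp only [and_true, Sum.inl.injEq]
          constructor
          · rintro rfl; exact hc
          · intro h2
            exact h.inj (hc.trans h2.symm)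
        · simp
      · simp only [hk, ↓reduceDIte, Option.map_eq_some_iff]
        constructor
        · rintro ⟨y, h1, h2⟩
          simp at h2
        · intro h2
          cases t
          · simp only [Sum.inl.injEq] at h2
            exact absurd ⟨j, h2⟩ hk
          · simp at h2
    · cases t <;> simp
    · cases t
      · simp
      · simp only [Option.some.injEq, Prod.mk.injEq, Sum.inr.injEq, and_true]
        exact eq_comm
  sign := fun v => match v with
    | Sum.inl v => D.sign v
    | Sum.inr k => s k

end Diagram

/-! ### open diagrams -/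

/-- the ends of the arc to be inserted at `b` are markers -/
structure Ends (T : Diagram) (b : T.P) : Prop where
  hb : T.lab b = none
  ha : T.lab (T.next b) = none
  ne : T.next b ≠ b

/-- The face map of the open diagram obtained from `T` by removing the edge of `b`. -/
noncomputable def lface (T : Diagram) (b : T.P) : T.P × Bool → T.P × Bool :=
  open Classical in
  fun s => if s.1 = b then s
    else if s.2 = false ∧ T.next s.1 = b then (s.1, true)
    else if s.2 = true ∧ s.1 = T.next b then (s.1, false)
    else T.face s

/-- planarity of the open diagram -/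
def LPlanar (T : Diagram) (b : T.P) : Prop :=
  ∀ φ : T.P → ℤ, T.IsFlow φ → φ b = 0 → ∃ U : T.P × Bool → ℤ,
    (∀ s, U (lface T b s) = U s) ∧ ∀ p, p ≠ b → U (p, true) - U (p, false) = φ p

/-- the two sides belong to the same face of the open diagram -/
def SF (T : Diagram) (b : T.P) (s t : T.P × Bool) : Prop := ∃ n : ℕ, (lface T b)^[n] s = t

/-- the transition at which the `k`-th edge of the over-arc enters its face: the side `sIn k` is on
the right of the arc and `lface (sIn k)` on the left -/
def sIn (T : Diagram) (b : T.P) {m : ℕ} (u : Fin m → T.P) (s : Fin m → Bool) (k : Fin (m + 1)) :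
    T.P × Bool :=
  Fin.cases (motive := fun _ => T.P × Bool) (T.prev b, false)
    (fun j => if s j = true then (T.prev (u j), false) else (u j, true)) k

/-- the transition at which the `k`-th edge of the over-arc leaves its face: the side `sOut k` is on
the left of the arc and `lface (sOut k)` on the right -/
def sOut (T : Diagram) (b : T.P) {m : ℕ} (u : Fin m → T.P) (s : Fin m → Bool) (k : Fin (m + 1)) :
    T.P × Bool :=
  if h : k.val < m then
    (if s ⟨k.val, h⟩ = true then (u ⟨k.val, h⟩, true) else (T.prev (u ⟨k.val, h⟩), false))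
  else (T.next b, true)

/-- The crossings of the new over-arc: `A p` crosses the edge `p` from left to right, `P v` and `Q v`
are the crossings with the lower right and the upper right edge at the crossing `v` (of an arc
passing `v` on the right side, from the south to the north), and `E v` crosses the upper left edge
at `v` from right to left. -/
inductive Rec (T : Diagram) : Type
  | A (p : T.P) : Rec T
  | P (v : T.V) : Rec T
  | Q (v : T.V) : Rec T
  | E (v : T.V) : Rec T

namespace Rec

variable {T : Diagram}

/-- the point of the subdivided diagram which is passed under -/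
def pt : Rec T → T.sub4.P
  | A p => (p, 2)
  | P v => (T.prev (T.r v), 3)
  | Q v => (T.l v, 1)
  | E v => (T.r v, 1)

/-- the sign of the crossing -/
def sg : Rec T → Bool
  | A _ => true
  | P _ => true
  | Q _ => false
  | E _ => false

/-- a side of the face in which the arc runs before the crossing (`none`: only around a corner) -/
def bef : Rec T → Option (T.P × Bool)
  | A p => some (p, true)
  | P v => some (T.prev (T.r v), true)
  | Q _ => none
  | E v => some (T.r v, false)

/-- a side of the face in which the arc runs after the crossing -/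
def aft : Rec T → Option (T.P × Bool)
  | A p => some (p, false)
  | P _ => none
  | Q v => some (T.l v, true)
  | E v => some (T.r v, true)

end Rec

/-! ### pairs of crossings which are not smoothed -/

/-- Data of the crossings of `D` which are not smoothed. -/
structure Pairs (D : Diagram) (Y : Set D.V) (I J : Type) (zc ec : I → D.V) (pc qc : J → D.V)
    (mv : J → D.V) (mx : J → Bool) : Prop where
  finI : Finite I
  finJ : Finite J
  cover : ∀ v, v ∉ Y → (∃ i, v = zc i) ∨ (∃ i, v = ec i) ∨ (∃ j, v = pc j) ∨ ∃ j, v = qc j
  zY : ∀ i, zc i ∉ Y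
  eY : ∀ i, ec i ∉ Y
  pY : ∀ j, pc j ∉ Y
  qY : ∀ j, qc j ∉ Y
  zinj : Function.Injective zc
  einj : Function.Injective ec
  pinj : Function.Injective pc
  qinj : Function.Injective qc
  ze : ∀ i i', zc i ≠ ec i'
  zp : ∀ i j, zc i ≠ pc j
  zq : ∀ i j, zc i ≠ qc j
  ep : ∀ i j, ec i ≠ pc j
  eq : ∀ i j, ec i ≠ qc j
  pq : ∀ j j', pc j ≠ qc j'
  zs : ∀ i, D.sign (zc i) = true
  es : ∀ i, D.sign (ec i) = false
  ps : ∀ j, D.sign (pc j) = true
  qs : ∀ j, D.sign (qc j) = false
  zu : ∀ i, D.next (D.cr (zc i, false)) = D.cr (ec i, false)
  po : ∀ j, D.next (D.cr (pc j, true)) = D.cr (qc j, true)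
  mY : ∀ j, mv j ∈ Y
  pu : ∀ j, D.next (D.cr (pc j, false)) = D.cr (mv j, mx j)
  qu : ∀ j, D.next (D.cr (mv j, !mx j)) = D.cr (qc j, false)
  status : ∀ i, ∃ st : D.P → ℕ,
    (∀ p, D.lab p = none → st (D.prev p) = st p) ∧
    (∀ v ∈ Y, ∀ x, st (D.prev (D.cr (v, x))) = st (D.cr (v, !x))) ∧
    (∀ j x, st (D.prev (D.cr (pc j, x))) = st (D.cr (pc j, x))) ∧
    (∀ j x, st (D.prev (D.cr (qc j, x))) = st (D.cr (qc j, x))) ∧
    (∀ i', i' ≠ i → ∀ x y, st (D.prev (D.cr (zc i', x))) = st (D.cr (zc i', y))) ∧
    (∀ i', i' ≠ i → ∀ x y, st (D.prev (D.cr (ec i', x))) = st (D.cr (ec i', y))) ∧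
    st (D.prev (D.cr (zc i, true))) = 0 ∧ st (D.cr (zc i, true)) = 2 ∧
    st (D.prev (D.cr (zc i, false))) = 1 ∧ st (D.cr (zc i, false)) = 1 ∧
    st (D.prev (D.cr (ec i, true))) = 2 ∧ st (D.cr (ec i, true)) = 0 ∧
    st (D.prev (D.cr (ec i, false))) = 1 ∧ st (D.cr (ec i, false)) = 1

end Pool.Agent.Lib.MP_b7a6eb_gt
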