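import Pool.Agent.Lib.MP_b7a6eb_gt.Constr2
import Pool.Agent.Lib.MP_b7a6eb_gt.MK2

namespace Pool.Agent.Lib.MP_b7a6eb_gt

open Equiv Equiv.Perm

/-- connected diagrams with a crossing: every circle has a crossing point -/
theorem mk5_cover (D : Diagram) (hC : D.Connected) (hV : Nonempty D.V) (q : D.P) :
    ∃ p ∈ {p | D.lab p ≠ none}, D.next.SameCycle p q := by
  by_contra hcon
  push Not at hcon
  have key : ∀ x y, D.Conn x y → (D.next.SameCycle x q ↔ D.next.SameCycle y q) := by
    intro x y hxy
    induction hxy with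
    | rel x y h =>
      rcases h with h | ⟨v, h1, h2⟩
      · rw [h]
        exact Equiv.Perm.sameCycle_apply_left.symm
      · constructor
        · intro h3
          exact absurd h3 (hcon x (by rw [h1]; simp))
        · intro h3
          exact absurd h3 (hcon y (by rw [h2]; simp))
    | refl x => exact Iff.rfl
    | symm x y _ ih => exact ih.symm
    | trans x y z _ _ ih1 ih2 => exact ih1.trans ih2
  obtain ⟨v⟩ := hV
  have h1 := (key q (D.cr (v, true)) (hC _ _)).1 (SameCycle.refl _ _)
  exact hcon (D.cr (v, true)) (by simp) h1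

/-- [MK5] -/
theorem exists_markerless (D : Diagram) (hC : D.Connected) (hV : Nonempty D.V) :
    ∃ (D0 : Diagram) (i : D0.P → D.P) (j : D0.V ≃ D.V), MSub D0 D i j ∧
      (∀ p, D0.lab p ≠ none) ∧ D0.Connected := by
  classical
  set S : Set D.P := {p | D.lab p ≠ none} with hS
  have hcr : ∀ v ∈ (Set.univ : Set D.V), ∀ x, D.cr (v, x) ∈ S := by
    intro v _ x
    simp [hS]
  set D0 : Diagram := D.restrict S Set.univ hcr with hD0
  obtain ⟨i, hi⟩ : ∃ i : D0.P → D.P, ∀ p, i p = p.val := ⟨fun p => p.val, fun _ => rfl⟩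
  have hi' : i = (Subtype.val : S → D.P) := funext hi
  obtain ⟨j, hj⟩ : ∃ j : D0.V ≃ D.V, ∀ v, j v = v.val := ⟨Equiv.Set.univ D.V, fun _ => rfl⟩
  have hsub : MSub D0 D i j := by
    refine ⟨?_, fun v x => ?_, fun v => ?_⟩
    · rw [hi']
      exact firstRet_psub D.next S (fun q => mk5_cover D hC hV q)
    · rw [hi, hj]
      rfl
    · rw [hj]
      rfl
  refine ⟨D0, i, j, hsub, ?_, ?_⟩
  · intro p h0
    have h1 : D.lab (i p) ≠ none := by
      rw [hi]
      exact p.2
    rcases hl : D.lab (i p) with _ | ⟨v, x⟩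
    · exact h1 hl
    · have h2 := D.cr_of_lab hl
      have h3 : D0.lab p = some (j.symm v, x) := by
        refine (D0.lab_iff _ _).2 (hsub.psub.inj ?_)
        rw [← hsub.cr, Equiv.apply_symm_apply, h2]
      rw [h0] at h3
      exact absurd h3 (by simp)
  · have key : ∀ x y, D.Conn x y → D0.Conn (mk2_base hsub x) (mk2_base hsub y) := by
      intro x y hxy
      induction hxy with
      | rel x y h =>
        rcases h with h | ⟨v, h1, h2⟩
        · rw [h]
          by_cases hr : D.next x ∈ Set.range i
          · have h2 := mk2_base_next_mem hsub hr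
            rw [h2, mk2_base_i]
            exact Relation.EqvGen.rel _ _ (Or.inl rfl)
          · rw [mk2_base_next_not hsub hr]
            exact Relation.EqvGen.refl _
        · have h3 := hsub.cr (j.symm v) true
          have h4 := hsub.cr (j.symm v) false
          rw [Equiv.apply_symm_apply] at h3 h4
          rw [h1, h2, h3, h4, mk2_base_i, mk2_base_i]
          exact Relation.EqvGen.rel _ _ (Or.inr ⟨_, rfl, rfl⟩)
      | refl x => exact Relation.EqvGen.refl _
      | symm x y _ ih => exact Relation.EqvGen.symm _ _ ih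
      | trans x y z _ _ ih1 ih2 => exact Relation.EqvGen.trans _ _ _ ih1 ih2
    intro p q
    have h1 := key _ _ (hC (i p) (i q))
    rwa [mk2_base_i hsub p, mk2_base_i hsub q] at h1

end Pool.Agent.Lib.MP_b7a6eb_gt
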