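import Pool.Agent.Lib.MP_b7a6eb_gt.MK2

namespace Pool.Agent.Lib.MP_b7a6eb_gt

open Equiv Equiv.Perm

theorem mk3_col_base {D D' : Diagram} {i : D.P → D'.P} {j : D.V ≃ D'.V}
    (h : MSub D D' i j) (Y : Set D'.V) {H : Type} [Group H] {c' : D'.P → H}
    (hc : D'.IsCol Y c') (q : D'.P) : c' (i (mk2_base h q)) = c' q := by
  refine mk2_induct h (fun a q => c' a = c' q) (fun _ => rfl) ?_ q
  intro a q haq hq
  have := hc.1 (D'.next q) (mk2_out h hq)
  rw [D'.prev_next] at this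
  rw [haq, this]

theorem mk3_mem {D D' : Diagram} {j : D.V ≃ D'.V} (Y : Set D.V) (v : D.V) :
    j v ∈ j '' Y ↔ v ∈ Y := by
  constructor
  · rintro ⟨w, hw, he⟩
    rwa [← j.injective he]
  · exact fun hv => Set.mem_image_of_mem _ hv

/-- restriction of a colouring -/
theorem mk3_restrict {D D' : Diagram} {i : D.P → D'.P} {j : D.V ≃ D'.V}
    (h : MSub D D' i j) (Y : Set D.V) {H : Type} [Group H] {c' : D'.P → H}
    (hc : D'.IsCol (j '' Y) c') : D.IsCol Y (fun p => c' (i p)) := by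
  have hb := mk3_col_base h (j '' Y) hc
  refine ⟨?_, ?_, ?_⟩
  · intro p hp
    simp only
    rw [← mk2_base_prev_i h, hb]
    exact hc.1 _ (mk2_lab h hp)
  · intro v hv x
    simp only
    rw [← mk2_base_prev_i h, hb, ← h.cr, ← h.cr]
    exact hc.2.1 (j v) ((mk3_mem Y v).2 hv) x
  · intro v hv
    simp only
    rw [← mk2_base_prev_i h, ← mk2_base_prev_i h, hb, hb, ← h.cr, ← h.cr, ← h.sign]
    exact hc.2.2 (j v) (fun h2 => hv ((mk3_mem Y v).1 h2))

/-- extension of a colouring -/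
theorem mk3_extend {D D' : Diagram} {i : D.P → D'.P} {j : D.V ≃ D'.V}
    (h : MSub D D' i j) (Y : Set D.V) {H : Type} [Group H] {c : D.P → H}
    (hc : D.IsCol Y c) : D'.IsCol (j '' Y) (fun q => c (mk2_base h q)) := by
  refine ⟨?_, ?_, ?_⟩
  · intro q hq
    by_cases hr : q ∈ Set.range i
    · obtain ⟨p, rfl⟩ := hr
      simp only
      rw [mk2_base_prev_i, mk2_base_i]
      refine hc.1 p ?_
      rcases hp : D.lab p with _ | ⟨v, x⟩
      · rfl
      · have h2 := D.cr_of_lab hp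
        rw [← h2, ← h.cr, D'.lab_cr] at hq
        exact absurd hq (by simp)
    · simp only
      rw [mk2_base_prev_not h hr]
  · rintro _ ⟨v, hv, rfl⟩ x
    simp only [h.cr, mk2_base_prev_i, mk2_base_i]
    exact hc.2.1 v hv x
  · intro w hw
    obtain ⟨v, rfl⟩ := j.surjective w
    have hv : v ∉ Y := fun h2 => hw ((mk3_mem Y v).2 h2)
    simp only [h.cr, mk2_base_prev_i, mk2_base_i, h.sign]
    exact hc.2.2 v hv

/-- [MK3] -/
theorem MSub.ncol {D D' : Diagram} {i : D.P → D'.P} {j : D.V ≃ D'.V} (h : MSub D D' i j)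
    (Y : Set D.V) (H : Type) [Group H] : D'.ncol (j '' Y) H = D.ncol Y H := by
  unfold Diagram.ncol
  refine Nat.card_congr ⟨fun c' => ⟨fun p => c'.1 (i p), mk3_restrict h Y c'.2⟩,
    fun c => ⟨fun q => c.1 (mk2_base h q), mk3_extend h Y c.2⟩, ?_, ?_⟩
  · rintro ⟨c', hc'⟩
    apply Subtype.ext
    funext q
    exact mk3_col_base h _ hc' q
  · rintro ⟨c, hc⟩
    apply Subtype.ext
    funext p
    simp only [mk2_base_i]

end Pool.Agent.Lib.MP_b7a6eb_gt
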