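import Pool.Agent.Lib.MP_b7a6eb_gt.Basic

namespace Pool.Agent.Lib.MP_b7a6eb_gt

open Equiv Equiv.Perm

theorem pm3_of {α β : Type*} {f : Perm α} {g : Perm β}
    {i : α → β} (h : PSub f g i) (m : ℕ) (x : α) : g.SameCycle (i x) (i ((f ^ m) x)) := by
  induction m with
  | zero => exact SameCycle.refl _ _
  | succ m ih =>
    refine ih.trans ?_
    obtain ⟨n, hn, _⟩ := h.step ((f ^ m) x)
    refine ⟨((n + 1 : ℕ) : ℤ), ?_⟩
    rw [zpow_natCast, hn, pow_succ', Perm.mul_apply]

theorem pm3_to {α β : Type*} {f : Perm α} {g : Perm β}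
    {i : α → β} (h : PSub f g i) (m : ℕ) : ∀ (x y : α), (g ^ m) (i x) = i y → f.SameCycle x y := by
  induction m using Nat.strong_induction_on with
  | _ m ih =>
    intro x y hxy
    rcases Nat.eq_zero_or_pos m with h0 | h0
    · subst h0
      have : x = y := h.inj (by simpa using hxy)
      rw [this]
    · obtain ⟨n, hn, hn2⟩ := h.step x
      have hmn : n + 1 ≤ m := by
        by_contra hlt
        refine hn2 (m - 1) (by omega) ?_
        rw [Nat.sub_add_cancel h0, hxy]
        exact Set.mem_range_self y
      have h1 := ih (m - (n + 1)) (by omega) (f x) y (by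
        rw [← hn, ← Perm.mul_apply, ← pow_add, Nat.sub_add_cancel hmn, hxy])
      exact SameCycle.trans ⟨1, by simp⟩ h1

/-- [PM3] -/
theorem PSub.sameCycle_iff {α β : Type*} [Finite α] [Finite β] {f : Perm α} {g : Perm β}
    {i : α → β} (h : PSub f g i) (x y : α) : g.SameCycle (i x) (i y) ↔ f.SameCycle x y := by
  constructor
  · intro h1
    obtain ⟨m, hm⟩ := h1.exists_nat_pow_eq
    exact pm3_to h m x y hm
  · intro h1
    obtain ⟨m, hm⟩ := h1.exists_nat_pow_eq
    rw [← hm]
    exact pm3_of h m x

/-- [PM3] -/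
theorem PSub.cyc_eq {α β : Type*} [Finite α] [Finite β] {f : Perm α} {g : Perm β}
    {i : α → β} (h : PSub f g i) : cyc g = cyc f := by
  unfold cyc
  symm
  refine Nat.card_eq_of_bijective
    (Quotient.map (sa := SameCycle.setoid f) (sb := SameCycle.setoid g) i
      (fun x y hxy => (h.sameCycle_iff x y).2 hxy)) ⟨?_, ?_⟩
  · intro a b
    induction a using Quotient.inductionOn with
    | _ x =>
      induction b using Quotient.inductionOn with
      | _ y =>
        intro hab
        have h1 : g.SameCycle (i x) (i y) := Quotient.exact hab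
        exact Quotient.sound ((h.sameCycle_iff x y).1 h1)
  · intro b
    induction b using Quotient.inductionOn with
    | _ q =>
      obtain ⟨p, hp⟩ := h.cover q
      exact ⟨Quotient.mk _ p, Quotient.sound hp⟩

end Pool.Agent.Lib.MP_b7a6eb_gt
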