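import Pool.Agent.Lib.MP_b7a6eb_gt.Basic
import Pool.Agent.Lib.MP_b7a6eb_gt.MK1
import Pool.Agent.Lib.MP_b7a6eb_gt.MK2
import Pool.Agent.Lib.MP_b7a6eb_gt.MK3
import Pool.Agent.Lib.MP_b7a6eb_gt.PM3

namespace Pool.Agent.Lib.MP_b7a6eb_gt

open Equiv Equiv.Perm

theorem MSub.good_iff {D D' : Diagram} {i : D.P → D'.P} {j : D.V ≃ D'.V} (h : MSub D D' i j)
    (Y : Set D.V) : D.Good Y ↔ D'.Good (j '' Y) := by
  have hs : cyc D'.seif = cyc D.seif := by
    have h1 := (h.thr Set.univ).cyc_eq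
    have h2 : (j '' Set.univ : Set D'.V) = Set.univ := by simp
    rw [h2] at h1
    exact h1
  constructor
  · intro g
    refine ⟨⟨i g.ne.some⟩, h.planar_iff.1 g.planar, ?_, ?_⟩
    · rintro _ ⟨v, hv, rfl⟩
      rw [h.sign]; exact g.pos v hv
    · intro H _ _
      rw [h.ncol, hs, g.col]
  · intro g
    refine ⟨⟨(h.psub.cover g.ne.some).choose⟩, h.planar_iff.2 g.planar, ?_, ?_⟩
    · intro v hv
      rw [← h.sign]; exact g.pos _ ⟨v, hv, rfl⟩
    · intro H _ _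
      rw [← h.ncol, ← hs, g.col]

end Pool.Agent.Lib.MP_b7a6eb_gt
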