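import Pool.Agent.Lib.MP_b7a6eb_gt.Basic

namespace Pool.Agent.Lib.MP_b7a6eb_gt

open Equiv Equiv.Perm

namespace Diagram

variable (D : Diagram)

/-- [VG1] levels (Alexander numbering) -/
theorem exists_level (hD : D.Planar) : ∃ h : D.P → ℤ, (∀ p, h (D.seif p) = h p) ∧
    (∀ v, h (D.l v) = h (D.r v) + 1) := by
  obtain ⟨U, hU, hU1⟩ := hD (fun _ => 1) ⟨fun _ _ => rfl, fun _ => rfl⟩
  have hS : ∀ v, U (D.prev (D.r v), true) = U (D.prev (D.l v), false) := fun v => by
    rw [← hU (D.prev (D.l v), false), face_S]
  have hE : ∀ v, U (D.l v, false) = U (D.prev (D.r v), false) := fun v => by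
    rw [← hU (D.prev (D.r v), false), face_E]
  have hN : ∀ v, U (D.r v, false) = U (D.l v, true) := fun v => by
    rw [← hU (D.l v, true), face_N]
  refine ⟨fun p => U (D.prev p, false), ?_, ?_⟩
  · intro p
    simp only
    rcases D.point_cases p with h | ⟨v, rfl⟩ | ⟨v, rfl⟩
    · rw [D.seif_marker h, prev_next]
      have h1 := hU (D.prev p, false)
      rw [D.face_false_marker (by rw [next_prev]; exact h), next_prev] at h1
      exact h1
    · rw [seif_l, prev_next, hN]
      have h1 := hU1 (D.l v)
      have h2 := hU1 (D.prev (D.r v))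
      have h3 := hS v
      have h4 := hE v
      linarith
    · rw [seif_r, prev_next, hE]
  · intro v
    simp only
    have h2 := hU1 (D.prev (D.r v))
    have h3 := hS v
    linarith

end Diagram

end Pool.Agent.Lib.MP_b7a6eb_gt
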