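import Pool.Agent.Lib.MP_b7a6eb_gt.Basic
import Pool.Agent.Lib.MP_b7a6eb_gt.VG1

namespace Pool.Agent.Lib.MP_b7a6eb_gt

open Equiv Equiv.Perm

/-- [RD1] auxiliary -/
theorem rd1_total {Q : Type*} (E : Q → Q → Prop) (hR : ∀ a b c, E a b → E a c → b = c)
    (hL : ∀ a b c, E a b → E c b → a = c) {a b : Q} (h : Relation.EqvGen E a b) :
    Relation.ReflTransGen E a b ∨ Relation.ReflTransGen E b a := by
  have h1 : Relator.RightUnique E := fun a b c h1 h2 => hR a b c h1 h2
  have h2 : Relator.RightUnique (Function.swap E) := fun b a c h1 h2 => hL a b c h1 h2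
  induction h with
  | rel x y h => exact Or.inl (Relation.ReflTransGen.single h)
  | refl x => exact Or.inl Relation.ReflTransGen.refl
  | symm x y _ ih => exact ih.symm
  | trans x y z _ _ ih1 ih2 =>
    rcases ih1 with ih1 | ih1 <;> rcases ih2 with ih2 | ih2
    · exact Or.inl (ih1.trans ih2)
    · have h3 := Relation.ReflTransGen.total_of_right_unique h2
        (Relation.reflTransGen_swap.2 ih1) (Relation.reflTransGen_swap.2 ih2)
      rcases h3 with h3 | h3
      · exact Or.inr (Relation.reflTransGen_swap.1 h3)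
      · exact Or.inl (Relation.reflTransGen_swap.1 h3)
    · exact Relation.ReflTransGen.total_of_right_unique h1 ih1 ih2
    · exact Or.inr (ih2.trans ih1)

/-- [RD1] auxiliary -/
theorem rd1_refl {Q : Type*} (E : Q → Q → Prop) (h : Q → ℤ) (hE : ∀ a b, E a b → h a = h b + 1)
    {a b : Q} (hab : Relation.ReflTransGen E a b) :
    (a = b ∨ h b < h a) ∧ ∀ z, h b ≤ z → z ≤ h a → ∃ c, h c = z := by
  induction hab with
  | refl => exact ⟨Or.inl rfl, fun z h1 h2 => ⟨a, le_antisymm h1 h2⟩⟩
  | tail _ h1 ih =>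
    rename_i b c hab
    have h2 := hE _ _ h1
    obtain ⟨h3, h4⟩ := ih
    constructor
    · right
      rcases h3 with h3 | h3
      · rw [h3]; omega
      · omega
    · intro z hz1 hz2
      by_cases hz : h b ≤ z
      · exact h4 z hz hz2
      · exact ⟨c, by omega⟩

/-- [RD1] positions of the circles -/
theorem exists_pos (D : Diagram) (hne : Nonempty D.P) (hD : D.Planar) (hC : D.Connected)
    (hL : D.PL) (hR : D.PR) :
    ∃ (n : ℕ) (pos : D.P → Fin (n + 1)), Function.Surjective pos ∧
      (∀ p, pos (D.seif p) = pos p) ∧ (∀ p q, pos p = pos q → D.seif.SameCycle p q) ∧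
      ∀ v, ∃ i : Fin n, pos (D.l v) = i.castSucc ∧ pos (D.r v) = i.succ := by
  classical
  obtain ⟨h, hs, hlr⟩ := D.exists_level hD
  have hsame : ∀ p q, D.seif.SameCycle p q → h p = h q := by
    intro p q hpq
    obtain ⟨k, -, rfl⟩ := hpq.exists_pow_eq'
    clear hpq
    induction k with
    | zero => rfl
    | succ k ih => rw [pow_succ', Perm.mul_apply, hs]; exact ih
  let Q := Quotient (SameCycle.setoid D.seif)
  let mk : D.P → Q := Quotient.mk (SameCycle.setoid D.seif)
  have mk_eq : ∀ a b, mk a = mk b ↔ D.seif.SameCycle a b :=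
    fun a b => Quotient.eq (r := SameCycle.setoid D.seif)
  let H : Q → ℤ := fun q => Quotient.liftOn q h hsame
  have hH : ∀ p, H (mk p) = h p := fun p => rfl
  let E : Q → Q → Prop := fun a b => ∃ v, a = mk (D.l v) ∧ b = mk (D.r v)
  have hE : ∀ a b, E a b → H a = H b + 1 := by
    rintro a b ⟨v, rfl, rfl⟩
    rw [hH, hH, hlr]
  have hEl : ∀ a b c, E a b → E c b → a = c := by
    rintro a b c ⟨v, rfl, rfl⟩ ⟨w, rfl, hw⟩
    rw [mk_eq]
    exact hL v w ((mk_eq _ _).1 hw)
  have hEr : ∀ a b c, E a b → E a c → b = c := by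
    rintro a b c ⟨v, rfl, rfl⟩ ⟨w, hw, rfl⟩
    rw [mk_eq]
    exact hR v w ((mk_eq _ _).1 hw)
  have hEv : ∀ v, Relation.EqvGen E (mk (D.l v)) (mk (D.r v)) :=
    fun v => Relation.EqvGen.rel _ _ ⟨v, rfl, rfl⟩
  have hnl : ∀ v, mk (D.next (D.l v)) = mk (D.r v) := by
    intro v
    rw [← D.seif_r, mk_eq]
    exact (sameCycle_apply_left).2 (SameCycle.refl _ _)
  have hnr : ∀ v, mk (D.next (D.r v)) = mk (D.l v) := by
    intro v
    rw [← D.seif_l, mk_eq]
    exact (sameCycle_apply_left).2 (SameCycle.refl _ _)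
  have hnm : ∀ p, D.lab p = none → mk (D.next p) = mk p := by
    intro p hp
    rw [← D.seif_marker hp, mk_eq]
    exact (sameCycle_apply_left).2 (SameCycle.refl _ _)
  have hconn : ∀ p q, D.Conn p q → Relation.EqvGen E (mk p) (mk q) := by
    intro p q hpq
    induction hpq with
    | rel x y h =>
      rcases h with rfl | ⟨v, rfl, rfl⟩
      · rcases D.point_cases x with h | ⟨v, rfl⟩ | ⟨v, rfl⟩
        · rw [hnm x h]; exact Relation.EqvGen.refl _
        · rw [hnl]; exact hEv v
        · rw [hnr]; exact Relation.EqvGen.symm _ _ (hEv v)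
      · have := hEv v
        rw [Diagram.l, Diagram.r] at this
        cases hs : D.sign v
        · rw [hs] at this; exact Relation.EqvGen.symm _ _ this
        · rw [hs] at this; exact this
    | refl x => exact Relation.EqvGen.refl _
    | symm x y _ ih => exact Relation.EqvGen.symm _ _ ih
    | trans x y z _ _ ih1 ih2 => exact Relation.EqvGen.trans _ _ _ ih1 ih2
  have htot : ∀ p q, Relation.ReflTransGen E (mk p) (mk q) ∨
      Relation.ReflTransGen E (mk q) (mk p) :=
    fun p q => rd1_total E hEr hEl (hconn p q (hC p q))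
  have hinj : ∀ p q, h p = h q → D.seif.SameCycle p q := by
    intro p q hpq
    rw [← mk_eq]
    rcases htot p q with h1 | h1
    · rcases (rd1_refl E H hE h1).1 with h2 | h2
      · exact h2
      · rw [hH, hH] at h2; omega
    · rcases (rd1_refl E H hE h1).1 with h2 | h2
      · exact h2.symm
      · rw [hH, hH] at h2; omega
  have hconv : ∀ p q z, h q ≤ z → z ≤ h p → ∃ c, h c = z := by
    intro p q z hz1 hz2
    have key : ∃ c, H c = z := by
      rcases htot p q with h1 | h1
      · exact (rd1_refl E H hE h1).2 z hz1 hz2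
      · rcases (rd1_refl E H hE h1).1 with h2 | h2
        · have : h p = h q := by rw [← hH, ← hH, h2]
          exact ⟨mk p, by rw [hH]; omega⟩
        · rw [hH, hH] at h2; omega
    obtain ⟨c, hc⟩ := key
    obtain ⟨c, rfl⟩ := Quotient.exists_rep c
    exact ⟨c, hc⟩
  obtain ⟨pM, hM⟩ := Finite.exists_max h
  obtain ⟨pm, hm⟩ := Finite.exists_min h
  have hmM : h pm ≤ h pM := hM pm
  refine ⟨(h pM - h pm).toNat, fun p => ⟨(h pM - h p).toNat, ?_⟩, ?_, ?_, ?_, ?_⟩
  · have h1 := hM p
    have h2 := hm p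
    omega
  · intro j
    have hj := j.2
    obtain ⟨c, hc⟩ := hconv pM pm (h pM - j.val) (by omega) (by omega)
    refine ⟨c, ?_⟩
    apply Fin.ext
    dsimp only
    omega
  · intro p
    apply Fin.ext
    dsimp only
    rw [hs]
  · intro p q hpq
    apply hinj
    rw [Fin.ext_iff] at hpq
    dsimp only at hpq
    have h1 := hM p
    have h2 := hM q
    omega
  · intro v
    have h1 := hM (D.l v)
    have h2 := hm (D.r v)
    have h3 := hlr v
    refine ⟨⟨(h pM - h (D.l v)).toNat, by omega⟩, ?_, ?_⟩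
    · rfl
    · apply Fin.ext
      simp only [Fin.val_succ]
      omega

end Pool.Agent.Lib.MP_b7a6eb_gt
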