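import Pool.Agent.Lib.MP_b7a6eb_gt.Basic

namespace Pool.Agent.Lib.MP_b7a6eb_gt

open Equiv Equiv.Perm

/-- [RD2] walking along a cycle -/
theorem rd2_walk {α γ : Type*} [Finite α] (f : Perm α) (R : α → Prop) (g : α → γ)
    (hg : ∀ x, ¬ R x → g x = g (f x)) {x y : α} (h : f.SameCycle x y) :
    g x = g y ∨ ∃ z, R z ∧ f.SameCycle x z ∧ g z = g x := by
  obtain ⟨k, -, hk⟩ := h.exists_pow_eq'
  subst hk
  clear h
  induction k with
  | zero => left; rfl
  | succ k ih =>
    rcases ih with h | h
    · by_cases hR : R ((f ^ k) x)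
      · exact Or.inr ⟨_, hR, ⟨k, by simp⟩, h.symm⟩
      · left
        rw [h, hg _ hR, pow_succ', Perm.mul_apply]
    · exact Or.inr h

/-- [RD2] walking along a cycle -/
theorem rd2_walk' {α γ : Type*} [Finite α] (f : Perm α) (R : α → Prop) (g : α → γ)
    (hg : ∀ x, ¬ R x → g x = g (f x)) {x y : α} (h : f.SameCycle x y) (hy : R y) :
    ∃ z, R z ∧ f.SameCycle x z ∧ g z = g x := by
  rcases rd2_walk f R g hg h with h1 | h1
  · exact ⟨y, hy, h, h1.symm⟩
  · exact h1

/-- [RD2] a chain of choices along `Fin (n + 1)` -/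
theorem rd2_chain {n : ℕ} {α : Type*} (pos : α → Fin (n + 1)) (R : α → α → Prop) (x0 : α)
    (hx0 : pos x0 = 0)
    (hs : ∀ j : Fin n, ∀ x, pos x = j.castSucc → ∃ y, pos y = j.succ ∧ R x y) :
    ∃ page : Fin (n + 1) → α, (∀ j, pos (page j) = j) ∧
      ∀ j : Fin n, R (page j.castSucc) (page j.succ) := by
  classical
  let F : ∀ j : Fin (n + 1), {x : α // pos x = j} :=
    fun j => Fin.induction (motive := fun j => {x : α // pos x = j}) ⟨x0, hx0⟩
      (fun j x => ⟨(hs j x.1 x.2).choose, (hs j x.1 x.2).choose_spec.1⟩) j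
  refine ⟨fun j => (F j).1, fun j => (F j).2, fun j => ?_⟩
  have : F j.succ = ⟨(hs j (F j.castSucc).1 (F j.castSucc).2).choose,
      (hs j (F j.castSucc).1 (F j.castSucc).2).choose_spec.1⟩ := rfl
  dsimp only
  rw [this]
  exact (hs j (F j.castSucc).1 (F j.castSucc).2).choose_spec.2

/-- [RD2] every circle has crossings to the next one -/
theorem rd2_exists (D : Diagram) (n : ℕ) (pos : D.P → Fin (n + 1))
    (h0 : Function.Surjective pos) (h1 : ∀ p, pos (D.seif p) = pos p)
    (h3 : ∀ v, ∃ i : Fin n, pos (D.l v) = i.castSucc ∧ pos (D.r v) = i.succ)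
    (h4 : ∀ p, D.lab p ≠ none) (h5 : D.Connected) (j : Fin n) :
    ∃ v, pos (D.l v) = j.castSucc ∧ pos (D.r v) = j.succ := by
  by_contra hcon
  push Not at hcon
  have hv : ∀ v, (pos (D.l v) ≤ j.castSucc ↔ pos (D.r v) ≤ j.castSucc) := by
    intro v
    obtain ⟨i, hi1, hi2⟩ := h3 v
    have hij : i ≠ j := by
      rintro rfl
      exact hcon v hi1 hi2
    have hij' : i.val ≠ j.val := fun h => hij (Fin.ext h)
    rw [hi1, hi2, Fin.le_def, Fin.le_def]
    simp only [Fin.val_castSucc, Fin.val_succ]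
    omega
  have hnl : ∀ v, pos (D.next (D.l v)) = pos (D.r v) := fun v => by rw [← D.seif_r, h1]
  have hnr : ∀ v, pos (D.next (D.r v)) = pos (D.l v) := fun v => by rw [← D.seif_l, h1]
  have hgen : ∀ p q, (q = D.next p ∨ ∃ v, p = D.cr (v, true) ∧ q = D.cr (v, false)) →
      (pos p ≤ j.castSucc ↔ pos q ≤ j.castSucc) := by
    rintro p q (rfl | ⟨v, rfl, rfl⟩)
    · rcases D.point_cases p with h | ⟨v, rfl⟩ | ⟨v, rfl⟩
      · exact absurd h (h4 p)
      · rw [hnl]; exact hv v
      · rw [hnr]; exact (hv v).symm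
    · have := hv v
      rw [Diagram.l, Diagram.r] at this
      cases hs : D.sign v
      · rw [hs] at this; exact this.symm
      · rw [hs] at this; exact this
  have hconn : ∀ p q, D.Conn p q → (pos p ≤ j.castSucc ↔ pos q ≤ j.castSucc) := by
    intro p q h
    induction h with
    | rel x y h => exact hgen x y h
    | refl x => exact Iff.rfl
    | symm x y _ ih => exact ih.symm
    | trans x y z _ _ ih1 ih2 => exact ih1.trans ih2
  obtain ⟨p, hp⟩ := h0 j.castSucc
  obtain ⟨q, hq⟩ := h0 j.succ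
  have := (hconn p q (h5 p q)).1 (by rw [hp])
  rw [hq] at this
  exact absurd this (not_le.2 (Fin.castSucc_lt_succ (i := j)))

/-- [RD2] a page: one edge (entering `page j`) on every circle, such that no flow avoids it -/
theorem exists_page (D : Diagram) (hD : D.Planar) (n : ℕ) (pos : D.P → Fin (n + 1))
    (h0 : Function.Surjective pos) (h1 : ∀ p, pos (D.seif p) = pos p)
    (h2 : ∀ p q, pos p = pos q → D.seif.SameCycle p q)
    (h3 : ∀ v, ∃ i : Fin n, pos (D.l v) = i.castSucc ∧ pos (D.r v) = i.succ)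
    (h4 : ∀ p, D.lab p ≠ none) (h5 : D.Connected) :
    ∃ page : Fin (n + 1) → D.P, (∀ j, pos (page j) = j) ∧
      ∀ φ : D.P → ℤ, D.IsFlow φ → (∀ p, 0 ≤ φ p) → (∀ j, φ (D.prev (page j)) = 0) →
        ∀ p, φ p = 0 := by
  have hex := rd2_exists D n pos h0 h1 h3 h4 h5
  have hposs : ∀ x y, D.seif.SameCycle x y → pos x = pos y := by
    intro x y h
    rcases rd2_walk D.seif (fun _ => False) pos (fun x _ => (h1 x).symm) h with h | ⟨z, hz, -⟩
    · exact h
    · exact hz.elim
  -- stepping along the right side of a circle at r-points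
  have stepR : ∀ (U : D.P × Bool → ℤ), (∀ s, U (D.face s) = U s) → ∀ v,
      U (D.prev (D.r v), false) = U (D.prev (D.seif (D.r v)), false) := by
    intro U hU v
    rw [D.seif_r, D.prev_next, ← hU (D.prev (D.r v), false), D.face_E]
  have stepL : ∀ (U : D.P × Bool → ℤ), (∀ s, U (D.face s) = U s) → ∀ v,
      U (D.prev (D.l v), true) = U (D.prev (D.seif (D.l v)), true) := by
    intro U hU v
    rw [D.seif_l, D.prev_next, ← hU (D.r v, true), D.face_W]
  have south : ∀ (U : D.P × Bool → ℤ), (∀ s, U (D.face s) = U s) → ∀ v,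
      U (D.prev (D.l v), false) = U (D.prev (D.r v), true) := by
    intro U hU v
    rw [← hU (D.prev (D.l v), false), D.face_S]
  have hnotl : ∀ x, (¬ ∃ v, x = D.l v) → ∃ v, x = D.r v := by
    intro x hx
    rcases D.point_cases x with h | h | h
    · exact absurd h (h4 x)
    · exact absurd h hx
    · exact h
  have hnotr : ∀ x, (¬ ∃ v, x = D.r v) → ∃ v, x = D.l v := by
    intro x hx
    rcases D.point_cases x with h | h | h
    · exact absurd h (h4 x)
    · exact h
    · exact absurd h hx
  obtain ⟨x0, hx0⟩ := h0 0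
  obtain ⟨page, hpage, hR⟩ := rd2_chain pos
    (fun x y => ∀ (U : D.P × Bool → ℤ), (∀ s, U (D.face s) = U s) →
      U (D.prev x, false) = U (D.prev y, true)) x0 hx0 (by
    intro j x hx
    obtain ⟨v, hv1, hv2⟩ := hex j
    have hsame : D.seif.SameCycle x (D.l v) := h2 _ _ (by rw [hx, hv1])
    obtain ⟨z, ⟨w, rfl⟩, hz2, hz3⟩ := rd2_walk' D.seif (fun x => ∃ v, x = D.l v)
      (fun x => fun U : {U : D.P × Bool → ℤ // ∀ s, U (D.face s) = U s} =>
        U.1 (D.prev x, false)) (by
        intro y hy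
        obtain ⟨w, rfl⟩ := hnotl y hy
        funext U
        exact stepR U.1 U.2 w) hsame ⟨v, rfl⟩
    refine ⟨D.r w, ?_, ?_⟩
    · obtain ⟨i, hi1, hi2⟩ := h3 w
      have h6 := hposs _ _ hz2
      rw [hx, hi1] at h6
      have h7 : j = i := Fin.castSucc_injective _ h6
      rw [hi2, h7]
    · intro U hU
      have h6 := congrFun hz3 ⟨U, hU⟩
      dsimp only at h6
      rw [← h6, south U hU])
  refine ⟨page, hpage, ?_⟩
  intro φ hφ hφ0 hφp
  obtain ⟨U, hU, hUφ⟩ := hD φ hφ
  have hLR : ∀ j, U (D.prev (page j), true) = U (D.prev (page j), false) := by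
    intro j
    have := hUφ (D.prev (page j))
    rw [hφp j] at this
    linarith
  have hall : ∀ j, U (D.prev (page j), true) = U (D.prev (page 0), true) := by
    intro j
    induction j using Fin.induction with
    | zero => rfl
    | succ j ih =>
      rw [← hR j U hU, ← hLR, ih]
  have hle : ∀ p, U (p, false) ≤ U (p, true) := by
    intro p
    have := hUφ p
    have h6 := hφ0 p
    linarith
  have hupper : ∀ j x, pos x = j → U (D.prev x, true) ≤ U (D.prev (page 0), true) := by
    intro j
    induction j using Fin.induction with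
    | zero =>
      intro x hx
      have hs : D.seif.SameCycle x (page 0) := h2 _ _ (by rw [hx, hpage])
      rcases rd2_walk D.seif (fun x => ∃ v, x = D.r v) (fun x => U (D.prev x, true)) (by
        intro y hy
        obtain ⟨w, rfl⟩ := hnotr y hy
        exact stepL U hU w) hs with h | ⟨z, ⟨w, rfl⟩, hz, -⟩
      · exact h.le
      · exfalso
        obtain ⟨i, -, hi2⟩ := h3 w
        have := hposs _ _ hz
        rw [hx, hi2] at this
        exact Fin.succ_ne_zero _ this.symm
    | succ j ih =>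
      intro x hx
      obtain ⟨v, hv1, hv2⟩ := hex j
      have hs : D.seif.SameCycle x (D.r v) := h2 _ _ (by rw [hx, hv2])
      obtain ⟨z, ⟨w, rfl⟩, hz, hz2⟩ := rd2_walk' D.seif (fun x => ∃ v, x = D.r v)
        (fun x => U (D.prev x, true)) (by
        intro y hy
        obtain ⟨w, rfl⟩ := hnotr y hy
        exact stepL U hU w) hs ⟨v, rfl⟩
      obtain ⟨i, hi1, hi2⟩ := h3 w
      have h6 := hposs _ _ hz
      rw [hx, hi2] at h6
      have h7 : j = i := Fin.succ_injective _ h6
      rw [← hz2, ← south U hU w]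
      exact (hle _).trans (ih _ (by rw [hi1, h7]))
  have hlower : ∀ j x, pos x = j → U (D.prev (page 0), true) ≤ U (D.prev x, false) := by
    intro j
    induction j using Fin.reverseInduction with
    | last =>
      intro x hx
      have hs : D.seif.SameCycle x (page (Fin.last n)) := h2 _ _ (by rw [hx, hpage])
      rcases rd2_walk D.seif (fun x => ∃ v, x = D.l v) (fun x => U (D.prev x, false)) (by
        intro y hy
        obtain ⟨w, rfl⟩ := hnotl y hy
        exact stepR U hU w) hs with h | ⟨z, ⟨w, rfl⟩, hz, -⟩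
      · rw [h, ← hLR, hall (Fin.last n)]
      · exfalso
        obtain ⟨i, hi1, -⟩ := h3 w
        have := hposs _ _ hz
        rw [hx, hi1] at this
        exact (Fin.castSucc_lt_last i).ne this.symm
    | cast j ih =>
      intro x hx
      obtain ⟨v, hv1, hv2⟩ := hex j
      have hs : D.seif.SameCycle x (D.l v) := h2 _ _ (by rw [hx, hv1])
      obtain ⟨z, ⟨w, rfl⟩, hz, hz2⟩ := rd2_walk' D.seif (fun x => ∃ v, x = D.l v)
        (fun x => U (D.prev x, false)) (by
        intro y hy
        obtain ⟨w, rfl⟩ := hnotl y hy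
        exact stepR U hU w) hs ⟨v, rfl⟩
      obtain ⟨i, hi1, hi2⟩ := h3 w
      have h6 := hposs _ _ hz
      rw [hx, hi1] at h6
      have h7 : j = i := Fin.castSucc_injective _ h6
      rw [← hz2, south U hU w]
      exact (ih _ (by rw [hi2, h7])).trans (hle _)
  intro p
  have h6 := hupper _ (D.next p) rfl
  have h7 := hlower _ (D.next p) rfl
  rw [D.prev_next] at h6 h7
  have h8 := hUφ p
  have h9 := hφ0 p
  linarith

end Pool.Agent.Lib.MP_b7a6eb_gt
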