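import Pool.Agent.Lib.MP_b7a6eb_gt.Basic

namespace Pool.Agent.Lib.MP_b7a6eb_gt

open Equiv Equiv.Perm

/-- [RD3] topological sorting -/
theorem rd3_sort {V : Type*} [Finite V] (r : V → V → Prop)
    (h : ∀ v, ¬ Relation.TransGen r v v) :
    ∃ (m : ℕ) (tau : V ≃ Fin m), ∀ v w, r v w → tau v < tau w := by
  classical
  letI := Fintype.ofFinite V
  letI P : PartialOrder V :=
    { le := Relation.ReflTransGen r
      le_refl := fun _ => Relation.ReflTransGen.refl
      le_trans := fun _ _ _ => Relation.ReflTransGen.trans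
      le_antisymm := by
        intro a b hab hba
        by_contra hne
        rcases Relation.reflTransGen_iff_eq_or_transGen.1 hab with h1 | h1
        · exact hne h1.symm
        · exact h a (h1.trans_left hba) }
  letI : Fintype (LinearExtension V) := inferInstanceAs (Fintype V)
  let e : Fin (Fintype.card V) ≃o LinearExtension V :=
    Fintype.orderIsoFinOfCardEq (LinearExtension V) rfl
  refine ⟨Fintype.card V, (show V ≃ LinearExtension V from Equiv.refl V).trans e.symm.toEquiv, ?_⟩
  intro v w hvw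
  have hne : v ≠ w := by
    rintro rfl
    exact h v (Relation.TransGen.single hvw)
  have hle : (show LinearExtension V from v) ≤ (show LinearExtension V from w) :=
    (toLinearExtension (α := V)).monotone (show v ≤ w from Relation.ReflTransGen.single hvw)
  have hlt : (show LinearExtension V from v) < (show LinearExtension V from w) :=
    lt_of_le_of_ne hle hne
  exact e.symm.lt_iff_lt.2 hlt

/-- [RD3] the time function -/
theorem exists_time (D : Diagram) (n : ℕ) (pos : D.P → Fin (n + 1))
    (h1 : ∀ p, pos (D.seif p) = pos p) (h4 : ∀ p, D.lab p ≠ none)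
    (page : Fin (n + 1) → D.P) (h5 : ∀ j, pos (page j) = j)
    (h6 : ∀ φ : D.P → ℤ, D.IsFlow φ → (∀ p, 0 ≤ φ p) → (∀ j, φ (D.prev (page j)) = 0) →
        ∀ p, φ p = 0) :
    ∃ (m : ℕ) (tau : D.V ≃ Fin m), ∀ p v v' x x', D.lab p = some (v, x) →
      D.lab (D.seif p) = some (v', x') → D.seif p ≠ page (pos p) → tau v < tau v' := by
  classical
  let r : D.V → D.V → Prop := fun v v' => ∃ p x x', D.lab p = some (v, x) ∧
      D.lab (D.seif p) = some (v', x') ∧ D.seif p ≠ page (pos p)
  have hstep : ∀ v v', r v v' → ∃ φ : D.P → ℤ, (∀ p, 0 ≤ φ p) ∧ (∃ p, 0 < φ p) ∧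
      (∀ j, φ (D.prev (page j)) = 0) ∧ ∀ u,
        φ (D.prev (D.cr (u, true))) + φ (D.prev (D.cr (u, false))) -
          (φ (D.cr (u, true)) + φ (D.cr (u, false))) =
          (if u = v' then 1 else 0) - (if u = v then 1 else 0) := by
    rintro v v' ⟨p, x, x', hp, hp', hpage⟩
    have e1 := D.cr_of_lab hp
    have e2 := D.cr_of_lab hp'
    have e3 : D.osw Set.univ p = D.cr (v, !x) := by
      rw [← e1, D.osw_cr_mem (Set.mem_univ v)]
    have e4 : D.prev (D.seif p) = D.cr (v, !x) := by
      rw [D.seif_apply, D.prev_next, e3]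
    refine ⟨fun q => if q = D.cr (v, !x) then 1 else 0, ?_, ?_, ?_, ?_⟩
    · intro q
      dsimp only
      split_ifs <;> norm_num
    · exact ⟨D.cr (v, !x), by simp⟩
    · intro j
      dsimp only
      rw [if_neg]
      intro h
      rw [← e4] at h
      have h7 := D.prev_inj h
      apply hpage
      have h8 : pos p = j := by rw [← h1 p, ← h7, h5]
      rw [h8, h7]
    · intro u
      dsimp only
      have hA : ∀ y, (D.prev (D.cr (u, y)) = D.cr (v, !x)) ↔ (u = v' ∧ y = x') := by
        intro y
        rw [← e4, D.prev_inj.eq_iff, ← e2, D.cr_eq_cr, Prod.mk.injEq]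
      have hB : ∀ y, (D.cr (u, y) = D.cr (v, !x)) ↔ (u = v ∧ y = !x) := by
        intro y
        rw [D.cr_eq_cr, Prod.mk.injEq]
      simp only [hA, hB]
      by_cases hu : u = v' <;> by_cases hu2 : u = v <;> cases x <;> cases x' <;> simp [hu, hu2]
  have htrans : ∀ v v', Relation.TransGen r v v' → ∃ φ : D.P → ℤ, (∀ p, 0 ≤ φ p) ∧
      (∃ p, 0 < φ p) ∧ (∀ j, φ (D.prev (page j)) = 0) ∧ ∀ u,
        φ (D.prev (D.cr (u, true))) + φ (D.prev (D.cr (u, false))) -
          (φ (D.cr (u, true)) + φ (D.cr (u, false))) =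
          (if u = v' then 1 else 0) - (if u = v then 1 else 0) := by
    intro v v' h
    induction h with
    | single h => exact hstep _ _ h
    | tail _ h ih =>
      obtain ⟨φ, a1, ⟨q, a2⟩, a3, a4⟩ := ih
      obtain ⟨ψ, b1, b2, b3, b4⟩ := hstep _ _ h
      refine ⟨fun p => φ p + ψ p, fun p => add_nonneg (a1 p) (b1 p), ⟨q, ?_⟩, ?_, ?_⟩
      · have := b1 q
        dsimp only
        omega
      · intro j
        dsimp only
        rw [a3, b3, add_zero]
      · intro u
        have h7 := a4 u
        have h8 := b4 u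
        dsimp only
        omega
  obtain ⟨m, tau, htau⟩ := rd3_sort r (by
    intro v hv
    obtain ⟨φ, a1, ⟨q, a2⟩, a3, a4⟩ := htrans v v hv
    have hflow : D.IsFlow φ := by
      refine ⟨fun p hp => absurd hp (h4 p), fun u => ?_⟩
      have := a4 u
      omega
    have := h6 φ hflow a1 a3 q
    omega)
  exact ⟨m, tau, fun p v v' x x' hp hp' hpage => htau v v' ⟨p, x, x', hp, hp', hpage⟩⟩

end Pool.Agent.Lib.MP_b7a6eb_gt
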