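import Pool.Agent.Lib.MP_b7a6eb_gt.Basic

namespace Pool.Agent.Lib.MP_b7a6eb_gt

open Equiv Equiv.Perm

/-- [RD4a] powers of the rotation -/
theorem rd4a_pow {m n : ℕ} (t : Fin (m + 1)) (j : Fin (n + 1)) (k : ℕ) :
    (((Equiv.prodCongr (finRotate (m + 1)) (Equiv.refl (Fin (n + 1))) :
      Perm (Fin (m + 1) × Fin (n + 1))) ^ k) (t, j)).1.val = (t.val + k) % (m + 1) ∧
    (((Equiv.prodCongr (finRotate (m + 1)) (Equiv.refl (Fin (n + 1))) :
      Perm (Fin (m + 1) × Fin (n + 1))) ^ k) (t, j)).2 = j := by
  induction k with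
  | zero =>
    refine ⟨?_, rfl⟩
    rw [pow_zero, add_zero, Nat.mod_eq_of_lt t.2]
    rfl
  | succ k ih =>
    obtain ⟨h1, h2⟩ := ih
    rw [pow_succ', Perm.mul_apply]
    constructor
    · rw [Equiv.prodCongr_apply, Prod.map_fst, finRotate_apply, Fin.val_add, h1,
        Fin.val_one']
      rw [← Nat.add_mod, add_assoc]
    · rw [Equiv.prodCongr_apply, Prod.map_snd, h2]
      rfl

/-- [RD4a] -/
theorem psub_rotate {α : Type*} [Finite α] {m n : ℕ} (f : Perm α) (pos : α → Fin (n + 1))
    (T : α → Fin (m + 1)) (page : Fin (n + 1) → α) (h1 : ∀ p, pos (f p) = pos p)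
    (h2 : ∀ p q, pos p = pos q → f.SameCycle p q) (h3 : ∀ j, pos (page j) = j)
    (h4 : ∀ p, f p ≠ page (pos p) → T p < T (f p)) :
    PSub f (Equiv.prodCongr (finRotate (m + 1)) (Equiv.refl (Fin (n + 1))))
      (fun p => (T p, pos p)) := by
  classical
  have hposk : ∀ k : ℕ, ∀ p, pos ((f ^ k) p) = pos p := by
    intro k p
    induction k with
    | zero => rfl
    | succ k ih => rw [pow_succ', Perm.mul_apply, h1, ih]
  -- the structure of the cycle of page j
  have hstr : ∀ j, ∃ L : ℕ, 0 < L ∧ (f ^ L) (page j) = page j ∧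
      (∀ q, pos q = j → ∃ a < L, q = (f ^ a) (page j)) ∧
      (∀ a b, a < b → b < L → (T ((f ^ a) (page j))).val < (T ((f ^ b) (page j))).val) := by
    intro j
    have hex : ∃ k : ℕ, 0 < k ∧ (f ^ k) (page j) = page j := by
      obtain ⟨k, hk, -, hk2⟩ := (SameCycle.refl f (page j)).exists_pow_eq''
      exact ⟨k, hk, hk2⟩
    set L := Nat.find hex with hL
    obtain ⟨hL0, hLp⟩ := Nat.find_spec hex
    rw [← hL] at hL0 hLp
    have hmin : ∀ a, 0 < a → a < L → (f ^ a) (page j) ≠ page j := by
      intro a ha haL he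
      exact Nat.find_min hex haL ⟨ha, he⟩
    have hmul : ∀ c : ℕ, (f ^ (L * c)) (page j) = page j := by
      intro c
      induction c with
      | zero => rfl
      | succ c ih => rw [mul_add, mul_one, pow_add, Perm.mul_apply, hLp, ih]
    refine ⟨L, hL0, hLp, ?_, ?_⟩
    · intro q hq
      obtain ⟨k, -, hk⟩ := (h2 (page j) q (by rw [h3, hq])).exists_pow_eq'
      refine ⟨k % L, Nat.mod_lt _ hL0, ?_⟩
      rw [← hk]
      conv_lhs => rw [← Nat.mod_add_div k L, pow_add, Perm.mul_apply, hmul]
    · intro a b hab hb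
      induction b, hab using Nat.le_induction with
      | base =>
        have h5 : f ((f ^ a) (page j)) ≠ page (pos ((f ^ a) (page j))) := by
          rw [hposk, h3, ← Perm.mul_apply, ← pow_succ']
          exact hmin _ (by omega) hb
        have h6 := h4 _ h5
        rw [← Perm.mul_apply, ← pow_succ'] at h6
        exact h6
      | succ b hab ih =>
        have h5 : f ((f ^ b) (page j)) ≠ page (pos ((f ^ b) (page j))) := by
          rw [hposk, h3, ← Perm.mul_apply, ← pow_succ']
          exact hmin _ (by omega) hb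
        have h6 := h4 _ h5
        rw [← Perm.mul_apply, ← pow_succ'] at h6
        exact (ih (by omega)).trans h6
  refine ⟨?_, ?_, ?_⟩
  · intro p q hpq
    dsimp only at hpq
    rw [Prod.mk.injEq] at hpq
    obtain ⟨hT, hp⟩ := hpq
    obtain ⟨L, hL0, hLp, hc, hm⟩ := hstr (pos p)
    obtain ⟨a, ha, hpa⟩ := hc p rfl
    obtain ⟨b, hb, hqb⟩ := hc q hp.symm
    have hT' : (T ((f ^ a) (page (pos p)))).val = (T ((f ^ b) (page (pos p)))).val := by
      rw [← hpa, ← hqb, hT]
    rcases lt_trichotomy a b with h | h | h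
    · exact absurd hT' (hm a b h hb).ne
    · rw [hpa, hqb, h]
    · exact absurd hT'.symm (hm b a h ha).ne
  · intro p
    obtain ⟨L, hL0, hLp, hc, hm⟩ := hstr (pos p)
    obtain ⟨a, ha, hpa⟩ := hc p rfl
    have hTle : ∀ q, (T q).val ≤ m := fun q => Nat.lt_succ_iff.1 (T q).2
    have hfp : f p = (f ^ (a + 1)) (page (pos p)) := by
      conv_lhs => rw [hpa]
      rw [pow_succ', Perm.mul_apply]
    have hTp : (T p).val = (T ((f ^ a) (page (pos p)))).val := by rw [← hpa]
    by_cases haL : a + 1 < L
    · have hlt := hm a (a + 1) (by omega) haL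
      rw [← hpa, ← hfp] at hlt
      have h7 := hTle (f p)
      refine ⟨(T (f p)).val - (T p).val - 1, ?_, ?_⟩
      · obtain ⟨h5, h6⟩ := rd4a_pow (T p) (pos p) ((T (f p)).val - (T p).val - 1 + 1)
        refine Prod.ext (Fin.ext ?_) ?_
        · dsimp only
          rw [h5, Nat.mod_eq_of_lt (by omega)]
          omega
        · dsimp only
          rw [h6, h1]
      · rintro k hk ⟨q, hq⟩
        obtain ⟨h5, h6⟩ := rd4a_pow (T p) (pos p) (k + 1)
        rw [← hq] at h5 h6
        dsimp only at h5 h6
        rw [Nat.mod_eq_of_lt (by omega)] at h5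
        obtain ⟨b, hb, hqb⟩ := hc q h6
        rw [hqb] at h5
        rcases lt_trichotomy a b with h | h | h
        · rcases (show a + 1 ≤ b from h).lt_or_eq with h8 | h8
          · have h9 := hm (a + 1) b h8 hb
            rw [← hfp] at h9
            omega
          · rw [← h8, ← hfp] at h5
            omega
        · rw [← h, ← hpa] at h5; omega
        · have h9 := hm b a h ha
          rw [← hpa] at h9
          omega
    · have haL' : a + 1 = L := by omega
      have hfp' : f p = page (pos p) := by rw [hfp, haL', hLp]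
      have h7 := hTle p
      have h8 := hTle (page (pos p))
      have hmin0 : ∀ b < L, (T (page (pos p))).val ≤ (T ((f ^ b) (page (pos p)))).val := by
        intro b hb
        rcases Nat.eq_zero_or_pos b with rfl | hb0
        · rfl
        · exact (hm 0 b hb0 hb).le
      have hmax0 : ∀ b < L, (T ((f ^ b) (page (pos p)))).val ≤ (T p).val := by
        intro b hb
        rcases (show b ≤ a by omega).lt_or_eq with h | h
        · rw [hTp]; exact (hm b a h ha).le
        · rw [h, hTp]
      refine ⟨m - (T p).val + (T (page (pos p))).val, ?_, ?_⟩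
      · obtain ⟨h5, h6⟩ := rd4a_pow (T p) (pos p) (m - (T p).val + (T (page (pos p))).val + 1)
        refine Prod.ext (Fin.ext ?_) ?_
        · dsimp only
          rw [h5, hfp']
          have : (T p).val + (m - (T p).val + (T (page (pos p))).val + 1) =
            (T (page (pos p))).val + (m + 1) := by omega
          rw [this, Nat.add_mod_right, Nat.mod_eq_of_lt (by omega)]
        · dsimp only
          rw [h6, h1]
      · rintro k hk ⟨q, hq⟩
        obtain ⟨h5, h6⟩ := rd4a_pow (T p) (pos p) (k + 1)
        rw [← hq] at h5 h6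
        dsimp only at h5 h6
        obtain ⟨b, hb, hqb⟩ := hc q h6
        rw [hqb] at h5
        have h9 := hmin0 b hb
        have h10 := hmax0 b hb
        by_cases hk2 : (T p).val + (k + 1) < m + 1
        · rw [Nat.mod_eq_of_lt hk2] at h5
          omega
        · rw [Nat.mod_eq_sub_mod (by omega), Nat.mod_eq_of_lt (by omega)] at h5
          omega
  · rintro ⟨t, j⟩
    refine ⟨page j, ?_⟩
    refine ⟨((m + 1 - (T (page j)).val + t.val : ℕ) : ℤ), ?_⟩
    rw [zpow_natCast]
    obtain ⟨h5, h6⟩ := rd4a_pow (T (page j)) (pos (page j)) (m + 1 - (T (page j)).val + t.val)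
    refine Prod.ext (Fin.ext ?_) ?_
    · dsimp only at h5 ⊢
      rw [h5]
      have h7 := (T (page j)).2
      have : (T (page j)).val + (m + 1 - (T (page j)).val + t.val) = t.val + (m + 1) := by omega
      rw [this, Nat.add_mod_right, Nat.mod_eq_of_lt t.2]
    · dsimp only at h6 ⊢
      rw [h6, h3]

end Pool.Agent.Lib.MP_b7a6eb_gt
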