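import Pool.Agent.Lib.MP_b7a6eb_gt.Basic
import Pool.Agent.Lib.MP_b7a6eb_gt.MK1
import Pool.Agent.Lib.MP_b7a6eb_gt.RD4a
import Pool.Agent.Lib.MP_b7a6eb_gt.BR3

namespace Pool.Agent.Lib.MP_b7a6eb_gt

open Equiv Equiv.Perm

/-- [RD4] the word -/
theorem rd4_word {V : Type} {n m : ℕ} (tau : V ≃ Fin m) (c : V → Fin n × Bool) :
    ∃ (w : Word n) (tau' : V ≃ Fin w.length), (∀ v, w.get (tau' v) = c v) ∧
      ∀ v v', tau v < tau v' → tau' v < tau' v' := by
  let w : Word n := List.ofFn (fun k => c (tau.symm k))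
  have hw : w.length = m := List.length_ofFn
  refine ⟨w, tau.trans (finCongr hw.symm), ?_, ?_⟩
  · intro v
    simp [w]
  · intro v v' h
    rw [Fin.lt_def] at h ⊢
    exact h

/-- [RD4] -/
theorem exists_closure (D : Diagram) (n : ℕ) (pos : D.P → Fin (n + 1))
    (h1 : ∀ p, pos (D.seif p) = pos p)
    (h2 : ∀ p q, pos p = pos q → D.seif.SameCycle p q)
    (h3 : ∀ v, ∃ i : Fin n, pos (D.l v) = i.castSucc ∧ pos (D.r v) = i.succ)
    (h4 : ∀ p, D.lab p ≠ none) (page : Fin (n + 1) → D.P) (h5 : ∀ j, pos (page j) = j)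
    (m : ℕ) (tau : D.V ≃ Fin m)
    (h6 : ∀ p v v' x x', D.lab p = some (v, x) →
      D.lab (D.seif p) = some (v', x') → D.seif p ≠ page (pos p) → tau v < tau v') :
    ∃ (w : Word n) (i : D.P → (closure n w).P) (j : D.V ≃ (closure n w).V),
      MSub D (closure n w) i j := by
  classical
  choose idx hidx using h3
  obtain ⟨w, tau', hw1, hw2⟩ := rd4_word tau (fun v => (idx v, D.sign v))
  have hex : ∀ p, ∃ x : D.V × Bool, D.lab p = some x := by
    intro p
    rcases hp : D.lab p with _ | x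
    · exact absurd hp (h4 p)
    · exact ⟨x, rfl⟩
  choose lb hlb using hex
  let T : D.P → Fin (w.length + 1) := fun p => (tau' (lb p).1).castSucc
  refine ⟨w, fun p => (T p, pos p), tau', ?_⟩
  apply MSub.of_seif
  · intro v x
    have hlbv : lb (D.cr (v, x)) = (v, x) := by
      have := hlb (D.cr (v, x))
      rw [D.lab_cr] at this
      exact (Option.some.inj this).symm
    have hT : T (D.cr (v, x)) = (tau' v).castSucc := by
      change (tau' (lb (D.cr (v, x))).1).castSucc = _
      rw [hlbv]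
    change ((tau' v).castSucc, if x = (w.get (tau' v)).2 then (w.get (tau' v)).1.castSucc
      else (w.get (tau' v)).1.succ) = (T (D.cr (v, x)), pos (D.cr (v, x)))
    rw [hT, hw1]
    refine Prod.ext rfl ?_
    dsimp only
    obtain ⟨e1, e2⟩ := hidx v
    by_cases hx : x = D.sign v
    · rw [if_pos hx, ← e1, Diagram.l, hx]
    · rw [if_neg hx, ← e2, Diagram.r]
      have : x = !D.sign v := by
        cases x <;> cases h : D.sign v <;> simp_all
      rw [this]
  · intro v
    change (w.get (tau' v)).2 = D.sign v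
    rw [hw1]
  · rw [closure_seif]
    refine psub_rotate D.seif pos T page h1 h2 h5 ?_
    intro p hp
    have h7 := h6 p (lb p).1 (lb (D.seif p)).1 (lb p).2 (lb (D.seif p)).2 (hlb p) (hlb _) hp
    have h8 := hw2 _ _ h7
    exact Fin.castSucc_lt_castSucc_iff.2 h8

end Pool.Agent.Lib.MP_b7a6eb_gt
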