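import Pool.Agent.Lib.MP_b7a6eb_gt.Basic

namespace Pool.Agent.Lib.MP_b7a6eb_gt

open Equiv Equiv.Perm

/-- [RD5] the case without crossings -/
theorem exists_closure_empty (D : Diagram) (hne : Nonempty D.P) (hC : D.Connected)
    (hV : IsEmpty D.V) :
    ∃ (i : (closure 0 []).P → D.P) (j : (closure 0 []).V ≃ D.V), MSub (closure 0 []) D i j := by
  classical
  obtain ⟨p0⟩ := hne
  have hVc : IsEmpty (closure 0 []).V := ⟨fun v => Fin.elim0 (show Fin 0 from v)⟩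
  have hPc : Subsingleton (closure 0 []).P := by
    refine ⟨fun p q => ?_⟩
    obtain ⟨p, hp⟩ : ∃ p' : Fin (0 + 1) × Fin (0 + 1), p' = p := ⟨p, rfl⟩
    obtain ⟨q, hq⟩ : ∃ q' : Fin (0 + 1) × Fin (0 + 1), q' = q := ⟨q, rfl⟩
    rw [← hp, ← hq]
    obtain ⟨p1, p2⟩ := p
    obtain ⟨q1, q2⟩ := q
    rw [show p1 = q1 from Fin.ext (by omega), show p2 = q2 from Fin.ext (by omega)]
  have hPn : Nonempty (closure 0 []).P := ⟨((0 : Fin (0 + 1)), (0 : Fin (0 + 1)))⟩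
  have hex : ∃ m : ℕ, (D.next ^ (m + 1)) p0 = p0 := ⟨orderOf D.next - 1, by
    rw [Nat.sub_add_cancel (orderOf_pos D.next), pow_orderOf_eq_one]; rfl⟩
  obtain ⟨m, hm, hmin⟩ : ∃ m : ℕ, (D.next ^ (m + 1)) p0 = p0 ∧
      ∀ k < m, (D.next ^ (k + 1)) p0 ≠ p0 :=
    ⟨Nat.find hex, Nat.find_spec hex, fun k hk => Nat.find_min hex hk⟩
  have hcon : ∀ p q : D.P, D.Conn p q → D.next.SameCycle p q := by
    intro p q h
    induction h with
    | rel x y hxy =>
      rcases hxy with hxy | ⟨v, _⟩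
      · rw [hxy]
        exact ⟨1, by simp⟩
      · exact hV.elim v
    | refl x => exact SameCycle.refl _ _
    | symm x y _ ih => exact ih.symm
    | trans x y z _ _ ih1 ih2 => exact ih1.trans ih2
  refine ⟨fun _ => p0, Equiv.equivOfIsEmpty _ _, ⟨⟨?_, ?_, ?_⟩, ?_, ?_⟩⟩
  · intro p q _
    exact Subsingleton.elim p q
  · intro p
    refine ⟨m, hm, fun k hk => ?_⟩
    rintro ⟨q, hq⟩
    exact hmin k hk hq.symm
  · intro q
    exact ⟨hPn.some, hcon _ _ (hC p0 q)⟩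
  · intro v
    exact hVc.elim v
  · intro v
    exact hVc.elim v

end Pool.Agent.Lib.MP_b7a6eb_gt
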