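import Pool.Agent.Lib.MP_b7a6eb_gt.Constr
import Pool.Agent.Lib.MP_b7a6eb_gt.MKG
import Pool.Agent.Lib.MP_b7a6eb_gt.MK4
import Pool.Agent.Lib.MP_b7a6eb_gt.MK5
import Pool.Agent.Lib.MP_b7a6eb_gt.RD1
import Pool.Agent.Lib.MP_b7a6eb_gt.RD2
import Pool.Agent.Lib.MP_b7a6eb_gt.RD3
import Pool.Agent.Lib.MP_b7a6eb_gt.RD4
import Pool.Agent.Lib.MP_b7a6eb_gt.RD5

namespace Pool.Agent.Lib.MP_b7a6eb_gt

open Equiv Equiv.Perm

theorem reading {D : Diagram} {Y : Set D.V} (hY : D.Good Y) (hC : D.Connected) (hL : D.PL)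
    (hR : D.PR) :
    ∃ (n : ℕ) (w : Word n) (Z : Set (Fin w.length)), (closure n w).Good Z ∧
      Isotopic D (closure n w) := by
  rcases isEmpty_or_nonempty D.V with hV | hV
  · obtain ⟨i, j, h⟩ := exists_closure_empty D hY.ne hC hV
    have hne : Nonempty (closure 0 []).P := ⟨((0 : Fin 1), (0 : Fin 1))⟩
    have hg : D.Good (j '' (j ⁻¹' Y)) := by rw [Set.image_preimage_eq _ j.surjective]; exact hY
    have hg' := (h.good_iff (j ⁻¹' Y)).2 hg
    exact ⟨0, [], j ⁻¹' Y, hg', (h.isotopic hne hg'.planar).symm⟩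
  · obtain ⟨D0, i, j, h, hm, hC0⟩ := exists_markerless D hC hV
    have hg : D.Good (j '' (j ⁻¹' Y)) := by rw [Set.image_preimage_eq _ j.surjective]; exact hY
    have hg' := (h.good_iff (j ⁻¹' Y)).2 hg
    have hu : (j '' Set.univ : Set D.V) = Set.univ := by simp
    have ht : PSub D0.seif D.seif i := by
      have := h.thr Set.univ
      rw [hu] at this
      exact this
    have hcr : ∀ v x, D.cr (j v, x) = i (D0.cr (v, x)) := h.cr
    have hl : ∀ v, i (D0.l v) = D.l (j v) := fun v => by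
      rw [Diagram.l, Diagram.l, hcr, h.sign]
    have hr : ∀ v, i (D0.r v) = D.r (j v) := fun v => by
      rw [Diagram.r, Diagram.r, hcr, h.sign]
    have hL0 : D0.PL := by
      intro v w hvw
      rw [← ht.sameCycle_iff, hr, hr] at hvw
      rw [← ht.sameCycle_iff, hl, hl]
      exact hL _ _ hvw
    have hR0 : D0.PR := by
      intro v w hvw
      rw [← ht.sameCycle_iff, hl, hl] at hvw
      rw [← ht.sameCycle_iff, hr, hr]
      exact hR _ _ hvw
    obtain ⟨n, pos, h0, h1, h2, h3⟩ := exists_pos D0 hg'.ne hg'.planar hC0 hL0 hR0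
    obtain ⟨page, h5, h6⟩ := exists_page D0 hg'.planar n pos h0 h1 h2 h3 hm hC0
    obtain ⟨m, tau, h7⟩ := exists_time D0 n pos h1 hm page h5 h6
    obtain ⟨w, i', j', h8⟩ := exists_closure D0 n pos h1 h2 h3 hm page h5 m tau h7
    have hg'' := (h8.good_iff (j ⁻¹' Y)).1 hg'
    exact ⟨n, w, j' '' (j ⁻¹' Y), hg'',
      (h.isotopic hg'.ne hg'.planar).symm.trans (h8.isotopic hg'.ne hg'.planar)⟩

end Pool.Agent.Lib.MP_b7a6eb_gt
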