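import Pool.Agent.Lib.MP_b7a6eb_gt.Constr

namespace Pool.Agent.Lib.MP_b7a6eb_gt

open Equiv Equiv.Perm

namespace Diagram

variable (D : Diagram)

/-- [RV1] -/
theorem rev_planar (hD : D.Planar) : D.rev.Planar := by
  intro φ hφ
  have hf1 : ∀ p, D.lab p = none → φ (D.next p) = φ p := hφ.1
  have hf2 : ∀ v, φ (D.next (D.cr (v, true))) + φ (D.next (D.cr (v, false))) =
    φ (D.cr (v, true)) + φ (D.cr (v, false)) := hφ.2
  obtain ⟨U, hU, hU1⟩ := hD (fun p => -φ (D.next p)) ⟨fun p hp => by
    simp only [next_prev]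
    rw [hf1 p hp], fun v => by
    simp only [next_prev]
    have := hf2 v
    linarith⟩
  have hS : ∀ v, U (D.prev (D.r v), true) = U (D.prev (D.l v), false) := fun v => by
    rw [← hU (D.prev (D.l v), false), face_S]
  have hE : ∀ v, U (D.l v, false) = U (D.prev (D.r v), false) := fun v => by
    rw [← hU (D.prev (D.r v), false), face_E]
  have hN : ∀ v, U (D.r v, false) = U (D.l v, true) := fun v => by
    rw [← hU (D.l v, true), face_N]
  have hW : ∀ v, U (D.prev (D.l v), true) = U (D.r v, true) := fun v => by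
    rw [← hU (D.r v, true), face_W]
  obtain ⟨W, hWd⟩ : ∃ W : D.P × Bool → ℤ, ∀ p s, W (p, s) = U (D.prev p, !s) :=
    ⟨fun x => U (D.prev x.1, !x.2), fun _ _ => rfl⟩
  have hrl : ∀ v, D.rev.l v = D.l v := fun v => rfl
  have hrr : ∀ v, D.rev.r v = D.r v := fun v => rfl
  have hmt : ∀ p, D.lab p = none → U (D.prev p, true) = U (p, true) := by
    intro p hp
    rw [← hU (p, true), D.face_true_marker hp]
  have hmf : ∀ p, D.lab p = none → U (p, false) = U (D.prev p, false) := by
    intro p hp
    have h1 := hU (D.prev p, false)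
    rw [D.face_false_marker (by rw [next_prev]; exact hp), next_prev] at h1
    exact h1
  refine ⟨W, ?_, ?_⟩
  · rintro ⟨p, s⟩
    cases s
    · rcases D.rev.point_cases (D.rev.next p) with h | ⟨v, h⟩ | ⟨v, h⟩
      · refine (congrArg W (D.rev.face_false_marker h)).trans ?_
        obtain ⟨p, rfl⟩ : ∃ p' : D.P, p' = p := ⟨p, rfl⟩
        change W (D.prev p, false) = W (p, false)
        rw [hWd, hWd]
        exact hmt (D.prev p) h
      · have h' : p = D.rev.prev (D.rev.l v) := by rw [← h]; simp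
        subst h'
        refine (congrArg W (D.rev.face_S v)).trans ?_
        change W (D.next (D.r v), true) = W (D.next (D.l v), false)
        rw [hWd, hWd, prev_next, prev_next]
        exact hN v
      · have h' : p = D.rev.prev (D.rev.r v) := by rw [← h]; simp
        subst h'
        refine (congrArg W (D.rev.face_E v)).trans ?_
        change W (D.l v, false) = W (D.next (D.r v), false)
        rw [hWd, hWd, prev_next]
        exact hW v
    · rcases D.rev.point_cases p with h | ⟨v, h⟩ | ⟨v, h⟩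
      · refine (congrArg W (D.rev.face_true_marker h)).trans ?_
        obtain ⟨p, rfl⟩ : ∃ p' : D.P, p' = p := ⟨p, rfl⟩
        change W (D.next p, true) = W (p, true)
        rw [hWd, hWd, prev_next]
        exact hmf p h
      · subst h
        refine (congrArg W (D.rev.face_N v)).trans ?_
        change W (D.r v, false) = W (D.l v, true)
        rw [hWd, hWd]
        exact hS v
      · subst h
        refine (congrArg W (D.rev.face_W v)).trans ?_
        change W (D.next (D.l v), true) = W (D.r v, true)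
        rw [hWd, hWd, prev_next]
        exact hE v
  · intro p
    obtain ⟨p, rfl⟩ : ∃ p' : D.P, p' = p := ⟨p, rfl⟩
    change W (p, true) - W (p, false) = φ p
    rw [hWd, hWd]
    have h1 := hU1 (D.prev p)
    rw [next_prev] at h1
    simp only [Bool.not_true, Bool.not_false]
    linarith

private lemma rv1_iff (Y : Set D.V) {H : Type} [Group H] (c : D.P → H) :
    D.IsCol Y c ↔ D.rev.IsCol Y (fun p => (c (D.prev p))⁻¹) := by
  have e : D.rev.IsCol Y (fun p => (c (D.prev p))⁻¹) ↔
      ((∀ p, D.lab p = none → (c (D.prev p))⁻¹ = (c (D.prev (D.next p)))⁻¹) ∧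
      (∀ v ∈ Y, ∀ x, (c (D.prev (D.cr (v, x))))⁻¹ = (c (D.prev (D.next (D.cr (v, !x)))))⁻¹) ∧
      (∀ v ∉ Y, (c (D.prev (D.cr (v, true))))⁻¹ = (c (D.prev (D.next (D.cr (v, true)))))⁻¹ ∧
      (c (D.prev (D.cr (v, false))))⁻¹ = if D.sign v = true then
        (c (D.prev (D.cr (v, true))))⁻¹ * (c (D.prev (D.next (D.cr (v, false)))))⁻¹ *
          ((c (D.prev (D.cr (v, true))))⁻¹)⁻¹
        else ((c (D.prev (D.cr (v, true))))⁻¹)⁻¹ * (c (D.prev (D.next (D.cr (v, false)))))⁻¹ *
          (c (D.prev (D.cr (v, true))))⁻¹)) := Iff.rfl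
  rw [e]
  simp only [prev_next, inv_inj, inv_inv]
  unfold IsCol
  constructor
  · rintro ⟨h1, h2, h3⟩
    refine ⟨fun p hp => (h1 p hp).symm, fun v hv x => ?_, fun v hv => ⟨(h3 v hv).1.symm, ?_⟩⟩
    · have := h2 v hv (!x)
      rw [Bool.not_not] at this
      exact this.symm
    · obtain ⟨h4, h5⟩ := h3 v hv
      rw [← h4, h5]
      split_ifs
      · group
      · group
  · rintro ⟨h1, h2, h3⟩
    refine ⟨fun p hp => (h1 p hp).symm, fun v hv x => ?_, fun v hv => ⟨(h3 v hv).1.symm, ?_⟩⟩
    · have := h2 v hv (!x)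
      rw [Bool.not_not] at this
      exact this.symm
    · obtain ⟨h4, h5⟩ := h3 v hv
      rw [h4] at h5
      by_cases hs : D.sign v = true
      · rw [if_pos hs] at h5 ⊢
        have h6 : c (D.cr (v, false)) = c (D.cr (v, true)) * ((c (D.cr (v, true)))⁻¹ *
          (c (D.cr (v, false)))⁻¹ * c (D.cr (v, true)))⁻¹ * (c (D.cr (v, true)))⁻¹ := by group
        rw [← h5, inv_inv] at h6
        exact h6
      · rw [if_neg hs] at h5 ⊢
        have h6 : c (D.cr (v, false)) = (c (D.cr (v, true)))⁻¹ * (c (D.cr (v, true)) *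
          (c (D.cr (v, false)))⁻¹ * (c (D.cr (v, true)))⁻¹)⁻¹ * c (D.cr (v, true)) := by group
        rw [← h5, inv_inv] at h6
        exact h6

/-- [RV1] -/
theorem rev_ncol (Y : Set D.V) (H : Type) [Group H] : D.rev.ncol Y H = D.ncol Y H := by
  symm
  unfold ncol
  have hr : ∀ d : D.P → H, D.rev.IsCol Y d → D.IsCol Y (fun p => (d (D.next p))⁻¹) := by
    intro d hd
    refine (rv1_iff D Y _).2 ?_
    have e : (fun p => ((fun p => (d (D.next p))⁻¹) (D.prev p))⁻¹) = d := by
      funext p
      simp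
    exact e.symm ▸ hd
  refine Nat.card_congr
    { toFun := fun c => ⟨fun p => (c.1 (D.prev p))⁻¹, (rv1_iff D Y c.1).1 c.2⟩
      invFun := fun d => ⟨fun p => (d.1 (D.next p))⁻¹, hr d.1 d.2⟩
      left_inv := ?_
      right_inv := ?_ }
  · rintro ⟨c, hc⟩
    apply Subtype.ext
    funext p
    simp
  · rintro ⟨d, hd⟩
    apply Subtype.ext
    funext p
    obtain ⟨p, rfl⟩ : ∃ p' : D.P, p' = p := ⟨p, rfl⟩
    change ((d (D.next (D.prev p)))⁻¹)⁻¹ = d p
    rw [inv_inv, next_prev]

end Diagram

end Pool.Agent.Lib.MP_b7a6eb_gt
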