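import Pool.Agent.Lib.MP_b7a6eb_gt.Constr

namespace Pool.Agent.Lib.MP_b7a6eb_gt

open Equiv Equiv.Perm

namespace Diagram

variable (D : Diagram)

private lemma rv3_osw (p : D.P) : (show Perm D.P from D.rev.osw Set.univ) p =
    D.osw Set.univ p := by
  rcases hp : D.lab p with _ | ⟨v, x⟩
  · rw [D.osw_marker _ hp]
    exact D.rev.osw_marker Set.univ hp
  · have h := D.cr_of_lab hp
    subst h
    rw [D.osw_cr_mem (Set.mem_univ _)]
    exact D.rev.osw_cr_mem (S := Set.univ) (v := v) (Set.mem_univ _) x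

private lemma rv3_seif : ∀ p : D.P, D.rev.seif p =
    (D.osw Set.univ * (D.seif)⁻¹ * (D.osw Set.univ)⁻¹) p := by
  intro p
  have h1 : (D.osw Set.univ)⁻¹ = D.osw Set.univ := by
    rw [inv_eq_iff_mul_eq_one]
    ext x
    exact D.osw_osw _ x
  have h2 : (D.seif)⁻¹ = D.osw Set.univ * (D.next)⁻¹ := by
    unfold seif thr
    rw [mul_inv_rev, h1]
  rw [h2, h1]
  refine Eq.trans (b := D.next.symm (D.osw Set.univ p)) ?_ ?_
  · exact congrArg D.next.symm (rv3_osw D p)
  · change D.next.symm (D.osw Set.univ p) = D.osw Set.univ (D.osw Set.univ (D.next.symm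
      (D.osw Set.univ p)))
    rw [osw_osw]

/-- [RV3] -/
theorem rev_sameCycle (p q : D.P) :
    D.rev.seif.SameCycle p q ↔ D.seif.SameCycle (D.osw Set.univ p) (D.osw Set.univ q) := by
  have h1 : (D.osw Set.univ)⁻¹ = D.osw Set.univ := by
    rw [inv_eq_iff_mul_eq_one]
    ext x
    exact D.osw_osw _ x
  have h3 : (show Perm D.P from D.rev.seif) =
      D.osw Set.univ * (D.seif)⁻¹ * (D.osw Set.univ)⁻¹ := Equiv.ext (rv3_seif D)
  change (show Perm D.P from D.rev.seif).SameCycle p q ↔ _
  rw [h3, sameCycle_conj, sameCycle_inv, h1]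

/-- [RV3] -/
theorem rev_cyc : cyc D.rev.seif = cyc D.seif := by
  unfold cyc
  exact Nat.card_congr (Quotient.congr (show D.rev.P ≃ D.P from D.osw Set.univ)
    (fun p q => rev_sameCycle D p q))

/-- [RV3] -/
theorem rev_conn (p q : D.P) : D.rev.Conn p q ↔ D.Conn p q := by
  constructor
  · intro h
    have h' : Relation.EqvGen (fun p q : D.P => q = D.next.symm p ∨
      ∃ v, p = D.cr (v, true) ∧ q = D.cr (v, false)) p q := h
    clear h
    induction h' with
    | rel x y hxy =>
      rcases hxy with hxy | hxy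
      · refine Relation.EqvGen.symm _ _ (Relation.EqvGen.rel _ _ (Or.inl ?_))
        rw [hxy, Equiv.apply_symm_apply]
      · exact Relation.EqvGen.rel _ _ (Or.inr hxy)
    | refl x => exact Relation.EqvGen.refl _
    | symm x y _ ih => exact Relation.EqvGen.symm _ _ ih
    | trans x y z _ _ ih1 ih2 => exact Relation.EqvGen.trans _ _ _ ih1 ih2
  · intro h
    suffices h' : Relation.EqvGen (fun p q : D.P => q = D.next.symm p ∨
      ∃ v, p = D.cr (v, true) ∧ q = D.cr (v, false)) p q from h'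
    induction h with
    | rel x y hxy =>
      rcases hxy with hxy | hxy
      · refine Relation.EqvGen.symm _ _ (Relation.EqvGen.rel _ _ (Or.inl ?_))
        rw [hxy, Equiv.symm_apply_apply]
      · exact Relation.EqvGen.rel _ _ (Or.inr hxy)
    | refl x => exact Relation.EqvGen.refl _
    | symm x y _ ih => exact Relation.EqvGen.symm _ _ ih
    | trans x y z _ _ ih1 ih2 => exact Relation.EqvGen.trans _ _ _ ih1 ih2

end Diagram

/-- [RV3] -/
theorem overArc_rev {T : Diagram} {b : T.P} {D : Diagram} (h : OverArc T b D) :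
    OverArc T.rev (T.next b) D.rev := by
  classical
  obtain ⟨i, j, hi, hj, hcr, hsg, hnew, hnext, hcyc⟩ := h
  have hex : ∃ m : ℕ, (T.next ^ (m + 1)) b = b := ⟨orderOf T.next - 1, by
    rw [Nat.sub_add_cancel (orderOf_pos T.next), pow_orderOf_eq_one]; rfl⟩
  obtain ⟨m, hm, hmin⟩ : ∃ m : ℕ, (T.next ^ (m + 1)) b = b ∧
      ∀ k < m, (T.next ^ (k + 1)) b ≠ b :=
    ⟨Nat.find hex, Nat.find_spec hex, fun k hk => Nat.find_min hex hk⟩
  have key : ∀ k ≤ m, (D.next ^ k) (i (T.next b)) = i ((T.next ^ (k + 1)) b) := by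
    intro k
    induction k with
    | zero => intro _; simp
    | succ k ih =>
      intro hk
      rw [pow_succ', Perm.mul_apply, ih (by omega), hnext _ (hmin k (by omega)),
        pow_succ' T.next (k + 1), Perm.mul_apply]
  have hsame : D.next.SameCycle (i (T.next b)) (i b) := ⟨(m : ℤ), by
    rw [zpow_natCast, key m le_rfl, hm]⟩
  refine ⟨i, j, hi, hj, hcr, hsg, hnew, ?_, ?_⟩
  · intro p hp
    obtain ⟨p, rfl⟩ : ∃ p' : T.P, p' = p := ⟨p, rfl⟩
    change D.next.symm (i p) = i (T.next.symm p)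
    rw [Equiv.symm_apply_eq]
    have h1 : T.next.symm p ≠ b := by
      intro h2
      apply hp
      rw [← h2]
      exact (T.next.apply_symm_apply p).symm
    rw [hnext _ h1, Equiv.apply_symm_apply]
  · intro q hq
    obtain ⟨q, rfl⟩ : ∃ q' : D.P, q' = q := ⟨q, rfl⟩
    have h1 : (D.next)⁻¹.SameCycle (i (T.next b)) q :=
      sameCycle_inv.2 (hsame.trans (hcyc q hq))
    exact h1

end Pool.Agent.Lib.MP_b7a6eb_gt
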