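import Pool.Agent.Lib.MP_b7a6eb_gt.Constr

namespace Pool.Agent.Lib.MP_b7a6eb_gt

open Equiv Equiv.Perm

namespace Diagram

variable (D : Diagram)

/-- the potential on the fold -/
def fd0_pot (p q : D.P) (a : ℤ) (U : D.P × Bool → ℤ) : (D.P ⊕ Fin 4) × Bool → ℤ
  | (Sum.inl x, s) => U (x, s)
  | (Sum.inr 0, false) => U (q, true)
  | (Sum.inr 0, true) => U (q, true) + a
  | (Sum.inr 1, false) => U (q, false)
  | (Sum.inr 1, true) => U (p, true)
  | (Sum.inr 2, false) => U (p, true)
  | (Sum.inr 2, true) => U (q, true) + a
  | (Sum.inr 3, false) => U (p, false)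
  | (Sum.inr 3, true) => U (q, true)

lemma fd0_prev_inl {p q : D.P} (hpq : p ≠ q) (a : ℤ) (U : D.P × Bool → ℤ) (x : D.P) :
    D.fd0_pot p q a U ((D.fold p q).prev (Sum.inl x), true) = U (D.prev x, true) := by
  by_cases h1 : D.prev x = p
  · have h2 : (D.fold p q).prev (Sum.inl x) = Sum.inr 1 := by
      rw [prev_eq_iff]
      have : x = D.next p := D.prev_eq_iff.1 h1
      rw [this]
      exact (D.foldNext_1).symm
    rw [h2, h1]
    rfl
  · by_cases h3 : D.prev x = q
    · have h2 : (D.fold p q).prev (Sum.inl x) = Sum.inr 3 := by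
        rw [prev_eq_iff]
        have : x = D.next q := D.prev_eq_iff.1 h3
        rw [this]
        exact (D.foldNext_3 hpq).symm
      rw [h2, h3]
      rfl
    · have h2 : (D.fold p q).prev (Sum.inl x) = Sum.inl (D.prev x) := by
        rw [prev_eq_iff]
        have : (D.fold p q).next (Sum.inl (D.prev x)) = Sum.inl (D.next (D.prev x)) :=
          D.foldNext_inl h1 h3
        rw [this, next_prev]
      rw [h2]
      rfl

lemma fd0_face_false {p q : D.P} (hpq : p ≠ q) (a : ℤ) (U : D.P × Bool → ℤ) (x : D.P)
    (y : D.P ⊕ Fin 4) (hy : (D.fold p q).next y = Sum.inl x) :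
    D.fd0_pot p q a U ((D.fold p q).face (y, false)) = U (D.face (D.prev x, false)) := by
  rcases D.point_cases x with h | ⟨v, h⟩ | ⟨v, h⟩
  · have h1 : (D.fold p q).lab ((D.fold p q).next y) = none := by
      rw [hy]
      show (D.lab x).map _ = none
      rw [h]
      rfl
    rw [(D.fold p q).face_false_marker h1, hy]
    have h2 : D.lab (D.next (D.prev x)) = none := by rw [next_prev]; exact h
    rw [D.face_false_marker h2, next_prev]
    rfl
  · have h1 : y = (D.fold p q).prev ((D.fold p q).l (Sum.inl v)) := by
      have h0 : (D.fold p q).next y = (D.fold p q).l (Sum.inl v) := by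
        rw [hy, h]
        rfl
      exact ((D.fold p q).prev_eq_iff.2 h0.symm).symm
    rw [h1, face_S, h, face_S]
    exact D.fd0_prev_inl hpq a U (D.r v)
  · have h1 : y = (D.fold p q).prev ((D.fold p q).r (Sum.inl v)) := by
      have h0 : (D.fold p q).next y = (D.fold p q).r (Sum.inl v) := by
        rw [hy, h]
        rfl
      exact ((D.fold p q).prev_eq_iff.2 h0.symm).symm
    rw [h1, face_E, h, face_E]
    rfl

lemma fd0_face_true {p q : D.P} (hpq : p ≠ q) (a : ℤ) (U : D.P × Bool → ℤ) (x : D.P) :
    D.fd0_pot p q a U ((D.fold p q).face (Sum.inl x, true)) = U (D.face (x, true)) := by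
  rcases D.point_cases x with h | ⟨v, h⟩ | ⟨v, h⟩
  · have h1 : (D.fold p q).lab (Sum.inl x) = none := by
      show (D.lab x).map _ = none
      rw [h]
      rfl
    rw [(D.fold p q).face_true_marker h1, D.face_true_marker h]
    exact D.fd0_prev_inl hpq a U x
  · have h1 : (Sum.inl x : D.P ⊕ Fin 4) = (D.fold p q).l (Sum.inl v) := by
      rw [h]
      rfl
    rw [h1, face_N, h, face_N]
    rfl
  · have h1 : (Sum.inl x : D.P ⊕ Fin 4) = (D.fold p q).r (Sum.inl v) := by
      rw [h]
      rfl
    rw [h1, face_W, h, face_W]
    exact D.fd0_prev_inl hpq a U (D.l v)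

/-- [FD0] From a potential of the old diagram with suitable jumps at the sides `(p, false)` and
`(q, false)` one gets a potential of the fold. -/
theorem fold_potential {p q : D.P} (hpq : p ≠ q) (ψ : (D.fold p q).P → ℤ)
    (hψ : (D.fold p q).IsFlow ψ) (U : D.P × Bool → ℤ)
    (h1 : ∀ x, x ≠ (p, false) → x ≠ (q, false) → U (D.face x) = U x)
    (h2 : U (D.face (p, false)) = U (q, false)) (h3 : U (D.face (q, false)) = U (p, false))
    (h4 : U (q, false) = U (p, false) + (ψ (Sum.inl p) - ψ (Sum.inr 1)))
    (h5 : ∀ x, U (x, true) - U (x, false) = ψ (Sum.inl x)) :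
    ∃ U' : (D.fold p q).P × Bool → ℤ, (∀ s, U' ((D.fold p q).face s) = U' s) ∧
      ∀ x, U' (x, true) - U' (x, false) = ψ x := by
  have e0 : (D.fold p q).prev (Sum.inr 0) = Sum.inl p := by
    rw [prev_eq_iff]; exact (D.foldNext_p hpq).symm
  have e1 : (D.fold p q).prev (Sum.inr 1) = Sum.inr 0 := by
    rw [prev_eq_iff]; exact (D.foldNext_0).symm
  have e2 : (D.fold p q).prev (Sum.inr 2) = Sum.inl q := by
    rw [prev_eq_iff]; exact (D.foldNext_q).symm
  have e3 : (D.fold p q).prev (Sum.inr 3) = Sum.inr 2 := by
    rw [prev_eq_iff]; exact (D.foldNext_2).symm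
  have f1 : ψ (Sum.inl p) + ψ (Sum.inr 2) = ψ (Sum.inr 0) + ψ (Sum.inr 3) := by
    have := hψ.2 (Sum.inr true)
    change ψ ((D.fold p q).prev (Sum.inr 0)) + ψ ((D.fold p q).prev (Sum.inr 3)) =
      ψ (Sum.inr 0) + ψ (Sum.inr 3) at this
    rwa [e0, e3] at this
  have f2 : ψ (Sum.inr 0) + ψ (Sum.inl q) = ψ (Sum.inr 1) + ψ (Sum.inr 2) := by
    have := hψ.2 (Sum.inr false)
    change ψ ((D.fold p q).prev (Sum.inr 1)) + ψ ((D.fold p q).prev (Sum.inr 2)) =
      ψ (Sum.inr 1) + ψ (Sum.inr 2) at this
    rwa [e1, e2] at this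
  have gp := h5 p
  have gq := h5 q
  have rT : (D.fold p q).r (Sum.inr true) = Sum.inr 0 := rfl
  have lT : (D.fold p q).l (Sum.inr true) = Sum.inr 3 := rfl
  have rF : (D.fold p q).r (Sum.inr false) = Sum.inr 2 := rfl
  have lF : (D.fold p q).l (Sum.inr false) = Sum.inr 1 := rfl
  refine ⟨D.fd0_pot p q (ψ (Sum.inr 0)) U, ?_, ?_⟩
  · rintro ⟨x | k, s⟩
    · cases s
      · by_cases hxp : x = p
        · subst hxp
          have := (D.fold x q).face_E (Sum.inr true)
          rw [rT, e0, lT] at this
          rw [this]
          rfl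
        · by_cases hxq : x = q
          · subst hxq
            have := (D.fold p x).face_E (Sum.inr false)
            rw [rF, e2, lF] at this
            rw [this]
            rfl
          · have hn : (D.fold p q).next (Sum.inl x) = Sum.inl (D.next x) :=
              D.foldNext_inl hxp hxq
            rw [D.fd0_face_false hpq _ U (D.next x) (Sum.inl x) hn, prev_next]
            refine h1 (x, false) ?_ ?_
            · intro h; exact hxp (Prod.mk.inj h).1
            · intro h; exact hxq (Prod.mk.inj h).1
      · rw [D.fd0_face_true hpq]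
        refine h1 (x, true) ?_ ?_ <;> simp
    · fin_cases k
      · cases s
        · have := (D.fold p q).face_S (Sum.inr false)
          rw [lF, e1, rF, e2] at this
          change D.fd0_pot p q _ U ((D.fold p q).face (Sum.inr 0, false)) = _
          rw [this]
          rfl
        · have := (D.fold p q).face_W (Sum.inr true)
          rw [lT, rT, e3] at this
          change D.fd0_pot p q _ U ((D.fold p q).face (Sum.inr 0, true)) = _
          rw [this]
          rfl
      · cases s
        · change D.fd0_pot p q _ U ((D.fold p q).face (Sum.inr 1, false)) = _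
          rw [D.fd0_face_false hpq _ U (D.next p) (Sum.inr 1) D.foldNext_1, prev_next, h2]
          rfl
        · have := (D.fold p q).face_N (Sum.inr false)
          rw [lF, rF] at this
          change D.fd0_pot p q _ U ((D.fold p q).face (Sum.inr 1, true)) = _
          rw [this]
          rfl
      · cases s
        · have := (D.fold p q).face_S (Sum.inr true)
          rw [lT, e3, rT, e0] at this
          change D.fd0_pot p q _ U ((D.fold p q).face (Sum.inr 2, false)) = _
          rw [this]
          rfl
        · have := (D.fold p q).face_W (Sum.inr false)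
          rw [lF, rF, e1] at this
          change D.fd0_pot p q _ U ((D.fold p q).face (Sum.inr 2, true)) = _
          rw [this]
          rfl
      · cases s
        · change D.fd0_pot p q _ U ((D.fold p q).face (Sum.inr 3, false)) = _
          rw [D.fd0_face_false hpq _ U (D.next q) (Sum.inr 3) (D.foldNext_3 hpq), prev_next, h3]
          rfl
        · have := (D.fold p q).face_N (Sum.inr true)
          rw [lT, rT] at this
          change D.fd0_pot p q _ U ((D.fold p q).face (Sum.inr 3, true)) = _
          rw [this]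
          rfl
  · rintro (x | k)
    · exact h5 x
    · fin_cases k
      · change U (q, true) + ψ (Sum.inr 0) - U (q, true) = ψ (Sum.inr 0)
        ring
      · change U (p, true) - U (q, false) = ψ (Sum.inr 1)
        linarith
      · change U (q, true) + ψ (Sum.inr 0) - U (p, true) = ψ (Sum.inr 2)
        linarith
      · change U (q, true) - U (p, false) = ψ (Sum.inr 3)
        linarith

end Diagram

end Pool.Agent.Lib.MP_b7a6eb_gt
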