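import Pool.Agent.Lib.MP_b7a6eb_gt.Basic

namespace Pool.Agent.Lib.MP_b7a6eb_gt

open Equiv Equiv.Perm

/-- [PM2] a potential with one jump up and one jump down on a cycle -/
theorem exists_jump {α : Type*} [Finite α] [DecidableEq α] (f : Perm α) {s t : α} (hst : s ≠ t)
    (h : f.SameCycle s t) : ∃ r : α → ℤ,
    (∀ x, r (f x) - r x = (if x = s then 1 else 0) - (if x = t then 1 else 0)) ∧
    r (f s) = r t ∧ r s = r (f t) ∧ ∀ x, ¬ f.SameCycle s x → r x = 0 := by
  classical
  have hex : ∃ n : ℕ, (f ^ n) s = t := h.exists_nat_pow_eq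
  set k := Nat.find hex with hk
  have hkt : (f ^ k) s = t := Nat.find_spec hex
  have hmin : ∀ j, j < k → (f ^ j) s ≠ t := fun j hj => Nat.find_min hex hj
  have hk0 : 1 ≤ k := by
    rcases Nat.eq_zero_or_pos k with h0 | h0
    · rw [h0] at hkt
      exact absurd hkt hst
    · exact h0
  have hsucc : ∀ (j : ℕ) (x : α), (f ^ (j + 1)) s = f x ↔ (f ^ j) s = x := by
    intro j x
    rw [pow_succ', Perm.mul_apply]
    exact f.injective.eq_iff
  set A : α → Prop := fun x => ∃ j, 1 ≤ j ∧ j ≤ k ∧ (f ^ j) s = x with hA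
  have h1 : A (f s) := ⟨1, le_rfl, hk0, by simp⟩
  have h2 : ¬ A s := by
    rintro ⟨j, hj1, hj2, hj3⟩
    have h3 : (f ^ (k - j)) s = t := by
      rw [← hkt]
      conv_lhs => rw [← hj3]
      rw [← Perm.mul_apply, ← pow_add, Nat.sub_add_cancel hj2]
    exact hmin (k - j) (by omega) h3
  have h3 : A t := ⟨k, hk0, le_rfl, hkt⟩
  have h4 : ¬ A (f t) := by
    rintro ⟨j, hj1, hj2, hj3⟩
    obtain ⟨j', rfl⟩ : ∃ j', j = j' + 1 := ⟨j - 1, by omega⟩
    rw [hsucc] at hj3
    exact hmin j' (by omega) hj3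
  have h5 : ∀ x, x ≠ s → x ≠ t → (A (f x) ↔ A x) := by
    intro x hxs hxt
    constructor
    · rintro ⟨j, hj1, hj2, hj3⟩
      obtain ⟨j', rfl⟩ : ∃ j', j = j' + 1 := ⟨j - 1, by omega⟩
      rw [hsucc] at hj3
      refine ⟨j', ?_, by omega, hj3⟩
      rcases Nat.eq_zero_or_pos j' with h0 | h0
      · rw [h0] at hj3
        exact absurd hj3.symm hxs
      · exact h0
    · rintro ⟨j, hj1, hj2, hj3⟩
      refine ⟨j + 1, by omega, ?_, (hsucc j x).2 hj3⟩
      rcases Nat.lt_or_ge j k with h0 | h0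
      · omega
      · have : j = k := by omega
        rw [this, hkt] at hj3
        exact absurd hj3.symm hxt
  refine ⟨fun x => if A x then 1 else 0, ?_, ?_, ?_, ?_⟩
  · intro x
    by_cases hxs : x = s
    · subst hxs
      simp [h1, h2, hst]
    · by_cases hxt : x = t
      · subst hxt
        simp [h3, h4, hxs]
      · simp [h5 x hxs hxt, hxs, hxt]
  · simp [h1, h3]
  · simp [h2, h4]
  · intro x hx
    have : ¬ A x := by
      rintro ⟨j, _, _, hj⟩
      exact hx ⟨(j : ℤ), by simpa using hj⟩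
    simp [this]

end Pool.Agent.Lib.MP_b7a6eb_gt
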