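import Pool.Agent.Lib.MP_b7a6eb_gt.Constr
import Pool.Agent.Lib.MP_b7a6eb_gt.PM2
import Pool.Agent.Lib.MP_b7a6eb_gt.FD0

namespace Pool.Agent.Lib.MP_b7a6eb_gt

open Equiv Equiv.Perm

namespace Diagram

variable (D : Diagram)

/-- sums over the two points of a crossing -/
lemma fd1_sum_cr (F : D.P → ℤ) (v : D.V) :
    F (D.cr (v, true)) + F (D.cr (v, false)) = F (D.l v) + F (D.r v) := by
  unfold l r
  cases D.sign v
  · simp [add_comm]
  · simp

/-- previous points in the fold -/
lemma fd1_prev_inl [DecidableEq D.P] {p q : D.P} (hpq : p ≠ q) (ψ : D.P ⊕ Fin 4 → ℤ) (x : D.P) :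
    ψ ((D.fold p q).prev (Sum.inl x)) = if D.prev x = p then ψ (Sum.inr 1)
      else if D.prev x = q then ψ (Sum.inr 3) else ψ (Sum.inl (D.prev x)) := by
  have h : ∀ y z : D.P ⊕ Fin 4, D.foldNext p q y = z → (D.fold p q).prev z = y := by
    intro y z hyz
    have : (D.fold p q).next y = z := hyz
    rw [← this]
    exact (D.fold p q).prev_next y
  split_ifs with h1 h2
  · rw [h (Sum.inr 1) (Sum.inl x)]
    rw [foldNext_1, ← h1, next_prev]
  · rw [h (Sum.inr 3) (Sum.inl x)]
    rw [foldNext_3 _ hpq, ← h2, next_prev]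
  · rw [h (Sum.inl (D.prev x)) (Sum.inl x)]
    rw [foldNext_inl _ h1 h2, next_prev]

lemma fd1_prev_0 {p q : D.P} (hpq : p ≠ q) : (D.fold p q).prev (Sum.inr 0) = Sum.inl p :=
  (D.fold p q).prev_eq_iff.2 (D.foldNext_p hpq).symm

lemma fd1_prev_1 {p q : D.P} : (D.fold p q).prev (Sum.inr 1) = Sum.inr 0 :=
  (D.fold p q).prev_eq_iff.2 (D.foldNext_0).symm

lemma fd1_prev_2 {p q : D.P} : (D.fold p q).prev (Sum.inr 2) = Sum.inl q :=
  (D.fold p q).prev_eq_iff.2 (D.foldNext_q).symm

lemma fd1_prev_3 {p q : D.P} : (D.fold p q).prev (Sum.inr 3) = Sum.inr 2 :=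
  (D.fold p q).prev_eq_iff.2 (D.foldNext_2).symm

/-- the defect of a flow on the fold is the same at both edges -/
lemma fd1_delta {p q : D.P} (hpq : p ≠ q) (ψ : D.P ⊕ Fin 4 → ℤ) (hψ : (D.fold p q).IsFlow ψ) :
    ψ (Sum.inr 3) - ψ (Sum.inl q) = ψ (Sum.inl p) - ψ (Sum.inr 1) := by
  have h1 := hψ.2 (Sum.inr true)
  have h2 := hψ.2 (Sum.inr false)
  have e1 : (D.fold p q).cr (Sum.inr true, true) = Sum.inr 0 := rfl
  have e2 : (D.fold p q).cr (Sum.inr true, false) = Sum.inr 3 := rfl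
  have e3 : (D.fold p q).cr (Sum.inr false, true) = Sum.inr 1 := rfl
  have e4 : (D.fold p q).cr (Sum.inr false, false) = Sum.inr 2 := rfl
  rw [e1, e2, fd1_prev_0 D hpq, fd1_prev_3] at h1
  rw [e3, e4, fd1_prev_1, fd1_prev_2] at h2
  linarith

/-- conservation at the old points -/
lemma fd1_marker [DecidableEq D.P] {p q : D.P} (hpq : p ≠ q) (ψ : D.P ⊕ Fin 4 → ℤ) (hψ : (D.fold p q).IsFlow ψ)
    {x : D.P} (hx : D.lab x = none) :
    ψ (Sum.inl x) = ψ (Sum.inl (D.prev x)) -
      (ψ (Sum.inl p) - ψ (Sum.inr 1)) * ((if D.prev x = p then 1 else 0) -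
        (if D.prev x = q then 1 else 0)) := by
  have hd := fd1_delta D hpq ψ hψ
  have h1 : (D.fold p q).lab (Sum.inl x) = none := by
    change (D.lab x).map _ = none
    rw [hx]
    rfl
  have h2 := hψ.1 _ h1
  rw [fd1_prev_inl D hpq ψ] at h2
  rw [← h2]
  by_cases h3 : D.prev x = p
  · rw [if_pos h3, if_pos h3, if_neg (by rw [h3]; exact hpq), h3]
    ring
  · by_cases h4 : D.prev x = q
    · rw [if_neg h3, if_pos h4, if_neg h3, if_pos h4, h4]
      linarith
    · rw [if_neg h3, if_neg h4, if_neg h3, if_neg h4]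
      ring

lemma fd1_crossing [DecidableEq D.P] {p q : D.P} (hpq : p ≠ q) (ψ : D.P ⊕ Fin 4 → ℤ) (hψ : (D.fold p q).IsFlow ψ)
    (v : D.V) :
    ψ (Sum.inl (D.l v)) + ψ (Sum.inl (D.r v)) =
      (ψ (Sum.inl (D.prev (D.l v))) -
      (ψ (Sum.inl p) - ψ (Sum.inr 1)) * ((if D.prev (D.l v) = p then 1 else 0) -
        (if D.prev (D.l v) = q then 1 else 0))) +
      (ψ (Sum.inl (D.prev (D.r v))) -
      (ψ (Sum.inl p) - ψ (Sum.inr 1)) * ((if D.prev (D.r v) = p then 1 else 0) -
        (if D.prev (D.r v) = q then 1 else 0))) := by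
  have hd := fd1_delta D hpq ψ hψ
  have key : ∀ x : D.P, ψ ((D.fold p q).prev (Sum.inl x)) = ψ (Sum.inl (D.prev x)) -
      (ψ (Sum.inl p) - ψ (Sum.inr 1)) * ((if D.prev x = p then 1 else 0) -
        (if D.prev x = q then 1 else 0)) := by
    intro x
    rw [fd1_prev_inl D hpq ψ]
    by_cases h3 : D.prev x = p
    · rw [if_pos h3, if_pos h3, if_neg (by rw [h3]; exact hpq), h3]
      ring
    · by_cases h4 : D.prev x = q
      · rw [if_neg h3, if_pos h4, if_neg h3, if_pos h4, h4]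
        linarith
      · rw [if_neg h3, if_neg h4, if_neg h3, if_neg h4]
        ring
  have h1 := hψ.2 (Sum.inl v)
  have e : ∀ s, (D.fold p q).cr (Sum.inl v, s) = Sum.inl (D.cr (v, s)) := fun s => rfl
  rw [e, e, key, key] at h1
  have h2 := fd1_sum_cr D (fun x => ψ (Sum.inl (D.prev x)) -
      (ψ (Sum.inl p) - ψ (Sum.inr 1)) * ((if D.prev x = p then 1 else 0) -
        (if D.prev x = q then 1 else 0))) v
  have h3 := fd1_sum_cr D (fun x => ψ (Sum.inl x)) v
  rw [← h2, ← h3]
  exact h1.symm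

/-- the flow equation at a crossing in terms of `l` and `r` -/
lemma fd1_isFlow (φ : D.P → ℤ) (h1 : ∀ x, D.lab x = none → φ (D.prev x) = φ x)
    (h2 : ∀ v, φ (D.prev (D.l v)) + φ (D.prev (D.r v)) = φ (D.l v) + φ (D.r v)) :
    D.IsFlow φ := by
  refine ⟨h1, fun v => ?_⟩
  have h3 := fd1_sum_cr D (fun x => φ (D.prev x)) v
  have h4 := fd1_sum_cr D φ v
  rw [h3, h4]
  exact h2 v

/-- [FD1] -/
theorem fold_planar_same {p q : D.P} (hD : D.Planar) (hpq : p ≠ q)
    (h : D.faceP.SameCycle (p, false) (q, false)) : (D.fold p q).Planar := by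
  classical
  intro ψ hψ
  have hst : ((p, false) : D.P × Bool) ≠ (q, false) := by
    intro h1
    exact hpq (Prod.mk.inj h1).1
  obtain ⟨r, hr1, hr2, hr3, -⟩ := exists_jump D.faceP hst h
  simp only [faceP_apply] at hr1 hr2 hr3
  set δ : ℤ := ψ (Sum.inl p) - ψ (Sum.inr 1) with hδ
  let ρ : D.P → ℤ := fun x => r (x, true) - r (x, false)
  have htrue : ∀ x, r (D.face (x, true)) = r (x, true) := by
    intro x
    have h1 := hr1 (x, true)
    rw [if_neg (by simp), if_neg (by simp)] at h1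
    linarith
  have hfalse : ∀ x, r (D.face (x, false)) - r (x, false) =
      (if x = p then 1 else 0) - (if x = q then 1 else 0) := by
    intro x
    have h1 := hr1 (x, false)
    simpa [Prod.mk.injEq] using h1
  have hφ : D.IsFlow (fun x => ψ (Sum.inl x) - δ * ρ x) := by
    apply fd1_isFlow
    · intro x hx
      have h1 := fd1_marker D hpq ψ hψ hx
      have h2 := hfalse (D.prev x)
      have h3 := htrue x
      rw [D.face_true_marker hx] at h3
      rw [D.face_false_marker (by rw [next_prev]; exact hx), next_prev] at h2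
      dsimp only [ρ]
      rw [← hδ, ← h2] at h1
      rw [h1, h3]
      ring
    · intro v
      have h1 := fd1_crossing D hpq ψ hψ v
      have h2 := hfalse (D.prev (D.l v))
      have h3 := hfalse (D.prev (D.r v))
      have h4 := htrue (D.l v)
      have h5 := htrue (D.r v)
      rw [D.face_S] at h2
      rw [D.face_E] at h3
      rw [D.face_N] at h4
      rw [D.face_W] at h5
      dsimp only [ρ]
      rw [← hδ, ← h2, ← h3] at h1
      have h6 : ψ (Sum.inl (D.l v)) + ψ (Sum.inl (D.r v)) =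
        ψ (Sum.inl (D.prev (D.l v))) + ψ (Sum.inl (D.prev (D.r v))) -
          δ * (r (D.prev (D.r v), true) - r (D.prev (D.l v), false) +
            (r (D.l v, false) - r (D.prev (D.r v), false))) := by rw [h1]; ring
      rw [h4, h5]
      linarith
  obtain ⟨U₀, hU1, hU2⟩ := hD _ hφ
  have hU0 : U₀ (p, false) = U₀ (q, false) := by
    have key : ∀ s t, D.faceP.SameCycle s t → U₀ s = U₀ t := by
      intro s t hs
      obtain ⟨n, hn⟩ := hs.exists_nat_pow_eq
      rw [← hn]
      clear hn hs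
      induction n with
      | zero => rfl
      | succ n ih =>
        rw [pow_succ', Perm.mul_apply, faceP_apply, hU1]
        exact ih
    exact key _ _ h
  refine D.fold_potential hpq ψ hψ (fun s => U₀ s + δ * r s) ?_ ?_ ?_ ?_ ?_
  · intro x h1 h2
    have h3 := hr1 x
    rw [if_neg h1, if_neg h2] at h3
    have h4 : r (D.face x) = r x := by linarith
    rw [hU1, h4]
  · rw [hU1, hr2, hU0]
  · rw [hU1, ← hr3, hU0]
  · have h3 := hr1 (p, false)
    rw [if_pos rfl, if_neg hst, hr2] at h3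
    have h4 : r (q, false) = r (p, false) + 1 := by linarith
    rw [h4, hU0]
    ring
  · intro x
    have h3 := hU2 x
    dsimp only [ρ] at h3 ⊢
    linarith

end Diagram

end Pool.Agent.Lib.MP_b7a6eb_gt
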