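import Pool.Agent.Lib.MP_b7a6eb_gt.Constr
import Pool.Agent.Lib.MP_b7a6eb_gt.MK2
import Pool.Agent.Lib.MP_b7a6eb_gt.MK4

namespace Pool.Agent.Lib.MP_b7a6eb_gt

open Equiv Equiv.Perm

namespace Diagram

variable (D : Diagram)

/-- successor permutation with two markers inserted after `q` -/
noncomputable def fd3_next (q : D.P) : Perm (D.P ⊕ Fin 2) :=
  letI : DecidableEq (D.P ⊕ Fin 2) := Classical.decEq _
  Equiv.sumCongr D.next (Equiv.refl (Fin 2)) *
    (swap (Sum.inl q) (Sum.inr 0) * swap (Sum.inr 0) (Sum.inr 1))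

lemma fd3_next_inl {q x : D.P} (h : x ≠ q) : D.fd3_next q (Sum.inl x) = Sum.inl (D.next x) := by
  classical
  simp [fd3_next, Perm.mul_apply, Equiv.swap_apply_def, h]

lemma fd3_next_q {q : D.P} : D.fd3_next q (Sum.inl q) = Sum.inr 0 := by
  classical
  simp [fd3_next, Perm.mul_apply, Equiv.swap_apply_def]

lemma fd3_next_0 {q : D.P} : D.fd3_next q (Sum.inr 0) = Sum.inr 1 := by
  classical
  simp [fd3_next, Perm.mul_apply, Equiv.swap_apply_def]

lemma fd3_next_1 {q : D.P} : D.fd3_next q (Sum.inr 1) = Sum.inl (D.next q) := by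
  classical
  simp [fd3_next, Perm.mul_apply]

/-- the diagram with two markers inserted after `q` -/
noncomputable def fd3_T (q : D.P) : Diagram where
  P := D.P ⊕ Fin 2
  V := D.V
  finP := inferInstance
  finV := inferInstance
  next := D.fd3_next q
  cr := fun x => Sum.inl (D.cr x)
  lab := fun x => match x with
    | Sum.inl p => D.lab p
    | Sum.inr _ => none
  lab_iff := by
    rintro (p | k) x
    · simp [D.lab_iff]
    · simp
  sign := D.sign

lemma fd3_msub (q : D.P) : MSub D (D.fd3_T q) (Sum.inl : D.P → D.P ⊕ Fin 2) (Equiv.refl D.V) := by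
  refine ⟨⟨Sum.inl_injective, ?_, ?_⟩, fun v x => rfl, fun v => rfl⟩
  · intro x
    by_cases h : x = q
    · subst h
      refine ⟨2, ?_, ?_⟩
      · have h1 : ((D.fd3_T x).next ^ (2 + 1)) (Sum.inl x) =
            D.fd3_next x (D.fd3_next x (D.fd3_next x (Sum.inl x))) := rfl
        rw [h1, fd3_next_q, fd3_next_0, fd3_next_1]
      · intro k hk
        rintro ⟨z, hz⟩
        rcases k with _ | _ | k
        · have h1 : ((D.fd3_T x).next ^ (0 + 1)) (Sum.inl x) = D.fd3_next x (Sum.inl x) := rfl
          rw [h1, fd3_next_q] at hz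
          exact Sum.inl_ne_inr hz
        · have h1 : ((D.fd3_T x).next ^ (0 + 1 + 1)) (Sum.inl x) =
              D.fd3_next x (D.fd3_next x (Sum.inl x)) := rfl
          rw [h1, fd3_next_q, fd3_next_0] at hz
          exact Sum.inl_ne_inr hz
        · omega
    · refine ⟨0, ?_, fun k hk => absurd hk (Nat.not_lt_zero k)⟩
      exact D.fd3_next_inl h
  · rintro (x | k)
    · exact ⟨x, SameCycle.refl _ _⟩
    · refine ⟨q, ?_⟩
      have h0 : (D.fd3_T q).next.SameCycle (Sum.inl q) (Sum.inr 0) :=
        ⟨1, by rw [zpow_one]; exact D.fd3_next_q⟩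
      have h1 : (D.fd3_T q).next.SameCycle (Sum.inr 0) (Sum.inr 1) :=
        ⟨1, by rw [zpow_one]; exact D.fd3_next_0⟩
      fin_cases k
      · exact h0
      · exact h0.trans h1

lemma fd3_overArc_self (T : Diagram) (b : T.P) : OverArc T b T := by
  refine ⟨id, id, Function.injective_id, Function.injective_id, fun v x => rfl, fun v => rfl,
    fun w hw => absurd ⟨w, rfl⟩ hw, fun p _ => rfl, fun q hq => absurd ⟨q, rfl⟩ hq⟩

/-- inclusion of the points -/
def fd3_i (D : Diagram) : D.P ⊕ Fin 2 → D.P ⊕ Fin 4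
  | Sum.inl x => Sum.inl x
  | Sum.inr 0 => Sum.inr 2
  | Sum.inr 1 => Sum.inr 3

lemma fd3_overArc_fold {p q : D.P} (hpq : p ≠ q) :
    OverArc (D.fd3_T q) (Sum.inl p) (D.fold p q) := by
  refine ⟨D.fd3_i, Sum.inl, ?_, Sum.inl_injective, fun v x => rfl, fun v => rfl, ?_, ?_, ?_⟩
  · rintro (x | k) (y | l) h
    · exact congrArg Sum.inl (Sum.inl_injective h)
    · fin_cases l
      · exact absurd h Sum.inl_ne_inr
      · exact absurd h Sum.inl_ne_inr
    · fin_cases k
      · exact absurd h Sum.inr_ne_inl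
      · exact absurd h Sum.inr_ne_inl
    · fin_cases k <;> fin_cases l
      · rfl
      · exact absurd (Sum.inr_injective h) (by decide)
      · exact absurd (Sum.inr_injective h) (by decide)
      · rfl
  · rintro (v | b) hw
    · exact absurd ⟨v, rfl⟩ hw
    · cases b
      · refine ⟨?_, ⟨Sum.inr 0, rfl⟩⟩
        rintro ⟨z | k, hz⟩
        · exact Sum.inl_ne_inr hz
        · fin_cases k
          · exact absurd (Sum.inr_injective hz) (by decide)
          · exact absurd (Sum.inr_injective hz) (by decide)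
      · refine ⟨?_, ⟨Sum.inr 1, rfl⟩⟩
        rintro ⟨z | k, hz⟩
        · exact Sum.inl_ne_inr hz
        · fin_cases k
          · exact absurd (Sum.inr_injective hz) (by decide)
          · exact absurd (Sum.inr_injective hz) (by decide)
  · rintro (x | k) hx
    · have hxp : x ≠ p := fun h => hx (congrArg Sum.inl h)
      by_cases hxq : x = q
      · subst hxq
        have h1 : (D.fd3_T x).next (Sum.inl x) = Sum.inr 0 := D.fd3_next_q
        have h2 : (D.fold p x).next (Sum.inl x) = Sum.inr 2 := D.foldNext_q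
        rw [h1]
        exact h2
      · have h1 : (D.fd3_T q).next (Sum.inl x) = Sum.inl (D.next x) := D.fd3_next_inl hxq
        have h2 : (D.fold p q).next (Sum.inl x) = Sum.inl (D.next x) := D.foldNext_inl hxp hxq
        rw [h1]
        exact h2
    · fin_cases k
      · have h1 : (D.fd3_T q).next (Sum.inr 0) = Sum.inr 1 := D.fd3_next_0
        have h2 : (D.fold p q).next (Sum.inr 2) = Sum.inr 3 := D.foldNext_2
        exact h2.trans (congrArg D.fd3_i h1).symm
      · have h1 : (D.fd3_T q).next (Sum.inr 1) = Sum.inl (D.next q) := D.fd3_next_1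
        have h2 : (D.fold p q).next (Sum.inr 3) = Sum.inl (D.next q) := D.foldNext_3 hpq
        exact h2.trans (congrArg D.fd3_i h1).symm
  · have h0 : (D.fold p q).next.SameCycle (Sum.inl p) (Sum.inr 0) :=
      ⟨1, by rw [zpow_one]; exact D.foldNext_p hpq⟩
    have h1 : (D.fold p q).next.SameCycle (Sum.inr 0) (Sum.inr 1) :=
      ⟨1, by rw [zpow_one]; exact D.foldNext_0⟩
    rintro (x | k) hx
    · exact absurd ⟨Sum.inl x, rfl⟩ hx
    · fin_cases k
      · exact h0
      · exact h0.trans h1
      · exact absurd ⟨Sum.inr 0, rfl⟩ hx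
      · exact absurd ⟨Sum.inr 1, rfl⟩ hx

/-- [FD3] -/
theorem fold_isotopic {p q : D.P} (hD : D.Planar) (hpq : p ≠ q) (hF : (D.fold p q).Planar) :
    Isotopic D (D.fold p q) := by
  have hM := D.fd3_msub q
  have hT : (D.fd3_T q).Planar := hM.planar_iff.1 hD
  have h1 : Isotopic D (D.fd3_T q) := hM.isotopic ⟨p⟩ hD
  refine h1.trans (Relation.EqvGen.rel _ _ ⟨hT, hF, D.fd3_T q, Sum.inl p,
    fd3_overArc_self _ _, D.fd3_overArc_fold hpq⟩)

end Diagram

end Pool.Agent.Lib.MP_b7a6eb_gt
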