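import Pool.Agent.Lib.MP_b7a6eb_gt.Basic

namespace Pool.Agent.Lib.MP_b7a6eb_gt

open Equiv Equiv.Perm

/-- [PM1] auxiliary -/
theorem pm1_not_same {α : Type*} [Finite α] [DecidableEq α] (f : Perm α) {x y : α}
    (hxy : x ≠ y) (h : f.SameCycle x y) : ¬ (f * swap x y).SameCycle y x := by
  classical
  have hex : ∃ k : ℕ, 0 < k ∧ (f ^ k) x = y := by
    obtain ⟨k, hk, -, hk2⟩ := h.exists_pow_eq'' 
    exact ⟨k, hk, hk2⟩
  set k := Nat.find hex with hkdef
  obtain ⟨hk0, hky⟩ := Nat.find_spec hex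
  rw [← hkdef] at hk0 hky
  have hmin : ∀ j, 0 < j → j < k → (f ^ j) x ≠ y := by
    intro j hj hjk he
    exact Nat.find_min hex hjk ⟨hj, he⟩
  have hx : ∀ j, 0 < j → j ≤ k → (f ^ j) x ≠ x := by
    intro j hj hjk he
    rcases hjk.lt_or_eq with hlt | heq
    · apply hmin (k - j) (by omega) (by omega)
      have : (f ^ k) x = (f ^ (k - j)) ((f ^ j) x) := by
        rw [← Perm.mul_apply, ← pow_add]; congr 2; omega
      rw [← hky, this, he]
    · rw [heq, hky] at he
      exact hxy he.symm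
  have key : ∀ n : ℕ, ∃ j, 0 < j ∧ j ≤ k ∧ ((f * swap x y) ^ n) y = (f ^ j) x := by
    intro n
    induction n with
    | zero => exact ⟨k, hk0, le_refl _, by simp [hky]⟩
    | succ n ih =>
      obtain ⟨j, hj0, hjk, hj⟩ := ih
      rw [pow_succ', Perm.mul_apply, hj]
      rcases hjk.lt_or_eq with hlt | heq
      · refine ⟨j + 1, by omega, by omega, ?_⟩
        rw [Perm.mul_apply, swap_apply_of_ne_of_ne (hx j hj0 hjk) (hmin j hj0 hlt), pow_succ',
          Perm.mul_apply]
      · refine ⟨1, by omega, by omega, ?_⟩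
        rw [heq, hky, Perm.mul_apply, swap_apply_right, pow_one]
  intro hs
  obtain ⟨n, -, hn⟩ := hs.exists_pow_eq'
  obtain ⟨j, hj0, hjk, hj⟩ := key n
  rw [hn] at hj
  exact hx j hj0 hjk hj.symm

/-- [PM1] auxiliary -/
theorem pm1_same {α : Type*} [Finite α] [DecidableEq α] (f : Perm α) {x y : α}
    (h : ¬ f.SameCycle x y) : (f * swap x y).SameCycle x y := by
  classical
  have hex : ∃ k : ℕ, 0 < k ∧ (f ^ k) x = x := by
    obtain ⟨k, hk, -, hk2⟩ := (SameCycle.refl f x).exists_pow_eq''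
    exact ⟨k, hk, hk2⟩
  set k := Nat.find hex with hkdef
  obtain ⟨hk0, hky⟩ := Nat.find_spec hex
  rw [← hkdef] at hk0 hky
  have hmin : ∀ j, 0 < j → j < k → (f ^ j) x ≠ x := by
    intro j hj hjk he
    exact Nat.find_min hex hjk ⟨hj, he⟩
  have hne : ∀ j : ℕ, (f ^ j) x ≠ y := by
    intro j he
    exact h ⟨j, by simpa using he⟩
  have key : ∀ n : ℕ, n < k → ((f * swap x y) ^ (n + 1)) y = (f ^ (n + 1)) x := by
    intro n
    induction n with
    | zero => intro _; simp
    | succ n ih =>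
      intro hn
      rw [pow_succ', Perm.mul_apply, ih (by omega), Perm.mul_apply,
        swap_apply_of_ne_of_ne (hmin _ (by omega) hn) (hne _), ← Perm.mul_apply, ← pow_succ']
  apply SameCycle.symm
  refine ⟨((k - 1 + 1 : ℕ) : ℤ), ?_⟩
  rw [zpow_natCast, key (k - 1) (by omega)]
  have : k - 1 + 1 = k := by omega
  rw [this, hky]

/-- [PM1] auxiliary -/
theorem pm1_le {α : Type*} [Finite α] (f g : Perm α) (r : α → α → Prop) (hr : Equivalence r)
    (h : ∀ a, r a (g a)) {a b : α} (hab : g.SameCycle a b) : r a b := by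
  obtain ⟨n, -, hn⟩ := hab.exists_pow_eq'
  rw [← hn]
  clear hn
  induction n with
  | zero => exact hr.refl _
  | succ n ih => rw [pow_succ', Perm.mul_apply]; exact hr.trans ih (h _)

/-- [PM1] -/
theorem cyc_mul_swap_diff {α : Type*} [Finite α] [DecidableEq α] (f : Perm α) {x y : α}
    (h : ¬ f.SameCycle x y) : cyc (f * swap x y) + 1 = cyc f := by
  classical
  set g := f * swap x y with hg
  have hgxy : g.SameCycle x y := pm1_same f h
  have hfg : f = g * swap x y := by rw [hg, mul_assoc, swap_mul_self, mul_one]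
  have hsw : ∀ a, g.SameCycle a (swap x y a) := by
    intro a
    by_cases hax : a = x
    · rw [hax, swap_apply_left]; exact hgxy
    · by_cases hay : a = y
      · rw [hay, swap_apply_right]; exact hgxy.symm
      · rw [swap_apply_of_ne_of_ne hax hay]
  have h1 : ∀ a b, f.SameCycle a b → g.SameCycle a b := by
    intro a b hab
    refine pm1_le f f (fun a b => g.SameCycle a b) ⟨fun _ => SameCycle.refl _ _, SameCycle.symm,
      SameCycle.trans⟩ ?_ hab
    intro a
    have h2 : f a = g (swap x y a) := by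
      conv_lhs => rw [hfg]
      rfl
    rw [h2]
    exact (hsw a).trans ((sameCycle_apply_right).2 (SameCycle.refl _ _))
  have h2 : ∀ a b, g.SameCycle a b → (f.SameCycle a b ∨ (f.SameCycle a x ∧ f.SameCycle b y) ∨
      (f.SameCycle a y ∧ f.SameCycle b x)) := by
    intro a b hab
    refine pm1_le f g (fun a b => (f.SameCycle a b ∨ (f.SameCycle a x ∧ f.SameCycle b y) ∨
      (f.SameCycle a y ∧ f.SameCycle b x))) ⟨fun _ => Or.inl (SameCycle.refl _ _), ?_, ?_⟩ ?_ hab
    · rintro a b (h1 | ⟨h1, h2⟩ | ⟨h1, h2⟩)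
      · exact Or.inl h1.symm
      · exact Or.inr (Or.inr ⟨h2, h1⟩)
      · exact Or.inr (Or.inl ⟨h2, h1⟩)
    · rintro a b c (h1 | ⟨h1, h2⟩ | ⟨h1, h2⟩) (h3 | ⟨h3, h4⟩ | ⟨h3, h4⟩)
      · exact Or.inl (h1.trans h3)
      · exact Or.inr (Or.inl ⟨h1.trans h3, h4⟩)
      · exact Or.inr (Or.inr ⟨h1.trans h3, h4⟩)
      · exact Or.inr (Or.inl ⟨h1, h3.symm.trans h2⟩)
      · exact absurd (h3.symm.trans h2) h
      · exact Or.inl (h1.trans h4.symm)
      · exact Or.inr (Or.inr ⟨h1, h3.symm.trans h2⟩)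
      · exact Or.inl (h1.trans h4.symm)
      · exact absurd (h2.symm.trans h3) h
    · intro a
      by_cases hax : a = x
      · have : g a = f y := by rw [hg, hax, Perm.mul_apply, swap_apply_left]
        rw [this]
        right; left
        refine ⟨by rw [hax], (sameCycle_apply_left).2 (SameCycle.refl _ _)⟩
      · by_cases hay : a = y
        · have : g a = f x := by rw [hg, hay, Perm.mul_apply, swap_apply_right]
          rw [this]
          right; right
          refine ⟨by rw [hay], (sameCycle_apply_left).2 (SameCycle.refl _ _)⟩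
        · have : g a = f a := by rw [hg, Perm.mul_apply, swap_apply_of_ne_of_ne hax hay]
          rw [this]
          left
          exact (sameCycle_apply_right).2 (SameCycle.refl _ _)
  -- count
  let Qf := Quotient (SameCycle.setoid f)
  let Qg := Quotient (SameCycle.setoid g)
  let mf : α → Qf := Quotient.mk (SameCycle.setoid f)
  let mg : α → Qg := Quotient.mk (SameCycle.setoid g)
  have mf_eq : ∀ a b, mf a = mf b ↔ f.SameCycle a b := fun a b => Quotient.eq (r := SameCycle.setoid f)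
  have mg_eq : ∀ a b, mg a = mg b ↔ g.SameCycle a b := fun a b => Quotient.eq (r := SameCycle.setoid g)
  haveI : Finite Qf := Quotient.finite _
  haveI : Finite Qg := Quotient.finite _
  let F : {q : Qf // q ≠ mf y} → Qg := fun q => Quotient.liftOn q.1 mg
    (fun a b hab => (mg_eq a b).2 (h1 a b hab))
  have hFmk : ∀ (a : α) (ha : mf a ≠ mf y), F ⟨mf a, ha⟩ = mg a := fun a ha => rfl
  have hbij : Function.Bijective F := by
    constructor
    · rintro ⟨q1, hq1⟩ ⟨q2, hq2⟩ hq
      obtain ⟨a, rfl⟩ := Quotient.exists_rep q1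
      obtain ⟨b, rfl⟩ := Quotient.exists_rep q2
      have e1 := hFmk a hq1
      have e2 := hFmk b hq2
      have hab : g.SameCycle a b := by
        rw [← mg_eq]
        exact e1.symm.trans (hq.trans e2)
      rcases h2 a b hab with h3 | ⟨h3, h4⟩ | ⟨h3, h4⟩
      · exact Subtype.ext ((mf_eq a b).2 h3)
      · exact absurd ((mf_eq b y).2 h4) hq2
      · exact absurd ((mf_eq a y).2 h3) hq1
    · intro q
      obtain ⟨a, rfl⟩ := Quotient.exists_rep q
      by_cases ha : mf a = mf y
      · refine ⟨⟨mf x, fun h3 => h ((mf_eq x y).1 h3)⟩, ?_⟩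
        rw [hFmk]
        exact (mg_eq x a).2 (hgxy.trans (h1 _ _ ((mf_eq a y).1 ha)).symm)
      · exact ⟨⟨mf a, ha⟩, hFmk a ha⟩
  have hc : Nat.card {q : Qf // q ≠ mf y} = Nat.card Qg := Nat.card_congr (Equiv.ofBijective F hbij)
  change Nat.card Qg + 1 = Nat.card Qf
  rw [← hc]
  haveI := Fintype.ofFinite Qf
  rw [Nat.card_eq_fintype_card, Nat.card_eq_fintype_card, Fintype.card_subtype_compl,
    Fintype.card_subtype_eq]
  have : 0 < Fintype.card Qf := Fintype.card_pos_iff.2 ⟨mf y⟩
  omega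

/-- [PM1] -/
theorem cyc_mul_swap_same {α : Type*} [Finite α] [DecidableEq α] (f : Perm α) {x y : α}
    (hxy : x ≠ y) (h : f.SameCycle x y) : cyc (f * swap x y) = cyc f + 1 := by
  have h1 : ¬ (f * swap x y).SameCycle x y := fun h2 => pm1_not_same f hxy h h2.symm
  have h2 := cyc_mul_swap_diff (f * swap x y) h1
  rw [mul_assoc, swap_mul_self, mul_one] at h2
  exact h2.symm

end Pool.Agent.Lib.MP_b7a6eb_gt
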