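import Pool.Agent.Lib.MP_b7a6eb_gt.Constr
import Pool.Agent.Lib.MP_b7a6eb_gt.PM1
import Pool.Agent.Lib.MP_b7a6eb_gt.PM3

namespace Pool.Agent.Lib.MP_b7a6eb_gt

open Equiv Equiv.Perm

lemma fd4_of_step {α : Type*} [Finite α] (g : Perm α) (R : α → Prop) {x : α} (h0 : R x)
    (hs : ∀ y, R y → R (g y)) {y : α} (h : g.SameCycle x y) : R y := by
  obtain ⟨n, hn⟩ := h.exists_nat_pow_eq
  rw [← hn]
  clear hn h
  induction n with
  | zero => exact h0
  | succ n ih =>
    rw [pow_succ', Perm.mul_apply]
    exact hs _ ih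

lemma fd4_sc_step {α : Type*} (g : Perm α) (x : α) : g.SameCycle x (g x) :=
  ⟨1, by simp⟩

lemma fd4_sc_ab {α : Type*} [Finite α] [DecidableEq α] (f : Perm α) {a b : α}
    (h : ¬ f.SameCycle a b) : (f * swap a b).SameCycle b a := by
  set g := f * swap a b with hg
  have hex : ∃ k, 0 < k ∧ (f ^ k) a = a := by
    obtain ⟨k, h1, -, h2⟩ := (SameCycle.refl f a).exists_pow_eq''
    exact ⟨k, h1, h2⟩
  classical
  have hmin : ∀ k, 0 < k → k ≤ Nat.find hex → g.SameCycle b ((f ^ k) a) := by
    intro k
    induction k with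
    | zero => intro h; exact absurd h (lt_irrefl _)
    | succ k ih =>
      intro _ hk
      rcases Nat.eq_zero_or_pos k with h0 | h0
      · subst h0
        have h1 : g b = (f ^ (0 + 1)) a := by
          rw [hg, Perm.mul_apply, swap_apply_right]
          simp
        rw [← h1]
        exact fd4_sc_step g b
      · have h1 := ih h0 (by omega)
        have h2 : (f ^ k) a ≠ a := by
          intro h3
          exact Nat.find_min hex (show k < Nat.find hex by omega) ⟨h0, h3⟩
        have h3 : (f ^ k) a ≠ b := by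
          intro h4
          exact h ⟨k, by rw [zpow_natCast]; exact h4⟩
        have h4 : g ((f ^ k) a) = (f ^ (k + 1)) a := by
          rw [hg, Perm.mul_apply, swap_apply_of_ne_of_ne h2 h3, pow_succ', Perm.mul_apply]
        rw [← h4]
        exact h1.trans (fd4_sc_step g _)
  have h5 := hmin _ (Nat.find_spec hex).1 le_rfl
  rwa [(Nat.find_spec hex).2] at h5

lemma fd4_merge {α : Type*} [Finite α] [DecidableEq α] (f : Perm α) {a b : α}
    (h : ¬ f.SameCycle a b) (x y : α) : (f * swap a b).SameCycle x y ↔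
      f.SameCycle x y ∨
      ((f.SameCycle a x ∨ f.SameCycle b x) ∧ (f.SameCycle a y ∨ f.SameCycle b y)) := by
  set g := f * swap a b with hg
  have hab : g.SameCycle a b := (fd4_sc_ab f h).symm
  constructor
  · intro hxy
    refine fd4_of_step g (fun y => f.SameCycle x y ∨
      ((f.SameCycle a x ∨ f.SameCycle b x) ∧ (f.SameCycle a y ∨ f.SameCycle b y)))
      (Or.inl (SameCycle.refl _ _)) ?_ hxy
    intro z hz
    by_cases h1 : z = a
    · subst h1
      have h2 : g z = f b := by rw [hg, Perm.mul_apply, swap_apply_left]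
      rw [h2]
      rcases hz with hz | ⟨hz1, hz2⟩
      · exact Or.inr ⟨Or.inl hz.symm, Or.inr (fd4_sc_step f b)⟩
      · exact Or.inr ⟨hz1, Or.inr (fd4_sc_step f b)⟩
    · by_cases h2 : z = b
      · subst h2
        have h3 : g z = f a := by rw [hg, Perm.mul_apply, swap_apply_right]
        rw [h3]
        rcases hz with hz | ⟨hz1, hz2⟩
        · exact Or.inr ⟨Or.inr hz.symm, Or.inl (fd4_sc_step f a)⟩
        · exact Or.inr ⟨hz1, Or.inl (fd4_sc_step f a)⟩
      · have h3 : g z = f z := by rw [hg, Perm.mul_apply, swap_apply_of_ne_of_ne h1 h2]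
        rw [h3]
        rcases hz with hz | ⟨hz1, hz2⟩
        · exact Or.inl (hz.trans (fd4_sc_step f z))
        · refine Or.inr ⟨hz1, ?_⟩
          rcases hz2 with hz2 | hz2
          · exact Or.inl (hz2.trans (fd4_sc_step f z))
          · exact Or.inr (hz2.trans (fd4_sc_step f z))
  · have hstep : ∀ z, g.SameCycle z (f z) := by
      intro z
      by_cases h1 : z = a
      · subst h1
        have h2 : g b = f z := by rw [hg, Perm.mul_apply, swap_apply_right]
        rw [← h2]
        exact hab.trans (fd4_sc_step g b)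
      · by_cases h2 : z = b
        · subst h2
          have h3 : g a = f z := by rw [hg, Perm.mul_apply, swap_apply_left]
          rw [← h3]
          exact hab.symm.trans (fd4_sc_step g a)
        · have h3 : g z = f z := by rw [hg, Perm.mul_apply, swap_apply_of_ne_of_ne h1 h2]
          rw [← h3]
          exact fd4_sc_step g z
    have hsc : ∀ {z w}, f.SameCycle z w → g.SameCycle z w := by
      intro z w hzw
      exact fd4_of_step f (fun w => g.SameCycle z w) (SameCycle.refl _ _)
        (fun w hw => hw.trans (hstep w)) hzw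
    have hall : ∀ z, f.SameCycle a z ∨ f.SameCycle b z → g.SameCycle a z := by
      rintro z (hz | hz)
      · exact hsc hz
      · exact hab.trans (hsc hz)
    rintro (hxy | ⟨hx, hy⟩)
    · exact hsc hxy
    · exact (hall x hx).symm.trans (hall y hy)

/-- adding a fixed point -/
def fd4_ext {α : Type*} (g : Perm α) : Perm (α ⊕ Unit) := Equiv.sumCongr g (Equiv.refl Unit)

/-- inclusion into the points of the fold -/
def fd4_i {α : Type*} : α ⊕ Unit → α ⊕ Fin 4
  | Sum.inl y => Sum.inl y
  | Sum.inr _ => Sum.inr 1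

lemma fd4_ext_inl {α : Type*} (g : Perm α) (x : α) : fd4_ext g (Sum.inl x) = Sum.inl (g x) := rfl

lemma fd4_ext_inr {α : Type*} (g : Perm α) (x : Unit) : fd4_ext g (Sum.inr x) = Sum.inr x := rfl

lemma fd4_i_ne {α : Type*} (z : α ⊕ Unit) (k : Fin 4) (hk : k ≠ 1) :
    (fd4_i z : α ⊕ Fin 4) ≠ Sum.inr k := by
  rcases z with z | z
  · intro h
    exact absurd h (by simp [fd4_i])
  · intro h
    have : (1 : Fin 4) = k := by simpa [fd4_i] using h
    exact hk this.symm

namespace Diagram

variable (D : Diagram)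

/-! values of the Seifert permutation of the fold -/

lemma fd4_osw_inl (p q x : D.P) : (D.fold p q).osw Set.univ (Sum.inl x) =
    Sum.inl (D.osw Set.univ x) := by
  rcases hx : D.lab x with _ | ⟨v, s⟩
  · have h1 : (D.fold p q).lab (Sum.inl x) = none := by
      change (D.lab x).map _ = none
      rw [hx]; rfl
    exact ((D.fold p q).osw_marker _ h1).trans (congrArg Sum.inl (D.osw_marker _ hx).symm)
  · have h1 := D.cr_of_lab hx
    subst h1
    have h2 : (D.fold p q).osw Set.univ ((D.fold p q).cr (Sum.inl v, s)) =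
      (D.fold p q).cr (Sum.inl v, !s) := (D.fold p q).osw_cr_mem (Set.mem_univ _) s
    have h3 := D.osw_cr_mem (Set.mem_univ v) s
    exact h2.trans (congrArg Sum.inl h3.symm)

lemma fd4_seif_inl (p q x : D.P) : (D.fold p q).seif (Sum.inl x) =
    D.foldNext p q (Sum.inl (D.osw Set.univ x)) :=
  congrArg (D.foldNext p q) (D.fd4_osw_inl p q x)

lemma fd4_seif_0 {p q : D.P} (hpq : p ≠ q) : (D.fold p q).seif (Sum.inr 0) =
    Sum.inl (D.next q) := by
  have h2 : (D.fold p q).osw Set.univ ((D.fold p q).cr (Sum.inr true, true)) =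
      (D.fold p q).cr (Sum.inr true, !true) := (D.fold p q).osw_cr_mem (Set.mem_univ _) true
  exact (congrArg (D.foldNext p q) h2).trans (D.foldNext_3 hpq)

lemma fd4_seif_3 (p q : D.P) : (D.fold p q).seif (Sum.inr 3) = Sum.inr 1 := by
  have h2 : (D.fold p q).osw Set.univ ((D.fold p q).cr (Sum.inr true, false)) =
      (D.fold p q).cr (Sum.inr true, !false) := (D.fold p q).osw_cr_mem (Set.mem_univ _) false
  exact (congrArg (D.foldNext p q) h2).trans D.foldNext_0

lemma fd4_seif_1 (p q : D.P) : (D.fold p q).seif (Sum.inr 1) = Sum.inr 3 := by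
  have h2 : (D.fold p q).osw Set.univ ((D.fold p q).cr (Sum.inr false, true)) =
      (D.fold p q).cr (Sum.inr false, !true) := (D.fold p q).osw_cr_mem (Set.mem_univ _) true
  exact (congrArg (D.foldNext p q) h2).trans D.foldNext_2

lemma fd4_seif_2 (p q : D.P) : (D.fold p q).seif (Sum.inr 2) = Sum.inl (D.next p) := by
  have h2 : (D.fold p q).osw Set.univ ((D.fold p q).cr (Sum.inr false, false)) =
      (D.fold p q).cr (Sum.inr false, !false) := (D.fold p q).osw_cr_mem (Set.mem_univ _) false
  exact (congrArg (D.foldNext p q) h2).trans D.foldNext_1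

lemma fd4_next_eq (p : D.P) : D.next p = D.seif (D.osw Set.univ p) := by
  rw [seif_apply, osw_osw]

lemma fd4_sc_osw (p x : D.P) : D.seif.SameCycle (D.osw Set.univ p) x ↔
    D.seif.SameCycle (D.next p) x := by
  rw [fd4_next_eq]
  exact (Perm.sameCycle_apply_left).symm

/-- the merged Seifert permutation -/
noncomputable def fd4_g (p q : D.P) : Perm D.P :=
  open Classical in D.seif * swap (D.osw Set.univ p) (D.osw Set.univ q)

lemma fd4_g_sameCycle {p q : D.P} (hpq : ¬ D.seif.SameCycle (D.next p) (D.next q)) (x y : D.P) :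
    (D.fd4_g p q).SameCycle x y ↔ D.seif.SameCycle x y ∨
      ((D.seif.SameCycle (D.next p) x ∨ D.seif.SameCycle (D.next q) x) ∧
       (D.seif.SameCycle (D.next p) y ∨ D.seif.SameCycle (D.next q) y)) := by
  classical
  have h : ¬ D.seif.SameCycle (D.osw Set.univ p) (D.osw Set.univ q) := by
    intro h1
    apply hpq
    rw [fd4_sc_osw] at h1
    have h2 := h1.symm
    rw [fd4_sc_osw] at h2
    exact h2.symm
  have h3 := fd4_merge D.seif h x y
  simp only [fd4_sc_osw] at h3
  have h4 : D.fd4_g p q = D.seif * swap (D.osw Set.univ p) (D.osw Set.univ q) := by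
    unfold fd4_g
    congr
  rw [h4]
  exact h3

lemma fd4_ne {p q : D.P} (hpq : ¬ D.seif.SameCycle (D.next p) (D.next q)) : p ≠ q := by
  rintro rfl
  exact hpq (SameCycle.refl _ _)

lemma fd4_psub {p q : D.P} (hpq : p ≠ q) : PSub (fd4_ext (D.fd4_g p q)) (D.fold p q).seif
    (fd4_i : D.P ⊕ Unit → D.P ⊕ Fin 4) := by
  classical
  have hosw : Function.Injective (D.osw Set.univ) := (D.osw Set.univ).injective
  have hgp : D.fd4_g p q (D.osw Set.univ p) = D.next q := by
    unfold fd4_g
    rw [Perm.mul_apply, swap_apply_left, fd4_next_eq]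
  have hgq : D.fd4_g p q (D.osw Set.univ q) = D.next p := by
    unfold fd4_g
    rw [Perm.mul_apply, swap_apply_right, fd4_next_eq]
  have hgo : ∀ x, x ≠ D.osw Set.univ p → x ≠ D.osw Set.univ q → D.fd4_g p q x = D.seif x := by
    intro x h1 h2
    unfold fd4_g
    rw [Perm.mul_apply, swap_apply_of_ne_of_ne h1 h2]
  have hs1 : ∀ x, D.osw Set.univ x = p → (D.fold p q).seif (Sum.inl x) = Sum.inr 0 := by
    intro x hx
    rw [fd4_seif_inl, hx]
    exact D.foldNext_p hpq
  have hs2 : ∀ x, D.osw Set.univ x = q → (D.fold p q).seif (Sum.inl x) = Sum.inr 2 := by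
    intro x hx
    rw [fd4_seif_inl, hx]
    exact D.foldNext_q
  have hs3 : ∀ x, D.osw Set.univ x ≠ p → D.osw Set.univ x ≠ q →
      (D.fold p q).seif (Sum.inl x) = Sum.inl (D.seif x) := by
    intro x h1 h2
    rw [fd4_seif_inl]
    exact D.foldNext_inl h1 h2
  refine ⟨?_, ?_, ?_⟩
  · rintro (x | x) (y | y) h
    · have h' : (Sum.inl x : D.P ⊕ Fin 4) = Sum.inl y := h
      rw [Sum.inl_injective h']
    · exact absurd h.symm (Sum.inr_ne_inl)
    · exact absurd h (Sum.inr_ne_inl)
    · rfl
  · rintro (x | x)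
    · by_cases h1 : D.osw Set.univ x = p
      · refine ⟨1, ?_, ?_⟩
        · have hx : x = D.osw Set.univ p := by rw [← h1, osw_osw]
          have h2 : ((D.fold p q).seif ^ (1 + 1)) (Sum.inl x) =
            (D.fold p q).seif ((D.fold p q).seif (Sum.inl x)) := rfl
          refine h2.trans ?_
          rw [hs1 x h1]
          refine (D.fd4_seif_0 hpq).trans ?_
          rw [fd4_ext_inl, hx, hgp]
          rfl
        · intro k hk
          have : k = 0 := by omega
          subst this
          rintro ⟨z, hz⟩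
          have h3 : ((D.fold p q).seif ^ (0 + 1)) (Sum.inl x) = Sum.inr 0 := hs1 x h1
          exact fd4_i_ne z 0 (by decide) (hz.trans h3)
      · by_cases h2 : D.osw Set.univ x = q
        · refine ⟨1, ?_, ?_⟩
          · have hx : x = D.osw Set.univ q := by rw [← h2, osw_osw]
            have h2' : ((D.fold p q).seif ^ (1 + 1)) (Sum.inl x) =
              (D.fold p q).seif ((D.fold p q).seif (Sum.inl x)) := rfl
            refine h2'.trans ?_
            rw [hs2 x h2]
            refine (D.fd4_seif_2 p q).trans ?_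
            rw [fd4_ext_inl, hx, hgq]
            rfl
          · intro k hk
            have : k = 0 := by omega
            subst this
            rintro ⟨z, hz⟩
            have h3 : ((D.fold p q).seif ^ (0 + 1)) (Sum.inl x) = Sum.inr 2 := hs2 x h2
            exact fd4_i_ne z 2 (by decide) (hz.trans h3)
        · refine ⟨0, ?_, fun k hk => absurd hk (Nat.not_lt_zero k)⟩
          have h3 : ((D.fold p q).seif ^ (0 + 1)) (Sum.inl x) = Sum.inl (D.seif x) :=
            hs3 x h1 h2
          refine h3.trans ?_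
          have h4 : D.fd4_g p q x = D.seif x := by
            apply hgo
            · rintro rfl
              exact h1 (D.osw_osw _ _)
            · rintro rfl
              exact h2 (D.osw_osw _ _)
          rw [fd4_ext_inl, h4]
          rfl
    · refine ⟨1, ?_, ?_⟩
      · have h2 : ((D.fold p q).seif ^ (1 + 1)) (Sum.inr 1) =
          (D.fold p q).seif ((D.fold p q).seif (Sum.inr 1)) := rfl
        refine h2.trans ?_
        rw [D.fd4_seif_1]
        exact D.fd4_seif_3 p q
      · intro k hk
        have : k = 0 := by omega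
        subst this
        rintro ⟨z, hz⟩
        have h3 : ((D.fold p q).seif ^ (0 + 1)) (Sum.inr 1) = Sum.inr 3 := D.fd4_seif_1 p q
        exact fd4_i_ne z 3 (by decide) (hz.trans h3)
  · have hst : ∀ x, (D.fold p q).seif.SameCycle x ((D.fold p q).seif x) := fun x =>
      fd4_sc_step _ x
    rintro (x | k)
    · exact ⟨Sum.inl x, SameCycle.refl _ _⟩
    · fin_cases k
      · refine ⟨Sum.inl (D.next q), ?_⟩
        have h := hst (Sum.inr 0)
        rw [D.fd4_seif_0 hpq] at h
        exact h.symm
      · exact ⟨Sum.inr (), SameCycle.refl _ _⟩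
      · refine ⟨Sum.inl (D.next p), ?_⟩
        have h := hst (Sum.inr 2)
        rw [D.fd4_seif_2] at h
        exact h.symm
      · refine ⟨Sum.inr (), ?_⟩
        have h := hst (Sum.inr 3)
        rw [D.fd4_seif_3] at h
        exact h.symm

lemma fd4_sumCongr_inl {α : Type*} [Finite α] (g : Perm α) (x y : α) :
    (fd4_ext g).SameCycle (Sum.inl x) (Sum.inl y) ↔ g.SameCycle x y := by
  have hp : ∀ (n : ℕ) (x : α), ((fd4_ext g) ^ n) (Sum.inl x) = Sum.inl ((g ^ n) x) := by
    intro n x
    induction n with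
    | zero => rfl
    | succ n ih =>
      rw [pow_succ', Perm.mul_apply, ih, pow_succ', Perm.mul_apply]
      rfl
  constructor
  · intro h
    obtain ⟨n, hn⟩ := h.exists_nat_pow_eq
    rw [hp] at hn
    exact ⟨n, by rw [zpow_natCast]; exact Sum.inl_injective hn⟩
  · intro h
    obtain ⟨n, hn⟩ := h.exists_nat_pow_eq
    exact ⟨n, by rw [zpow_natCast, hp, hn]⟩

/-- [FD4] the Seifert circles of the fold: the circles of the edges `p` and `q` are merged, and
there is a new small circle `{inr 1, inr 3}` -/
theorem fold_sameCycle_inl {p q : D.P} (hpq : ¬ D.seif.SameCycle (D.next p) (D.next q))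
    (x y : D.P) : (D.fold p q).seif.SameCycle (Sum.inl x) (Sum.inl y) ↔
      D.seif.SameCycle x y ∨
      ((D.seif.SameCycle (D.next p) x ∨ D.seif.SameCycle (D.next q) x) ∧
       (D.seif.SameCycle (D.next p) y ∨ D.seif.SameCycle (D.next q) y)) := by
  refine Iff.trans ?_ (D.fd4_g_sameCycle hpq x y)
  exact ((D.fd4_psub (D.fd4_ne hpq)).sameCycle_iff (Sum.inl x) (Sum.inl y)).trans
    (fd4_sumCongr_inl _ x y)

/-- [FD4] -/
theorem fold_sameCycle_0 {p q : D.P} (hpq : ¬ D.seif.SameCycle (D.next p) (D.next q)) :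
    (D.fold p q).seif.SameCycle (Sum.inr 0) (Sum.inl (D.next p)) ∧
    (D.fold p q).seif.SameCycle (Sum.inr 2) (Sum.inl (D.next p)) := by
  have hne := D.fd4_ne hpq
  have hst : ∀ x, (D.fold p q).seif.SameCycle x ((D.fold p q).seif x) := fun x =>
      fd4_sc_step _ x
  constructor
  · have h1 := hst (Sum.inr 0)
    rw [D.fd4_seif_0 hne] at h1
    refine h1.trans ?_
    exact (D.fold_sameCycle_inl hpq _ _).2
      (Or.inr ⟨Or.inr (SameCycle.refl _ _), Or.inl (SameCycle.refl _ _)⟩)
  · have h1 := hst (Sum.inr 2)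
    rwa [D.fd4_seif_2] at h1

/-- [FD4] -/
theorem fold_sameCycle_1 {p q : D.P} (hpq : p ≠ q) (z : D.P ⊕ Fin 4) :
    (D.fold p q).seif.SameCycle (Sum.inr 1) z ↔ z = Sum.inr 1 ∨ z = Sum.inr 3 := by
  constructor
  · intro h
    refine fd4_of_step (D.fold p q).seif (fun z : D.P ⊕ Fin 4 => z = Sum.inr 1 ∨ z = Sum.inr 3)
      (Or.inl rfl) ?_ h
    rintro y (rfl | rfl)
    · exact Or.inr (D.fd4_seif_1 p q)
    · exact Or.inl (D.fd4_seif_3 p q)
  · rintro (rfl | rfl)
    · exact SameCycle.refl _ _
    · have h1 : (D.fold p q).seif.SameCycle (Sum.inr 1) ((D.fold p q).seif (Sum.inr 1)) :=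
        fd4_sc_step _ _
      rwa [D.fd4_seif_1] at h1

lemma fd4_cyc_sum {α : Type*} [Finite α] (g : Perm α) :
    cyc (fd4_ext g) = cyc g + 1 := by
  let f : Perm (α ⊕ Unit) := fd4_ext g
  let F : Option (Quotient (SameCycle.setoid g)) → Quotient (SameCycle.setoid f) := fun o =>
    match o with
    | none => Quotient.mk _ (Sum.inr ())
    | some x => Quotient.map (sa := SameCycle.setoid g) (sb := SameCycle.setoid f)
        (fun y : α => (Sum.inl y : α ⊕ Unit)) (fun a b h => (fd4_sumCongr_inl g a b).2 h) x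
  have hF : Function.Bijective F := by
    constructor
    · rintro (_ | x) (_ | y) h
      · rfl
      · exfalso
        induction y using Quotient.inductionOn with | _ y => ?_
        have h1 : f.SameCycle (Sum.inr ()) (Sum.inl y) := Quotient.exact h
        have h2 := fd4_of_step f (fun z : α ⊕ Unit => z = Sum.inr ()) rfl
          (by rintro z rfl; rfl) h1
        simp at h2
      · exfalso
        induction x using Quotient.inductionOn with | _ x => ?_
        have h1 : f.SameCycle (Sum.inl x) (Sum.inr ()) := Quotient.exact h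
        have h2 := fd4_of_step f (fun z : α ⊕ Unit => z = Sum.inr ()) rfl
          (by rintro z rfl; rfl) h1.symm
        simp at h2
      · induction x using Quotient.inductionOn with | _ x => ?_
        induction y using Quotient.inductionOn with | _ y => ?_
        have h1 : f.SameCycle (Sum.inl x) (Sum.inl y) := Quotient.exact h
        congr 1
        exact Quotient.sound ((fd4_sumCongr_inl g x y).1 h1)
    · intro z
      induction z using Quotient.inductionOn with | _ z => ?_
      rcases z with z | z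
      · exact ⟨some (Quotient.mk _ z), rfl⟩
      · exact ⟨none, rfl⟩
  unfold cyc
  rw [← Nat.card_eq_of_bijective F hF]
  exact Finite.card_option

/-- [FD4] -/
theorem fold_cyc {p q : D.P} (hpq : ¬ D.seif.SameCycle (D.next p) (D.next q)) :
    cyc (D.fold p q).seif = cyc D.seif := by
  classical
  rw [(D.fd4_psub (D.fd4_ne hpq)).cyc_eq, fd4_cyc_sum]
  have h : ¬ D.seif.SameCycle (D.osw Set.univ p) (D.osw Set.univ q) := by
    intro h1
    apply hpq
    rw [fd4_sc_osw] at h1
    have h2 := h1.symm
    rw [fd4_sc_osw] at h2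
    exact h2.symm
  have h2 := cyc_mul_swap_diff D.seif h
  have h4 : D.fd4_g p q = D.seif * swap (D.osw Set.univ p) (D.osw Set.univ q) := by
    unfold fd4_g
    congr
  rw [h4, h2]

end Diagram

end Pool.Agent.Lib.MP_b7a6eb_gt
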