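import Pool.Agent.Lib.MP_b7a6eb_gt.Constr
import Pool.Agent.Lib.MP_b7a6eb_gt.FD0
import Pool.Agent.Lib.MP_b7a6eb_gt.FD1

namespace Pool.Agent.Lib.MP_b7a6eb_gt

open Equiv Equiv.Perm

namespace Diagram

variable (D : Diagram)

lemma fd2_conn_next (x : D.P) : D.Conn x (D.next x) := Relation.EqvGen.rel _ _ (Or.inl rfl)

lemma fd2_conn_prev (x : D.P) : D.Conn (D.prev x) x := by
  have := D.fd2_conn_next (D.prev x)
  rwa [next_prev] at this

lemma fd2_conn_lr (v : D.V) : D.Conn (D.l v) (D.r v) := by
  have h : D.Conn (D.cr (v, true)) (D.cr (v, false)) :=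
    Relation.EqvGen.rel _ _ (Or.inr ⟨v, rfl, rfl⟩)
  unfold l r
  cases D.sign v
  · exact Relation.EqvGen.symm _ _ h
  · exact h

lemma fd2_conn_symm {x y : D.P} (h : D.Conn x y) : D.Conn y x := Relation.EqvGen.symm _ _ h

lemma fd2_conn_trans {x y z : D.P} (h : D.Conn x y) (h' : D.Conn y z) : D.Conn x z :=
  Relation.EqvGen.trans _ _ _ h h'

lemma fd2_conn_osw (x : D.P) : D.Conn x (D.osw Set.univ x) := by
  rcases D.point_cases x with h | ⟨v, rfl⟩ | ⟨v, rfl⟩
  · rw [D.osw_marker _ h]
    exact Relation.EqvGen.refl _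
  · have : D.osw Set.univ (D.l v) = D.r v := D.osw_cr_mem (Set.mem_univ _) _
    rw [this]
    exact D.fd2_conn_lr v
  · have : D.osw Set.univ (D.r v) = D.l v := by
      have h := D.osw_cr_mem (Set.mem_univ v) (!D.sign v)
      rw [Bool.not_not] at h
      exact h
    rw [this]
    exact D.fd2_conn_symm (D.fd2_conn_lr v)

lemma fd2_conn_face (s : D.P × Bool) : D.Conn s.1 (D.face s).1 := by
  obtain ⟨x, b⟩ := s
  cases b
  · rcases D.point_cases (D.next x) with h | ⟨v, h⟩ | ⟨v, h⟩
    · rw [D.face_false_marker h]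
      exact D.fd2_conn_next x
    · have h1 : x = D.prev (D.l v) := by rw [← h, prev_next]
      rw [h1, D.face_S]
      exact D.fd2_conn_trans (D.fd2_conn_prev _) (D.fd2_conn_trans (D.fd2_conn_lr v)
        (D.fd2_conn_symm (D.fd2_conn_prev _)))
    · have h1 : x = D.prev (D.r v) := by rw [← h, prev_next]
      rw [h1, D.face_E]
      exact D.fd2_conn_trans (D.fd2_conn_prev _) (D.fd2_conn_symm (D.fd2_conn_lr v))
  · rcases D.point_cases x with h | ⟨v, h⟩ | ⟨v, h⟩
    · rw [D.face_true_marker h]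
      exact D.fd2_conn_symm (D.fd2_conn_prev _)
    · rw [h, D.face_N]
      exact D.fd2_conn_lr v
    · rw [h, D.face_W]
      exact D.fd2_conn_trans (D.fd2_conn_symm (D.fd2_conn_lr v))
        (D.fd2_conn_symm (D.fd2_conn_prev _))

/-- [FD2] -/
theorem fold_planar_diff {p q : D.P} (hD : D.Planar) (h : ¬ D.Conn p q) :
    (D.fold p q).Planar := by
  classical
  have hpq : p ≠ q := by
    rintro rfl
    exact h (Relation.EqvGen.refl _)
  intro ψ hψ
  set δ : ℤ := ψ (Sum.inl p) - ψ (Sum.inr 1) with hδ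
  let _ : Fintype D.P := Fintype.ofFinite D.P
  -- `g x` = flow out of `x` minus flow into `x`
  let ψ' : D.P → ℤ := fun x => ψ (Sum.inl (D.prev x)) -
      δ * ((if D.prev x = p then 1 else 0) - (if D.prev x = q then 1 else 0))
  let g : D.P → ℤ := fun x => ψ (Sum.inl x) - ψ' x
  have hg : ∀ x, g (D.osw Set.univ x) = - g x := by
    have hlr : ∀ v, g (D.l v) + g (D.r v) = 0 := by
      intro v
      have h1 := fd1_crossing D hpq ψ hψ v
      dsimp only [g, ψ']
      rw [← hδ] at h1
      linarith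
    intro x
    rcases D.point_cases x with h1 | ⟨v, rfl⟩ | ⟨v, rfl⟩
    · rw [D.osw_marker _ h1]
      have h2 := fd1_marker D hpq ψ hψ h1
      have h3 : g x = 0 := by
        dsimp only [g, ψ']
        rw [← hδ] at h2
        linarith
      rw [h3, neg_zero]
    · have h2 : D.osw Set.univ (D.l v) = D.r v := D.osw_cr_mem (Set.mem_univ _) _
      rw [h2]
      have := hlr v
      linarith
    · have h2 : D.osw Set.univ (D.r v) = D.l v := by
        have h := D.osw_cr_mem (Set.mem_univ v) (!D.sign v)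
        rw [Bool.not_not] at h
        exact h
      rw [h2]
      have := hlr v
      linarith
  let C : D.P → ℤ := fun x => if D.Conn p x then 1 else 0
  have hCeq : ∀ x y, D.Conn x y → C x = C y := by
    intro x y hxy
    dsimp only [C]
    by_cases h1 : D.Conn p x
    · rw [if_pos h1, if_pos (D.fd2_conn_trans h1 hxy)]
    · rw [if_neg h1, if_neg]
      intro h2
      exact h1 (D.fd2_conn_trans h2 (D.fd2_conn_symm hxy))
  have hsum1 : ∑ x, C x * g x = 0 := by
    have h1 : ∑ x, C (D.osw Set.univ x) * g (D.osw Set.univ x) = ∑ x, C x * g x :=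
      Equiv.sum_comp (D.osw Set.univ) (fun x => C x * g x)
    have h2 : ∑ x, C (D.osw Set.univ x) * g (D.osw Set.univ x) = ∑ x, -(C x * g x) := by
      refine Finset.sum_congr rfl fun x _ => ?_
      rw [hg, ← hCeq x _ (D.fd2_conn_osw x)]
      ring
    rw [Finset.sum_neg_distrib] at h2
    linarith
  have hsum2 : ∑ x, C x * ψ (Sum.inl (D.prev x)) = ∑ x, C x * ψ (Sum.inl x) := by
    have h1 : ∑ x, C (D.next.symm x) * ψ (Sum.inl (D.next.symm x)) = ∑ x, C x * ψ (Sum.inl x) :=
      Equiv.sum_comp D.next.symm (fun x => C x * ψ (Sum.inl x))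
    rw [← h1]
    refine Finset.sum_congr rfl fun x _ => ?_
    have h2 : C x = C (D.next.symm x) := (hCeq _ _ (D.fd2_conn_prev x)).symm
    rw [h2]
    rfl
  have hsum3 : ∑ x, C x * (if D.prev x = p then 1 else 0) = 1 := by
    rw [Finset.sum_eq_single (D.next p)]
    · rw [prev_next, if_pos rfl, mul_one]
      dsimp only [C]
      rw [if_pos (D.fd2_conn_next p)]
    · intro x _ hx
      rw [if_neg, mul_zero]
      intro h1
      exact hx (D.prev_eq_iff.1 h1)
    · intro h1
      exact absurd (Finset.mem_univ _) h1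
  have hsum4 : ∑ x, C x * (if D.prev x = q then 1 else 0) = 0 := by
    refine Finset.sum_eq_zero fun x _ => ?_
    by_cases h1 : D.prev x = q
    · have h2 : C x = 0 := by
        dsimp only [C]
        rw [if_neg]
        intro h3
        exact h (D.fd2_conn_trans h3 (D.fd2_conn_symm (h1 ▸ D.fd2_conn_prev x)))
      rw [h2, zero_mul]
    · rw [if_neg h1, mul_zero]
  have hδ0 : δ = 0 := by
    have h1 : ∑ x, C x * g x = (∑ x, C x * ψ (Sum.inl x)) - (∑ x, C x * ψ (Sum.inl (D.prev x))) +
        δ * ((∑ x, C x * (if D.prev x = p then 1 else 0)) -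
          ∑ x, C x * (if D.prev x = q then 1 else 0)) := by
      rw [← Finset.sum_sub_distrib, ← Finset.sum_sub_distrib, Finset.mul_sum,
        ← Finset.sum_add_distrib]
      refine Finset.sum_congr rfl fun x _ => ?_
      dsimp only [g, ψ']
      ring
    rw [hsum1, hsum2, hsum3, hsum4] at h1
    linarith
  have hφ : D.IsFlow (fun x => ψ (Sum.inl x)) := by
    apply fd1_isFlow
    · intro x hx
      have h1 := fd1_marker D hpq ψ hψ hx
      rw [← hδ, hδ0] at h1
      linarith
    · intro v
      have h1 := fd1_crossing D hpq ψ hψ v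
      rw [← hδ, hδ0] at h1
      linarith
  obtain ⟨U, hU1, hU2⟩ := hD _ hφ
  let K : D.P → ℤ := fun x => if D.Conn q x then U (p, false) - U (q, false) else 0
  have hKeq : ∀ x y, D.Conn x y → K x = K y := by
    intro x y hxy
    dsimp only [K]
    by_cases h1 : D.Conn q x
    · rw [if_pos h1, if_pos (D.fd2_conn_trans h1 hxy)]
    · rw [if_neg h1, if_neg]
      intro h2
      exact h1 (D.fd2_conn_trans h2 (D.fd2_conn_symm hxy))
  have hKq : K q = U (p, false) - U (q, false) := if_pos (Relation.EqvGen.refl _)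
  have hKp : K p = 0 := if_neg fun h1 => h (D.fd2_conn_symm h1)
  have hUf : ∀ s : D.P × Bool, U (D.face s) + K (D.face s).1 = U s + K s.1 := by
    intro s
    rw [hU1, ← hKeq _ _ (D.fd2_conn_face s)]
  have hUpq : U (q, false) + K q = U (p, false) + K p := by
    rw [hKq, hKp]
    ring
  refine D.fold_potential hpq ψ hψ (fun s => U s + K s.1) ?_ ?_ ?_ ?_ ?_
  · intro x _ _
    exact hUf x
  · exact (hUf (p, false)).trans hUpq.symm
  · exact (hUf (q, false)).trans hUpq
  · rw [← hδ, hδ0, add_zero]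
    exact hUpq
  · intro x
    have h3 := hU2 x
    dsimp only at h3 ⊢
    linarith

end Diagram

end Pool.Agent.Lib.MP_b7a6eb_gt
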