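import Pool.Agent.Lib.MP_b7a6eb_gt.Constr
import Pool.Agent.Lib.MP_b7a6eb_gt.FD2
import Pool.Agent.Lib.MP_b7a6eb_gt.FD4

namespace Pool.Agent.Lib.MP_b7a6eb_gt

open Equiv Equiv.Perm

namespace Diagram

variable (D : Diagram)

lemma fd7_conn_inl_next {p q : D.P} (hpq : p ≠ q) (x : D.P) :
    (D.fold p q).Conn (Sum.inl x) (Sum.inl (D.next x)) := by
  have hn := (D.fold p q).fd2_conn_next
  by_cases h1 : x = p
  · subst h1
    have k1 := hn (Sum.inl x)
    have k2 := hn (Sum.inr 0)
    have k3 := hn (Sum.inr 1)
    have e1 : (D.fold x q).next (Sum.inl x) = Sum.inr 0 := D.foldNext_p hpq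
    have e2 : (D.fold x q).next (Sum.inr 0) = Sum.inr 1 := D.foldNext_0
    have e3 : (D.fold x q).next (Sum.inr 1) = Sum.inl (D.next x) := D.foldNext_1
    rw [e1] at k1
    rw [e2] at k2
    rw [e3] at k3
    exact (D.fold x q).fd2_conn_trans k1 ((D.fold x q).fd2_conn_trans k2 k3)
  · by_cases h2 : x = q
    · subst h2
      have k1 := hn (Sum.inl x)
      have k2 := hn (Sum.inr 2)
      have k3 := hn (Sum.inr 3)
      have e1 : (D.fold p x).next (Sum.inl x) = Sum.inr 2 := D.foldNext_q
      have e2 : (D.fold p x).next (Sum.inr 2) = Sum.inr 3 := D.foldNext_2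
      have e3 : (D.fold p x).next (Sum.inr 3) = Sum.inl (D.next x) := D.foldNext_3 hpq
      rw [e1] at k1
      rw [e2] at k2
      rw [e3] at k3
      exact (D.fold p x).fd2_conn_trans k1 ((D.fold p x).fd2_conn_trans k2 k3)
    · have k1 := hn (Sum.inl x)
      have e1 : (D.fold p q).next (Sum.inl x) = Sum.inl (D.next x) := D.foldNext_inl h1 h2
      rwa [e1] at k1

lemma fd7_conn_inl {p q : D.P} (hpq : p ≠ q) {x y : D.P} (h : D.Conn x y) :
    (D.fold p q).Conn (Sum.inl x) (Sum.inl y) := by
  induction h with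
  | rel x y h =>
    rcases h with rfl | ⟨v, rfl, rfl⟩
    · exact D.fd7_conn_inl_next hpq x
    · exact Relation.EqvGen.rel _ _ (Or.inr ⟨Sum.inl v, rfl, rfl⟩)
  | refl => exact Relation.EqvGen.refl _
  | symm _ _ _ ih => exact Relation.EqvGen.symm _ _ ih
  | trans _ _ _ _ _ ih1 ih2 => exact Relation.EqvGen.trans _ _ _ ih1 ih2

lemma fd7_conn_inr {p q : D.P} (hpq : p ≠ q) (k : Fin 4) :
    (D.fold p q).Conn (Sum.inl p) (Sum.inr k) := by
  have hn := (D.fold p q).fd2_conn_next
  have e1 : (D.fold p q).next (Sum.inl p) = Sum.inr 0 := D.foldNext_p hpq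
  have e2 : (D.fold p q).next (Sum.inr 0) = Sum.inr 1 := D.foldNext_0
  have e3 : (D.fold p q).next (Sum.inr 2) = Sum.inr 3 := D.foldNext_2
  have k1 := hn (Sum.inl p)
  have k2 := hn (Sum.inr 0)
  have k3 := hn (Sum.inr 2)
  rw [e1] at k1
  rw [e2] at k2
  rw [e3] at k3
  have k4 : (D.fold p q).Conn (Sum.inr 0) (Sum.inr 3) :=
    Relation.EqvGen.rel _ _ (Or.inr ⟨Sum.inr true, rfl, rfl⟩)
  have k5 := (D.fold p q).fd2_conn_trans k1 k4
  fin_cases k
  · exact k1
  · exact (D.fold p q).fd2_conn_trans k1 k2
  · exact (D.fold p q).fd2_conn_trans k5 ((D.fold p q).fd2_conn_symm k3)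
  · exact k5

lemma fd7_conn_pq {p q : D.P} (hpq : p ≠ q) : (D.fold p q).Conn (Sum.inl p) (Sum.inl q) := by
  have hn := (D.fold p q).fd2_conn_next
  have e1 : (D.fold p q).next (Sum.inl q) = Sum.inr 2 := D.foldNext_q
  have k1 := hn (Sum.inl q)
  rw [e1] at k1
  exact (D.fold p q).fd2_conn_trans (D.fd7_conn_inr hpq 2) ((D.fold p q).fd2_conn_symm k1)

/-- [FD7] -/
theorem fold_connected {p q : D.P} (h : D.Connected) (hpq : p ≠ q) :
    (D.fold p q).Connected := by
  have key : ∀ z : (D.fold p q).P, (D.fold p q).Conn (Sum.inl p) z := by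
    rintro (x | k)
    · exact D.fd7_conn_inl hpq (h p x)
    · exact D.fd7_conn_inr hpq k
  intro x y
  exact (D.fold p q).fd2_conn_trans ((D.fold p q).fd2_conn_symm (key x)) (key y)

/-- number of connected components -/
noncomputable def ncomp : ℕ := Nat.card (Quot D.Conn)

lemma fd7_quot_eq {x y : D.P} : Quot.mk D.Conn x = Quot.mk D.Conn y ↔ D.Conn x y := by
  constructor
  · intro h
    have h1 := Quot.eqvGen_exact h
    clear h
    induction h1 with
    | rel _ _ h => exact h
    | refl => exact Relation.EqvGen.refl _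
    | symm _ _ _ ih => exact D.fd2_conn_symm ih
    | trans _ _ _ _ _ ih1 ih2 => exact D.fd2_conn_trans ih1 ih2
  · exact fun h => Quot.sound h

/-- [FD7] -/
theorem fold_ncomp {p q : D.P} (h : ¬ D.Conn p q) : (D.fold p q).ncomp + 1 = D.ncomp := by
  classical
  have hpq : p ≠ q := by
    rintro rfl
    exact h (Relation.EqvGen.refl _)
  let G : (D.fold p q).P → Quot D.Conn := fun z =>
    match z with
    | Sum.inl x => if D.Conn q x then Quot.mk _ p else Quot.mk _ x
    | Sum.inr _ => Quot.mk _ p
  have hGp : G (Sum.inl p) = Quot.mk _ p := by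
    simp only [G]
    rw [if_neg]
    exact fun h1 => h (D.fd2_conn_symm h1)
  have hqq : D.Conn q q := Relation.EqvGen.refl _
  have hGq : G (Sum.inl q) = Quot.mk _ p := by
    simp only [G]
    rw [if_pos hqq]
  have hGinr : ∀ k, G (Sum.inr k) = Quot.mk _ p := fun k => rfl
  have hGconn : ∀ x y, D.Conn x y → G (Sum.inl x) = G (Sum.inl y) := by
    intro x y hxy
    simp only [G]
    by_cases h1 : D.Conn q x
    · rw [if_pos h1, if_pos (D.fd2_conn_trans h1 hxy)]
    · rw [if_neg h1, if_neg (fun h2 => h1 (D.fd2_conn_trans h2 (D.fd2_conn_symm hxy)))]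
      exact Quot.sound hxy
  have hGresp : ∀ a b, (D.fold p q).Conn a b → G a = G b := by
    intro a b hab
    induction hab with
    | rel a b hab =>
      rcases hab with rfl | ⟨v, rfl, rfl⟩
      · rcases a with x | k
        · by_cases h1 : x = p
          · have e1 : (D.fold p q).next (Sum.inl x) = Sum.inr 0 := by
              rw [h1]; exact D.foldNext_p hpq
            rw [e1, hGinr 0, h1, hGp]
          · by_cases h2 : x = q
            · have e1 : (D.fold p q).next (Sum.inl x) = Sum.inr 2 := by
                rw [h2]; exact D.foldNext_q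
              rw [e1, hGinr 2, h2, hGq]
            · have e1 : (D.fold p q).next (Sum.inl x) = Sum.inl (D.next x) :=
                D.foldNext_inl h1 h2
              rw [e1]
              exact hGconn _ _ (D.fd2_conn_next x)
        · have e0 : (D.fold p q).next (Sum.inr 0) = Sum.inr 1 := D.foldNext_0
          have e1 : (D.fold p q).next (Sum.inr 1) = Sum.inl (D.next p) := D.foldNext_1
          have e2 : (D.fold p q).next (Sum.inr 2) = Sum.inr 3 := D.foldNext_2
          have e3 : (D.fold p q).next (Sum.inr 3) = Sum.inl (D.next q) := D.foldNext_3 hpq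
          have g1 : G (Sum.inl (D.next p)) = Quot.mk _ p := by
            rw [← hGconn _ _ (D.fd2_conn_next p), hGp]
          have g2 : G (Sum.inl (D.next q)) = Quot.mk _ p := by
            rw [← hGconn _ _ (D.fd2_conn_next q), hGq]
          fin_cases k
          · exact (congrArg G e0).symm ▸ rfl
          · exact ((congrArg G e1).trans g1).symm
          · exact (congrArg G e2).symm ▸ rfl
          · exact ((congrArg G e3).trans g2).symm
      · rcases v with v | b
        · exact hGconn _ _ (Relation.EqvGen.rel _ _ (Or.inr ⟨v, rfl, rfl⟩))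
        · cases b <;> rfl
    | refl => rfl
    | symm _ _ _ ih => exact ih.symm
    | trans _ _ _ _ _ ih1 ih2 => exact ih1.trans ih2
  have hGinj : ∀ a b, G a = G b → (D.fold p q).Conn a b := by
    have hrep : ∀ a : (D.fold p q).P, ∃ x, G a = Quot.mk _ x ∧
        (D.fold p q).Conn a (Sum.inl x) ∧ ¬ D.Conn q x := by
      rintro (x | k)
      · by_cases h1 : D.Conn q x
        · refine ⟨p, by simp only [G]; rw [if_pos h1], ?_, fun h2 => h (D.fd2_conn_symm h2)⟩
          exact (D.fold p q).fd2_conn_trans
            ((D.fold p q).fd2_conn_symm (D.fd7_conn_inl hpq h1))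
            ((D.fold p q).fd2_conn_symm (D.fd7_conn_pq hpq))
        · exact ⟨x, by simp only [G]; rw [if_neg h1], Relation.EqvGen.refl _, h1⟩
      · exact ⟨p, rfl, (D.fold p q).fd2_conn_symm (D.fd7_conn_inr hpq k),
          fun h2 => h (D.fd2_conn_symm h2)⟩
    intro a b hab
    obtain ⟨x, h1, h2, -⟩ := hrep a
    obtain ⟨y, h3, h4, -⟩ := hrep b
    rw [h1, h3, fd7_quot_eq] at hab
    exact (D.fold p q).fd2_conn_trans h2 ((D.fold p q).fd2_conn_trans (D.fd7_conn_inl hpq hab)
      ((D.fold p q).fd2_conn_symm h4))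
  let F : Option (Quot (D.fold p q).Conn) → Quot D.Conn := fun o =>
    match o with
    | none => Quot.mk _ q
    | some z => Quot.lift G hGresp z
  have hnq : ∀ a, G a ≠ Quot.mk _ q := by
    rintro (x | k) h1
    · by_cases h2 : D.Conn q x
      · simp only [G] at h1
        rw [if_pos h2, fd7_quot_eq] at h1
        exact h h1
      · simp only [G] at h1
        rw [if_neg h2, fd7_quot_eq] at h1
        exact h2 (D.fd2_conn_symm h1)
    · rw [hGinr k, fd7_quot_eq] at h1
      exact h h1
  have hF : Function.Bijective F := by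
    constructor
    · rintro (_ | a) (_ | b) hab
      · rfl
      · induction b using Quot.inductionOn with | _ b => ?_
        exact absurd hab.symm (hnq b)
      · induction a using Quot.inductionOn with | _ a => ?_
        exact absurd hab (hnq a)
      · induction a using Quot.inductionOn with | _ a => ?_
        induction b using Quot.inductionOn with | _ b => ?_
        have h1 : G a = G b := hab
        rw [Quot.sound (hGinj a b h1)]
    · intro z
      induction z using Quot.inductionOn with | _ z => ?_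
      by_cases h1 : D.Conn q z
      · exact ⟨none, Quot.sound h1⟩
      · refine ⟨some (Quot.mk _ (Sum.inl z)), ?_⟩
        change G (Sum.inl z) = _
        simp only [G]
        rw [if_neg h1]
  unfold ncomp
  rw [← Nat.card_eq_of_bijective F hF, Finite.card_option]

/-- [FD7] Seifert circles are connected -/
theorem conn_of_sameCycle {p q : D.P} (h : D.seif.SameCycle p q) : D.Conn p q := by
  refine fd4_of_step D.seif (fun z => D.Conn p z) (Relation.EqvGen.refl _) ?_ h
  intro z hz
  rw [seif_apply]
  exact D.fd2_conn_trans hz (D.fd2_conn_trans (D.fd2_conn_osw z) (D.fd2_conn_next _))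

end Diagram

end Pool.Agent.Lib.MP_b7a6eb_gt
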