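import Pool.Agent.Lib.MP_b7a6eb_gt.Constr

namespace Pool.Agent.Lib.MP_b7a6eb_gt

open Equiv Equiv.Perm

namespace Diagram

variable (D : Diagram)

private lemma fd6_prev_of_next (D : Diagram) {x y : D.P} (h : D.next x = y) : D.prev y = x := by
  rw [D.prev_eq_iff]; exact h.symm

private lemma fd6_prev0 {p q : D.P} (hpq : p ≠ q) :
    (D.fold p q).prev (Sum.inr (0 : Fin 4)) = (Sum.inl p : D.P ⊕ Fin 4) :=
  fd6_prev_of_next (D.fold p q) (D.foldNext_p hpq)

private lemma fd6_prev1 {p q : D.P} :
    (D.fold p q).prev (Sum.inr (1 : Fin 4)) = (Sum.inr 0 : D.P ⊕ Fin 4) :=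
  fd6_prev_of_next (D.fold p q) (D.foldNext_0)

private lemma fd6_prev2 {p q : D.P} :
    (D.fold p q).prev (Sum.inr (2 : Fin 4)) = (Sum.inl q : D.P ⊕ Fin 4) :=
  fd6_prev_of_next (D.fold p q) (D.foldNext_q)

private lemma fd6_prev3 {p q : D.P} :
    (D.fold p q).prev (Sum.inr (3 : Fin 4)) = (Sum.inr 2 : D.P ⊕ Fin 4) :=
  fd6_prev_of_next (D.fold p q) (D.foldNext_2)

open Classical in
private lemma fd6_prev_inl {p q : D.P} (hpq : p ≠ q) (x : D.P) :
    (D.fold p q).prev (Sum.inl x : D.P ⊕ Fin 4) =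
      (if D.prev x = p then Sum.inr 1 else if D.prev x = q then Sum.inr 3
        else Sum.inl (D.prev x) : D.P ⊕ Fin 4) := by
  by_cases hp : D.prev x = p
  · rw [if_pos hp]
    apply fd6_prev_of_next (D.fold p q)
    rw [D.prev_eq_iff] at hp
    rw [hp]
    exact D.foldNext_1
  · rw [if_neg hp]
    by_cases hq : D.prev x = q
    · rw [if_pos hq]
      apply fd6_prev_of_next (D.fold p q)
      rw [D.prev_eq_iff] at hq
      rw [hq]
      exact D.foldNext_3 hpq
    · rw [if_neg hq]
      apply fd6_prev_of_next (D.fold p q)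
      have := D.foldNext_inl hp hq
      rw [D.next_prev] at this
      exact this

/-- the conditions at the two new crossings -/
private def fd6C (D : Diagram) (p q : D.P) {H : Type} [Group H] (c : D.P ⊕ Fin 4 → H) : Prop :=
  c (Sum.inr 0) = c (Sum.inl p) ∧ c (Sum.inr 1) = c (Sum.inl p) ∧
  c (Sum.inr 2) = c (Sum.inl p) * c (Sum.inl q) * (c (Sum.inl p))⁻¹ ∧
  c (Sum.inr 3) = c (Sum.inl q)

private lemma fd6_col {p q : D.P} (hpq : p ≠ q) (Y : Set D.V) {H : Type} [Group H]
    (c : D.P ⊕ Fin 4 → H) :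
    (D.fold p q).IsCol (Sum.inl '' Y) c ↔
      D.IsCol Y (fun x => c (Sum.inl x)) ∧ fd6C D p q c := by
  have e0 := D.fd6_prev0 hpq
  have e1 := D.fd6_prev1 (p := p) (q := q)
  have e2 := D.fd6_prev2 (p := p) (q := q)
  have e3 := D.fd6_prev3 (p := p) (q := q)
  have einl := D.fd6_prev_inl hpq
  have key : fd6C D p q c → ∀ x, c ((D.fold p q).prev (Sum.inl x : D.P ⊕ Fin 4)) =
      c (Sum.inl (D.prev x)) := by
    rintro ⟨h0, h1, h2, h3⟩ x
    rw [einl]
    split_ifs with hp hq
    · rw [hp, h1]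
    · rw [hq, h3]
    · rfl
  constructor
  · rintro ⟨hm, hY, hN⟩
    have hC : fd6C D p q c := by
      have ht := hN (Sum.inr true) (by rintro ⟨w, _, hw⟩; exact Sum.inl_ne_inr hw)
      have hf := hN (Sum.inr false) (by rintro ⟨w, _, hw⟩; exact Sum.inl_ne_inr hw)
      have h0 : c (Sum.inr 0) = c (Sum.inl p) := ht.1.trans (congrArg c e0)
      have h1 : c (Sum.inr 1) = c (Sum.inl p) :=
        (hf.1.trans (congrArg c e1)).trans h0
      have h2 : c (Sum.inr 2) = c (Sum.inl p) * c (Sum.inl q) * (c (Sum.inl p))⁻¹ := by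
        have h := hf.2
        have hs : (D.fold p q).sign (Sum.inr false) = true := rfl
        rw [if_pos hs] at h
        have h' : c (Sum.inr 2) = c (Sum.inr 1) * c ((D.fold p q).prev (Sum.inr (2 : Fin 4))) *
          (c (Sum.inr 1))⁻¹ := h
        rw [e2, h1] at h'
        exact h'
      have h3 : c (Sum.inr 3) = c (Sum.inl q) := by
        have h := ht.2
        have hs : (D.fold p q).sign (Sum.inr true) ≠ true := by
          show (!true) ≠ true
          simp
        rw [if_neg hs] at h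
        have h' : c (Sum.inr 3) = (c (Sum.inr 0))⁻¹ *
          c ((D.fold p q).prev (Sum.inr (3 : Fin 4))) * c (Sum.inr 0) := h
        rw [e3, h0, h2] at h'
        rw [h']
        group
      exact ⟨h0, h1, h2, h3⟩
    refine ⟨⟨?_, ?_, ?_⟩, hC⟩
    · intro x hx
      have h := hm (Sum.inl x) (by show (D.lab x).map _ = none; rw [hx]; rfl)
      exact h.trans (key hC x)
    · intro v hv x
      have h := hY (Sum.inl v) ⟨v, hv, rfl⟩ x
      exact h.trans (key hC _)
    · intro v hv
      have h := hN (Sum.inl v) (by rintro ⟨w, hw, hvw⟩; rw [Sum.inl.inj hvw] at hw; exact hv hw)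
      refine ⟨h.1.trans (key hC _), ?_⟩
      have h2 := h.2
      have h2' : c (Sum.inl (D.cr (v, false))) = if D.sign v = true then
        c (Sum.inl (D.cr (v, true))) *
          c ((D.fold p q).prev (Sum.inl (D.cr (v, false)) : D.P ⊕ Fin 4)) *
          (c (Sum.inl (D.cr (v, true))))⁻¹
        else (c (Sum.inl (D.cr (v, true))))⁻¹ *
          c ((D.fold p q).prev (Sum.inl (D.cr (v, false)) : D.P ⊕ Fin 4)) *
          c (Sum.inl (D.cr (v, true))) := h2
      rw [key hC] at h2'
      exact h2'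
  · rintro ⟨⟨hm, hY, hN⟩, hC⟩
    have hk := key hC
    obtain ⟨h0, h1, h2, h3⟩ := hC
    refine ⟨?_, ?_, ?_⟩
    · rintro (x | k) hx
      · have hx' : D.lab x = none := by
          have : (D.lab x).map (fun y => ((Sum.inl y.1 : D.V ⊕ Bool), y.2)) = none := hx
          exact Option.map_eq_none_iff.1 this
        exact (hm x hx').trans (hk x).symm
      · exfalso
        fin_cases k
        · exact Option.some_ne_none _ hx
        · exact Option.some_ne_none _ hx
        · exact Option.some_ne_none _ hx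
        · exact Option.some_ne_none _ hx
    · rintro _ ⟨v, hv, rfl⟩ x
      exact (hY v hv x).trans (hk _).symm
    · rintro (v | b) hv
      · have hv' : v ∉ Y := fun h => hv ⟨v, h, rfl⟩
        obtain ⟨g1, g2⟩ := hN v hv'
        refine ⟨g1.trans (hk _).symm, ?_⟩
        show c (Sum.inl (D.cr (v, false))) = if D.sign v = true then
          c (Sum.inl (D.cr (v, true))) *
            c ((D.fold p q).prev (Sum.inl (D.cr (v, false)) : D.P ⊕ Fin 4)) *
            (c (Sum.inl (D.cr (v, true))))⁻¹
          else (c (Sum.inl (D.cr (v, true))))⁻¹ *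
            c ((D.fold p q).prev (Sum.inl (D.cr (v, false)) : D.P ⊕ Fin 4)) *
            c (Sum.inl (D.cr (v, true)))
        rw [hk]
        exact g2
      · cases b
        · refine ⟨?_, ?_⟩
          · show c (Sum.inr 1) = c ((D.fold p q).prev (Sum.inr (1 : Fin 4)))
            rw [e1, h1, h0]
          · have hs : (D.fold p q).sign (Sum.inr false) = true := rfl
            rw [if_pos hs]
            show c (Sum.inr 2) = c (Sum.inr 1) * c ((D.fold p q).prev (Sum.inr (2 : Fin 4))) *
              (c (Sum.inr 1))⁻¹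
            rw [e2, h1, h2]
        · refine ⟨?_, ?_⟩
          · show c (Sum.inr 0) = c ((D.fold p q).prev (Sum.inr (0 : Fin 4)))
            rw [e0, h0]
          · have hs : (D.fold p q).sign (Sum.inr true) ≠ true := by
              show (!true) ≠ true
              simp
            rw [if_neg hs]
            show c (Sum.inr 3) = (c (Sum.inr 0))⁻¹ *
              c ((D.fold p q).prev (Sum.inr (3 : Fin 4))) * c (Sum.inr 0)
            rw [e3, h0, h2, h3]
            group

/-- [FD6] -/
theorem fold_ncol {p q : D.P} (hpq : p ≠ q) (Y : Set D.V) (H : Type) [Group H] :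
    (D.fold p q).ncol (Sum.inl '' Y) H = D.ncol Y H := by
  unfold ncol
  refine Nat.card_congr ?_
  refine
    { toFun := fun c => ⟨fun x => c.1 (Sum.inl x), ((D.fd6_col hpq Y c.1).1 c.2).1⟩
      invFun := fun c => ⟨Sum.elim c.1 ![c.1 p, c.1 p, c.1 p * c.1 q * (c.1 p)⁻¹, c.1 q],
        (D.fd6_col hpq Y _).2 ⟨c.2, rfl, rfl, rfl, rfl⟩⟩
      left_inv := ?_
      right_inv := ?_ }
  · rintro ⟨c, hc⟩
    apply Subtype.ext
    obtain ⟨h0, h1, h2, h3⟩ := ((D.fd6_col hpq Y c).1 hc).2
    funext y
    rcases y with x | k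
    · rfl
    · fin_cases k
      · exact h0.symm
      · exact h1.symm
      · exact h2.symm
      · exact h3.symm
  · rintro ⟨c, hc⟩
    rfl

end Diagram

end Pool.Agent.Lib.MP_b7a6eb_gt
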