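import Pool.Agent.Lib.MP_b7a6eb_gt.Constr
import Pool.Agent.Lib.MP_b7a6eb_gt.FD4
import Pool.Agent.Lib.MP_b7a6eb_gt.FD6

namespace Pool.Agent.Lib.MP_b7a6eb_gt

open Equiv Equiv.Perm

namespace Diagram

variable (D : Diagram)

theorem fold_good {p q : D.P} {Y : Set D.V} (hY : D.Good Y)
    (hpq : ¬ D.seif.SameCycle (D.next p) (D.next q)) (hF : (D.fold p q).Planar) :
    (D.fold p q).Good (Sum.inl '' Y) := by
  have hne : p ≠ q := by
    rintro rfl; exact hpq (SameCycle.refl _ _)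
  refine ⟨⟨Sum.inr 0⟩, hF, ?_, ?_⟩
  · rintro _ ⟨v, hv, rfl⟩
    exact hY.pos v hv
  · intro H _ _
    rw [D.fold_ncol hne, D.fold_cyc hpq, hY.col]

end Diagram

end Pool.Agent.Lib.MP_b7a6eb_gt
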