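import Pool.Agent.Lib.MP_b7a6eb_gt.Basic

namespace Pool.Agent.Lib.MP_b7a6eb_gt

open Equiv Equiv.Perm

namespace Diagram

variable (D : Diagram)

private lemma vg2_of_step {α : Type*} [Finite α] (g : Perm α) (R : α → Prop) {x : α} (h0 : R x)
    (hs : ∀ y, R y → R (g y)) {y : α} (h : g.SameCycle x y) : R y := by
  obtain ⟨n, hn⟩ := h.exists_nat_pow_eq
  rw [← hn]
  clear hn h
  induction n with
  | zero => exact h0
  | succ n ih =>
    rw [pow_succ', Perm.mul_apply]
    exact hs _ ih

/-- [VG2] if `PL` fails, there is a place for a fold -/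
theorem exists_defect (h : ¬ D.PL) : ∃ u w, D.seif.SameCycle (D.r u) (D.r w) ∧
    ¬ D.seif.SameCycle (D.l u) (D.l w) ∧
    D.faceP.SameCycle (D.prev (D.l w), false) (D.r u, false) := by
  by_contra hno
  apply h
  intro v w hvw
  by_contra hlw
  have hface : ∀ s, D.faceP.SameCycle s (D.face s) := fun s => ⟨1, by simp⟩
  -- the left side of the circle after the `r`-point `u`
  have hA : ∀ u, D.faceP.SameCycle (D.prev (D.seif (D.r u)), true) (D.r u, false) := by
    intro u
    rw [seif_r, prev_next]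
    have h1 := hface (D.l u, true)
    rwa [face_N] at h1
  -- the invariant
  have hinv : ∀ y, D.seif.SameCycle (D.seif (D.r v)) y → D.seif.SameCycle (D.r v) y ∧
      ∃ u, D.seif.SameCycle (D.r v) (D.r u) ∧
      D.seif.SameCycle (D.l v) (D.l u) ∧ D.faceP.SameCycle (D.prev y, true) (D.r u, false) := by
    intro y hy
    refine vg2_of_step D.seif (fun y => D.seif.SameCycle (D.r v) y ∧
      ∃ u, D.seif.SameCycle (D.r v) (D.r u) ∧
      D.seif.SameCycle (D.l v) (D.l u) ∧ D.faceP.SameCycle (D.prev y, true) (D.r u, false))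
      ⟨⟨1, by simp⟩, v, SameCycle.refl _ _, SameCycle.refl _ _, hA v⟩ ?_ hy
    rintro z ⟨hz, u, h1, h2, h3⟩
    refine ⟨hz.trans ⟨1, by simp⟩, ?_⟩
    rcases D.point_cases z with hm | ⟨x, rfl⟩ | ⟨x, rfl⟩
    · refine ⟨u, h1, h2, ?_⟩
      rw [D.seif_marker hm, prev_next]
      have h4 := hface (z, true)
      rw [D.face_true_marker hm] at h4
      exact h4.trans h3
    · refine ⟨u, h1, h2, ?_⟩
      rw [seif_l, prev_next]
      have h4 := hface (D.r x, true)
      rw [face_W] at h4
      exact h4.trans h3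
    · by_cases h5 : D.seif.SameCycle (D.l v) (D.l x)
      · exact ⟨x, hz, h5, hA x⟩
      · exfalso
        apply hno
        refine ⟨u, x, h1.symm.trans hz, fun h6 => h5 (h2.trans h6), ?_⟩
        have h4 := hface (D.prev (D.l x), false)
        rw [face_S] at h4
        exact h4.trans h3
  have hvw' : D.seif.SameCycle (D.seif (D.r v)) (D.r w) := by
    rw [Perm.sameCycle_apply_left]
    exact hvw
  obtain ⟨hz, u, h1, h2, h3⟩ := hinv _ hvw'
  apply hno
  refine ⟨u, w, h1.symm.trans hz, fun h6 => hlw (h2.trans h6), ?_⟩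
  have h4 := hface (D.prev (D.l w), false)
  rw [face_S] at h4
  exact h4.trans h3

end Diagram

end Pool.Agent.Lib.MP_b7a6eb_gt
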