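import Pool.Agent.Lib.MP_b7a6eb_gt.Constr
import Pool.Agent.Lib.MP_b7a6eb_gt.FD4

namespace Pool.Agent.Lib.MP_b7a6eb_gt

open Equiv Equiv.Perm

namespace Diagram

variable (D : Diagram)

/-- [VG3] such a fold preserves `PR` -/
theorem fold_PR {u w : D.V} (h : D.PR) (h1 : D.seif.SameCycle (D.r u) (D.r w))
    (h2 : ¬ D.seif.SameCycle (D.l u) (D.l w)) : (D.fold (D.prev (D.l w)) (D.r u)).PR := by
  set p := D.prev (D.l w) with hp
  set q := D.r u with hq
  have hnp : D.next p = D.l w := by rw [hp, next_prev]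
  have hnq : D.next q = D.seif (D.l u) := by rw [seif_l]
  have hpq : ¬ D.seif.SameCycle (D.next p) (D.next q) := by
    rw [hnp, hnq, Perm.sameCycle_apply_right]
    exact fun h3 => h2 h3.symm
  have hne := D.fd4_ne hpq
  -- points of the fold
  have el : ∀ v : D.V, (D.fold p q).l (Sum.inl v) = Sum.inl (D.l v) := fun v => rfl
  have er : ∀ v : D.V, (D.fold p q).r (Sum.inl v) = Sum.inl (D.r v) := fun v => rfl
  have hl : ∀ b : Bool, (D.fold p q).seif.SameCycle (Sum.inr 1) ((D.fold p q).l (Sum.inr b)) := by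
    intro b
    cases b
    · exact SameCycle.refl _ _
    · exact (D.fold_sameCycle_1 hne _).2 (Or.inr rfl)
  obtain ⟨h0, h2'⟩ := D.fold_sameCycle_0 hpq
  have hr : ∀ b : Bool, (D.fold p q).seif.SameCycle ((D.fold p q).r (Sum.inr b))
      (Sum.inl (D.next p)) := by
    intro b
    cases b
    · exact h2'
    · exact h0
  have hold : ∀ x : D.P, ¬ (D.fold p q).seif.SameCycle (Sum.inr 1) (Sum.inl x) := by
    intro x hx
    rcases (D.fold_sameCycle_1 hne _).1 hx with h3 | h3
    · exact Sum.inl_ne_inr h3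
    · exact Sum.inl_ne_inr h3
  -- `r` of crossings with `l` on the merged circle
  have hmer : ∀ v : D.V, (D.seif.SameCycle (D.next p) (D.l v) ∨
      D.seif.SameCycle (D.next q) (D.l v)) → D.seif.SameCycle (D.r u) (D.r v) := by
    rintro v (h3 | h3)
    · rw [hnp] at h3
      exact h1.trans (h _ _ h3)
    · rw [hnq, Perm.sameCycle_apply_left] at h3
      exact h _ _ h3
  rintro (v | b) (v' | b') h3
  · rw [el, el, D.fold_sameCycle_inl hpq] at h3
    rw [er, er, D.fold_sameCycle_inl hpq]
    left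
    rcases h3 with h3 | ⟨h3, h4⟩
    · exact h _ _ h3
    · exact (hmer v h3).symm.trans (hmer v' h4)
  · rw [el] at h3
    exact absurd ((hl b').trans h3.symm) (hold _)
  · rw [el] at h3
    exact absurd ((hl b).trans h3) (hold _)
  · exact (hr b).trans (hr b').symm

end Diagram

end Pool.Agent.Lib.MP_b7a6eb_gt
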