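import Pool.Agent.Lib.MP_b7a6eb_gt.Constr
import Pool.Agent.Lib.MP_b7a6eb_gt.FD4

namespace Pool.Agent.Lib.MP_b7a6eb_gt

open Equiv Equiv.Perm

namespace Diagram

variable (D : Diagram)

/-- sum of a function over the cycles of a permutation -/
noncomputable def csum {α : Type*} (f : Perm α) (h : α → ℤ) : ℤ :=
  ∑ᶠ c : Quotient (SameCycle.setoid f), h c.out

/-- [VG4] -/
theorem csum_le {α : Type*} [Finite α] (f : Perm α) (h : α → ℤ) (B : ℤ) (hB : ∀ x, h x ≤ B) :
    csum f h ≤ cyc f * B := by
  classical
  let _ : Fintype (Quotient (SameCycle.setoid f)) := Fintype.ofFinite _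
  unfold csum cyc
  rw [finsum_eq_sum_of_fintype, Nat.card_eq_fintype_card]
  calc ∑ c : Quotient (SameCycle.setoid f), h c.out ≤
      ∑ _c : Quotient (SameCycle.setoid f), B := Finset.sum_le_sum fun c _ => hB _
    _ = _ := by
      rw [Finset.sum_const, Finset.card_univ, nsmul_eq_mul]

lemma vg4_inv {α : Type*} [Finite α] (f : Perm α) (h : α → ℤ) (hh : ∀ x, h (f x) = h x) {x y : α}
    (hxy : f.SameCycle x y) : h x = h y :=
  (fd4_of_step f (fun z => h x = h z) rfl (fun z hz => hz.trans (hh z).symm) hxy)

/-- [VG4] -/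
theorem fold_csum {p q : D.P} (hpq : ¬ D.seif.SameCycle (D.next p) (D.next q))
    (h : D.P → ℤ) (h' : (D.fold p q).P → ℤ) (hh : ∀ x, h (D.seif x) = h x)
    (hh' : ∀ x, h' ((D.fold p q).seif x) = h' x) (e : ∀ x, h' (Sum.inl x) = h x) :
    csum (D.fold p q).seif h' = csum D.seif h - h (D.next q) + h' (Sum.inr 1) := by
  classical
  have hne := D.fd4_ne hpq
  let _ : Fintype (Quotient (SameCycle.setoid D.seif)) := Fintype.ofFinite _
  let _ : Fintype (Quotient (SameCycle.setoid (D.fold p q).seif)) := Fintype.ofFinite _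
  let mk : D.P → Quotient (SameCycle.setoid D.seif) := fun x => Quotient.mk _ x
  let mk' : (D.fold p q).P → Quotient (SameCycle.setoid (D.fold p q).seif) :=
    fun x => Quotient.mk _ x
  have hmk : ∀ x y, mk x = mk y ↔ D.seif.SameCycle x y := fun x y => Quotient.eq
  have hmk' : ∀ x y, mk' x = mk' y ↔ (D.fold p q).seif.SameCycle x y := fun x y => Quotient.eq
  have hout : ∀ c, mk c.out = c := fun c => Quotient.out_eq c
  have hout' : ∀ c, mk' c.out = c := fun c => Quotient.out_eq c
  let F : Quotient (SameCycle.setoid D.seif) → Quotient (SameCycle.setoid (D.fold p q).seif) :=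
    fun c => if c = mk (D.next q) then mk' (Sum.inr 1) else mk' (Sum.inl c.out)
  have hold : ∀ x : D.P, ¬ (D.fold p q).seif.SameCycle (Sum.inr 1) (Sum.inl x) := by
    intro x hx
    rcases (D.fold_sameCycle_1 hne _).1 hx with h3 | h3
    · exact Sum.inl_ne_inr h3
    · exact Sum.inl_ne_inr h3
  have hnotq : ∀ c, c ≠ mk (D.next q) → ¬ D.seif.SameCycle (D.next q) c.out := by
    intro c hc h1
    apply hc
    rw [← hout c]
    exact ((hmk _ _).2 h1).symm
  have hF : Function.Bijective F := by
    constructor
    · intro c c' hcc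
      by_cases h1 : c = mk (D.next q)
      · by_cases h2 : c' = mk (D.next q)
        · rw [h1, h2]
        · exfalso
          simp only [F, if_pos h1, if_neg h2] at hcc
          exact hold _ ((hmk' _ _).1 hcc)
      · by_cases h2 : c' = mk (D.next q)
        · exfalso
          simp only [F, if_pos h2, if_neg h1] at hcc
          exact hold _ ((hmk' _ _).1 hcc).symm
        · simp only [F, if_neg h1, if_neg h2] at hcc
          have h3 := (hmk' _ _).1 hcc
          rw [D.fold_sameCycle_inl hpq] at h3
          have h4 : D.seif.SameCycle c.out c'.out := by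
            rcases h3 with h3 | ⟨h3 | h3, h4 | h4⟩
            · exact h3
            · exact h3.symm.trans h4
            · exact absurd h4 (hnotq _ h2)
            · exact absurd h3 (hnotq _ h1)
            · exact absurd h3 (hnotq _ h1)
          rw [← hout c, ← hout c']
          exact (hmk _ _).2 h4
    · have hinl : ∀ y : D.P, ∃ c, F c = mk' (Sum.inl y) := by
        intro y
        by_cases h1 : mk y = mk (D.next q)
        · refine ⟨mk (D.next p), ?_⟩
          have h2 : mk (D.next p) ≠ mk (D.next q) := fun h3 => hpq ((hmk _ _).1 h3)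
          simp only [F, if_neg h2]
          rw [hmk', D.fold_sameCycle_inl hpq]
          right
          refine ⟨Or.inl ?_, Or.inr ((hmk _ _).1 h1).symm⟩
          exact ((hmk _ _).1 (hout _)).symm
        · refine ⟨mk y, ?_⟩
          simp only [F, if_neg h1]
          rw [hmk', D.fold_sameCycle_inl hpq]
          left
          exact (hmk _ _).1 (hout _)
      intro c
      rw [← hout' c]
      generalize c.out = z
      rcases z with y | k
      · exact hinl y
      · obtain ⟨h0, h2'⟩ := D.fold_sameCycle_0 hpq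
        fin_cases k
        · obtain ⟨c, hc⟩ := hinl (D.next p)
          exact ⟨c, hc.trans ((hmk' _ _).2 h0.symm)⟩
        · exact ⟨mk (D.next q), by simp only [F, if_pos rfl]; rfl⟩
        · obtain ⟨c, hc⟩ := hinl (D.next p)
          exact ⟨c, hc.trans ((hmk' _ _).2 h2'.symm)⟩
        · refine ⟨mk (D.next q), ?_⟩
          simp only [F, if_pos rfl]
          exact (hmk' _ _).2 ((D.fold_sameCycle_1 hne _).2 (Or.inr rfl))
  have hval : ∀ c, h' (F c).out = if c = mk (D.next q) then h' (Sum.inr 1) else h c.out := by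
    intro c
    by_cases h1 : c = mk (D.next q)
    · rw [if_pos h1]
      have h2 : F c = mk' (Sum.inr 1) := by simp only [F, if_pos h1]
      rw [h2]
      exact vg4_inv _ h' hh' ((hmk' _ _).1 (hout' _))
    · rw [if_neg h1, ← e]
      have h2 : F c = mk' (Sum.inl c.out) := by simp only [F, if_neg h1]
      rw [h2]
      exact vg4_inv _ h' hh' ((hmk' _ _).1 (hout' _))
  unfold csum
  rw [finsum_eq_sum_of_fintype, finsum_eq_sum_of_fintype, ← hF.sum_comp (fun c => h' c.out)]
  simp only [hval]
  have h5 : h (mk (D.next q)).out = h (D.next q) :=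
    vg4_inv _ h hh ((hmk _ _).1 (hout _))
  rw [← Finset.add_sum_erase _ _ (Finset.mem_univ (mk (D.next q))), if_pos rfl,
    ← Finset.add_sum_erase (Finset.univ) (fun c => h (Quotient.out c))
      (Finset.mem_univ (mk (D.next q))), h5]
  have h6 : ∑ c ∈ Finset.univ.erase (mk (D.next q)),
      (if c = mk (D.next q) then h' (Sum.inr 1) else h c.out) =
      ∑ c ∈ Finset.univ.erase (mk (D.next q)), h c.out := by
    refine Finset.sum_congr rfl fun c hc => ?_
    rw [if_neg (Finset.ne_of_mem_erase hc)]
  rw [h6]
  ring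

end Diagram

end Pool.Agent.Lib.MP_b7a6eb_gt
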