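import Pool.Agent.Lib.MP_b7a6eb_gt.Basic

namespace Pool.Agent.Lib.MP_b7a6eb_gt

open Equiv Equiv.Perm

namespace Diagram

variable (D : Diagram)

/-- [VG5] in a connected diagram the levels form an interval, so that there are at least as many
circles as levels -/
theorem level_bound (hC : D.Connected) (h : D.P → ℤ) (h1 : ∀ p, h (D.seif p) = h p)
    (h2 : ∀ v, h (D.l v) = h (D.r v) + 1) (p q : D.P) : h p < h q + cyc D.seif := by
  -- invariance
  have hinv : ∀ x y, D.seif.SameCycle x y → h x = h y := by
    intro x y hxy
    obtain ⟨n, hn⟩ := hxy.exists_nat_pow_eq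
    rw [← hn]
    clear hn hxy
    induction n with
    | zero => rfl
    | succ n ih =>
      rw [pow_succ', Perm.mul_apply, h1]
      exact ih
  -- steps
  have hnext : ∀ x, |h (D.next x) - h x| ≤ 1 := by
    intro x
    rcases D.point_cases x with hm | ⟨v, rfl⟩ | ⟨v, rfl⟩
    · rw [← D.seif_marker hm, h1]
      simp
    · rw [← D.seif_r, h1, h2]
      simp
    · rw [← D.seif_l, h1, h2]
      simp
  have hcr : ∀ v, |h (D.cr (v, false)) - h (D.cr (v, true))| ≤ 1 := by
    intro v
    have h3 := h2 v
    unfold l r at h3
    cases hs : D.sign v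
    · rw [hs] at h3
      simp only [Bool.not_false] at h3
      rw [h3]
      simp
    · rw [hs] at h3
      simp only [Bool.not_true] at h3
      rw [h3]
      simp
  -- intermediate values
  have hiv : ∀ x y, D.Conn x y → ∀ t, (h x ≤ t ∧ t ≤ h y) ∨ (h y ≤ t ∧ t ≤ h x) →
      ∃ z, h z = t := by
    intro x y hxy
    induction hxy with
    | rel x y hxy =>
      intro t ht
      have h3 : |h y - h x| ≤ 1 := by
        rcases hxy with rfl | ⟨v, rfl, rfl⟩
        · exact hnext x
        · exact hcr v
      rw [abs_le] at h3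
      by_cases h4 : t = h x
      · exact ⟨x, h4.symm⟩
      · refine ⟨y, ?_⟩
        omega
    | refl x =>
      intro t ht
      exact ⟨x, by omega⟩
    | symm x y _ ih =>
      intro t ht
      exact ih t ht.symm
    | trans x y z _ _ ih1 ih2 =>
      intro t ht
      by_cases h3 : (h x ≤ t ∧ t ≤ h y) ∨ (h y ≤ t ∧ t ≤ h x)
      · exact ih1 t h3
      · exact ih2 t (by omega)
  by_contra hcon
  push Not at hcon
  have hex : ∀ i : Fin (cyc D.seif + 1), ∃ z, h z = h q + i.val := by
    intro i
    refine hiv q p (hC q p) _ (Or.inl ⟨by omega, ?_⟩)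
    have := i.isLt
    omega
  choose z hz using hex
  have hinj : Function.Injective
      (fun i => (Quotient.mk (SameCycle.setoid D.seif) (z i))) := by
    intro i j hij
    have h3 : D.seif.SameCycle (z i) (z j) := Quotient.exact hij
    have h4 := hinv _ _ h3
    rw [hz, hz] at h4
    apply Fin.ext
    omega
  have h5 := Nat.card_le_card_of_injective _ hinj
  rw [Nat.card_eq_fintype_card, Fintype.card_fin] at h5
  unfold cyc at h5
  omega

end Diagram

end Pool.Agent.Lib.MP_b7a6eb_gt
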