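import Pool.Agent.Lib.MP_b7a6eb_gt.Constr
import Pool.Agent.Lib.MP_b7a6eb_gt.FD1
import Pool.Agent.Lib.MP_b7a6eb_gt.FD3
import Pool.Agent.Lib.MP_b7a6eb_gt.FD4
import Pool.Agent.Lib.MP_b7a6eb_gt.FD7
import Pool.Agent.Lib.MP_b7a6eb_gt.FDG
import Pool.Agent.Lib.MP_b7a6eb_gt.VG1
import Pool.Agent.Lib.MP_b7a6eb_gt.VG2
import Pool.Agent.Lib.MP_b7a6eb_gt.VG3
import Pool.Agent.Lib.MP_b7a6eb_gt.VG4
import Pool.Agent.Lib.MP_b7a6eb_gt.VG5

namespace Pool.Agent.Lib.MP_b7a6eb_gt

open Equiv Equiv.Perm

namespace Diagram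

variable (D : Diagram)

/-- the level function of the fold -/
def vg6_level (p q : D.P) (h : D.P → ℤ) : (D.fold p q).P → ℤ := fun x =>
  match x with
  | Sum.inl x => h x
  | Sum.inr 0 => h (D.next q)
  | Sum.inr 1 => h (D.next q) + 1
  | Sum.inr 2 => h (D.next q)
  | Sum.inr 3 => h (D.next q) + 1

lemma vg6_inv {p q : D.P} (hne : p ≠ q) (h : D.P → ℤ) (hh : ∀ x, h (D.seif x) = h x)
    (hpq : h (D.next p) = h (D.next q)) (x : (D.fold p q).P) :
    D.vg6_level p q h ((D.fold p q).seif x) = D.vg6_level p q h x := by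
  rcases x with x | k
  · rw [fd4_seif_inl]
    by_cases h1 : D.osw Set.univ x = p
    · rw [h1, D.foldNext_p hne]
      have h2 : x = D.osw Set.univ p := by rw [← h1, osw_osw]
      change h (D.next q) = h x
      rw [← hpq, D.fd4_next_eq, hh, h2]
    · by_cases h2 : D.osw Set.univ x = q
      · rw [h2, D.foldNext_q]
        have h3 : x = D.osw Set.univ q := by rw [← h2, osw_osw]
        change h (D.next q) = h x
        rw [D.fd4_next_eq, hh, h3]
      · rw [D.foldNext_inl h1 h2]
        change h (D.next (D.osw Set.univ x)) = h x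
        rw [← seif_apply, hh]
  · fin_cases k
    · have h1 := congrArg (D.vg6_level p q h) (D.fd4_seif_0 hne)
      exact h1
    · have h1 := congrArg (D.vg6_level p q h) (D.fd4_seif_1 p q)
      exact h1
    · have h1 := congrArg (D.vg6_level p q h) (D.fd4_seif_2 p q)
      exact h1.trans hpq
    · have h1 := congrArg (D.vg6_level p q h) (D.fd4_seif_3 p q)
      exact h1

lemma vg6_lr {p q : D.P} (h : D.P → ℤ) (hv : ∀ v, h (D.l v) = h (D.r v) + 1)
    (v : (D.fold p q).V) :
    D.vg6_level p q h ((D.fold p q).l v) = D.vg6_level p q h ((D.fold p q).r v) + 1 := by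
  rcases v with v | b
  · exact hv v
  · cases b
    · rfl
    · rfl

theorem vg6_aux (k : ℕ) : ∀ (D : Diagram) (Y : Set D.V) (h : D.P → ℤ) (q₀ : D.P),
    D.Good Y → D.Connected → (∀ x, h (D.seif x) = h x) → (∀ v, h (D.l v) = h (D.r v) + 1) →
    cyc D.seif * (h q₀ + cyc D.seif) - csum D.seif h ≤ k →
    ∃ (D' : Diagram) (Y' : Set D'.V), D'.Good Y' ∧ Isotopic D D' ∧ D'.Connected ∧ D'.PL ∧
      (D.PR → D'.PR) := by
  induction k with
  | zero =>
    intro D Y h q₀ hY hC hh hv hk
    by_cases hPL : D.PL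
    · exact ⟨D, Y, hY, Isotopic.refl D, hC, hPL, id⟩
    · exfalso
      obtain ⟨u, w, h1, h2, h3⟩ := D.exists_defect hPL
      set p := D.prev (D.l w) with hp
      set q := D.r u with hq
      have hnp : D.next p = D.l w := by rw [hp, next_prev]
      have hnq : D.next q = D.seif (D.l u) := by rw [seif_l]
      have hpq : ¬ D.seif.SameCycle (D.next p) (D.next q) := by
        rw [hnp, hnq, Perm.sameCycle_apply_right]
        exact fun h3 => h2 h3.symm
      have hne := D.fd4_ne hpq
      have hlev : h (D.next p) = h (D.next q) := by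
        rw [hnp, hnq, hh, hv, hv]
        have := vg4_inv D.seif h hh h1
        linarith
      have hinv := D.vg6_inv hne h hh hlev
      have hlr := D.vg6_lr (p := p) (q := q) h hv
      have hcs := D.fold_csum hpq h (D.vg6_level p q h) hh hinv (fun _ => rfl)
      have hcyc := D.fold_cyc hpq
      have hC' := D.fold_connected hC hne
      have hB : ∀ x, D.vg6_level p q h x ≤ h q₀ + cyc D.seif := by
        intro x
        have h4 := (D.fold p q).level_bound hC' (D.vg6_level p q h) hinv hlr x (Sum.inl q₀)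
        rw [hcyc] at h4
        exact h4.le
      have h5 := csum_le (D.fold p q).seif (D.vg6_level p q h) _ hB
      rw [hcs, hcyc] at h5
      have h6 : D.vg6_level p q h (Sum.inr 1) = h (D.next q) + 1 := rfl
      rw [h6] at h5
      push_cast at hk
      linarith
  | succ k ih =>
    intro D Y h q₀ hY hC hh hv hk
    by_cases hPL : D.PL
    · exact ⟨D, Y, hY, Isotopic.refl D, hC, hPL, id⟩
    · obtain ⟨u, w, h1, h2, h3⟩ := D.exists_defect hPL
      have hPR' := fun (hR : D.PR) => D.fold_PR hR h1 h2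
      set p := D.prev (D.l w) with hp
      set q := D.r u with hq
      have hnp : D.next p = D.l w := by rw [hp, next_prev]
      have hnq : D.next q = D.seif (D.l u) := by rw [seif_l]
      have hpq : ¬ D.seif.SameCycle (D.next p) (D.next q) := by
        rw [hnp, hnq, Perm.sameCycle_apply_right]
        exact fun h3 => h2 h3.symm
      have hne := D.fd4_ne hpq
      have hlev : h (D.next p) = h (D.next q) := by
        rw [hnp, hnq, hh, hv, hv]
        have := vg4_inv D.seif h hh h1
        linarith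
      have hinv := D.vg6_inv hne h hh hlev
      have hlr := D.vg6_lr (p := p) (q := q) h hv
      have hcs := D.fold_csum hpq h (D.vg6_level p q h) hh hinv (fun _ => rfl)
      have hcyc := D.fold_cyc hpq
      have hC' := D.fold_connected hC hne
      have hF := D.fold_planar_same hY.planar hne h3
      have hY' := D.fold_good hY hpq hF
      have hiso := D.fold_isotopic hY.planar hne hF
      have h6 : D.vg6_level p q h (Sum.inr 1) = h (D.next q) + 1 := rfl
      have h7 : D.vg6_level p q h (Sum.inl q₀) = h q₀ := rfl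
      obtain ⟨D', Y', k1, k2, k3, k4, k5⟩ := ih (D.fold p q) (Sum.inl '' Y) (D.vg6_level p q h)
        (Sum.inl q₀) hY' hC' hinv hlr (by
          rw [hcs, hcyc, h6, h7]
          push_cast at hk
          linarith)
      exact ⟨D', Y', k1, hiso.trans k2, k3, k4, fun hR => k5 (hPR' hR)⟩

/-- [VG6] first phase -/
theorem phase1 {Y : Set D.V} (hY : D.Good Y) (hC : D.Connected) :
    ∃ (D' : Diagram) (Y' : Set D'.V), D'.Good Y' ∧ Isotopic D D' ∧ D'.Connected ∧ D'.PL ∧
      (D.PR → D'.PR) := by
  obtain ⟨h, hh, hv⟩ := D.exists_level hY.planar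
  obtain ⟨q₀⟩ := hY.ne
  exact vg6_aux (cyc D.seif * (h q₀ + cyc D.seif) - csum D.seif h).toNat D Y h q₀ hY hC hh hv
    (Int.self_le_toNat _)

end Diagram

end Pool.Agent.Lib.MP_b7a6eb_gt
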