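import Pool.Agent.Lib.MP_b7a6eb_gt.Constr
import Pool.Agent.Lib.MP_b7a6eb_gt.FD2
import Pool.Agent.Lib.MP_b7a6eb_gt.FD3
import Pool.Agent.Lib.MP_b7a6eb_gt.FD7
import Pool.Agent.Lib.MP_b7a6eb_gt.FDG

namespace Pool.Agent.Lib.MP_b7a6eb_gt

open Equiv Equiv.Perm

namespace Diagram

variable (D : Diagram)

theorem vg7_aux (k : ℕ) : ∀ (D : Diagram) (Y : Set D.V), D.Good Y → D.ncomp ≤ k →
    ∃ (D' : Diagram) (Y' : Set D'.V), D'.Good Y' ∧ Isotopic D D' ∧ D'.Connected := by
  induction k with
  | zero =>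
    intro D Y hY hk
    exfalso
    obtain ⟨x⟩ := hY.ne
    have h1 : 0 < D.ncomp := by
      unfold ncomp
      have : Nonempty (Quot D.Conn) := ⟨Quot.mk _ x⟩
      exact Nat.card_pos
    omega
  | succ k ih =>
    intro D Y hY hk
    by_cases hC : D.Connected
    · exact ⟨D, Y, hY, Isotopic.refl D, hC⟩
    · unfold Connected at hC
      push Not at hC
      obtain ⟨p, q, hpq⟩ := hC
      have hne : p ≠ q := by
        rintro rfl
        exact hpq (Relation.EqvGen.refl _)
      have hF := D.fold_planar_diff hY.planar hpq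
      have hsc : ¬ D.seif.SameCycle (D.next p) (D.next q) := by
        intro h
        apply hpq
        have h1 := D.conn_of_sameCycle h
        exact D.fd2_conn_trans (D.fd2_conn_next p)
          (D.fd2_conn_trans h1 (D.fd2_conn_symm (D.fd2_conn_next q)))
      have hnc := D.fold_ncomp hpq
      obtain ⟨D', Y', h1, h2, h3⟩ := ih (D.fold p q) _ (D.fold_good hY hsc hF) (by omega)
      exact ⟨D', Y', h1, (D.fold_isotopic hY.planar hne hF).trans h2, h3⟩

/-- [VG7] connecting the components -/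
theorem connect {Y : Set D.V} (hY : D.Good Y) :
    ∃ (D' : Diagram) (Y' : Set D'.V), D'.Good Y' ∧ Isotopic D D' ∧ D'.Connected := by
  exact vg7_aux D.ncomp D Y hY le_rfl

end Diagram

end Pool.Agent.Lib.MP_b7a6eb_gt
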