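import Pool.Agent.Lib.MP_b7a6eb_gt.Constr
import Pool.Agent.Lib.MP_b7a6eb_gt.RV1
import Pool.Agent.Lib.MP_b7a6eb_gt.RV3
import Pool.Agent.Lib.MP_b7a6eb_gt.VG6
import Pool.Agent.Lib.MP_b7a6eb_gt.VG7

namespace Pool.Agent.Lib.MP_b7a6eb_gt

open Equiv Equiv.Perm

namespace Diagram

variable (D : Diagram)

theorem rev_rev : D.rev.rev = D := rfl

theorem osw_l (u : D.V) : D.osw Set.univ (D.l u) = D.r u := by
  rw [l, D.osw_cr_mem (Set.mem_univ _)]; rfl

theorem osw_r (u : D.V) : D.osw Set.univ (D.r u) = D.l u := by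
  rw [r, D.osw_cr_mem (Set.mem_univ _), Bool.not_not]; rfl

theorem rev_same_l (v w : D.V) :
    D.rev.seif.SameCycle (D.l v) (D.l w) ↔ D.seif.SameCycle (D.r v) (D.r w) := by
  have := D.rev_sameCycle (D.l v) (D.l w)
  rwa [osw_l, osw_l] at this

theorem rev_same_r (v w : D.V) :
    D.rev.seif.SameCycle (D.r v) (D.r w) ↔ D.seif.SameCycle (D.l v) (D.l w) := by
  have := D.rev_sameCycle (D.r v) (D.r w)
  rwa [osw_r, osw_r] at this

theorem rev_PL (h : D.PL) : D.rev.PR :=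
  fun v w hvw => (D.rev_same_r v w).2 (h v w ((D.rev_same_l v w).1 hvw))

theorem rev_PR (h : D.PR) : D.rev.PL :=
  fun v w hvw => (D.rev_same_l v w).2 (h v w ((D.rev_same_r v w).1 hvw))

theorem rev_good {Y : Set D.V} (h : D.Good Y) : D.rev.Good Y :=
  ⟨h.ne, D.rev_planar h.planar, h.pos, fun H _ _ => by
    rw [D.rev_ncol, D.rev_cyc, h.col]⟩

theorem rev_connected (h : D.Connected) : D.rev.Connected :=
  fun p q => (D.rev_conn p q).2 (h p q)

end Diagram

theorem Isotopic.rev {D D' : Diagram} (h : Isotopic D D') : Isotopic D.rev D'.rev := by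
  induction h with
  | rel x y h =>
    obtain ⟨h1, h2, T, b, h3, h4⟩ := h
    exact Relation.EqvGen.rel _ _ ⟨x.rev_planar h1, y.rev_planar h2, T.rev, T.next b,
      overArc_rev h3, overArc_rev h4⟩
  | refl x => exact Relation.EqvGen.refl _
  | symm x y _ ih => exact ih.symm
  | trans x y z _ _ ih1 ih2 => exact ih1.trans ih2

/-- Vogel's theorem, with the set `Y` of smoothed crossings -/
theorem vogel {D : Diagram} {Y : Set D.V} (hY : D.Good Y) :
    ∃ (D' : Diagram) (Y' : Set D'.V), D'.Good Y' ∧ Isotopic D D' ∧ D'.Connected ∧ D'.PL ∧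
      D'.PR := by
  obtain ⟨D1, Y1, g1, i1, c1⟩ := D.connect hY
  obtain ⟨D2, Y2, g2, i2, c2, p2, -⟩ := D1.phase1 g1 c1
  obtain ⟨D3, Y3, g3, i3, c3, p3, q3⟩ := D2.rev.phase1 (D2.rev_good g2) (D2.rev_connected c2)
  refine ⟨D3.rev, Y3, D3.rev_good g3, ?_, D3.rev_connected c3, D3.rev_PR (q3 (D2.rev_PL p2)),
    D3.rev_PL p3⟩
  exact i1.trans (i2.trans i3.rev)

end Pool.Agent.Lib.MP_b7a6eb_gt
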