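import Pool.Agent.Lib.MP_b7a6eb_gt.Constr
import Pool.Agent.Lib.MP_b7a6eb_gt.Braid
import Pool.Agent.Lib.MP_b7a6eb_gt.Vogel
import Pool.Agent.Lib.MP_b7a6eb_gt.Reading
import Pool.Agent.Lib.MP_b7a6eb_gt.BR2
import Pool.Agent.Lib.MP_b7a6eb_gt.BR3
import Pool.Agent.Lib.MP_b7a6eb_gt.BR4
import Pool.Agent.Lib.MP_b7a6eb_gt.BR5
import Pool.Agent.Lib.MP_b7a6eb_gt.BR6

namespace Pool.Agent.Lib.MP_b7a6eb_gt

open Equiv Equiv.Perm

section Braid

variable {n : ℕ}

theorem isotopic_of_braidEq {w w' : Word n} (h : BraidEq w w') :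
    Isotopic (closure n w) (closure n w') := by
  induction h with
  | rel u v h =>
    obtain ⟨x, y, s, t, h1, rfl, rfl⟩ := h
    exact isotopic_of_bRel x y s t h1
  | refl => exact Isotopic.refl _
  | symm _ _ _ ih => exact ih.symm
  | trans _ _ _ _ _ ih1 ih2 => exact ih1.trans ih2

theorem braid_final {w : Word n} {Z : Set (Fin w.length)} (h : (closure n w).Good Z) :
    ∃ c, Isotopic (closure n w) (closure n (qpWord c)) := by
  classical
  set Y : ℕ → Prop := fun k => ∃ hk : k < w.length, (⟨k, hk⟩ : Fin w.length) ∈ Z with hYdef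
  have hZ : {k : Fin w.length | Y k.val} = Z := by
    ext k
    simp [hYdef]
  have hact : ∀ (H : Type) [Group H] [Finite H] (x : Fin (n + 1) → H),
      actWord (dropM w Y) x = x := by
    intro H _ _
    have h0 := closure_ncol w Y H
    have h1 : (closure n w).ncol {k : Fin w.length | Y k.val} H = Nat.card H ^ (n + 1) := by
      have h10 := h.col H
      rw [closure_cyc] at h10
      have h11 : (closure n w).ncol {k : Fin w.length | Y k.val} H = (closure n w).ncol Z H :=
        congrArg (fun S : Set (Fin w.length) => (closure n w).ncol S H) hZ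
      exact h11.trans h10
    rw [h0] at h1
    have h2 : Nat.card (Fin (n + 1) → H) = Nat.card H ^ (n + 1) := by
      simp [Nat.card_pi]
    have h3 : ({x : Fin (n + 1) → H | actWord (dropM w Y) x = x} : Set _) = Set.univ := by
      apply Set.eq_of_subset_of_ncard_le (Set.subset_univ _)
      rw [Set.ncard_univ, h2, ← h1]
      rfl
    intro x
    have : x ∈ ({x : Fin (n + 1) → H | actWord (dropM w Y) x = x} : Set _) := by
      rw [h3]; exact Set.mem_univ _
    exact this
  have hpos : ∀ k (hk : k < w.length), Y k → (w[k]).2 = true := by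
    intro k hk hYk
    obtain ⟨_, hz⟩ := hYk
    exact h.pos _ hz
  obtain ⟨c, hc⟩ := exists_qpWord w Y hpos (braidEq_nil_of_act _ hact)
  exact ⟨c, isotopic_of_braidEq hc⟩

end Braid

/-- The criterion. -/
theorem criterion {D : Diagram} {Y : Set D.V} (hY : D.Good Y) :
    ∃ (n : ℕ) (c : List (Word n × Fin n)), Isotopic D (closure n (qpWord c)) := by
  obtain ⟨D', Y', g, i, hC, hL, hR⟩ := vogel hY
  obtain ⟨n, w, Z, g', i'⟩ := reading g hC hL hR
  obtain ⟨c, i''⟩ := braid_final g'
  exact ⟨n, c, i.trans (i'.trans i'')⟩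

end Pool.Agent.Lib.MP_b7a6eb_gt
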