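import Mathlib

/-!
# Oriented link diagrams as signed Gauss diagrams

A diagram is given by a finite set `P` of marked points on oriented circles, the successor
permutation `next` of these points along the orientation, and a finite set `V` of crossings: the
crossing `v` is passed over at the point `cr (v, true)` and under at the point `cr (v, false)`, and
`sign v = true` means that `v` is a positive (right-handed) crossing.  Points which are not crossing
points are just markers (so a circle without crossings is a circle of markers).  The edge of the
point `p` is the piece of the diagram between `p` and `next p`.
-/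

namespace Pool.Agent.Lib.MP_b7a6eb_gt

/-- Signed Gauss diagrams with marked points (oriented, with several components). -/
structure Diagram where
  /-- the marked points -/
  P : Type
  /-- the crossings -/
  V : Type
  finP : Finite P
  finV : Finite V
  /-- the next point along the orientation -/
  next : Equiv.Perm P
  /-- `cr (v, true)` is the point at which the crossing `v` is passed over, `cr (v, false)` the
  point at which it is passed under -/
  cr : V × Bool → P
  /-- the label of a point: which crossing is passed there (over or under), or `none` -/
  lab : P → Option (V × Bool)
  lab_iff : ∀ p x, lab p = some x ↔ cr x = p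
  /-- `true` for positive crossings -/
  sign : V → Bool

namespace Diagram

variable (D : Diagram)

/-- The previous point along the orientation. -/
def prev (p : D.P) : D.P := D.next.symm p

/-- Draw the crossing `v` with both strands pointing upwards.  The point `l v` is the passage of the
strand which comes from the lower left and leaves to the upper right: for a positive crossing this
is the over strand, for a negative crossing the under strand. -/
def l (v : D.V) : D.P := D.cr (v, D.sign v)

/-- The passage through `v` of the strand which comes from the lower right and leaves to the upper
left. -/
def r (v : D.V) : D.P := D.cr (v, !D.sign v)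

/-- The sides of the diagram: `(p, true)` is the left side of the edge from `p` to `next p`, and
`(p, false)` is its right side.  The map `face` walks along the boundary of the face at the given
side: forwards on right sides, backwards on left sides, and around the corner at a crossing. -/
def face : D.P × Bool → D.P × Bool
  | (p, false) =>
    match D.lab (D.next p) with
    | none => (D.next p, false)
    | some (v, x) => if x = D.sign v then (D.prev (D.r v), true) else (D.l v, false)
  | (p, true) =>
    match D.lab p with
    | none => (D.prev p, true)
    | some (v, x) => if x = D.sign v then (D.r v, false) else (D.prev (D.l v), true)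

/-- An integral flow on the edges: conserved at all points and crossings. -/
def IsFlow (φ : D.P → ℤ) : Prop :=
  (∀ p, D.lab p = none → φ (D.prev p) = φ p) ∧
  ∀ v, φ (D.prev (D.cr (v, true))) + φ (D.prev (D.cr (v, false))) =
    φ (D.cr (v, true)) + φ (D.cr (v, false))

/-- The diagram is planar: every flow (i.e. every `1`-cycle) is the difference of a function on the
faces (i.e. a boundary).  Gluing a disc to every face gives a closed oriented surface in which the
diagram is drawn; the condition says that its first homology vanishes, so that each component of
this surface is a sphere. -/
def Planar : Prop :=
  ∀ φ : D.P → ℤ, D.IsFlow φ → ∃ U : D.P × Bool → ℤ,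
    (∀ s, U (D.face s) = U s) ∧ ∀ p, U (p, true) - U (p, false) = φ p

end Diagram

/-- `OverArc T b D`: the diagram `D` arises from `T` by replacing the edge from `b` to `next b` by
an arc which passes over everything it meets: `T` is embedded in `D` (by `i` on the points and by
`j` on the crossings), the other crossings of `D` are passed over at a new point (on the arc) and
under at a point of `T`, the successor is unchanged except at `b`, and the new points lie on the
circle of `b`. -/
def OverArc (T : Diagram) (b : T.P) (D : Diagram) : Prop :=
  ∃ (i : T.P → D.P) (j : T.V → D.V), Function.Injective i ∧ Function.Injective j ∧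
    (∀ v x, D.cr (j v, x) = i (T.cr (v, x))) ∧
    (∀ v, D.sign (j v) = T.sign v) ∧
    (∀ w, w ∉ Set.range j → D.cr (w, true) ∉ Set.range i ∧ D.cr (w, false) ∈ Set.range i) ∧
    (∀ p, p ≠ b → D.next (i p) = i (T.next p)) ∧
    (∀ q, q ∉ Set.range i → D.next.SameCycle (i b) q)

/-- One move: an overpass of a planar diagram is replaced by another overpass with the same end
points, such that the new diagram is planar again.  The Reidemeister moves are special cases. -/
def Move (D D' : Diagram) : Prop :=
  D.Planar ∧ D'.Planar ∧ ∃ (T : Diagram) (b : T.P), OverArc T b D ∧ OverArc T b D'

/-- Two diagrams represent isotopic links: they are related by a sequence of moves. -/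
def Isotopic (D D' : Diagram) : Prop := Relation.EqvGen Move D D'

/-- Weakly successively almost positive diagrams: there is an overarc such that all other crossings
are positive. -/
def WSAP (D : Diagram) : Prop :=
  ∃ (T : Diagram) (b : T.P), OverArc T b D ∧ ∀ v, T.sign v = true

section Braid

variable {n : ℕ}

/-- Braid words in `σ_0, …, σ_{n-1}` (on `n + 1` strands) are lists of letters `(i, s)`, where
`(i, true)` is `σ_i` and `(i, false)` its inverse. -/
abbrev Word (n : ℕ) : Type := List (Fin n × Bool)

/-- The exchange of strand positions at time `k`: the `k`-th letter `(i, s)` exchanges the positions
`i` and `i + 1`; at the last time nothing happens. -/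
def stepPerm (w : Word n) (k : Fin (w.length + 1)) : Equiv.Perm (Fin (n + 1)) :=
  if h : k.val < w.length then
    Equiv.swap (w.get ⟨k.val, h⟩).1.castSucc (w.get ⟨k.val, h⟩).1.succ
  else 1

/-- The closure of a braid word: the points are the strand positions `j` at the times `k`, the
`k`-th letter is a crossing passed at time `k`, and after the last time we return to time `0`.  For
a positive letter `(i, true)` the strand in position `i` passes over. -/
def closure (n : ℕ) (w : Word n) : Diagram where
  P := Fin (w.length + 1) × Fin (n + 1)
  V := Fin w.length
  finP := inferInstance
  finV := inferInstance
  next := Equiv.prodShear (finRotate (w.length + 1)) (stepPerm w)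
  cr := fun x => (x.1.castSucc, if x.2 = (w.get x.1).2 then (w.get x.1).1.castSucc
    else (w.get x.1).1.succ)
  lab := fun p => if h : p.1.val < w.length then
      if p.2 = (w.get ⟨p.1.val, h⟩).1.castSucc then some (⟨p.1.val, h⟩, (w.get ⟨p.1.val, h⟩).2)
      else if p.2 = (w.get ⟨p.1.val, h⟩).1.succ then
        some (⟨p.1.val, h⟩, !(w.get ⟨p.1.val, h⟩).2)
      else none
    else none
  lab_iff := by
    rintro ⟨k, j⟩ ⟨v, x⟩
    have key : ∀ i : Fin n, i.castSucc ≠ i.succ := fun i => (Fin.castSucc_lt_succ (i := i)).ne
    constructor
    · intro h
      dsimp only at h ⊢
      split_ifs at h with h1 h2 h3
      · rw [Option.some.injEq, Prod.mk.injEq] at h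
        obtain ⟨rfl, rfl⟩ := h
        simp [h2, Fin.ext_iff]
      · rw [Option.some.injEq, Prod.mk.injEq] at h
        obtain ⟨rfl, rfl⟩ := h
        simp [h3, Fin.ext_iff]
    · intro h
      dsimp only at h ⊢
      rw [Prod.mk.injEq] at h
      obtain ⟨rfl, rfl⟩ := h
      have hv : (v.castSucc : Fin (w.length + 1)).val < w.length := by simp
      rw [dif_pos hv]
      by_cases hx : x = (w.get v).2
      · simp [hx]
      · have : x = !(w.get v).2 := by
          cases x <;> cases h : (w.get v).2 <;> simp_all
        have h2 : ((w.get v).1.succ : Fin (n + 1)) ≠ (w.get v).1.castSucc := (key _).symm
        simp only [List.get_eq_getElem] at *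
        simp [hx, this, h2]
  sign := fun k => (w.get k).2

/-- The inverse word. -/
def invWord (u : Word n) : Word n := (u.map fun a => (a.1, !a.2)).reverse

/-- The word `∏ u σ_i u⁻¹` over a list of pairs `(u, i)`: these are the quasipositive braids. -/
def qpWord (c : List (Word n × Fin n)) : Word n :=
  (c.map fun a => a.1 ++ (a.2, true) :: invWord a.1).flatten

end Braid

end Pool.Agent.Lib.MP_b7a6eb_gt
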