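import Pool.Agent.Lib.MP_b7a6eb_gt.Constr
import Pool.Agent.Lib.MP_b7a6eb_gt.MK4

namespace Pool.Agent.Lib.MP_b7a6eb_gt

open Equiv Equiv.Perm

lemma oa1_next_three (D : Diagram) (p : D.P) :
    D.sub4.next (((p, 3) : D.P × Fin 4) : D.sub4.P) = (D.next p, 0) := rfl

lemma oa1_next_lt (D : Diagram) (p : D.P) {k : Fin 4} (h : k ≠ 3) :
    D.sub4.next (((p, k) : D.P × Fin 4) : D.sub4.P) = (p, k + 1) := by
  change (if k = 3 then (D.next p, (0 : Fin 4)) else (p, k + 1)) = (p, k + 1)
  rw [if_neg h]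

lemma oa1_same (D : Diagram) (p : D.P) (k : Fin 4) :
    D.sub4.next.SameCycle (((p, 0) : D.P × Fin 4) : D.sub4.P) (((p, k) : D.P × Fin 4) : D.sub4.P) := by
  have h1 : D.sub4.next.SameCycle (((p, 0) : D.P × Fin 4) : D.sub4.P)
      (((p, 1) : D.P × Fin 4) : D.sub4.P) := by
    have h := oa1_next_lt D p (k := 0) (by decide)
    have h' : (D.sub4.next (((p, 0) : D.P × Fin 4) : D.sub4.P)) = (p, 1) := h
    rw [← h']
    exact sameCycle_apply_right.2 (SameCycle.refl _ _)
  have h2 : D.sub4.next.SameCycle (((p, 1) : D.P × Fin 4) : D.sub4.P)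
      (((p, 2) : D.P × Fin 4) : D.sub4.P) := by
    have h := oa1_next_lt D p (k := 1) (by decide)
    have h' : (D.sub4.next (((p, 1) : D.P × Fin 4) : D.sub4.P)) = (p, 2) := h
    rw [← h']
    exact sameCycle_apply_right.2 (SameCycle.refl _ _)
  have h3 : D.sub4.next.SameCycle (((p, 2) : D.P × Fin 4) : D.sub4.P)
      (((p, 3) : D.P × Fin 4) : D.sub4.P) := by
    have h := oa1_next_lt D p (k := 2) (by decide)
    have h' : (D.sub4.next (((p, 2) : D.P × Fin 4) : D.sub4.P)) = (p, 3) := h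
    rw [← h']
    exact sameCycle_apply_right.2 (SameCycle.refl _ _)
  fin_cases k
  · exact SameCycle.refl _ _
  · exact h1
  · exact h1.trans h2
  · exact (h1.trans h2).trans h3

lemma oa1_same_next (D : Diagram) (p : D.P) :
    D.sub4.next.SameCycle (((p, 0) : D.P × Fin 4) : D.sub4.P)
      (((D.next p, 0) : D.P × Fin 4) : D.sub4.P) := by
  rw [← oa1_next_three]
  exact sameCycle_apply_right.2 (oa1_same D p 3)

lemma oa1_cycle {D : Diagram} {p q : D.P} (h : D.next.SameCycle p q) (k l : Fin 4) :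
    D.sub4.next.SameCycle (((p, k) : D.P × Fin 4) : D.sub4.P)
      (((q, l) : D.P × Fin 4) : D.sub4.P) := by
  obtain ⟨n, rfl⟩ := SameCycle.exists_nat_pow_eq h
  have key : ∀ n : ℕ, D.sub4.next.SameCycle (((p, 0) : D.P × Fin 4) : D.sub4.P)
      ((((D.next ^ n) p, 0) : D.P × Fin 4) : D.sub4.P) := by
    intro n
    induction n with
    | zero => exact SameCycle.refl _ _
    | succ n ih =>
      have h1 : (D.next ^ (n + 1)) p = D.next ((D.next ^ n) p) := by
        rw [pow_succ', Perm.mul_apply]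
      rw [h1]
      exact ih.trans (oa1_same_next D _)
  exact ((oa1_same D p k).symm.trans (key n)).trans (oa1_same D _ l)

/-- [OA1] -/
theorem mSub_sub4 (D : Diagram) : MSub D D.sub4 (fun p => (p, 0)) (Equiv.refl _) := by
  refine ⟨⟨?_, ?_, ?_⟩, fun v x => rfl, fun v => rfl⟩
  · intro p q h
    exact congrArg (fun x : D.P × Fin 4 => x.1) h
  · intro p
    have e1 : (D.sub4.next ^ 1) (((p, 0) : D.P × Fin 4) : D.sub4.P) = (p, 1) := by
      rw [pow_one]
      exact oa1_next_lt D p (k := 0) (by decide)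
    have e2 : (D.sub4.next ^ 2) (((p, 0) : D.P × Fin 4) : D.sub4.P) = (p, 2) := by
      rw [pow_succ', Perm.mul_apply, e1]
      exact oa1_next_lt D p (k := 1) (by decide)
    have e3 : (D.sub4.next ^ 3) (((p, 0) : D.P × Fin 4) : D.sub4.P) = (p, 3) := by
      rw [pow_succ', Perm.mul_apply, e2]
      exact oa1_next_lt D p (k := 2) (by decide)
    have e4 : (D.sub4.next ^ 4) (((p, 0) : D.P × Fin 4) : D.sub4.P) = (D.next p, 0) := by
      rw [pow_succ', Perm.mul_apply, e3]
      exact oa1_next_three D p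
    have hn : ∀ (q : D.P) (k : Fin 4), k ≠ 0 →
        (((q, k) : D.P × Fin 4) : D.sub4.P) ∉ Set.range (fun p : D.P => ((p, 0) : D.P × Fin 4)) := by
      rintro q k hk ⟨p', hp'⟩
      exact hk (congrArg (fun x : D.P × Fin 4 => x.2) hp').symm
    refine ⟨3, e4, ?_⟩
    intro k hk
    interval_cases k
    · rw [zero_add, e1]
      exact hn p 1 (by decide)
    · rw [e2]
      exact hn p 2 (by decide)
    · rw [e3]
      exact hn p 3 (by decide)
  · rintro ⟨q, k⟩
    exact ⟨q, oa1_same D q k⟩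

/-- [OA1] -/
theorem overArc_sub4 {T : Diagram} {b : T.P} {D : Diagram} (h : OverArc T b D) :
    OverArc T.sub4 (b, 3) D.sub4 := by
  obtain ⟨i, j, hi, hj, hcr, hs, hw, hn, hc⟩ := h
  have hmem : ∀ (p : T.P) (k : Fin 4),
      (((i p, k) : D.P × Fin 4) : D.sub4.P) ∈
        Set.range (fun x : T.P × Fin 4 => ((i x.1, x.2) : D.P × Fin 4)) :=
    fun p k => ⟨(p, k), rfl⟩
  have hnot : ∀ (q : D.P) (k : Fin 4), q ∉ Set.range i →
      (((q, k) : D.P × Fin 4) : D.sub4.P) ∉
        Set.range (fun x : T.P × Fin 4 => ((i x.1, x.2) : D.P × Fin 4)) := by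
    rintro q k hq ⟨x, hx⟩
    exact hq ⟨x.1, congrArg (fun y : D.P × Fin 4 => y.1) hx⟩
  refine ⟨fun x : T.P × Fin 4 => ((i x.1, x.2) : D.P × Fin 4), j, ?_, hj, ?_, hs, ?_, ?_, ?_⟩
  · rintro ⟨p, k⟩ ⟨q, l⟩ h
    have h1 : i p = i q := congrArg (fun y : D.P × Fin 4 => y.1) h
    have h2 : k = l := congrArg (fun y : D.P × Fin 4 => y.2) h
    exact Prod.ext (hi h1) h2
  · intro v x
    exact Prod.ext (hcr v x) rfl
  · intro w hw1
    obtain ⟨h1, h2⟩ := hw w hw1
    refine ⟨hnot _ 0 h1, ?_⟩
    obtain ⟨p, hp⟩ := h2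
    exact ⟨(p, 0), Prod.ext hp rfl⟩
  · rintro ⟨p, k⟩ hp
    by_cases hk : k = 3
    · subst hk
      have hpb : p ≠ b := fun h => hp (by rw [h])
      exact Prod.ext (hn p hpb) rfl
    · have e1 := oa1_next_lt D (i p) hk
      have e2 := oa1_next_lt T p hk
      exact e1.trans (by rw [e2])
  · rintro ⟨q, k⟩ hq
    have hq2 : q ∉ Set.range i := by
      rintro ⟨p, rfl⟩
      exact hq (hmem p k)
    exact oa1_cycle (hc q hq2) 3 k

/-- [OA1] normalisation of the ends -/
theorem exists_ends {T : Diagram} {b : T.P} {D : Diagram} (h : OverArc T b D) (hD : D.Planar)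
    (hT : ∀ v, T.sign v = true) :
    ∃ (T' : Diagram) (b' : T'.P) (D' : Diagram), OverArc T' b' D' ∧ D'.Planar ∧
      Isotopic D D' ∧ (∀ v, T'.sign v = true) ∧ Ends T' b' := by
  classical
  obtain ⟨i, j, hi, hj, hcr, hs, hw, hn, hc⟩ := h
  have hprev : ∀ p, p ≠ b → D.prev (i (T.next b)) ≠ i p := by
    intro p hp h
    rw [Diagram.prev_eq_iff, hn p hp] at h
    exact hp (T.next.injective (hi h)).symm
  let i4 : T.P × Fin 4 → D.P × Fin 4 := fun x =>
    if x.1 = b ∧ 2 ≤ x.2 then (D.prev (i (T.next b)), x.2) else (i x.1, x.2)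
  have i4_snd : ∀ x, (i4 x).2 = x.2 := by
    intro x
    change (if x.1 = b ∧ 2 ≤ x.2 then (D.prev (i (T.next b)), x.2) else (i x.1, x.2)).2 = x.2
    split_ifs <;> rfl
  have i4_ne : ∀ (p : T.P) (k : Fin 4), p ≠ b → i4 (p, k) = (i p, k) := by
    intro p k hp
    change (if p = b ∧ 2 ≤ k then (D.prev (i (T.next b)), k) else (i p, k)) = (i p, k)
    rw [if_neg (fun h => hp h.1)]
  have i4_lt : ∀ (p : T.P) (k : Fin 4), k < 2 → i4 (p, k) = (i p, k) := by
    intro p k hk
    change (if p = b ∧ 2 ≤ k then (D.prev (i (T.next b)), k) else (i p, k)) = (i p, k)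
    rw [if_neg (fun h => absurd h.2 (not_le.2 hk))]
  have i4_b : ∀ (k : Fin 4), 2 ≤ k → i4 (b, k) = (D.prev (i (T.next b)), k) := by
    intro k hk
    change (if b = b ∧ 2 ≤ k then (D.prev (i (T.next b)), k) else (i b, k)) = _
    rw [if_pos ⟨rfl, hk⟩]
  have harc : OverArc T.sub4 (b, 1) D.sub4 := by
    refine ⟨i4, j, ?_, hj, ?_, hs, ?_, ?_, ?_⟩
    · rintro ⟨p, k⟩ ⟨q, l⟩ h
      have h2 : k = l := by
        have h3 := congrArg (fun y : D.P × Fin 4 => y.2) h
        exact (i4_snd (p, k)).symm.trans (h3.trans (i4_snd (q, l)))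
      subst h2
      by_cases hp : p = b
      · subst hp
        by_cases hq : q = p
        · rw [hq]
        · by_cases hk : 2 ≤ k
          · exfalso
            rw [i4_b k hk, i4_ne q k hq] at h
            exact hprev q hq (congrArg (fun y : D.P × Fin 4 => y.1) h)
          · rw [i4_lt p k (not_le.1 hk), i4_lt q k (not_le.1 hk)] at h
            exact Prod.ext (hi (congrArg (fun y : D.P × Fin 4 => y.1) h)) rfl
      · by_cases hq : q = b
        · subst hq
          by_cases hk : 2 ≤ k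
          · exfalso
            rw [i4_b k hk, i4_ne p k hp] at h
            exact hprev p hp (congrArg (fun y : D.P × Fin 4 => y.1) h).symm
          · rw [i4_lt p k (not_le.1 hk), i4_lt q k (not_le.1 hk)] at h
            exact Prod.ext (hi (congrArg (fun y : D.P × Fin 4 => y.1) h)) rfl
        · rw [i4_ne p k hp, i4_ne q k hq] at h
          exact Prod.ext (hi (congrArg (fun y : D.P × Fin 4 => y.1) h)) rfl
    · intro v x
      have e1 : i4 (T.cr (v, x), 0) = (i (T.cr (v, x)), 0) := i4_lt _ 0 (by decide)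
      exact (Prod.ext (hcr v x) rfl : ((D.cr (j v, x), 0) : D.P × Fin 4) =
        (i (T.cr (v, x)), 0)).trans e1.symm
    · intro w hw1
      obtain ⟨h1, h2⟩ := hw w hw1
      constructor
      · rintro ⟨⟨p, k⟩, hx⟩
        have h3 : k = 0 := by
          have h4 := congrArg (fun y : D.P × Fin 4 => y.2) hx
          exact (i4_snd (p, k)).symm.trans h4
        subst h3
        rw [i4_lt p 0 (by decide)] at hx
        exact h1 ⟨p, congrArg (fun y : D.P × Fin 4 => y.1) hx⟩
      · obtain ⟨p, hp⟩ := h2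
        refine ⟨(p, 0), ?_⟩
        exact (i4_lt p 0 (by decide)).trans (Prod.ext hp rfl)
    · rintro ⟨p, k⟩ hp
      by_cases hpb : p = b
      · subst hpb
        have hk1 : k ≠ 1 := fun h => hp (by rw [h])
        fin_cases k
        · have e1 : i4 (p, 0) = (i p, 0) := i4_lt p 0 (by decide)
          have e2 : i4 (p, 1) = (i p, 1) := i4_lt p 1 (by decide)
          have e3 := oa1_next_lt D (i p) (k := 0) (by decide)
          exact (congrArg D.sub4.next e1).trans (e3.trans e2.symm)
        · exact absurd rfl hk1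
        · have e1 : i4 (p, 2) = (D.prev (i (T.next p)), 2) := i4_b 2 (by decide)
          have e2 : i4 (p, 3) = (D.prev (i (T.next p)), 3) := i4_b 3 (by decide)
          have e3 := oa1_next_lt D (D.prev (i (T.next p))) (k := 2) (by decide)
          exact (congrArg D.sub4.next e1).trans (e3.trans e2.symm)
        · have e1 : i4 (p, 3) = (D.prev (i (T.next p)), 3) := i4_b 3 (by decide)
          have e2 : i4 (T.next p, 0) = (i (T.next p), 0) := i4_lt _ 0 (by decide)
          have e3 := oa1_next_three D (D.prev (i (T.next p)))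
          rw [D.next_prev] at e3
          exact (congrArg D.sub4.next e1).trans (e3.trans e2.symm)
      · have e1 : i4 (p, k) = (i p, k) := i4_ne p k hpb
        by_cases hk : k = 3
        · subst hk
          have e2 : i4 (T.next p, 0) = (i (T.next p), 0) := i4_lt _ 0 (by decide)
          have e3 := oa1_next_three D (i p)
          rw [hn p hpb] at e3
          exact (congrArg D.sub4.next e1).trans (e3.trans e2.symm)
        · have e2 : i4 (p, k + 1) = (i p, k + 1) := i4_ne p _ hpb
          have e3 := oa1_next_lt D (i p) hk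
          have e4 := oa1_next_lt T p hk
          exact (congrArg D.sub4.next e1).trans (e3.trans (e2.symm.trans
            (congrArg i4 e4).symm))
    · rintro ⟨q, k⟩ hq
      have e1 : i4 (b, 1) = (i b, 1) := i4_lt b 1 (by decide)
      have goal2 : D.sub4.next.SameCycle (((i b, 1) : D.P × Fin 4) : D.sub4.P)
          (((q, k) : D.P × Fin 4) : D.sub4.P) := by
        by_cases hq2 : q ∈ Set.range i
        · obtain ⟨p, rfl⟩ := hq2
          by_cases hpb : p = b
          · subst hpb
            exact oa1_cycle (SameCycle.refl _ _) 1 k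
          · exact absurd ⟨(p, k), i4_ne p k hpb⟩ hq
        · exact oa1_cycle (hc q hq2) 1 k
      have e2 : (i4 (b, 1) : D.sub4.P) = (((i b, 1) : D.P × Fin 4) : D.sub4.P) := e1
      rw [e2]
      exact goal2
  have hm := mSub_sub4 D
  refine ⟨T.sub4, (b, 1), D.sub4, harc, hm.planar_iff.1 hD, hm.isotopic ⟨i b⟩ hD, hT, ?_⟩
  have e1 : T.sub4.next (((b, 1) : T.P × Fin 4) : T.sub4.P) = (b, 2) :=
    oa1_next_lt T b (k := 1) (by decide)
  refine ⟨rfl, ?_, ?_⟩
  · rw [e1]
    rfl
  · rw [e1]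
    intro h
    have h2 : (2 : Fin 4) = 1 := congrArg (fun y : T.P × Fin 4 => y.2) h
    exact absurd h2 (by decide)

end Pool.Agent.Lib.MP_b7a6eb_gt
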