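import Pool.Agent.Lib.MP_b7a6eb_gt.Constr

namespace Pool.Agent.Lib.MP_b7a6eb_gt

open Equiv Equiv.Perm

/-- [OA10a] -/
theorem Pairs.over_same {D : Diagram} {Y : Set D.V} {I J : Type} {zc ec : I → D.V}
    {pc qc mv : J → D.V} {mx : J → Bool} (h : Pairs D Y I J zc ec pc qc mv mx) (S : Set D.V)
    (hYS : Y ⊆ S) (i : I) (hz : zc i ∉ S) (he : ec i ∉ S) (hp : ∀ j, pc j ∉ S)
    (hq : ∀ j, qc j ∉ S) :
    (D.thr S).SameCycle (D.cr (zc i, true)) (D.cr (ec i, true)) ∧
    ¬ (D.thr S).SameCycle (D.cr (zc i, true)) (D.cr (zc i, false)) := by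
  obtain ⟨st, s1, s2, s3, s4, s5, s6, z1, z2, z3, z4, e1, e2, e3, e4⟩ := h.status i
  set g := D.thr S with hg
  set σ : D.P → ℕ := fun p => st (D.prev p) with hσ
  have hgσ : ∀ p, σ (g p) = st (D.osw S p) := by
    intro p
    simp only [hσ, hg, D.thr_apply, D.prev_next]
  -- status along the walk
  have hinv : ∀ p, p ≠ D.cr (zc i, true) → p ≠ D.cr (ec i, true) → σ (g p) = σ p := by
    intro p hpz hpe
    rw [hgσ]
    rcases hl : D.lab p with _ | ⟨v, x⟩
    · rw [D.osw_marker S hl]
      exact (s1 p hl).symm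
    · have h1 := D.cr_of_lab hl
      subst h1
      by_cases hvS : v ∈ S
      · rw [D.osw_cr_mem hvS]
        by_cases hvY : v ∈ Y
        · exact (s2 v hvY x).symm
        · rcases h.cover v hvY with ⟨i', rfl⟩ | ⟨i', rfl⟩ | ⟨j, rfl⟩ | ⟨j, rfl⟩
          · exact (s5 i' (fun h' => hz (h' ▸ hvS)) x (!x)).symm
          · exact (s6 i' (fun h' => he (h' ▸ hvS)) x (!x)).symm
          · exact absurd hvS (hp j)
          · exact absurd hvS (hq j)
      · rw [D.osw_cr_not_mem hvS]
        have hvY : v ∉ Y := fun h' => hvS (hYS h')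
        rcases h.cover v hvY with ⟨i', rfl⟩ | ⟨i', rfl⟩ | ⟨j, rfl⟩ | ⟨j, rfl⟩
        · by_cases hi : i' = i
          · subst hi
            cases x
            · exact z4.trans z3.symm
            · exact absurd rfl hpz
          · exact (s5 i' hi x x).symm
        · by_cases hi : i' = i
          · subst hi
            cases x
            · exact e4.trans e3.symm
            · exact absurd rfl hpe
          · exact (s6 i' hi x x).symm
        · exact (s3 j x).symm
        · exact (s4 j x).symm
  have hgz : σ (g (D.cr (zc i, true))) = 2 := by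
    rw [hgσ, D.osw_cr_not_mem hz]; exact z2
  have hge : σ (g (D.cr (ec i, true))) = 0 := by
    rw [hgσ, D.osw_cr_not_mem he]; exact e2
  constructor
  · by_contra hcon
    have hne : ∀ k : ℕ, (g ^ k) (D.cr (zc i, true)) ≠ D.cr (ec i, true) := fun k hk =>
      hcon ⟨k, by simpa using hk⟩
    have key : ∀ k : ℕ, σ ((g ^ (k + 1)) (D.cr (zc i, true))) = 2 := by
      intro k
      induction k with
      | zero => simpa using hgz
      | succ k ih =>
        rw [pow_succ', Perm.mul_apply]
        by_cases h1 : (g ^ (k + 1)) (D.cr (zc i, true)) = D.cr (zc i, true)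
        · rw [h1, hgz]
        · rw [hinv _ h1 (hne _), ih]
    have h1 := key (orderOf g - 1)
    rw [Nat.sub_add_cancel (orderOf_pos g), pow_orderOf_eq_one] at h1
    have h2 : σ (D.cr (zc i, true)) = 0 := z1
    rw [Perm.one_apply, h2] at h1
    exact absurd h1 (by norm_num)
  · intro hcon
    have key : ∀ k : ℕ, σ ((g ^ k) (D.cr (zc i, true))) = 0 ∨
        σ ((g ^ k) (D.cr (zc i, true))) = 2 := by
      intro k
      induction k with
      | zero => left; exact z1
      | succ k ih =>
        rw [pow_succ', Perm.mul_apply]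
        by_cases h1 : (g ^ k) (D.cr (zc i, true)) = D.cr (zc i, true)
        · right; rw [h1, hgz]
        · by_cases h2 : (g ^ k) (D.cr (zc i, true)) = D.cr (ec i, true)
          · left; rw [h2, hge]
          · rw [hinv _ h1 h2]; exact ih
    obtain ⟨k, hk⟩ := SameCycle.exists_nat_pow_eq hcon
    have h1 := key k
    rw [hk] at h1
    have h2 : σ (D.cr (zc i, false)) = 1 := z3
    rw [h2] at h1
    rcases h1 with h1 | h1 <;> norm_num at h1

end Pool.Agent.Lib.MP_b7a6eb_gt
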