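import Pool.Agent.Lib.MP_b7a6eb_gt.Constr
import Pool.Agent.Lib.MP_b7a6eb_gt.PM1

namespace Pool.Agent.Lib.MP_b7a6eb_gt

open Equiv Equiv.Perm

/-- [OA10b] smoothing one more crossing -/
theorem thr_insert (D : Diagram) [DecidableEq D.P] (S : Set D.V) (v : D.V) (hv : v ∉ S) :
    D.thr (insert v S) = D.thr S * swap (D.cr (v, true)) (D.cr (v, false)) := by
  have hmem : v ∈ insert v S := Set.mem_insert _ _
  ext p
  rw [Perm.mul_apply, D.thr_apply, D.thr_apply]
  congr 1
  rcases hl : D.lab p with _ | ⟨w, x⟩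
  · have h1 : p ≠ D.cr (v, true) := fun h => by rw [h] at hl; simp at hl
    have h2 : p ≠ D.cr (v, false) := fun h => by rw [h] at hl; simp at hl
    rw [swap_apply_of_ne_of_ne h1 h2, D.osw_marker _ hl, D.osw_marker _ hl]
  · have h1 := D.cr_of_lab hl
    subst h1
    by_cases hwv : w = v
    · subst hwv
      rw [D.osw_cr_mem hmem]
      cases x
      · rw [swap_apply_right, D.osw_cr_not_mem hv]; rfl
      · rw [swap_apply_left, D.osw_cr_not_mem hv]; rfl
    · have h1 : D.cr (w, x) ≠ D.cr (v, true) := by simp [hwv]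
      have h2 : D.cr (w, x) ≠ D.cr (v, false) := by simp [hwv]
      rw [swap_apply_of_ne_of_ne h1 h2]
      by_cases hwS : w ∈ S
      · rw [D.osw_cr_mem (Set.mem_insert_of_mem _ hwS), D.osw_cr_mem hwS]
      · rw [D.osw_cr_not_mem hwS, D.osw_cr_not_mem]
        simp [hwv, hwS]

/-- merging two cycles keeps points of one cycle together -/
lemma oa10_merge {α : Type*} [Finite α] [DecidableEq α] (f : Perm α) {x y a b : α}
    (h : ¬ f.SameCycle x y) (hab : f.SameCycle a b) : (f * swap x y).SameCycle a b := by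
  set g := f * swap x y with hg
  have hgxy : g.SameCycle x y := pm1_same f h
  have hfg : ∀ a, f a = g (swap x y a) := by
    intro a
    rw [hg, Perm.mul_apply, swap_apply_self]
  refine pm1_le f f (fun a b => g.SameCycle a b) ⟨fun _ => SameCycle.refl _ _, SameCycle.symm,
      SameCycle.trans⟩ ?_ hab
  intro a
  rw [hfg]
  refine SameCycle.trans ?_ ((sameCycle_apply_right).2 (SameCycle.refl _ _))
  by_cases hax : a = x
  · rw [hax, swap_apply_left]; exact hgxy
  · by_cases hay : a = y
    · rw [hay, swap_apply_right]; exact hgxy.symm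
    · rw [swap_apply_of_ne_of_ne hax hay]

/-- [OA10b] smoothing a pair `z`, `e`: first two circles are merged, then one is split -/
theorem cyc_thr_ze (D : Diagram) (S : Set D.V) (z e : D.V) (hz : z ∉ S) (he : e ∉ S)
    (hne : z ≠ e) (hu : D.next (D.cr (z, false)) = D.cr (e, false))
    (h1 : (D.thr S).SameCycle (D.cr (z, true)) (D.cr (e, true)))
    (h2 : ¬ (D.thr S).SameCycle (D.cr (z, true)) (D.cr (z, false))) :
    cyc (D.thr (insert e (insert z S))) = cyc (D.thr S) := by
  classical
  have he' : e ∉ insert z S := by simp [hne.symm, he]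
  rw [thr_insert D _ e he']
  have hf1 := thr_insert D S z hz
  have hm := oa10_merge (D.thr S) h2 h1
  rw [← hf1] at hm
  have hs : (D.thr (insert z S)).SameCycle (D.cr (z, true)) (D.cr (e, false)) := by
    have h3 : D.thr (insert z S) (D.cr (z, true)) = D.cr (e, false) := by
      rw [D.thr_apply, D.osw_cr_mem (Set.mem_insert _ _)]
      exact hu
    rw [← h3]
    exact (sameCycle_apply_right).2 (SameCycle.refl _ _)
  rw [cyc_mul_swap_same _ (by simp) (hm.symm.trans hs), hf1]
  exact cyc_mul_swap_diff _ h2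

/-- [OA10b] smoothing a pair `p`, `q` -/
theorem cyc_thr_pq (D : Diagram) (S : Set D.V) (p q m : D.V) (x : Bool) (hp : p ∉ S)
    (hq : q ∉ S) (hne : p ≠ q) (hm : m ∈ S)
    (ho : D.next (D.cr (p, true)) = D.cr (q, true))
    (hu : D.next (D.cr (p, false)) = D.cr (m, x))
    (hu' : D.next (D.cr (m, !x)) = D.cr (q, false)) :
    cyc (D.thr (insert q (insert p S))) = cyc (D.thr S) := by
  classical
  have hq' : q ∉ insert p S := by simp [hne.symm, hq]
  rw [thr_insert D _ q hq']
  have hf1 := thr_insert D S p hp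
  have a1 : D.thr (insert p S) (D.cr (p, true)) = D.cr (m, x) := by
    rw [D.thr_apply, D.osw_cr_mem (Set.mem_insert _ _)]
    exact hu
  have a2 : D.thr (insert p S) (D.cr (p, false)) = D.cr (q, true) := by
    rw [D.thr_apply, D.osw_cr_mem (Set.mem_insert _ _)]
    exact ho
  have a3 : D.thr (insert p S) (D.cr (m, x)) = D.cr (q, false) := by
    rw [D.thr_apply, D.osw_cr_mem (Set.mem_insert_of_mem _ hm)]
    exact hu'
  have b1 : (D.thr (insert p S)).SameCycle (D.cr (p, true)) (D.cr (q, false)) := by
    rw [← a3, ← a1]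
    exact (sameCycle_apply_right).2 ((sameCycle_apply_right).2 (SameCycle.refl _ _))
  have b2 : (D.thr (insert p S)).SameCycle (D.cr (p, false)) (D.cr (q, true)) := by
    rw [← a2]
    exact (sameCycle_apply_right).2 (SameCycle.refl _ _)
  by_cases hs : (D.thr S).SameCycle (D.cr (p, true)) (D.cr (p, false))
  · have c1 : ¬ (D.thr (insert p S)).SameCycle (D.cr (p, false)) (D.cr (p, true)) := by
      rw [hf1]
      exact pm1_not_same _ (by simp) hs
    have c2 : ¬ (D.thr (insert p S)).SameCycle (D.cr (q, true)) (D.cr (q, false)) :=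
      fun h => c1 ((b2.trans h).trans b1.symm)
    have c3 := cyc_mul_swap_diff _ c2
    have c4 := cyc_mul_swap_same (D.thr S) (x := D.cr (p, true)) (y := D.cr (p, false))
      (by simp) hs
    rw [← hf1] at c4
    omega
  · have c1 : (D.thr (insert p S)).SameCycle (D.cr (p, true)) (D.cr (p, false)) := by
      rw [hf1]; exact pm1_same _ hs
    have c2 : (D.thr (insert p S)).SameCycle (D.cr (q, true)) (D.cr (q, false)) :=
      (b2.symm.trans c1.symm).trans b1
    have c3 := cyc_mul_swap_same (D.thr (insert p S)) (x := D.cr (q, true))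
      (y := D.cr (q, false)) (by simp) c2
    have c4 := cyc_mul_swap_diff (D.thr S) hs
    rw [← hf1] at c4
    omega

end Pool.Agent.Lib.MP_b7a6eb_gt
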