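import Pool.Agent.Lib.MP_b7a6eb_gt.Constr
import Pool.Agent.Lib.MP_b7a6eb_gt.OA10a
import Pool.Agent.Lib.MP_b7a6eb_gt.OA10b

namespace Pool.Agent.Lib.MP_b7a6eb_gt

open Equiv Equiv.Perm

/-- [OA10] -/
theorem Pairs.cyc_eq {D : Diagram} {Y : Set D.V} {I J : Type} {zc ec : I → D.V}
    {pc qc mv : J → D.V} {mx : J → Bool} (h : Pairs D Y I J zc ec pc qc mv mx) :
    cyc D.seif = cyc (D.thr Y) := by
  classical
  haveI := h.finI
  haveI := h.finJ
  haveI : Fintype I := Fintype.ofFinite I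
  haveI : Fintype J := Fintype.ofFinite J
  -- first the pairs `z`, `e`
  have key1 : ∀ A : Finset I, cyc (D.thr (Y ∪ zc '' A ∪ ec '' A)) = cyc (D.thr Y) := by
    intro A
    induction A using Finset.induction_on with
    | empty => simp
    | @insert i A hi ih =>
      have hset : Y ∪ zc '' (insert i A : Finset I) ∪ ec '' (insert i A : Finset I) =
          insert (ec i) (insert (zc i) (Y ∪ zc '' A ∪ ec '' A)) := by
        rw [Finset.coe_insert, Set.image_insert_eq, Set.image_insert_eq]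
        ext v
        simp only [Set.mem_union, Set.mem_insert_iff]
        tauto
      have hz : zc i ∉ Y ∪ zc '' A ∪ ec '' A := by
        rintro ((h1 | ⟨i', h1, h2⟩) | ⟨i', h1, h2⟩)
        · exact h.zY i h1
        · rw [h.zinj h2] at h1; exact hi h1
        · exact h.ze i i' h2.symm
      have he : ec i ∉ Y ∪ zc '' A ∪ ec '' A := by
        rintro ((h1 | ⟨i', h1, h2⟩) | ⟨i', h1, h2⟩)
        · exact h.eY i h1
        · exact h.ze i' i h2
        · rw [h.einj h2] at h1; exact hi h1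
      have hp : ∀ j, pc j ∉ Y ∪ zc '' A ∪ ec '' A := by
        rintro j ((h1 | ⟨i', h1, h2⟩) | ⟨i', h1, h2⟩)
        · exact h.pY j h1
        · exact h.zp i' j h2
        · exact h.ep i' j h2
      have hq : ∀ j, qc j ∉ Y ∪ zc '' A ∪ ec '' A := by
        rintro j ((h1 | ⟨i', h1, h2⟩) | ⟨i', h1, h2⟩)
        · exact h.qY j h1
        · exact h.zq i' j h2
        · exact h.eq i' j h2
      obtain ⟨o1, o2⟩ := h.over_same (Y ∪ zc '' A ∪ ec '' A)
        (fun v hv => Or.inl (Or.inl hv)) i hz he hp hq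
      rw [hset, cyc_thr_ze D _ (zc i) (ec i) hz he (h.ze i i) (h.zu i) o1 o2, ih]
  -- then the pairs `p`, `q`
  set S0 : Set D.V := Y ∪ zc '' (Finset.univ : Finset I) ∪ ec '' (Finset.univ : Finset I)
    with hS0
  have key2 : ∀ B : Finset J, cyc (D.thr (S0 ∪ pc '' B ∪ qc '' B)) = cyc (D.thr S0) := by
    intro B
    induction B using Finset.induction_on with
    | empty => simp
    | @insert j B hj ih =>
      have hset : S0 ∪ pc '' (insert j B : Finset J) ∪ qc '' (insert j B : Finset J) =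
          insert (qc j) (insert (pc j) (S0 ∪ pc '' B ∪ qc '' B)) := by
        rw [Finset.coe_insert, Set.image_insert_eq, Set.image_insert_eq]
        ext v
        simp only [Set.mem_union, Set.mem_insert_iff]
        tauto
      have hp0 : ∀ j, pc j ∉ S0 := by
        rintro j ((h1 | ⟨i', h1, h2⟩) | ⟨i', h1, h2⟩)
        · exact h.pY j h1
        · exact h.zp i' j h2
        · exact h.ep i' j h2
      have hq0 : ∀ j, qc j ∉ S0 := by
        rintro j ((h1 | ⟨i', h1, h2⟩) | ⟨i', h1, h2⟩)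
        · exact h.qY j h1
        · exact h.zq i' j h2
        · exact h.eq i' j h2
      have hp : pc j ∉ S0 ∪ pc '' B ∪ qc '' B := by
        rintro ((h1 | ⟨i', h1, h2⟩) | ⟨i', h1, h2⟩)
        · exact hp0 j h1
        · rw [h.pinj h2] at h1; exact hj h1
        · exact h.pq j i' h2.symm
      have hq : qc j ∉ S0 ∪ pc '' B ∪ qc '' B := by
        rintro ((h1 | ⟨i', h1, h2⟩) | ⟨i', h1, h2⟩)
        · exact hq0 j h1
        · exact h.pq i' j h2
        · rw [h.qinj h2] at h1; exact hj h1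
      rw [hset, cyc_thr_pq D _ (pc j) (qc j) (mv j) (mx j) hp hq (h.pq j j)
        (Or.inl (Or.inl (Or.inl (Or.inl (h.mY j))))) (h.po j) (h.pu j) (h.qu j), ih]
  have huniv : S0 ∪ pc '' (Finset.univ : Finset J) ∪ qc '' (Finset.univ : Finset J) =
      Set.univ := by
    apply Set.eq_univ_of_forall
    intro v
    by_cases hv : v ∈ Y
    · exact Or.inl (Or.inl (Or.inl (Or.inl hv)))
    · rcases h.cover v hv with ⟨i, rfl⟩ | ⟨i, rfl⟩ | ⟨j, rfl⟩ | ⟨j, rfl⟩
      · exact Or.inl (Or.inl (Or.inl (Or.inr ⟨i, by simp, rfl⟩)))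
      · exact Or.inl (Or.inl (Or.inr ⟨i, by simp, rfl⟩))
      · exact Or.inl (Or.inr ⟨j, by simp, rfl⟩)
      · exact Or.inr ⟨j, by simp, rfl⟩
  have h1 := key2 Finset.univ
  rw [huniv] at h1
  exact h1.trans (key1 Finset.univ)

end Pool.Agent.Lib.MP_b7a6eb_gt
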