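import Pool.Agent.Lib.MP_b7a6eb_gt.Constr
import Pool.Agent.Lib.MP_b7a6eb_gt.OA10a

namespace Pool.Agent.Lib.MP_b7a6eb_gt

open Equiv Equiv.Perm

/-- number of functions which are constant on the cycles -/
lemma oa11_aux_card {α : Type} [Finite α] (f : Perm α) (H : Type) [Finite H] :
    Nat.card {g : α → H // ∀ p, g (f p) = g p} = Nat.card H ^ cyc f := by
  have e : {g : α → H // ∀ p, g (f p) = g p} ≃ (Quotient (SameCycle.setoid f) → H) :=
    { toFun := fun g => fun q => Quotient.lift g.1 (by
        intro a b hab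
        obtain ⟨n, hn⟩ := SameCycle.exists_nat_pow_eq (f := f) hab
        have key : ∀ n : ℕ, g.1 ((f ^ n) a) = g.1 a := by
          intro n
          induction n with
          | zero => rfl
          | succ n ih => rw [pow_succ', Perm.mul_apply, g.2, ih]
        rw [← hn, key]) q
      invFun := fun k => ⟨fun p => k (Quotient.mk _ p), by
        intro p
        have hq : (Quotient.mk (SameCycle.setoid f) (f p)) = Quotient.mk _ p := by
          apply Quotient.sound
          change f.SameCycle (f p) p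
          exact (SameCycle.refl f p).apply_left
        change k (Quotient.mk _ (f p)) = k (Quotient.mk _ p)
        rw [hq]⟩
      left_inv := by
        intro g
        rfl
      right_inv := by
        intro k
        funext q
        induction q using Quotient.inductionOn with
        | h p => rfl }
  rw [Nat.card_congr e, Nat.card_fun]
  rfl

section

variable {D : Diagram} {Y : Set D.V} {I J : Type} {zc ec : I → D.V}
    {pc qc mv : J → D.V} {mx : J → Bool}

/-- short edges and the point with the conjugating colour -/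
def Oa11Sh (D : Diagram) {I J : Type} (zc : I → D.V) (pc mv : J → D.V) (mx : J → Bool)
    (p a : D.P) : Prop :=
  (∃ i, p = D.cr (zc i, false) ∧ a = D.cr (zc i, true)) ∨
  (∃ j, p = D.cr (pc j, false) ∧ a = D.cr (pc j, true)) ∨
  ∃ j, p = D.cr (mv j, !mx j) ∧ a = D.cr (pc j, true)

/-- the next point of a short edge -/
lemma oa11_next (h : Pairs D Y I J zc ec pc qc mv mx) {p a : D.P}
    (hs : Oa11Sh D zc pc mv mx p a) :
    (∃ i, D.next p = D.cr (ec i, false)) ∨ (∃ j, D.next p = D.cr (mv j, mx j)) ∨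
      ∃ j, D.next p = D.cr (qc j, false) := by
  rcases hs with ⟨i, rfl, -⟩ | ⟨j, rfl, -⟩ | ⟨j, rfl, -⟩
  · exact Or.inl ⟨i, h.zu i⟩
  · exact Or.inr (Or.inl ⟨j, h.pu j⟩)
  · exact Or.inr (Or.inr ⟨j, h.qu j⟩)

lemma oa11_cr_ne {v w : D.V} {x y : Bool} (h : v ≠ w) : D.cr (v, x) ≠ D.cr (w, y) := by
  intro h'
  exact h (Prod.mk.inj (D.cr_inj h')).1

/-- the conjugating point is unique -/
lemma oa11_sh_unique (h : Pairs D Y I J zc ec pc qc mv mx) {p a a' : D.P}
    (hs : Oa11Sh D zc pc mv mx p a) (hs' : Oa11Sh D zc pc mv mx p a') : a = a' := by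
  have hm : ∀ j v, v ∉ Y → mv j ≠ v := by
    intro j v hv h'
    exact hv (h' ▸ h.mY j)
  rcases hs with ⟨i, hp, rfl⟩ | ⟨j, hp, rfl⟩ | ⟨j, hp, rfl⟩ <;>
  rcases hs' with ⟨i', hp', rfl⟩ | ⟨j', hp', rfl⟩ | ⟨j', hp', rfl⟩
  · rw [hp] at hp'
    have := D.cr_inj hp'
    rw [(Prod.mk.inj this).1]
  · rw [hp] at hp'
    exact absurd (Prod.mk.inj (D.cr_inj hp')).1 (h.zp _ _)
  · rw [hp] at hp'
    exact absurd (Prod.mk.inj (D.cr_inj hp')).1.symm (hm _ _ (h.zY i))
  · rw [hp] at hp'
    exact absurd (Prod.mk.inj (D.cr_inj hp')).1.symm (h.zp _ _)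
  · rw [hp] at hp'
    have := D.cr_inj hp'
    rw [(Prod.mk.inj this).1]
  · rw [hp] at hp'
    exact absurd (Prod.mk.inj (D.cr_inj hp')).1.symm (hm _ _ (h.pY j))
  · rw [hp] at hp'
    exact absurd (Prod.mk.inj (D.cr_inj hp')).1 (hm _ _ (h.zY i'))
  · rw [hp] at hp'
    exact absurd (Prod.mk.inj (D.cr_inj hp')).1 (hm _ _ (h.pY j'))
  · rw [hp] at hp'
    have h1 := Prod.mk.inj (D.cr_inj hp')
    have h2 : mx j = mx j' := Bool.not_inj h1.2
    have h3 : D.next (D.cr (pc j, false)) = D.next (D.cr (pc j', false)) := by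
      rw [h.pu, h.pu, h1.1, h2]
    have h4 := D.cr_inj (D.next.injective h3)
    rw [(Prod.mk.inj h4).1]

open Classical in
/-- the conjugating colour -/
noncomputable def oa11k (D : Diagram) {I J : Type} (zc : I → D.V) (pc mv : J → D.V)
    (mx : J → Bool) {H : Type} [Group H] (c : D.P → H) (p : D.P) : H :=
  if hp : ∃ a, Oa11Sh D zc pc mv mx p a then c hp.choose else 1

lemma oa11k_of (h : Pairs D Y I J zc ec pc qc mv mx) {H : Type} [Group H] (c : D.P → H)
    {p a : D.P} (hs : Oa11Sh D zc pc mv mx p a) : oa11k D zc pc mv mx c p = c a := by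
  have hp : ∃ a, Oa11Sh D zc pc mv mx p a := ⟨a, hs⟩
  rw [oa11k, dif_pos hp, oa11_sh_unique h hp.choose_spec hs]

lemma oa11k_not {H : Type} [Group H] (c : D.P → H)
    {p : D.P} (hs : ∀ a, ¬ Oa11Sh D zc pc mv mx p a) : oa11k D zc pc mv mx c p = 1 := by
  rw [oa11k, dif_neg]
  rintro ⟨a, ha⟩
  exact hs a ha

/-- removing the conjugations -/
noncomputable def oa11F (D : Diagram) {I J : Type} (zc : I → D.V) (pc mv : J → D.V)
    (mx : J → Bool) {H : Type} [Group H] (c : D.P → H) (p : D.P) : H :=
  (oa11k D zc pc mv mx c p)⁻¹ * c p * oa11k D zc pc mv mx c p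

/-- inserting the conjugations -/
noncomputable def oa11G (D : Diagram) {I J : Type} (zc : I → D.V) (pc mv : J → D.V)
    (mx : J → Bool) {H : Type} [Group H] (c : D.P → H) (p : D.P) : H :=
  oa11k D zc pc mv mx c p * c p * (oa11k D zc pc mv mx c p)⁻¹

/-- the over points are not short -/
lemma oa11_over (h : Pairs D Y I J zc ec pc qc mv mx) {v : D.V} (hv : v ∉ Y) (a : D.P) :
    ¬ Oa11Sh D zc pc mv mx (D.cr (v, true)) a := by
  rintro (⟨i, hp, -⟩ | ⟨j, hp, -⟩ | ⟨j, hp, -⟩)
  · exact absurd (Prod.mk.inj (D.cr_inj hp)).2 (by decide)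
  · exact absurd (Prod.mk.inj (D.cr_inj hp)).2 (by decide)
  · exact hv ((Prod.mk.inj (D.cr_inj hp)).1 ▸ h.mY j)

lemma oa11_over_prev (h : Pairs D Y I J zc ec pc qc mv mx) {v : D.V} (hv : v ∉ Y) (a : D.P) :
    ¬ Oa11Sh D zc pc mv mx (D.prev (D.cr (v, true))) a := by
  intro hs
  rcases oa11_next h hs with ⟨i, hi⟩ | ⟨j, hj⟩ | ⟨j, hj⟩
  · rw [D.next_prev] at hi
    exact absurd (Prod.mk.inj (D.cr_inj hi)).2 (by decide)
  · rw [D.next_prev] at hj
    exact hv ((Prod.mk.inj (D.cr_inj hj)).1 ▸ h.mY j)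
  · rw [D.next_prev] at hj
    exact absurd (Prod.mk.inj (D.cr_inj hj)).2 (by decide)

lemma oa11_marker {p : D.P} (hp : D.lab p = none) (a : D.P) :
    ¬ Oa11Sh D zc pc mv mx p a := by
  rw [D.lab_eq_none] at hp
  rintro (⟨i, h1, -⟩ | ⟨j, h1, -⟩ | ⟨j, h1, -⟩)
  · exact hp _ h1.symm
  · exact hp _ h1.symm
  · exact hp _ h1.symm

lemma oa11_marker_prev (h : Pairs D Y I J zc ec pc qc mv mx) {p : D.P} (hp : D.lab p = none)
    (a : D.P) : ¬ Oa11Sh D zc pc mv mx (D.prev p) a := by
  rw [D.lab_eq_none] at hp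
  intro hs
  rcases oa11_next h hs with ⟨i, hi⟩ | ⟨j, hj⟩ | ⟨j, hj⟩
  · rw [D.next_prev] at hi; exact hp _ hi.symm
  · rw [D.next_prev] at hj; exact hp _ hj.symm
  · rw [D.next_prev] at hj; exact hp _ hj.symm

lemma oa11_under_prev (h : Pairs D Y I J zc ec pc qc mv mx) {v : D.V} (hv : v ∉ Y)
    (he : ∀ i, v ≠ ec i) (hq : ∀ j, v ≠ qc j) (a : D.P) :
    ¬ Oa11Sh D zc pc mv mx (D.prev (D.cr (v, false))) a := by
  intro hs
  rcases oa11_next h hs with ⟨i, hi⟩ | ⟨j, hj⟩ | ⟨j, hj⟩
  · rw [D.next_prev] at hi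
    exact he i (Prod.mk.inj (D.cr_inj hi)).1
  · rw [D.next_prev] at hj
    exact hv ((Prod.mk.inj (D.cr_inj hj)).1 ▸ h.mY j)
  · rw [D.next_prev] at hj
    exact hq j (Prod.mk.inj (D.cr_inj hj)).1

lemma oa11_under (h : Pairs D Y I J zc ec pc qc mv mx) {v : D.V} (hv : v ∉ Y)
    (he : ∀ i, v ≠ zc i) (hq : ∀ j, v ≠ pc j) (a : D.P) :
    ¬ Oa11Sh D zc pc mv mx (D.cr (v, false)) a := by
  rintro (⟨i, hp, -⟩ | ⟨j, hp, -⟩ | ⟨j, hp, -⟩)
  · exact he i (Prod.mk.inj (D.cr_inj hp)).1
  · exact hq j (Prod.mk.inj (D.cr_inj hp)).1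
  · exact hv ((Prod.mk.inj (D.cr_inj hp)).1 ▸ h.mY j)

/-- the conjugating colours agree along smoothed crossings -/
lemma oa11k_Y (h : Pairs D Y I J zc ec pc qc mv mx) {H : Type} [Group H] (c : D.P → H)
    {v : D.V} (hv : v ∈ Y) (x : Bool) :
    oa11k D zc pc mv mx c (D.cr (v, x)) = oa11k D zc pc mv mx c (D.prev (D.cr (v, !x))) := by
  by_cases hj : ∃ j, v = mv j ∧ x = !mx j
  · obtain ⟨j, rfl, rfl⟩ := hj
    rw [oa11k_of h c (Or.inr (Or.inr ⟨j, rfl, rfl⟩))]
    rw [Bool.not_not, ← h.pu j, D.prev_next]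
    rw [oa11k_of h c (Or.inr (Or.inl ⟨j, rfl, rfl⟩))]
  · rw [oa11k_not, oa11k_not]
    · intro a hs
      rcases oa11_next h hs with ⟨i, hi⟩ | ⟨j, hi⟩ | ⟨j, hi⟩
      · rw [D.next_prev] at hi
        exact h.eY i ((Prod.mk.inj (D.cr_inj hi)).1 ▸ hv)
      · rw [D.next_prev] at hi
        have h1 := Prod.mk.inj (D.cr_inj hi)
        apply hj
        refine ⟨j, h1.1, ?_⟩
        rw [← h1.2, Bool.not_not]
      · rw [D.next_prev] at hi
        exact h.qY j ((Prod.mk.inj (D.cr_inj hi)).1 ▸ hv)
    · rintro a (⟨i, hp, -⟩ | ⟨j, hp, -⟩ | ⟨j, hp, -⟩)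
      · exact h.zY i ((Prod.mk.inj (D.cr_inj hp)).1 ▸ hv)
      · exact h.pY j ((Prod.mk.inj (D.cr_inj hp)).1 ▸ hv)
      · have h1 := Prod.mk.inj (D.cr_inj hp)
        exact hj ⟨j, h1.1, h1.2⟩

lemma oa11F_not {H : Type} [Group H] (c : D.P → H)
    {p : D.P} (hs : ∀ a, ¬ Oa11Sh D zc pc mv mx p a) : oa11F D zc pc mv mx c p = c p := by
  rw [oa11F, oa11k_not c hs]
  simp

lemma oa11F_of (h : Pairs D Y I J zc ec pc qc mv mx) {H : Type} [Group H] (c : D.P → H)
    {p a : D.P} (hs : Oa11Sh D zc pc mv mx p a) :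
    oa11F D zc pc mv mx c p = (c a)⁻¹ * c p * c a := by
  rw [oa11F, oa11k_of h c hs]

/-- the conjugating colours do not change -/
lemma oa11k_congr (h : Pairs D Y I J zc ec pc qc mv mx) {H : Type} [Group H] (c c' : D.P → H)
    (hc : ∀ v, v ∉ Y → c' (D.cr (v, true)) = c (D.cr (v, true))) (p : D.P) :
    oa11k D zc pc mv mx c' p = oa11k D zc pc mv mx c p := by
  by_cases hs : ∃ a, Oa11Sh D zc pc mv mx p a
  · obtain ⟨a, ha⟩ := hs
    rw [oa11k_of h c ha, oa11k_of h c' ha]
    rcases ha with ⟨i, -, rfl⟩ | ⟨j, -, rfl⟩ | ⟨j, -, rfl⟩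
    · exact hc _ (h.zY i)
    · exact hc _ (h.pY j)
    · exact hc _ (h.pY j)
  · rw [oa11k_not, oa11k_not]
    · intro a ha; exact hs ⟨a, ha⟩
    · intro a ha; exact hs ⟨a, ha⟩

lemma oa11FG (h : Pairs D Y I J zc ec pc qc mv mx) {H : Type} [Group H] (c : D.P → H) :
    oa11F D zc pc mv mx (oa11G D zc pc mv mx c) = c := by
  have hk : ∀ p, oa11k D zc pc mv mx (oa11G D zc pc mv mx c) p =
      oa11k D zc pc mv mx c p := by
    apply oa11k_congr h
    intro v hv
    rw [oa11G, oa11k_not c (oa11_over h hv)]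
    simp
  funext p
  rw [oa11F, hk, oa11G]
  group

lemma oa11GF (h : Pairs D Y I J zc ec pc qc mv mx) {H : Type} [Group H] (c : D.P → H) :
    oa11G D zc pc mv mx (oa11F D zc pc mv mx c) = c := by
  have hk : ∀ p, oa11k D zc pc mv mx (oa11F D zc pc mv mx c) p =
      oa11k D zc pc mv mx c p := by
    apply oa11k_congr h
    intro v hv
    rw [oa11F_not c (oa11_over h hv)]
  funext p
  rw [oa11G, hk, oa11F]
  group

/-- a colouring without conjugations is constant along the circles, except possibly at the under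
points of the crossings `ec i` -/
lemma oa11_inv_of_col (h : Pairs D Y I J zc ec pc qc mv mx) {H : Type} [Group H] {c : D.P → H}
    (hc : D.IsCol Y c) (p : D.P)
    (hp : ∀ i, p = D.cr (ec i, false) → c (D.cr (zc i, true)) = c (D.cr (ec i, true))) :
    oa11F D zc pc mv mx c (D.osw Y p) = oa11F D zc pc mv mx c (D.prev p) := by
  obtain ⟨h1, h2, h3⟩ := hc
  rcases hlab : D.lab p with _ | ⟨v, x⟩
  · rw [D.osw_marker Y hlab, oa11F_not c (oa11_marker hlab),
      oa11F_not c (oa11_marker_prev h hlab), h1 p hlab]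
  · have hpe := D.cr_of_lab hlab
    subst hpe
    by_cases hv : v ∈ Y
    · rw [D.osw_cr_mem hv]
      have hk := oa11k_Y h c hv (!x)
      rw [Bool.not_not] at hk
      have h4 := h2 v hv (!x)
      rw [Bool.not_not] at h4
      rw [oa11F, oa11F, hk, h4]
    · rw [D.osw_cr_not_mem hv]
      obtain ⟨h4, h5⟩ := h3 v hv
      cases x
      · rcases h.cover v hv with ⟨i, rfl⟩ | ⟨i, rfl⟩ | ⟨j, rfl⟩ | ⟨j, rfl⟩
        · rw [oa11F_of h c (Or.inl ⟨i, rfl, rfl⟩),
            oa11F_not c (oa11_under_prev h hv (h.ze i) (h.zq i)), h5, if_pos (h.zs i)]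
          group
        · have hes := h.es i
          have h6 := hp i rfl
          rw [oa11F_not c (oa11_under h hv (fun i' h' => h.ze i' i h'.symm) (h.ep i)), h5,
            if_neg (by rw [hes]; decide), ← h.zu i, D.prev_next,
            oa11F_of h c (Or.inl ⟨i, rfl, rfl⟩), h6]
        · rw [oa11F_of h c (Or.inr (Or.inl ⟨j, rfl, rfl⟩)),
            oa11F_not c (oa11_under_prev h hv (fun i h' => h.ep i j h'.symm) (h.pq j)), h5,
            if_pos (h.ps j)]
          group
        · have hqs := h.qs j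
          rw [oa11F_not c (oa11_under h hv (fun i h' => h.zq i j h'.symm)
            (fun j' h' => h.pq j' j h'.symm)), h5,
            if_neg (by rw [hqs]; decide), ← h.qu j, D.prev_next,
            oa11F_of h c (Or.inr (Or.inr ⟨j, rfl, rfl⟩)), h4, ← h.po j, D.prev_next]
      · rw [oa11F_not c (oa11_over h hv), oa11F_not c (oa11_over_prev h hv), h4]

lemma oa11_col_of_inv (h : Pairs D Y I J zc ec pc qc mv mx) {H : Type} [Group H] {c : D.P → H}
    (hc : ∀ p, oa11F D zc pc mv mx c (D.osw Y p) = oa11F D zc pc mv mx c (D.prev p))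
    (hze : ∀ i, c (D.cr (zc i, true)) = c (D.cr (ec i, true))) : D.IsCol Y c := by
  refine ⟨?_, ?_, ?_⟩
  · intro p hp
    have := hc p
    rw [D.osw_marker Y hp, oa11F_not c (oa11_marker hp),
      oa11F_not c (oa11_marker_prev h hp)] at this
    exact this
  · intro v hv x
    have := hc (D.cr (v, !x))
    rw [D.osw_cr_mem hv, Bool.not_not, oa11F, oa11F, oa11k_Y h c hv x] at this
    simpa using this
  · intro v hv
    have hover : c (D.cr (v, true)) = c (D.prev (D.cr (v, true))) := by
      have := hc (D.cr (v, true))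
      rw [D.osw_cr_not_mem hv, oa11F_not c (oa11_over h hv),
        oa11F_not c (oa11_over_prev h hv)] at this
      exact this
    refine ⟨hover, ?_⟩
    have hu := hc (D.cr (v, false))
    rw [D.osw_cr_not_mem hv] at hu
    rcases h.cover v hv with ⟨i, rfl⟩ | ⟨i, rfl⟩ | ⟨j, rfl⟩ | ⟨j, rfl⟩
    · rw [oa11F_of h c (Or.inl ⟨i, rfl, rfl⟩),
        oa11F_not c (oa11_under_prev h hv (h.ze i) (h.zq i))] at hu
      rw [if_pos (h.zs i), ← hu]
      group
    · have hes := h.es i
      rw [oa11F_not c (oa11_under h hv (fun i' h' => h.ze i' i h'.symm) (h.ep i)),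
        ← h.zu i, D.prev_next, oa11F_of h c (Or.inl ⟨i, rfl, rfl⟩), hze i] at hu
      rw [if_neg (by rw [hes]; decide), ← h.zu i, D.prev_next]
      exact hu
    · rw [oa11F_of h c (Or.inr (Or.inl ⟨j, rfl, rfl⟩)),
        oa11F_not c (oa11_under_prev h hv (fun i h' => h.ep i j h'.symm) (h.pq j))] at hu
      rw [if_pos (h.ps j), ← hu]
      group
    · have hqs := h.qs j
      rw [oa11F_not c (oa11_under h hv (fun i h' => h.zq i j h'.symm)
            (fun j' h' => h.pq j' j h'.symm)), ← h.qu j, D.prev_next,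
            oa11F_of h c (Or.inr (Or.inr ⟨j, rfl, rfl⟩))] at hu
      rw [if_neg (by rw [hqs]; decide), hover, ← h.po j, D.prev_next, ← h.qu j, D.prev_next]
      exact hu

/-- the over points of `zc i` and `ec i` have the same colour -/
lemma oa11_hze (h : Pairs D Y I J zc ec pc qc mv mx) {H : Type} [Group H] {c : D.P → H}
    (hc : D.IsCol Y c) : ∀ i, c (D.cr (zc i, true)) = c (D.cr (ec i, true)) := by
  classical
  have hfinI := h.finI
  choose st s1 s2 s3 s4 s5 s6 s7 s8 s9 s10 s11 s12 s13 s14 using h.status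
  -- statuses change at over points only
  have hstep : ∀ i p, p ≠ D.cr (zc i, true) → p ≠ D.cr (ec i, true) →
      st i (D.osw Y p) = st i (D.prev p) := by
    intro i p hz he
    rcases hlab : D.lab p with _ | ⟨v, x⟩
    · rw [D.osw_marker Y hlab, s1 i p hlab]
    · have hpe := D.cr_of_lab hlab
      subst hpe
      by_cases hv : v ∈ Y
      · rw [D.osw_cr_mem hv, s2 i v hv x]
      · rw [D.osw_cr_not_mem hv]
        rcases h.cover v hv with ⟨i', rfl⟩ | ⟨i', rfl⟩ | ⟨j, rfl⟩ | ⟨j, rfl⟩
        · by_cases hi : i' = i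
          · subst hi
            cases x
            · rw [s9, s10]
            · exact absurd rfl hz
          · rw [s5 i i' hi x x]
        · by_cases hi : i' = i
          · subst hi
            cases x
            · rw [s13, s14]
            · exact absurd rfl he
          · rw [s6 i i' hi x x]
        · rw [s3]
        · rw [s4]
  have hthr : ∀ p, D.prev (D.thr Y p) = D.osw Y p := by
    intro p
    rw [D.thr_apply, D.prev_next]
  -- circles with status one
  have hone : ∀ i p q, (D.thr Y).SameCycle p q → st i (D.osw Y p) = 1 →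
      st i (D.osw Y q) = 1 := by
    intro i p q hpq hp
    obtain ⟨n, hn⟩ := hpq.exists_nat_pow_eq
    have key : ∀ n : ℕ, st i (D.osw Y ((D.thr Y ^ n) p)) = 1 := by
      intro n
      induction n with
      | zero => exact hp
      | succ n ih =>
        rw [pow_succ', Perm.mul_apply]
        have e1 : st i (D.prev (D.thr Y ((D.thr Y ^ n) p))) = 1 := by rw [hthr]; exact ih
        rw [hstep]
        · exact e1
        · intro h'
          rw [h', s7] at e1
          exact absurd e1 (by decide)
        · intro h'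
          rw [h', s11] at e1
          exact absurd e1 (by decide)
    rw [← hn]
    exact key n
  have hoz : ∀ i x, D.osw Y (D.cr (zc i, x)) = D.cr (zc i, x) :=
    fun i x => D.osw_cr_not_mem (h.zY i) x
  have hoe : ∀ i x, D.osw Y (D.cr (ec i, x)) = D.cr (ec i, x) :=
    fun i x => D.osw_cr_not_mem (h.eY i) x
  -- the order
  let R : I → I → Prop := fun i' i => (D.thr Y).SameCycle (D.cr (zc i', false))
    (D.cr (zc i, true)) ∧ st i (D.cr (zc i', false)) = 2
  have hR1 : ∀ i j, R i j → st i (D.cr (zc j, true)) = 1 := by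
    intro i j hij
    have := hone i _ _ hij.1 (by rw [hoz, s10])
    rw [hoz] at this
    exact this
  have hR2 : ∀ i j k, st i (D.cr (zc j, true)) = 1 → R j k → st i (D.cr (zc k, true)) = 1 := by
    intro i j k hij hjk
    have hne : j ≠ i := by
      rintro rfl
      rw [s8] at hij
      exact absurd hij (by decide)
    have e1 : st i (D.cr (zc j, false)) = 1 := by
      rw [← s5 i j hne true false, s5 i j hne true true, hij]
    have := hone i _ _ hjk.1 (by rw [hoz, e1])
    rw [hoz] at this
    exact this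
  have hR3 : ∀ i k, Relation.TransGen R i k → st i (D.cr (zc k, true)) = 1 := by
    intro i k hik
    induction hik with
    | single h' => exact hR1 _ _ h'
    | tail _ h' ih => exact hR2 _ _ _ ih h'
  have hwf : WellFounded (Relation.TransGen R) := by
    have : Std.Irrefl (Relation.TransGen R) := ⟨by
      intro i hi
      have := hR3 i i hi
      rw [s8] at this
      exact absurd this (by decide)⟩
    exact Finite.wellFounded_of_trans_of_irrefl _
  intro i
  induction i using hwf.induction with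
  | h i ih =>
  -- walk along the circle
  obtain ⟨hsame, -⟩ := h.over_same Y subset_rfl i (h.zY i) (h.eY i) h.pY h.qY
  obtain ⟨n, hn⟩ := hsame.exists_nat_pow_eq
  have key : ∀ n : ℕ,
      oa11F D zc pc mv mx c (D.prev (D.cr (ec i, true))) = c (D.cr (zc i, true)) ∨
      (st i (D.osw Y ((D.thr Y ^ n) (D.cr (zc i, true)))) = 2 ∧
        oa11F D zc pc mv mx c (D.osw Y ((D.thr Y ^ n) (D.cr (zc i, true)))) =
          c (D.cr (zc i, true))) := by
    intro n
    induction n with
    | zero =>
      right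
      refine ⟨?_, ?_⟩
      · rw [pow_zero, Perm.one_apply, hoz, s8]
      · rw [pow_zero, Perm.one_apply, hoz, oa11F_not c (oa11_over h (h.zY i))]
    | succ n ihn =>
      rcases ihn with hl | ⟨h4, h5⟩
      · exact Or.inl hl
      · rw [← hthr] at h4 h5
        rw [pow_succ', Perm.mul_apply]
        set q := D.thr Y ((D.thr Y ^ n) (D.cr (zc i, true))) with hq
        by_cases hqe : q = D.cr (ec i, true)
        · left
          rw [← hqe]
          exact h5
        · right
          have hqz : q ≠ D.cr (zc i, true) := by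
            intro h'
            rw [h', s7] at h4
            exact absurd h4 (by decide)
          refine ⟨by rw [hstep i q hqz hqe]; exact h4, ?_⟩
          rw [oa11_inv_of_col h hc q, h5]
          intro i' hi'
          have hq2 : D.prev q = D.cr (zc i', false) := by
            rw [hi', ← h.zu i', D.prev_next]
          apply ih i'
          apply Relation.TransGen.single
          refine ⟨?_, ?_⟩
          · have h6 : D.thr Y (D.cr (zc i', false)) = q := by
              rw [D.thr_apply, hoz, h.zu, hi']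
            have h7 : (D.thr Y).SameCycle (D.cr (zc i', false)) q := by
              rw [← h6]
              exact (SameCycle.refl _ _).apply_right
            have h8 : (D.thr Y).SameCycle (D.cr (zc i, true)) q :=
              ⟨(n + 1 : ℕ), by rw [zpow_natCast, pow_succ', Perm.mul_apply]⟩
            exact h7.trans h8.symm
          · rw [← hq2]
            exact h4
  rcases key n with hl | ⟨h4, -⟩
  · rw [oa11F_not c (oa11_over_prev h (h.eY i))] at hl
    rw [← hl]
    exact ((hc.2.2 (ec i) (h.eY i)).1).symm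
  · rw [hn, hoe, s12] at h4
    exact absurd h4 (by decide)

end

/-- [OA11] -/
theorem Pairs.ncol_eq {D : Diagram} {Y : Set D.V} {I J : Type} {zc ec : I → D.V}
    {pc qc mv : J → D.V} {mx : J → Bool} (h : Pairs D Y I J zc ec pc qc mv mx) (H : Type)
    [Group H] [Finite H] : D.ncol Y H = Nat.card H ^ cyc (D.thr Y) := by
  classical
  rw [← oa11_aux_card (D.thr Y) H]
  unfold Diagram.ncol
  apply Nat.card_congr
  have hprev : ∀ (c : D.P → H), (∀ p, c (D.osw Y p) = c (D.prev p)) ↔
      ∀ p, c (D.prev (D.thr Y p)) = c (D.prev p) := by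
    intro c
    constructor
    · intro h' p
      rw [D.thr_apply, D.prev_next, h']
    · intro h' p
      have := h' p
      rw [D.thr_apply, D.prev_next] at this
      exact this
  have hze' : ∀ c : D.P → H, (∀ p, c (D.osw Y p) = c (D.prev p)) → ∀ i,
      c (D.cr (zc i, true)) = c (D.cr (ec i, true)) := by
    intro c hc i
    obtain ⟨hsame, -⟩ := h.over_same Y subset_rfl i (h.zY i) (h.eY i) h.pY h.qY
    obtain ⟨n, hn⟩ := hsame.exists_nat_pow_eq
    have key : ∀ n : ℕ, c (D.osw Y ((D.thr Y ^ n) (D.cr (zc i, true)))) =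
        c (D.osw Y (D.cr (zc i, true))) := by
      intro n
      induction n with
      | zero => rfl
      | succ n ih =>
        rw [pow_succ', Perm.mul_apply, hc, D.thr_apply, D.prev_next, ih]
    have h1 := key n
    rw [hn, D.osw_cr_not_mem (h.zY i), D.osw_cr_not_mem (h.eY i)] at h1
    exact h1.symm
  exact
    { toFun := fun c => ⟨fun p => oa11F D zc pc mv mx c.1 (D.prev p), by
        have := (hprev (oa11F D zc pc mv mx c.1)).1
          (fun p => oa11_inv_of_col h c.2 p (fun i _ => oa11_hze h c.2 i))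
        exact this⟩
      invFun := fun g => ⟨oa11G D zc pc mv mx (fun p => g.1 (D.next p)), by
        have hg : ∀ p, (fun p => g.1 (D.next p)) (D.osw Y p) =
            (fun p => g.1 (D.next p)) (D.prev p) := by
          intro p
          have := g.2 p
          rw [D.thr_apply] at this
          simpa using this
        apply oa11_col_of_inv h
        · intro p
          rw [oa11FG h]
          exact hg p
        · intro i
          have := hze' (fun p => g.1 (D.next p)) hg i
          rw [oa11G, oa11G, oa11k_not _ (oa11_over h (h.zY i)),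
            oa11k_not _ (oa11_over h (h.eY i))]
          simpa using this⟩
      left_inv := by
        intro c
        apply Subtype.ext
        have : (fun p => oa11F D zc pc mv mx c.1 (D.prev (D.next p))) =
            oa11F D zc pc mv mx c.1 := by
          funext p
          rw [D.prev_next]
        change oa11G D zc pc mv mx
          (fun p => oa11F D zc pc mv mx c.1 (D.prev (D.next p))) = c.1
        rw [this, oa11GF h]
      right_inv := by
        intro g
        apply Subtype.ext
        funext p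
        change oa11F D zc pc mv mx
          (oa11G D zc pc mv mx (fun p => g.1 (D.next p))) (D.prev p) = g.1 p
        rw [oa11FG h, D.next_prev] }

end Pool.Agent.Lib.MP_b7a6eb_gt
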