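import Pool.Agent.Lib.MP_b7a6eb_gt.Constr

namespace Pool.Agent.Lib.MP_b7a6eb_gt

open Equiv Equiv.Perm

lemma oa0_b {T : Diagram} {b : T.P} {s : T.P × Bool} (h : s.1 = b) : lface T b s = s := by
  simp only [lface, h, if_true]

lemma oa0_end_b {T : Diagram} {b : T.P} {p : T.P} (h : p ≠ b) (hn : T.next p = b) :
    lface T b (p, false) = (p, true) := by
  simp only [lface, h, hn, if_false, and_self, if_true]

lemma oa0_end_a {T : Diagram} {b : T.P} (h : T.next b ≠ b) :
    lface T b (T.next b, true) = (T.next b, false) := by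
  simp [lface, h]

lemma oa0_face_false {T : Diagram} {b : T.P} {p : T.P} (h : p ≠ b) (hn : T.next p ≠ b) :
    lface T b (p, false) = T.face (p, false) := by
  simp [lface, h, hn]

lemma oa0_face_true {T : Diagram} {b : T.P} {p : T.P} (h : p ≠ b) (hn : p ≠ T.next b) :
    lface T b (p, true) = T.face (p, true) := by
  simp [lface, h, hn]

/-- [OA0] points of crossings are not ends -/
theorem l_ne_b {T : Diagram} {b : T.P} (hE : Ends T b) (v : T.V) : T.l v ≠ b ∧ T.r v ≠ b ∧
    T.prev (T.l v) ≠ b ∧ T.prev (T.r v) ≠ b ∧ T.prev b ≠ b := by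
  have h1 : ∀ x, T.lab x ≠ none → x ≠ b := fun x hx h => hx (h ▸ hE.hb)
  have h2 : ∀ x, T.lab x ≠ none → T.prev x ≠ b := fun x hx h => by
    rw [T.prev_eq_iff] at h
    exact hx (h ▸ hE.ha)
  refine ⟨h1 _ (by simp), h1 _ (by simp), h2 _ (by simp), h2 _ (by simp), ?_⟩
  intro h
  rw [T.prev_eq_iff] at h
  exact hE.ne h.symm

/-- the side `s` is mapped by the ordinary face map -/
lemma oa0_cases {T : Diagram} {b : T.P} (hE : Ends T b) (s : T.P × Bool) :
    (s.1 = b ∧ lface T b s = s) ∨ (s = (T.prev b, false) ∧ lface T b s = (T.prev b, true)) ∨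
    (s = (T.next b, true) ∧ lface T b s = (T.next b, false)) ∨
    (s.1 ≠ b ∧ lface T b s = T.face s ∧ s ≠ (T.prev b, false) ∧ s ≠ (T.next b, true)) := by
  obtain ⟨p, x⟩ := s
  by_cases h : p = b
  · exact Or.inl ⟨h, oa0_b h⟩
  · cases x
    · by_cases hn : T.next p = b
      · have hp : p = T.prev b := by rw [← hn]; simp
        subst hp
        exact Or.inr (Or.inl ⟨rfl, oa0_end_b h hn⟩)
      · refine Or.inr (Or.inr (Or.inr ⟨h, oa0_face_false h hn, ?_, by simp⟩))
        intro h'
        rw [Prod.mk.injEq] at h'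
        exact hn (by rw [h'.1]; simp)
    · by_cases hn : p = T.next b
      · subst hn
        exact Or.inr (Or.inr (Or.inl ⟨rfl, oa0_end_a h⟩))
      · refine Or.inr (Or.inr (Or.inr ⟨h, oa0_face_true h hn, by simp, ?_⟩))
        intro h'
        exact hn (Prod.mk.inj h').1

/-- [OA0] -/
theorem lface_ne {T : Diagram} {b : T.P} (hE : Ends T b) {s : T.P × Bool} (h : s.1 ≠ b) :
    (lface T b s).1 ≠ b := by
  obtain ⟨h1, -⟩ | ⟨rfl, h2⟩ | ⟨rfl, h2⟩ | ⟨-, h2, h3, h4⟩ := oa0_cases hE s
  · exact absurd h1 h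
  · rw [h2]; exact h
  · rw [h2]; exact h
  · rw [h2]
    obtain ⟨p, x⟩ := s
    cases x
    · rcases T.point_cases (T.next p) with h5 | ⟨v, h5⟩ | ⟨v, h5⟩
      · rw [T.face_false_marker h5]
        intro h6
        apply h3
        have h7 : T.next p = b := h6
        rw [← h7]; simp
      · have h6 : p = T.prev (T.l v) := by rw [← h5]; simp
        subst h6
        rw [T.face_S]
        exact (l_ne_b hE v).2.2.2.1
      · have h6 : p = T.prev (T.r v) := by rw [← h5]; simp
        subst h6
        rw [T.face_E]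
        exact (l_ne_b hE v).1
    · rcases T.point_cases p with h5 | ⟨v, rfl⟩ | ⟨v, rfl⟩
      · rw [T.face_true_marker h5]
        intro h6
        have h7 : T.prev p = b := h6
        rw [T.prev_eq_iff] at h7
        exact h4 (by rw [h7])
      · rw [T.face_N]
        exact (l_ne_b hE v).2.1
      · rw [T.face_W]
        exact (l_ne_b hE v).2.2.1

/-- [OA0] -/
theorem lface_injective {T : Diagram} {b : T.P} (hE : Ends T b) :
    Function.Injective (lface T b) := by
  have hb : T.prev b ≠ b := by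
    intro h
    rw [T.prev_eq_iff] at h
    exact hE.ne h.symm
  have e1 : T.face (b, true) = (T.prev b, true) := T.face_true_marker hE.hb
  have e2 : T.face (b, false) = (T.next b, false) := T.face_false_marker hE.ha
  intro s t h
  obtain ⟨h1, h1'⟩ | ⟨rfl, h1⟩ | ⟨rfl, h1⟩ | ⟨h0, h1, -, -⟩ := oa0_cases hE s <;>
  obtain ⟨h2, h2'⟩ | ⟨rfl, h2⟩ | ⟨rfl, h2⟩ | ⟨h0', h2, -, -⟩ := oa0_cases hE t
  · rw [h1', h2'] at h; exact h
  · rw [h1', h2] at h; subst h; exact absurd h1 hb
  · rw [h1', h2] at h; subst h; exact absurd h1 hE.ne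
  · have := lface_ne hE h0'
    rw [← h, h1'] at this
    exact absurd h1 this
  · rw [h1, h2'] at h; subst h; exact absurd h2 hb
  · rfl
  · rw [h1, h2] at h; simp at h
  · rw [h1, h2, ← e1] at h
    have := T.face_injective h
    subst this
    exact absurd rfl h0'
  · rw [h1, h2'] at h; subst h; exact absurd h2 hE.ne
  · rw [h1, h2] at h; simp at h
  · rfl
  · rw [h1, h2, ← e2] at h
    have := T.face_injective h
    subst this
    exact absurd rfl h0'
  · have := lface_ne hE h0
    rw [h, h2'] at this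
    exact absurd h2 this
  · rw [h1, h2, ← e1] at h
    have := T.face_injective h
    subst this
    exact absurd rfl h0
  · rw [h1, h2, ← e2] at h
    have := T.face_injective h
    subst this
    exact absurd rfl h0
  · rw [h1, h2] at h
    exact T.face_injective h

/-- [OA0] the open face map as a permutation -/
noncomputable def lfaceP {T : Diagram} {b : T.P} (hE : Ends T b) : Perm (T.P × Bool) :=
  Equiv.ofBijective (lface T b) (Finite.injective_iff_bijective.1 (lface_injective hE))

@[simp] lemma lfaceP_apply {T : Diagram} {b : T.P} (hE : Ends T b) (s : T.P × Bool) :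
    lfaceP hE s = lface T b s := rfl

/-- [OA0] -/
theorem sf_iff {T : Diagram} {b : T.P} (hE : Ends T b) (s t : T.P × Bool) :
    SF T b s t ↔ (lfaceP hE).SameCycle s t := by
  have key : ∀ n : ℕ, ((lfaceP hE) ^ n) s = (lface T b)^[n] s := fun n => by
    rw [← Equiv.Perm.iterate_eq_pow]; rfl
  constructor
  · rintro ⟨n, hn⟩
    exact ⟨n, by rw [zpow_natCast, key, hn]⟩
  · intro h
    obtain ⟨n, hn⟩ := SameCycle.exists_nat_pow_eq h
    exact ⟨n, by rw [← key, hn]⟩

/-- [OA0] -/
theorem SF.refl (T : Diagram) (b : T.P) (s : T.P × Bool) : SF T b s s := ⟨0, rfl⟩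

/-- [OA0] -/
theorem SF.symm {T : Diagram} {b : T.P} (hE : Ends T b) {s t : T.P × Bool} (h : SF T b s t) :
    SF T b t s :=
  (sf_iff hE t s).2 ((sf_iff hE s t).1 h).symm

/-- [OA0] -/
theorem SF.trans {T : Diagram} {b : T.P} {s t u : T.P × Bool} (h : SF T b s t)
    (h' : SF T b t u) : SF T b s u := by
  obtain ⟨n, rfl⟩ := h
  obtain ⟨k, rfl⟩ := h'
  exact ⟨k + n, Function.iterate_add_apply _ _ _ _⟩

/-- [OA0] -/
theorem SF.ne {T : Diagram} {b : T.P} (hE : Ends T b) {s t : T.P × Bool} (h : SF T b s t)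
    (hs : s.1 ≠ b) : t.1 ≠ b := by
  obtain ⟨n, rfl⟩ := h
  induction n with
  | zero => exact hs
  | succ n ih => rw [Function.iterate_succ_apply']; exact lface_ne hE ih

/-- [OA0] a function which is invariant under the open face map is constant on faces -/
theorem SF.eq {T : Diagram} {b : T.P} (hE : Ends T b) {β : Type*} (f : T.P × Bool → β)
    (hf : ∀ s, s.1 ≠ b → f (lface T b s) = f s) {s t : T.P × Bool} (h : SF T b s t)
    (hs : s.1 ≠ b) : f s = f t := by
  obtain ⟨n, rfl⟩ := h
  induction n with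
  | zero => rfl
  | succ n ih =>
    rw [Function.iterate_succ_apply', hf _ (SF.ne hE ⟨n, rfl⟩ hs), ← ih]

/-- [OA0] the value of `lface` at markers -/
theorem lface_marker_false {T : Diagram} {b : T.P} {p : T.P} (h : T.lab (T.next p) = none)
    (hp : p ≠ b) (hp' : T.next p ≠ b) : lface T b (p, false) = (T.next p, false) := by
  rw [oa0_face_false hp hp', T.face_false_marker h]

/-- [OA0] -/
theorem lface_marker_true {T : Diagram} {b : T.P} {p : T.P} (h : T.lab p = none)
    (hp : p ≠ b) (hp' : p ≠ T.next b) : lface T b (p, true) = (T.prev p, true) := by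
  rw [oa0_face_true hp hp', T.face_true_marker h]

/-- [OA0] the two ends -/
theorem lface_end_b {T : Diagram} {b : T.P} (hE : Ends T b) :
    lface T b (T.prev b, false) = (T.prev b, true) := by
  apply oa0_end_b
  · intro h
    rw [T.prev_eq_iff] at h
    exact hE.ne h.symm
  · simp

/-- [OA0] -/
theorem lface_end_a {T : Diagram} {b : T.P} (hE : Ends T b) :
    lface T b (T.next b, true) = (T.next b, false) := oa0_end_a hE.ne

lemma oa0_lab_ne {T : Diagram} {b : T.P} (hE : Ends T b) {x : T.P} (h : T.lab x ≠ none) :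
    x ≠ b ∧ x ≠ T.next b := ⟨fun h' => h (h' ▸ hE.hb), fun h' => h (h' ▸ hE.ha)⟩

/-- [OA0] south corner -/
theorem lface_S {T : Diagram} {b : T.P} (hE : Ends T b) (v : T.V) :
    lface T b (T.prev (T.l v), false) = (T.prev (T.r v), true) := by
  rw [oa0_face_false (l_ne_b hE v).2.2.1 (by simpa using (l_ne_b hE v).1), T.face_S]

/-- [OA0] east corner -/
theorem lface_E {T : Diagram} {b : T.P} (hE : Ends T b) (v : T.V) :
    lface T b (T.prev (T.r v), false) = (T.l v, false) := by
  rw [oa0_face_false (l_ne_b hE v).2.2.2.1 (by simpa using (l_ne_b hE v).2.1), T.face_E]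

/-- [OA0] north corner -/
theorem lface_N {T : Diagram} {b : T.P} (hE : Ends T b) (v : T.V) :
    lface T b (T.l v, true) = (T.r v, false) := by
  rw [oa0_face_true (l_ne_b hE v).1 (oa0_lab_ne hE (by simp)).2, T.face_N]

/-- [OA0] west corner -/
theorem lface_W {T : Diagram} {b : T.P} (hE : Ends T b) (v : T.V) :
    lface T b (T.r v, true) = (T.prev (T.l v), true) := by
  rw [oa0_face_true (l_ne_b hE v).2.1 (oa0_lab_ne hE (by simp)).2, T.face_W]

end Pool.Agent.Lib.MP_b7a6eb_gt
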