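import Pool.Agent.Lib.MP_b7a6eb_gt.Constr
import Pool.Agent.Lib.MP_b7a6eb_gt.OA0

namespace Pool.Agent.Lib.MP_b7a6eb_gt

open Equiv Equiv.Perm

/-- crossing under an arc with flow zero does not change the potential -/
lemma oa2_aux_under {D : Diagram} {Φ : D.P → ℤ} {U : D.P × Bool → ℤ}
    (hU1 : ∀ s, U (D.face s) = U s) (hU2 : ∀ p, U (p, true) - U (p, false) = Φ p) (w : D.V)
    (h1 : Φ (D.cr (w, true)) = 0) (h2 : Φ (D.prev (D.cr (w, true))) = 0) (y : Bool) :
    U (D.cr (w, false), y) = U (D.prev (D.cr (w, false)), y) := by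
  have eS := hU1 (D.prev (D.l w), false)
  have eE := hU1 (D.prev (D.r w), false)
  have eN := hU1 (D.l w, true)
  have eW := hU1 (D.r w, true)
  rw [D.face_S] at eS
  rw [D.face_E] at eE
  rw [D.face_N] at eN
  rw [D.face_W] at eW
  have f1 := hU2 (D.cr (w, true))
  have f2 := hU2 (D.prev (D.cr (w, true)))
  rw [h1] at f1
  rw [h2] at f2
  unfold Diagram.l Diagram.r at eS eE eN eW
  cases hs : D.sign w
  · rw [hs] at eS eE eN eW
    simp only [Bool.not_false] at eS eE eN eW
    cases y <;> linarith
  · rw [hs] at eS eE eN eW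
    simp only [Bool.not_true] at eS eE eN eW
    cases y <;> linarith

/-- [OA2] -/
theorem lplanar_of_overArc {T : Diagram} {b : T.P} {D : Diagram} (h : OverArc T b D)
    (hD : D.Planar) (hE : Ends T b) : LPlanar T b := by
  classical
  obtain ⟨i, j, hi, hj, hcr, hsg, hnew, hnext, -⟩ := h
  intro φ hφ hφb
  obtain ⟨hφ1, hφ2⟩ := hφ
  have hprevb : T.prev b ≠ b := by
    intro h'
    exact hE.ne ((T.prev_eq_iff).1 h').symm
  have hφa : φ (T.next b) = 0 := by
    have := hφ1 (T.next b) hE.ha
    rw [T.prev_next, hφb] at this
    exact this.symm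
  have hφpb : φ (T.prev b) = 0 := (hφ1 b hE.hb).trans hφb
  -- previous points
  have hprev : ∀ p, p ≠ T.next b → D.prev (i p) = i (T.prev p) := by
    intro p hp
    rw [D.prev_eq_iff, hnext, T.next_prev]
    intro h'
    exact hp ((T.prev_eq_iff).1 h')
  -- the extended flow
  let Φ : D.P → ℤ := fun q => if hq : ∃ p, i p = q then φ hq.choose else 0
  have hΦ1 : ∀ p, Φ (i p) = φ p := by
    intro p
    have hq : ∃ p', i p' = i p := ⟨p, rfl⟩
    simp only [Φ, dif_pos hq]
    rw [hi hq.choose_spec]
  have hΦ2 : ∀ q, q ∉ Set.range i → Φ q = 0 := by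
    intro q hq
    have : ¬ ∃ p, i p = q := fun ⟨p, hp⟩ => hq ⟨p, hp⟩
    simp only [Φ, dif_neg this]
  -- the previous point of a new point, or of the end of the arc
  have hΦ3 : ∀ q, (∀ p, p ≠ b → D.next (i p) ≠ q) → Φ (D.prev q) = 0 := by
    intro q hq
    by_cases hr : D.prev q ∈ Set.range i
    · obtain ⟨p, hp⟩ := hr
      by_cases hpb : p = b
      · rw [← hp, hpb, hΦ1, hφb]
      · exfalso
        apply hq p hpb
        rw [hp, D.next_prev]
    · exact hΦ2 _ hr
  have hΦ4 : ∀ q, q ∉ Set.range i → Φ (D.prev q) = 0 := by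
    intro q hq
    apply hΦ3
    intro p hp h'
    apply hq
    rw [hnext p hp] at h'
    exact ⟨_, h'⟩
  have hΦ5 : Φ (D.prev (i (T.next b))) = 0 := by
    apply hΦ3
    intro p hp h'
    rw [hnext p hp] at h'
    exact hp (T.next.injective (hi h'))
  have hΦ6 : ∀ p, T.lab p = none → Φ (D.prev (i p)) = Φ (i p) := by
    intro p hp
    by_cases hpa : p = T.next b
    · rw [hpa, hΦ5, hΦ1, hφa]
    · rw [hprev p hpa, hΦ1, hΦ1, hφ1 p hp]
  have hna : ∀ v x, T.cr (v, x) ≠ T.next b := by
    intro v x hx
    have := hE.ha
    rw [← hx, T.lab_cr] at this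
    exact Option.some_ne_none _ this
  have hΦ : D.IsFlow Φ := by
    constructor
    · intro q hq
      by_cases hr : q ∈ Set.range i
      · obtain ⟨p, rfl⟩ := hr
        apply hΦ6
        rcases hp : T.lab p with _ | ⟨v, x⟩
        · rfl
        · exfalso
          have h3 := T.cr_of_lab hp
          rw [← h3, ← hcr, D.lab_cr] at hq
          exact Option.some_ne_none _ hq
      · rw [hΦ4 q hr, hΦ2 q hr]
    · intro w
      by_cases hw : w ∈ Set.range j
      · obtain ⟨v, rfl⟩ := hw
        rw [hcr, hcr, hprev _ (hna _ _), hprev _ (hna _ _), hΦ1, hΦ1, hΦ1, hΦ1]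
        exact hφ2 v
      · obtain ⟨h3, h4⟩ := hnew w hw
        obtain ⟨p, hp⟩ := h4
        have hm : T.lab p = none := by
          rcases hp' : T.lab p with _ | ⟨v, x⟩
          · rfl
          · exfalso
            have h5 := T.cr_of_lab hp'
            rw [← h5, ← hcr] at hp
            have h6 := D.cr_inj hp
            exact hw ⟨v, (Prod.mk.inj h6).1⟩
        rw [hΦ4 _ h3, hΦ2 _ h3, ← hp, hΦ6 p hm]
  obtain ⟨U', hU1, hU2⟩ := hD Φ hΦ
  -- passing markers of `T`
  have key : ∀ p, T.lab p = none → p ≠ T.next b → ∀ y, U' (i p, y) = U' (i (T.prev p), y) := by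
    intro p hp hpa y
    rcases hlab : D.lab (i p) with _ | ⟨w, x⟩
    · cases y
      · have h3 : D.lab (D.next (i (T.prev p))) = none := by
          rw [← hprev p hpa, D.next_prev, hlab]
        have h4 := D.face_false_marker h3
        have h5 := hU1 (i (T.prev p), false)
        rw [h4, ← hprev p hpa, D.next_prev] at h5
        rw [← hprev p hpa, h5]
      · have h4 := D.face_true_marker hlab
        have h5 := hU1 (i p, true)
        rw [h4, hprev p hpa] at h5
        exact h5.symm
    · have hc := D.cr_of_lab hlab
      have hw : w ∉ Set.range j := by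
        rintro ⟨v, rfl⟩
        rw [hcr] at hc
        have := hi hc
        rw [← this, T.lab_cr] at hp
        exact Option.some_ne_none _ hp
      obtain ⟨h3, h4⟩ := hnew w hw
      have hx : x = false := by
        cases x
        · rfl
        · exact absurd ⟨p, hc.symm⟩ h3
      subst hx
      have := oa2_aux_under hU1 hU2 w (hΦ2 _ h3) (hΦ4 _ h3) y
      rw [hc, hprev p hpa] at this
      exact this
  have hl : ∀ v, D.l (j v) = i (T.l v) := by
    intro v
    unfold Diagram.l
    rw [hsg, hcr]
  have hr : ∀ v, D.r (j v) = i (T.r v) := by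
    intro v
    unfold Diagram.r
    rw [hsg, hcr]
  have hpl : ∀ v, D.prev (i (T.l v)) = i (T.prev (T.l v)) := fun v => hprev _ (hna _ _)
  have hpr : ∀ v, D.prev (i (T.r v)) = i (T.prev (T.r v)) := fun v => hprev _ (hna _ _)
  refine ⟨fun s => U' (i s.1, s.2), ?_, ?_⟩
  · rintro ⟨p, y⟩
    by_cases hpb : p = b
    · have : lface T b (p, y) = (p, y) := by simp [lface, hpb]
      rw [this]
    · cases y
      · by_cases hnb : T.next p = b
        · have hp : p = T.prev b := by rw [← hnb, T.prev_next]
          subst hp
          rw [lface_end_b hE]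
          have h3 := hU2 (i (T.prev b))
          rw [hΦ1, hφpb] at h3
          change U' (i (T.prev b), true) = U' (i (T.prev b), false)
          linarith
        · rcases T.point_cases (T.next p) with hm | ⟨v, hv⟩ | ⟨v, hv⟩
          · rw [lface_marker_false hm hpb hnb]
            have h3 := key (T.next p) hm (fun h' => hpb (T.next.injective h')) false
            rw [T.prev_next] at h3
            exact h3
          · have hp : p = T.prev (T.l v) := by rw [← hv, T.prev_next]
            subst hp
            rw [lface_S hE]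
            have h3 := hU1 (D.prev (D.l (j v)), false)
            rw [D.face_S, hl, hr, hpl, hpr] at h3
            exact h3
          · have hp : p = T.prev (T.r v) := by rw [← hv, T.prev_next]
            subst hp
            rw [lface_E hE]
            have h3 := hU1 (D.prev (D.r (j v)), false)
            rw [D.face_E, hl, hr, hpr] at h3
            exact h3
      · by_cases hna' : p = T.next b
        · subst hna'
          rw [lface_end_a hE]
          have h3 := hU2 (i (T.next b))
          rw [hΦ1, hφa] at h3
          change U' (i (T.next b), false) = U' (i (T.next b), true)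
          linarith
        · rcases T.point_cases p with hm | ⟨v, hv⟩ | ⟨v, hv⟩
          · rw [lface_marker_true hm hpb hna']
            exact (key p hm hna' true).symm
          · subst hv
            rw [lface_N hE]
            have h3 := hU1 (D.l (j v), true)
            rw [D.face_N, hl, hr] at h3
            exact h3
          · subst hv
            rw [lface_W hE]
            have h3 := hU1 (D.r (j v), true)
            rw [D.face_W, hl, hr, hpl] at h3
            exact h3
  · intro p _
    have h3 := hU2 (i p)
    rw [hΦ1] at h3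
    exact h3

end Pool.Agent.Lib.MP_b7a6eb_gt
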