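import Pool.Agent.Lib.MP_b7a6eb_gt.Constr

namespace Pool.Agent.Lib.MP_b7a6eb_gt

open Equiv Equiv.Perm

lemma arcEmb_zero {T : Diagram} (b : T.P) (m : ℕ) : T.arcEmb b m 0 = Sum.inl b := rfl

lemma arcEmb_succ {T : Diagram} (b : T.P) (m : ℕ) (k : Fin m) :
    T.arcEmb b m k.succ = Sum.inr k := rfl

lemma arcEmb_range {T : Diagram} (b : T.P) (m : ℕ) (x : T.P ⊕ Fin m) :
    x ∈ Set.range (T.arcEmb b m) ↔ x = Sum.inl b ∨ ∃ k, x = Sum.inr k := by
  constructor
  · rintro ⟨k, rfl⟩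
    rcases Fin.eq_zero_or_eq_succ k with rfl | ⟨j, rfl⟩
    · exact Or.inl rfl
    · exact Or.inr ⟨j, rfl⟩
  · rintro (rfl | ⟨k, rfl⟩)
    · exact ⟨0, rfl⟩
    · exact ⟨k.succ, rfl⟩

/-- [OA4] -/
theorem overClosure_next (T : Diagram) (b : T.P) {m : ℕ} (u : Fin m → T.P)
    (s : Fin m → Bool) (h : T.ArcOK u) :
    (∀ p, p ≠ b → (T.overClosure b u s h).next (Sum.inl p) = Sum.inl (T.next p)) ∧
    (∀ k : Fin m, (T.overClosure b u s h).next (T.arcEmb b m k.castSucc) =
      T.arcEmb b m k.succ) ∧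
    (T.overClosure b u s h).next (T.arcEmb b m (Fin.last m)) = Sum.inl (T.next b) := by
  have hdef : ∀ x : T.P ⊕ Fin m, (T.overClosure b u s h).next x =
      (Equiv.sumCongr T.next (Equiv.refl (Fin m)))
        ((finRotate (m + 1)).viaEmbedding (T.arcEmb b m) x) := fun x => rfl
  refine ⟨fun p hp => ?_, fun k => ?_, ?_⟩
  · rw [hdef, Equiv.Perm.viaEmbedding_apply_of_notMem]
    · rfl
    · rw [arcEmb_range]
      rintro (h1 | ⟨k, h1⟩)
      · exact hp (Sum.inl.inj h1)
      · simp at h1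
  · rw [hdef, Equiv.Perm.viaEmbedding_apply]
    rw [finRotate_apply, Fin.coeSucc_eq_succ]
    rfl
  · rw [hdef, Equiv.Perm.viaEmbedding_apply, finRotate_last]
    rfl

/-- [OA4] -/
theorem overClosure_prev (T : Diagram) (b : T.P) {m : ℕ} (u : Fin m → T.P)
    (s : Fin m → Bool) (h : T.ArcOK u) :
    (∀ p, p ≠ T.next b → (T.overClosure b u s h).prev (Sum.inl p) = Sum.inl (T.prev p)) ∧
    (∀ k : Fin m, (T.overClosure b u s h).prev (Sum.inr k) = T.arcEmb b m k.castSucc) ∧
    (T.overClosure b u s h).prev (Sum.inl (T.next b)) = T.arcEmb b m (Fin.last m) := by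
  obtain ⟨h1, h2, h3⟩ := overClosure_next T b u s h
  have key : ∀ x y : T.P ⊕ Fin m, (T.overClosure b u s h).next x = y →
      (T.overClosure b u s h).prev y = x := fun x y hxy =>
    (Diagram.prev_eq_iff (T.overClosure b u s h)).2 hxy.symm
  refine ⟨fun p hp => key _ _ ?_, fun k => key _ _ (h2 k), key _ _ h3⟩
  have h4 : T.prev p ≠ b := fun h4 => hp (T.prev_eq_iff.1 h4)
  have h5 := h1 (T.prev p) h4
  rw [T.next_prev] at h5
  exact h5

/-- [OA4] -/
theorem overArc_overClosure (T : Diagram) (b : T.P) {m : ℕ} (u : Fin m → T.P)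
    (s : Fin m → Bool) (h : T.ArcOK u) : OverArc T b (T.overClosure b u s h) := by
  obtain ⟨h1, h2, h3⟩ := overClosure_next T b u s h
  refine ⟨Sum.inl, Sum.inl, Sum.inl_injective, Sum.inl_injective, fun v x => ?_, fun v => rfl,
    ?_, h1, ?_⟩
  · cases x <;> rfl
  · rintro (v | k) hw
    · exact absurd ⟨v, rfl⟩ hw
    · refine ⟨?_, ?_⟩
      · rintro ⟨p, hp⟩
        have : (Sum.inl p : T.P ⊕ Fin m) = Sum.inr k := hp
        simp at this
      · exact ⟨u k, rfl⟩
  · have key : ∀ k : Fin (m + 1), (T.overClosure b u s h).next.SameCycle (Sum.inl b)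
        (T.arcEmb b m k) := by
      intro k
      induction k using Fin.induction with
      | zero => exact SameCycle.refl _ _
      | succ k ih =>
        rw [← h2 k]
        exact sameCycle_apply_right.2 ih
    rintro (p | k) hq
    · exact absurd ⟨p, rfl⟩ hq
    · exact key k.succ

end Pool.Agent.Lib.MP_b7a6eb_gt
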