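import Pool.Agent.Lib.MP_b7a6eb_gt.Constr
import Pool.Agent.Lib.MP_b7a6eb_gt.OA0

namespace Pool.Agent.Lib.MP_b7a6eb_gt

open Equiv Equiv.Perm

/-- sets of sides (of the open diagram) which are unions of faces and closed under the steps A
(cross an edge from left to right) and B (pass a crossing from the south to the north) -/
structure Closed (T : Diagram) (b : T.P) (R : Set (T.P × Bool)) : Prop where
  face : ∀ s, s.1 ≠ b → (lface T b s ∈ R ↔ s ∈ R)
  stepA : ∀ p, p ≠ b → (p, true) ∈ R → (p, false) ∈ R
  stepB : ∀ v, (T.prev (T.r v), true) ∈ R → (T.l v, true) ∈ R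

open Classical in
/-- [OA5a] -/
theorem existsUnique_z {T : Diagram} {b : T.P} (hE : Ends T b) {R : Set (T.P × Bool)}
    (hR : Closed T b R) (hb : (T.prev b, true) ∈ R) (ha : (T.next b, true) ∉ R) :
    ∃! v, (T.l v, true) ∈ R ∧ (T.prev (T.r v), true) ∉ R := by
  haveI : Fintype T.P := Fintype.ofFinite _
  haveI : Fintype T.V := Fintype.ofFinite _
  set ind : T.P × Bool → ℤ := fun s => if s ∈ R then 1 else 0 with hind
  have hindf : ∀ s, s.1 ≠ b → ind (lface T b s) = ind s := fun s hs => by
    simp only [hind, hR.face s hs]
  set f : T.P → ℤ := fun p => ind (p, true) + ind (p, false) with hf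
  set w : T.P → ℤ := fun p => if p = b then 0 else f p with hw
  set G : T.P → ℤ := fun p => w p - w (T.prev p) + (if p = b then 2 else 0) with hG
  have hsum : ∑ p, G p = 2 := by
    have h1 : ∑ p, w (T.prev p) = ∑ p, w p := Equiv.sum_comp T.next.symm w
    simp only [hG]
    rw [Finset.sum_add_distrib, Finset.sum_sub_distrib, h1]
    simp
  have hlr := l_ne_b hE
  have hpb : T.prev b ≠ b := by
    intro h
    rw [T.prev_eq_iff] at h
    exact hE.ne h.symm
  -- markers
  have hmark : ∀ p, T.lab p = none → G p = 0 := by
    intro p hp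
    by_cases h1 : p = b
    · subst h1
      have h2 : ind (T.prev p, true) = 1 := by simp [hind, hb]
      have h3 : ind (T.prev p, false) = 1 := by
        have := hR.stepA _ hpb hb
        simp [hind, this]
      simp only [hG, hw, hf, if_true, hpb, if_false, h2, h3]
      norm_num
    · by_cases h2 : p = T.next b
      · subst h2
        have h3 : ind (T.next b, true) = 0 := by simp [hind, ha]
        have h4 : ind (T.next b, false) = 0 := by
          rw [← h3, ← lface_end_a hE]
          exact hindf _ hE.ne
        simp only [hG, hw, hf, T.prev_next, if_true, hE.ne, if_false, h3, h4]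
        norm_num
      · have h3 : T.prev p ≠ b := fun h => h2 (T.prev_eq_iff.1 h)
        have h4 : ind (T.prev p, true) = ind (p, true) := by
          rw [← lface_marker_true hp h1 h2]
          exact hindf _ h1
        have h5 : ind (p, false) = ind (T.prev p, false) := by
          have := lface_marker_false (T := T) (b := b) (p := T.prev p) (by simpa using hp) h3
            (by simpa using h1)
          rw [T.next_prev] at this
          rw [← this]
          exact hindf _ h3
        simp only [hG, hw, hf, h1, h3, if_false, h4, h5]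
        ring
  have hcross : ∑ x : T.V × Bool, G (T.cr x) = 2 := by
    rw [← hsum]
    refine Fintype.sum_of_injective T.cr T.cr_inj _ _ ?_ (fun _ => rfl)
    intro p hp
    apply hmark
    rw [T.lab_eq_none]
    intro x hx
    exact hp ⟨x, hx⟩
  have hv : ∀ v, G (T.cr (v, true)) + G (T.cr (v, false)) = 2 *
      (if (T.l v, true) ∈ R ∧ (T.prev (T.r v), true) ∉ R then 1 else 0) := by
    intro v
    obtain ⟨h1, h2, h3, h4, -⟩ := hlr v
    have hGlr : G (T.cr (v, true)) + G (T.cr (v, false)) = G (T.l v) + G (T.r v) := by
      simp only [Diagram.l, Diagram.r]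
      cases T.sign v
      · simp only [Bool.not_false]; ring
      · simp only [Bool.not_true]
    rw [hGlr]
    have hS : ind (T.prev (T.r v), true) = ind (T.prev (T.l v), false) := by
      rw [← lface_S hE v]; exact hindf _ h3
    have hEE : ind (T.l v, false) = ind (T.prev (T.r v), false) := by
      rw [← lface_E hE v]; exact hindf _ h4
    have hN : ind (T.r v, false) = ind (T.l v, true) := by
      rw [← lface_N hE v]; exact hindf _ h1
    have hW : ind (T.prev (T.l v), true) = ind (T.r v, true) := by
      rw [← lface_W hE v]; exact hindf _ h2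
    simp only [hG, hw, hf, h1, h2, h3, h4, if_false]
    rw [hS, hEE, hN, hW]
    have hstep : ind (T.l v, true) - ind (T.prev (T.l v), false) =
        (if (T.l v, true) ∈ R ∧ (T.prev (T.r v), true) ∉ R then 1 else 0) := by
      rw [← hS]
      simp only [hind]
      by_cases c1 : (T.prev (T.r v), true) ∈ R
      · have c2 := hR.stepB v c1
        simp [c1, c2]
      · by_cases c2 : (T.l v, true) ∈ R
        · simp [c1, c2]
        · simp [c1, c2]
    rw [← hstep]
    ring
  have hsumV : ∑ v : T.V, (if (T.l v, true) ∈ R ∧ (T.prev (T.r v), true) ∉ R then (1 : ℤ) else 0)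
      = 1 := by
    rw [Fintype.sum_prod_type] at hcross
    have : ∀ v, ∑ x : Bool, G (T.cr (v, x)) = 2 *
        (if (T.l v, true) ∈ R ∧ (T.prev (T.r v), true) ∉ R then 1 else 0) := by
      intro v
      rw [Fintype.sum_bool]
      exact hv v
    simp only [this] at hcross
    rw [← Finset.mul_sum] at hcross
    linarith
  have hcard : (Finset.univ.filter
      (fun v => (T.l v, true) ∈ R ∧ (T.prev (T.r v), true) ∉ R)).card = 1 := by
    have := hsumV
    rw [← Finset.natCast_card_filter] at this
    exact_mod_cast this
  obtain ⟨v, hv⟩ := Finset.card_eq_one.1 hcard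
  refine ⟨v, ?_, ?_⟩
  · have : v ∈ Finset.univ.filter
      (fun v => (T.l v, true) ∈ R ∧ (T.prev (T.r v), true) ∉ R) := by rw [hv]; simp
    exact (Finset.mem_filter.1 this).2
  · intro y hy
    have : y ∈ Finset.univ.filter
      (fun v => (T.l v, true) ∈ R ∧ (T.prev (T.r v), true) ∉ R) :=
      Finset.mem_filter.2 ⟨Finset.mem_univ _, hy⟩
    rw [hv] at this
    exact Finset.mem_singleton.1 this

end Pool.Agent.Lib.MP_b7a6eb_gt
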