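import Pool.Agent.Lib.MP_b7a6eb_gt.Constr
import Pool.Agent.Lib.MP_b7a6eb_gt.OA0
import Pool.Agent.Lib.MP_b7a6eb_gt.OA5a

namespace Pool.Agent.Lib.MP_b7a6eb_gt

open Equiv Equiv.Perm

/-- [OA5b] -/
theorem no_overlap {T : Diagram} {b : T.P} (hE : Ends T b) {R R' : Set (T.P × Bool)}
    (hR : Closed T b R) (hR' : Closed T b R') (hsub : R ⊆ R') (ha : (T.next b, true) ∉ R')
    {z z' : T.V} (hz : ∀ v, (T.l v, true) ∈ R → (T.prev (T.r v), true) ∉ R → v = z)
    (hzW : (T.r z, true) ∈ R') (hz' : (T.l z', true) ∈ R')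
    (hz'' : (T.prev (T.r z'), true) ∉ R') : (T.l z', false) ∉ R := by
  intro hcon
  have hosl : ∀ u : T.V, T.osw Set.univ (T.l u) = T.r u := fun u => by
    rw [Diagram.l, T.osw_cr_mem (Set.mem_univ _)]; rfl
  have hosr : ∀ u : T.V, T.osw Set.univ (T.r u) = T.l u := fun u => by
    rw [Diagram.r, T.osw_cr_mem (Set.mem_univ _), Bool.not_not]; rfl
  have hS : ∀ v, (T.prev (T.r v), true) ∈ R ↔ (T.prev (T.l v), false) ∈ R := fun v => by
    rw [← lface_S hE v]; exact hR.face _ (l_ne_b hE v).2.2.1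
  have hEE : ∀ v, (T.l v, false) ∈ R ↔ (T.prev (T.r v), false) ∈ R := fun v => by
    rw [← lface_E hE v]; exact hR.face _ (l_ne_b hE v).2.2.2.1
  have hN : ∀ v, (T.r v, false) ∈ R ↔ (T.l v, true) ∈ R := fun v => by
    rw [← lface_N hE v]; exact hR.face _ (l_ne_b hE v).1
  have hW : ∀ v, (T.prev (T.l v), true) ∈ R' ↔ (T.r v, true) ∈ R' := fun v => by
    rw [← lface_W hE v]; exact hR'.face _ (l_ne_b hE v).2.1
  set X : Set T.P := {p | p ≠ b ∧ (p, true) ∉ R' ∧ (p, false) ∈ R} with hX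
  have hmap : ∀ p ∈ X, T.prev (T.osw Set.univ p) ∈ X := by
    rintro p ⟨h1, h2, h3⟩
    rcases T.point_cases p with h | ⟨v, rfl⟩ | ⟨v, rfl⟩
    · rw [T.osw_marker _ h]
      have hpa : p ≠ T.next b := by
        rintro rfl
        have h4 := (hR.face (T.next b, true) hE.ne)
        rw [lface_end_a hE] at h4
        exact ha (hsub (h4.1 h3))
      have h4 : T.prev p ≠ b := fun h' => hpa (T.prev_eq_iff.1 h')
      refine ⟨h4, ?_, ?_⟩
      · intro h5
        apply h2
        have h6 := hR'.face (p, true) h1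
        rw [lface_marker_true h h1 hpa] at h6
        exact h6.1 h5
      · have h6 := hR.face (T.prev p, false) h4
        rw [lface_marker_false (by simpa using h) h4 (by simpa using h1), T.next_prev] at h6
        exact h6.1 h3
    · rw [hosl]
      refine ⟨(l_ne_b hE v).2.2.2.1, ?_, (hEE v).1 h3⟩
      intro h4
      exact h2 (hR'.stepB v h4)
    · rw [hosr]
      refine ⟨(l_ne_b hE v).2.2.1, ?_, ?_⟩
      · intro h4
        exact h2 ((hW v).1 h4)
      · rw [← hS]
        by_contra h4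
        have := hz v ((hN v).1 h3) h4
        subst this
        exact h2 hzW
  -- the backward map is a bijection of `X`
  set β : X → X := fun p => ⟨T.prev (T.osw Set.univ p.1), hmap p.1 p.2⟩ with hβ
  have hinj : Function.Injective β := by
    intro p q h
    have h1 := congrArg Subtype.val h
    exact Subtype.ext ((T.osw Set.univ).injective (T.prev_inj h1))
  have hsurj := Finite.injective_iff_surjective.1 hinj
  obtain ⟨⟨e, he⟩, he'⟩ := hsurj ⟨T.prev (T.r z'), (l_ne_b hE z').2.2.2.1, hz'', (hEE z').1 hcon⟩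
  have h1 : T.prev (T.osw Set.univ e) = T.prev (T.r z') := congrArg Subtype.val he'
  have h2 := T.prev_inj h1
  have h3 : e = T.l z' := by
    rw [← hosr z', ← h2, T.osw_osw]
  subst h3
  exact he.2.1 hz'

end Pool.Agent.Lib.MP_b7a6eb_gt
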