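import Pool.Agent.Lib.MP_b7a6eb_gt.Constr

/-! The levels and the route of the new over-arc. -/

namespace Pool.Agent.Lib.MP_b7a6eb_gt

open Equiv Equiv.Perm

/-- The level function `lam` of the faces of the open diagram; `z i` is the crossing at which one
passes from level `i` to level `i + 1`. -/
structure Levels (T : Diagram) (b : T.P) (N : ℕ) (lam : T.P × Bool → ℕ) (z : Fin N → T.V) :
    Prop where
  inv : ∀ s, s.1 ≠ b → lam (lface T b s) = lam s
  le : ∀ s, lam s ≤ N
  mono : ∀ p, p ≠ b → lam (p, false) ≤ lam (p, true)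
  start : lam (T.prev b, true) = 0
  stop : lam (T.next b, true) = N
  nonz : ∀ v, (∀ i, z i ≠ v) → lam (T.prev (T.r v), true) = lam (T.l v, true)
  zE : ∀ i, lam (T.l (z i), false) = i
  zN : ∀ i, lam (T.l (z i), true) = i
  zS : ∀ i, lam (T.prev (T.r (z i)), true) = i + 1
  zW : ∀ i, lam (T.r (z i), true) = i + 1

/-- macro steps of a route -/
inductive MStep (T : Diagram) : Type
  | A (p : T.P) : MStep T
  | B (v : T.V) : MStep T
  | E (v : T.V) : MStep T

namespace MStep

variable {T : Diagram}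

/-- side of the face in which the step starts -/
def src : MStep T → T.P × Bool
  | A p => (p, true)
  | B v => (T.prev (T.r v), true)
  | E v => (T.r v, false)

/-- side of the face in which the step ends -/
def tgt : MStep T → T.P × Bool
  | A p => (p, false)
  | B v => (T.l v, true)
  | E v => (T.r v, true)

/-- admissible steps -/
def OK (b : T.P) {N : ℕ} (lam : T.P × Bool → ℕ) (z : Fin N → T.V) : MStep T → Prop
  | A p => p ≠ b ∧ lam (p, true) = lam (p, false)
  | B v => ∀ i, z i ≠ v
  | E v => ∃ i, z i = v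

/-- the crossings of the arc at a macro step -/
def recs : MStep T → List (Rec T)
  | A p => [Rec.A p]
  | B v => [Rec.P v, Rec.Q v]
  | E v => [Rec.E v]

end MStep

/-- `L` is a chain of steps from `s` to `t`; `r` is the relation of belonging to the same face -/
def LinkChain {α σ : Type*} (r : α → α → Prop) (src tgt : σ → α) : α → List σ → α → Prop
  | s, [], t => r s t
  | s, x :: L, t => r s (src x) ∧ LinkChain r src tgt (tgt x) L t

/-- The route of the new over-arc. -/
structure Route (T : Diagram) (b : T.P) (N : ℕ) (lam : T.P × Bool → ℕ) (z : Fin N → T.V)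
    (m : ℕ) (rc : Fin m → Rec T) : Prop where
  lev : Levels T b N lam z
  stepA : ∀ k p, rc k = Rec.A p → p ≠ b ∧ lam (p, true) = lam (p, false)
  stepP : ∀ k v, rc k = Rec.P v → ∀ i, z i ≠ v
  stepQ : ∀ k v, rc k = Rec.Q v → ∃ k' : Fin m, k'.val + 1 = k.val ∧ rc k' = Rec.P v
  stepP' : ∀ k v, rc k = Rec.P v → ∃ k' : Fin m, k'.val = k.val + 1 ∧ rc k' = Rec.Q v
  stepE : ∀ k v, rc k = Rec.E v → ∃ i, z i = v
  useE : ∀ i, ∃ k, rc k = Rec.E (z i)
  first : ∀ k : Fin m, k.val = 0 → ∃ s, (rc k).bef = some s ∧ SF T b (T.prev b, true) s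
  link : ∀ k k' : Fin m, k'.val = k.val + 1 →
    (∃ v, rc k = Rec.P v ∧ rc k' = Rec.Q v) ∨
    ∃ s t, (rc k).aft = some s ∧ (rc k').bef = some t ∧ SF T b s t
  last : ∀ k : Fin m, k.val + 1 = m → ∃ s, (rc k).aft = some s ∧ SF T b s (T.next b, true)
  empty : m = 0 → SF T b (T.prev b, true) (T.next b, true)
  simple0 : ∀ k s, (rc k).aft = some s → ¬ SF T b (T.prev b, true) s
  simple : ∀ k k' s t, (rc k).aft = some s → (rc k').aft = some t → SF T b s t → k = k'

/-- The set of smoothed crossings of the new diagram. -/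
def routeY (T : Diagram) {N : ℕ} (z : Fin N → T.V) {m : ℕ} (rc : Fin m → Rec T) :
    Set (T.V ⊕ Fin m) :=
  {w | (∃ v, w = Sum.inl v ∧ ∀ i, z i ≠ v) ∨ ∃ k p, w = Sum.inr k ∧ rc k = Rec.A p}

end Pool.Agent.Lib.MP_b7a6eb_gt
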