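import Pool.Agent.Lib.MP_b7a6eb_gt.Constr
import Pool.Agent.Lib.MP_b7a6eb_gt.OA0
import Pool.Agent.Lib.MP_b7a6eb_gt.OA5a
import Pool.Agent.Lib.MP_b7a6eb_gt.OA5b
import Pool.Agent.Lib.MP_b7a6eb_gt.Route

namespace Pool.Agent.Lib.MP_b7a6eb_gt

open Equiv Equiv.Perm

section OA5c

variable {T : Diagram} {b : T.P}

/-- steps -/
def oa5Step (T : Diagram) (b : T.P) (s t : T.P × Bool) : Prop :=
  (s.1 ≠ b ∧ t = lface T b s) ∨ (∃ p, p ≠ b ∧ s = (p, true) ∧ t = (p, false)) ∨
    ∃ v, s = (T.prev (T.r v), true) ∧ t = (T.l v, true)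

/-- closure -/
def oa5Cl (T : Diagram) (b : T.P) (X : Set (T.P × Bool)) : Set (T.P × Bool) :=
  {t | ∃ s ∈ X, Relation.ReflTransGen (oa5Step T b) s t}

lemma oa5_sub_cl (X : Set (T.P × Bool)) : X ⊆ oa5Cl T b X :=
  fun s hs => ⟨s, hs, Relation.ReflTransGen.refl⟩

lemma oa5_sf_reach (hE : Ends T b) {s t : T.P × Bool} (h : SF T b s t) (hs : s.1 ≠ b) :
    Relation.ReflTransGen (oa5Step T b) s t := by
  obtain ⟨n, rfl⟩ := h
  induction n with
  | zero => exact Relation.ReflTransGen.refl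
  | succ n ih =>
    rw [Function.iterate_succ_apply']
    exact ih.tail (Or.inl ⟨SF.ne hE ⟨n, rfl⟩ hs, rfl⟩)

lemma oa5_cl_step {X : Set (T.P × Bool)} {s t : T.P × Bool} (hs : s ∈ oa5Cl T b X)
    (h : oa5Step T b s t) : t ∈ oa5Cl T b X := by
  obtain ⟨x, hx, h1⟩ := hs
  exact ⟨x, hx, h1.tail h⟩

lemma oa5_cl_closed (hE : Ends T b) (X : Set (T.P × Bool)) : Closed T b (oa5Cl T b X) := by
  refine ⟨fun s hs => ⟨fun h => ?_, fun h => oa5_cl_step h (Or.inl ⟨hs, rfl⟩)⟩,
    fun p hp h => oa5_cl_step h (Or.inr (Or.inl ⟨p, hp, rfl, rfl⟩)),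
    fun v h => oa5_cl_step h (Or.inr (Or.inr ⟨v, rfl, rfl⟩))⟩
  obtain ⟨x, hx, h1⟩ := h
  have h2 : SF T b (lface T b s) s := SF.symm hE ⟨1, rfl⟩
  exact ⟨x, hx, h1.trans (oa5_sf_reach hE h2 (lface_ne hE hs))⟩

lemma oa5_closed_step {R : Set (T.P × Bool)} (hR : Closed T b R) {s t : T.P × Bool}
    (hs : s ∈ R) (h : oa5Step T b s t) : t ∈ R := by
  rcases h with ⟨h1, rfl⟩ | ⟨p, hp, rfl, rfl⟩ | ⟨v, rfl, rfl⟩
  · exact (hR.face s h1).2 hs
  · exact hR.stepA p hp hs
  · exact hR.stepB v hs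

/-- the west sides of the crossings of type NE -/
def oa5W (T : Diagram) (R : Set (T.P × Bool)) : Set (T.P × Bool) :=
  {s | ∃ v, (T.l v, true) ∈ R ∧ (T.prev (T.r v), true) ∉ R ∧ s = (T.r v, true)}

/-- the sequence of regions -/
def oa5R (T : Diagram) (b : T.P) : ℕ → Set (T.P × Bool)
  | 0 => oa5Cl T b {(T.prev b, true)}
  | i + 1 => oa5Cl T b (oa5R T b i ∪ oa5W T (oa5R T b i))

/-- generators of the regions -/
def oa5X (T : Diagram) (b : T.P) : ℕ → Set (T.P × Bool)
  | 0 => {(T.prev b, true)}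
  | i + 1 => oa5R T b i ∪ oa5W T (oa5R T b i)

lemma oa5R_eq (i : ℕ) : oa5R T b i = oa5Cl T b (oa5X T b i) := by cases i <;> rfl

lemma oa5R_closed (hE : Ends T b) (i : ℕ) : Closed T b (oa5R T b i) := by
  cases i with
  | zero => exact oa5_cl_closed hE _
  | succ i => exact oa5_cl_closed hE _

lemma oa5R_succ (i : ℕ) : oa5R T b i ⊆ oa5R T b (i + 1) :=
  fun _ hs => oa5_sub_cl _ (Or.inl hs)

lemma oa5R_mono {i j : ℕ} (h : i ≤ j) : oa5R T b i ⊆ oa5R T b j := by
  induction h with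
  | refl => exact subset_rfl
  | step _ ih => exact ih.trans (oa5R_succ _)

lemma oa5R_b (i : ℕ) : (T.prev b, true) ∈ oa5R T b i :=
  oa5R_mono (Nat.zero_le i) (oa5_sub_cl _ rfl)

lemma oa5_exists (hE : Ends T b) : ∃ i, (T.next b, true) ∈ oa5R T b i := by
  by_contra hcon
  push Not at hcon
  have hlt : ∀ i, oa5R T b i ⊂ oa5R T b (i + 1) := by
    intro i
    refine ⟨oa5R_succ i, fun hsub => ?_⟩
    obtain ⟨v, ⟨h1, h2⟩, -⟩ := existsUnique_z hE (oa5R_closed hE i) (oa5R_b i) (hcon i)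
    have h3 : (T.r v, true) ∈ oa5R T b i := hsub (oa5_sub_cl _ (Or.inr ⟨v, h1, h2, rfl⟩))
    apply h2
    have hc := oa5R_closed hE i
    have h4 : (T.prev (T.l v), true) ∈ oa5R T b i := by
      rw [← lface_W hE v]; exact (hc.face _ (l_ne_b hE v).2.1).2 h3
    have h5 := hc.stepA _ (l_ne_b hE v).2.2.1 h4
    rw [← lface_S hE v]
    exact (hc.face _ (l_ne_b hE v).2.2.1).2 h5
  have hinj : StrictMono (oa5R T b) := strictMono_nat_of_lt_succ hlt
  exact not_injective_infinite_finite _ hinj.injective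

open Classical in
/-- [OA5c] existence of the levels, and of a walk from the face of `b` to the face of `next b` -/
theorem exists_levels {T : Diagram} {b : T.P} (hE : Ends T b) :
    ∃ (N : ℕ) (lam : T.P × Bool → ℕ) (z : Fin N → T.V), Levels T b N lam z ∧
      Relation.ReflTransGen (fun s t => SF T b s t ∨ ∃ x : MStep T, x.OK b lam z ∧ s = x.src ∧
        t = x.tgt) (T.prev b, true) (T.next b, true) := by
  set R := oa5R T b with hRdef
  have hcl : ∀ i, Closed T b (R i) := oa5R_closed hE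
  have hmono : ∀ {i j : ℕ}, i ≤ j → R i ⊆ R j := fun h => oa5R_mono h
  have hex := oa5_exists hE
  set N := Nat.find hex with hN
  have hNa : (T.next b, true) ∈ R N := Nat.find_spec hex
  have hlt : ∀ i, i < N → (T.next b, true) ∉ R i := fun i hi => Nat.find_min hex hi
  have hz : ∀ i : Fin N, ∃! v, (T.l v, true) ∈ R i ∧ (T.prev (T.r v), true) ∉ R i :=
    fun i => existsUnique_z hE (hcl i) (oa5R_b _) (hlt i i.2)
  choose z hz1 hz2 using hz
  have hlamex : ∀ s : T.P × Bool, ∃ i, N ≤ i ∨ s ∈ R i := fun s => ⟨N, Or.inl le_rfl⟩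
  set lam : T.P × Bool → ℕ := fun s => Nat.find (hlamex s) with hlam
  have hle : ∀ s, lam s ≤ N := fun s => Nat.find_min' (hlamex s) (Or.inl le_rfl)
  have hmem : ∀ s i, i < N → (s ∈ R i ↔ lam s ≤ i) := by
    intro s i hi
    constructor
    · intro h
      exact Nat.find_min' (hlamex s) (Or.inr h)
    · intro h
      rcases Nat.find_spec (hlamex s) with h1 | h1
      · exact absurd (lt_of_le_of_lt (le_trans h1 h) hi) (lt_irrefl _)
      · exact hmono h h1
  have hlam_le : ∀ s t, (∀ i < N, s ∈ R i → t ∈ R i) → lam t ≤ lam s := by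
    intro s t h
    by_cases h1 : lam s < N
    · exact (hmem t _ h1).1 (h _ h1 ((hmem s _ h1).2 le_rfl))
    · exact le_trans (hle t) (not_lt.1 h1)
  have hlam_eq : ∀ s t, (∀ i < N, (s ∈ R i ↔ t ∈ R i)) → lam s = lam t := fun s t h =>
    le_antisymm (hlam_le t s fun i hi => (h i hi).2) (hlam_le s t fun i hi => (h i hi).1)
  have hlam_of : ∀ s i, i ≤ N → (i < N → s ∈ R i) → (∀ j, j + 1 = i → s ∉ R j) → lam s = i := by
    intro s i hi h1 h2
    apply le_antisymm
    · rcases Nat.lt_or_ge i N with h | h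
      · exact (hmem s i h).1 (h1 h)
      · exact le_trans (hle s) h
    · by_contra hcon
      push Not at hcon
      obtain ⟨j, rfl⟩ : ∃ j, i = j + 1 := ⟨i - 1, by omega⟩
      exact h2 j rfl ((hmem s j (by omega)).2 (by omega))
  -- membership facts at a crossing
  have fW : ∀ i v, (T.prev (T.l v), true) ∈ R i ↔ (T.r v, true) ∈ R i := fun i v => by
    rw [← lface_W hE v]; exact (hcl i).face _ (l_ne_b hE v).2.1
  have fS : ∀ i v, (T.prev (T.r v), true) ∈ R i ↔ (T.prev (T.l v), false) ∈ R i := fun i v => by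
    rw [← lface_S hE v]; exact (hcl i).face _ (l_ne_b hE v).2.2.1
  have fN : ∀ i v, (T.r v, false) ∈ R i ↔ (T.l v, true) ∈ R i := fun i v => by
    rw [← lface_N hE v]; exact (hcl i).face _ (l_ne_b hE v).1
  have fWS : ∀ i v, (T.r v, true) ∈ R i → (T.prev (T.r v), true) ∈ R i := fun i v h =>
    (fS i v).2 ((hcl i).stepA _ (l_ne_b hE v).2.2.1 ((fW i v).2 h))
  have hzW : ∀ i : Fin N, (T.r (z i), true) ∈ R (i + 1) := fun i =>
    oa5_sub_cl _ (Or.inr ⟨z i, (hz1 i).1, (hz1 i).2, rfl⟩)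
  have hzW' : ∀ i : Fin N, (T.r (z i), true) ∉ R i := fun i h => (hz1 i).2 (fWS _ _ h)
  have hzE' : ∀ (i : Fin N) (j : ℕ), j + 1 = i.val → (T.l (z i), false) ∉ R j := by
    intro i j hj
    have hjN : j < N := by omega
    refine no_overlap hE (hcl j) (hcl i) (hmono (by omega)) (hlt i i.2) (z := z ⟨j, hjN⟩)
      (fun v h1 h2 => hz2 ⟨j, hjN⟩ v ⟨h1, h2⟩) ?_ (hz1 i).1 (hz1 i).2
    have := hzW ⟨j, hjN⟩
    rw [← hj]; exact this
  have lzE : ∀ i : Fin N, lam (T.l (z i), false) = i := fun i =>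
    hlam_of _ _ i.2.le (fun _ => (hcl i).stepA _ (l_ne_b hE _).1 (hz1 i).1) (hzE' i)
  have lzN : ∀ i : Fin N, lam (T.l (z i), true) = i := fun i =>
    hlam_of _ _ i.2.le (fun _ => (hz1 i).1)
      (fun j hj h => hzE' i j hj ((hcl j).stepA _ (l_ne_b hE _).1 h))
  have lzS : ∀ i : Fin N, lam (T.prev (T.r (z i)), true) = i + 1 := fun i =>
    hlam_of _ _ (by omega) (fun _ => fWS _ _ (hzW i))
      (fun j hj => by have : j = i.val := by omega
                      subst this; exact (hz1 i).2)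
  have lzW : ∀ i : Fin N, lam (T.r (z i), true) = i + 1 := fun i =>
    hlam_of _ _ (by omega) (fun _ => hzW i)
      (fun j hj => by have : j = i.val := by omega
                      subst this; exact hzW' i)
  refine ⟨N, lam, z, ⟨?_, hle, ?_, ?_, ?_, ?_, lzE, lzN, lzS, lzW⟩, ?_⟩
  · intro s hs
    exact hlam_eq _ _ fun i _ => (hcl i).face s hs
  · intro p hp
    exact hlam_le _ _ fun i _ => (hcl i).stepA p hp
  · exact hlam_of _ _ (Nat.zero_le _) (fun _ => oa5R_b 0) (fun j hj => by omega)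
  · exact hlam_of _ _ le_rfl (fun h => absurd h (lt_irrefl _)) (fun j hj => hlt j (by omega))
  · intro v hv
    refine hlam_eq _ _ fun i hi => ⟨(hcl i).stepB v, fun h => ?_⟩
    by_contra h1
    exact hv ⟨i, hi⟩ (hz2 ⟨i, hi⟩ v ⟨h, h1⟩).symm
  · -- the walk
    set W : T.P × Bool → T.P × Bool → Prop := fun s t => SF T b s t ∨
      ∃ x : MStep T, x.OK b lam z ∧ s = x.src ∧ t = x.tgt with hW
    -- sources of the levels
    have hreach : ∀ (i : ℕ) (src : T.P × Bool), i ≤ N →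
        (∀ t ∈ oa5X T b i, (∀ j, j + 1 = i → t ∉ R j) → t = src) →
        ∀ s ∈ R i, (∀ j, j + 1 = i → s ∉ R j) → Relation.ReflTransGen W src s := by
      intro i src hi hsrc s hs hs'
      have hRi : R i = oa5Cl T b (oa5X T b i) := oa5R_eq i
      rw [hRi] at hs
      obtain ⟨x, hx, hxs⟩ := hs
      induction hxs with
      | refl => rw [hsrc x hx hs']
      | @tail t u h1 h2 ih =>
        have htn : ∀ j, j + 1 = i → t ∉ R j := fun j hj ht =>
          hs' j hj (oa5_closed_step (hcl j) ht h2)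
        have htR : t ∈ R i := by rw [hRi]; exact ⟨x, hx, h1⟩
        have huR : u ∈ R i := oa5_closed_step (hcl i) htR h2
        have lt1 : lam t = i := hlam_of _ _ hi (fun _ => htR) htn
        have lu1 : lam u = i := hlam_of _ _ hi (fun _ => huR) hs'
        refine (ih htn).tail ?_
        rcases h2 with ⟨h3, rfl⟩ | ⟨p, hp, rfl, rfl⟩ | ⟨v, rfl, rfl⟩
        · exact Or.inl ⟨1, rfl⟩
        · exact Or.inr ⟨MStep.A p, ⟨hp, lt1.trans lu1.symm⟩, rfl, rfl⟩
        · refine Or.inr ⟨MStep.B v, ?_, rfl, rfl⟩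
          intro j hj
          subst hj
          have e1 := lzS j
          have e2 := lzN j
          omega
    -- the sources
    have hsource : ∀ i : ℕ, (hi : i ≤ N) → ∃ src : T.P × Bool,
        (∀ t ∈ oa5X T b i, (∀ j, j + 1 = i → t ∉ R j) → t = src) ∧
        Relation.ReflTransGen W (T.prev b, true) src := by
      intro i
      induction i with
      | zero =>
        intro _
        exact ⟨(T.prev b, true), fun t ht _ => ht, Relation.ReflTransGen.refl⟩
      | succ i ih =>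
        intro hi
        obtain ⟨src, h1, h2⟩ := ih (by omega)
        have hi' : i < N := by omega
        refine ⟨(T.r (z ⟨i, hi'⟩), true), ?_, ?_⟩
        · rintro t (ht | ⟨v, h3, h4, rfl⟩) ht'
          · exact absurd ht (ht' i rfl)
          · have := hz2 ⟨i, hi'⟩ v ⟨h3, h4⟩
            rw [this]
        · have h3 : Relation.ReflTransGen W src (T.r (z ⟨i, hi'⟩), false) := by
            apply hreach i src hi'.le h1
            · exact (fN _ _).2 (hz1 ⟨i, hi'⟩).1
            · intro j hj h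
              exact hzE' ⟨i, hi'⟩ j hj
                ((hcl j).stepA _ (l_ne_b hE _).1 ((fN _ _).1 h))
          exact (h2.trans h3).tail (Or.inr ⟨MStep.E (z ⟨i, hi'⟩), ⟨_, rfl⟩, rfl, rfl⟩)
    obtain ⟨src, h1, h2⟩ := hsource N le_rfl
    exact h2.trans (hreach N src le_rfl h1 _ hNa fun j hj => hlt j (by omega))

end OA5c

end Pool.Agent.Lib.MP_b7a6eb_gt
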