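import Pool.Agent.Lib.MP_b7a6eb_gt.Route

namespace Pool.Agent.Lib.MP_b7a6eb_gt

open Equiv Equiv.Perm

lemma linkChain_congr {α σ : Type*} {r : α → α → Prop} (hr : Equivalence r) {src tgt : σ → α}
    {s s' t : α} {L : List σ} (h : r s' s) (hL : LinkChain r src tgt s L t) :
    LinkChain r src tgt s' L t := by
  cases L with
  | nil => exact hr.trans h hL
  | cons x L => exact ⟨hr.trans h hL.1, hL.2⟩

lemma linkChain_congr_right {α σ : Type*} {r : α → α → Prop} (hr : Equivalence r)
    {src tgt : σ → α} {s t t' : α} {L : List σ} (h : r t t') (hL : LinkChain r src tgt s L t) :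
    LinkChain r src tgt s L t' := by
  induction L generalizing s with
  | nil => exact hr.trans hL h
  | cons x L ih => exact ⟨hL.1, ih hL.2⟩

lemma linkChain_append_single {α σ : Type*} {r : α → α → Prop} (hr : Equivalence r)
    {src tgt : σ → α} {s : α} {L : List σ} {x : σ} (hL : LinkChain r src tgt s L (src x)) :
    LinkChain r src tgt s (L ++ [x]) (tgt x) := by
  induction L generalizing s with
  | nil => exact ⟨hL, hr.refl _⟩
  | cons y L ih => exact ⟨hL.1, ih hL.2⟩

lemma linkChain_tail {α σ : Type*} {r : α → α → Prop} {src tgt : σ → α}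
    {s t : α} {L1 L2 : List σ} {x : σ} (hL : LinkChain r src tgt s (L1 ++ x :: L2) t) :
    LinkChain r src tgt (tgt x) L2 t := by
  induction L1 generalizing s with
  | nil => exact hL.2
  | cons y L ih => exact ih hL.2

/-- [OA5d] shortest chains are simple -/
theorem exists_simple {α σ : Type*} (r : α → α → Prop) (hr : Equivalence r) (src tgt : σ → α)
    (ok : σ → Prop) {s t : α}
    (h : Relation.ReflTransGen (fun a b => r a b ∨ ∃ x, ok x ∧ a = src x ∧ b = tgt x) s t) :
    ∃ L : List σ, (∀ x ∈ L, ok x) ∧ LinkChain r src tgt s L t ∧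
      (∀ x ∈ L, ¬ r s (tgt x)) ∧ L.Pairwise (fun x y => ¬ r (tgt x) (tgt y)) := by
  classical
  have hex : ∃ L : List σ, (∀ x ∈ L, ok x) ∧ LinkChain r src tgt s L t := by
    induction h with
    | refl => exact ⟨[], by simp, hr.refl _⟩
    | @tail u v _ h2 ih =>
      obtain ⟨L, h3, h4⟩ := ih
      rcases h2 with h2 | ⟨x, h5, rfl, rfl⟩
      · exact ⟨L, h3, linkChain_congr_right hr h2 h4⟩
      · refine ⟨L ++ [x], ?_, linkChain_append_single hr h4⟩
        intro y hy
        rcases List.mem_append.1 hy with h | h
        · exact h3 y h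
        · rw [List.mem_singleton.1 h]; exact h5
  -- every chain can be shortened to a simple one
  have key : ∀ (n : ℕ) (L : List σ) (s : α), L.length = n → (∀ x ∈ L, ok x) →
      LinkChain r src tgt s L t → ∃ L : List σ, L.length ≤ n ∧ (∀ x ∈ L, ok x) ∧
        LinkChain r src tgt s L t ∧ (∀ x ∈ L, ¬ r s (tgt x)) ∧
        L.Pairwise (fun x y => ¬ r (tgt x) (tgt y)) := by
    intro n
    induction n using Nat.strong_induction_on with
    | _ n ih =>
      intro L s hn hok hL
      by_cases h1 : ∃ x ∈ L, r s (tgt x)
      · obtain ⟨x, hx, hsx⟩ := h1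
        obtain ⟨L1, L2, rfl⟩ := List.append_of_mem hx
        have hlen : L2.length < n := by rw [← hn]; simp; omega
        obtain ⟨L', g1, g2, g3⟩ := ih L2.length hlen L2 s rfl
          (fun y hy => hok y (by simp [hy])) (linkChain_congr hr hsx (linkChain_tail hL))
        exact ⟨L', by omega, g2, g3⟩
      · push Not at h1
        cases L with
        | nil => exact ⟨[], by simp, by simp, hL, by simp, List.Pairwise.nil⟩
        | cons y L =>
          have hlen : L.length < n := by rw [← hn]; simp
          obtain ⟨L', g1, g2, g3, g4, g5⟩ := ih L.length hlen L (tgt y) rfl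
            (fun x hx => hok x (by simp [hx])) hL.2
          by_cases h2 : ∃ x ∈ L', r s (tgt x)
          · -- shorten
            obtain ⟨x, hx, hsx⟩ := h2
            obtain ⟨L1, L2, rfl⟩ := List.append_of_mem hx
            have hlen2 : L2.length < n := by
              simp only [List.length_append, List.length_cons] at g1; omega
            obtain ⟨L'', k1, k2, k3⟩ := ih L2.length hlen2 L2 s rfl
              (fun y hy => g2 y (by simp [hy])) (linkChain_congr hr hsx (linkChain_tail g3))
            exact ⟨L'', by omega, k2, k3⟩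
          · push Not at h2
            refine ⟨y :: L', ?_, ?_, ⟨hL.1, g3⟩, ?_, ?_⟩
            · rw [← hn]; simp; exact g1
            · intro x hx
              rcases List.mem_cons.1 hx with rfl | hx
              · exact hok _ (by simp)
              · exact g2 x hx
            · intro x hx
              rcases List.mem_cons.1 hx with rfl | hx
              · exact h1 _ (by simp)
              · exact h2 x hx
            · exact List.Pairwise.cons g4 g5
  obtain ⟨L, h1, h2⟩ := hex
  obtain ⟨L', -, g⟩ := key L.length L s rfl h1 h2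
  exact ⟨L', g⟩

end Pool.Agent.Lib.MP_b7a6eb_gt
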