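import Pool.Agent.Lib.MP_b7a6eb_gt.Constr
import Pool.Agent.Lib.MP_b7a6eb_gt.OA0
import Pool.Agent.Lib.MP_b7a6eb_gt.OA5c
import Pool.Agent.Lib.MP_b7a6eb_gt.OA5d
import Pool.Agent.Lib.MP_b7a6eb_gt.Route

namespace Pool.Agent.Lib.MP_b7a6eb_gt

open Equiv Equiv.Perm

section OA5e

variable {T : Diagram} {b : T.P}

/-- the crossings of the arc -/
def oa5e_F (L : List (MStep T)) : List (Rec T) := L.flatMap MStep.recs

@[simp] lemma oa5e_nil : oa5e_F ([] : List (MStep T)) = [] := rfl

@[simp] lemma oa5e_A (p : T.P) (L : List (MStep T)) :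
    oa5e_F (MStep.A p :: L) = Rec.A p :: oa5e_F L := rfl

@[simp] lemma oa5e_B (v : T.V) (L : List (MStep T)) :
    oa5e_F (MStep.B v :: L) = Rec.P v :: Rec.Q v :: oa5e_F L := rfl

@[simp] lemma oa5e_E (v : T.V) (L : List (MStep T)) :
    oa5e_F (MStep.E v :: L) = Rec.E v :: oa5e_F L := rfl

lemma oa5e_first {s t : T.P × Bool} {L : List (MStep T)}
    (h : LinkChain (SF T b) MStep.src MStep.tgt s L t) (x : Rec T)
    (hx : (oa5e_F L)[0]? = some x) : ∃ s', x.bef = some s' ∧ SF T b s s' := by
  cases L with
  | nil => simp at hx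
  | cons y L =>
    cases y with
    | A p => simp at hx; subst hx; exact ⟨_, rfl, h.1⟩
    | B v => simp at hx; subst hx; exact ⟨_, rfl, h.1⟩
    | E v => simp at hx; subst hx; exact ⟨_, rfl, h.1⟩

lemma oa5e_link {s t : T.P × Bool} {L : List (MStep T)}
    (h : LinkChain (SF T b) MStep.src MStep.tgt s L t) (k : ℕ) (x y : Rec T)
    (hx : (oa5e_F L)[k]? = some x) (hy : (oa5e_F L)[k + 1]? = some y) :
    (∃ v, x = Rec.P v ∧ y = Rec.Q v) ∨
    ∃ s' t', x.aft = some s' ∧ y.bef = some t' ∧ SF T b s' t' := by
  induction L generalizing s k with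
  | nil => simp at hx
  | cons w L ih =>
    cases w with
    | A p =>
      rcases k with _ | k
      · simp at hx hy
        subst hx
        obtain ⟨t', h1, h2⟩ := oa5e_first h.2 y (by simpa using hy)
        exact Or.inr ⟨_, t', rfl, h1, h2⟩
      · simp only [oa5e_A, List.getElem?_cons_succ] at hx hy
        exact ih h.2 k hx hy
    | B v =>
      rcases k with _ | _ | k
      · simp at hx hy
        subst hx; subst hy
        exact Or.inl ⟨v, rfl, rfl⟩
      · simp at hx hy
        subst hx
        obtain ⟨t', h1, h2⟩ := oa5e_first h.2 y (by simpa using hy)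
        exact Or.inr ⟨_, t', rfl, h1, h2⟩
      · simp only [oa5e_B, List.getElem?_cons_succ] at hx hy
        exact ih h.2 k hx hy
    | E v =>
      rcases k with _ | k
      · simp at hx hy
        subst hx
        obtain ⟨t', h1, h2⟩ := oa5e_first h.2 y (by simpa using hy)
        exact Or.inr ⟨_, t', rfl, h1, h2⟩
      · simp only [oa5e_E, List.getElem?_cons_succ] at hx hy
        exact ih h.2 k hx hy

lemma oa5e_empty {s t : T.P × Bool} {L : List (MStep T)}
    (h : LinkChain (SF T b) MStep.src MStep.tgt s L t) (h0 : (oa5e_F L).length = 0) :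
    SF T b s t := by
  cases L with
  | nil => exact h
  | cons w L => cases w <;> simp at h0

lemma oa5e_last {s t : T.P × Bool} {L : List (MStep T)}
    (h : LinkChain (SF T b) MStep.src MStep.tgt s L t) (k : ℕ) (x : Rec T)
    (hx : (oa5e_F L)[k]? = some x) (hk : k + 1 = (oa5e_F L).length) :
    ∃ s', x.aft = some s' ∧ SF T b s' t := by
  induction L generalizing s k with
  | nil => simp at hx
  | cons w L ih =>
    cases w with
    | A p =>
      rcases k with _ | k
      · simp at hx hk
        subst hx
        exact ⟨_, rfl, oa5e_empty h.2 (by simp [hk])⟩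
      · simp only [oa5e_A, List.getElem?_cons_succ, List.length_cons] at hx hk
        exact ih h.2 k hx (by omega)
    | B v =>
      rcases k with _ | _ | k
      · simp at hx hk
      · simp at hx hk
        subst hx
        exact ⟨_, rfl, oa5e_empty h.2 (by simp [hk])⟩
      · simp only [oa5e_B, List.getElem?_cons_succ, List.length_cons] at hx hk
        exact ih h.2 k hx (by omega)
    | E v =>
      rcases k with _ | k
      · simp at hx hk
        subst hx
        exact ⟨_, rfl, oa5e_empty h.2 (by simp [hk])⟩
      · simp only [oa5e_E, List.getElem?_cons_succ, List.length_cons] at hx hk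
        exact ih h.2 k hx (by omega)

lemma oa5e_stepQ {L : List (MStep T)} (k : ℕ) (v : T.V)
    (hx : (oa5e_F L)[k]? = some (Rec.Q v)) :
    ∃ k', k' + 1 = k ∧ (oa5e_F L)[k']? = some (Rec.P v) := by
  induction L generalizing k with
  | nil => simp at hx
  | cons w L ih =>
    cases w with
    | A p =>
      rcases k with _ | k
      · simp at hx
      · simp only [oa5e_A, List.getElem?_cons_succ] at hx
        obtain ⟨k', h1, h2⟩ := ih k hx
        exact ⟨k' + 1, by omega, by simpa using h2⟩
    | B v' =>
      rcases k with _ | _ | k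
      · simp at hx
      · simp at hx
        subst hx
        exact ⟨0, rfl, by simp⟩
      · simp only [oa5e_B, List.getElem?_cons_succ] at hx
        obtain ⟨k', h1, h2⟩ := ih k hx
        exact ⟨k' + 2, by omega, by simpa using h2⟩
    | E v' =>
      rcases k with _ | k
      · simp at hx
      · simp only [oa5e_E, List.getElem?_cons_succ] at hx
        obtain ⟨k', h1, h2⟩ := ih k hx
        exact ⟨k' + 1, by omega, by simpa using h2⟩

lemma oa5e_stepP {L : List (MStep T)} (k : ℕ) (v : T.V)
    (hx : (oa5e_F L)[k]? = some (Rec.P v)) : (oa5e_F L)[k + 1]? = some (Rec.Q v) := by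
  induction L generalizing k with
  | nil => simp at hx
  | cons w L ih =>
    cases w with
    | A p =>
      rcases k with _ | k
      · simp at hx
      · simp only [oa5e_A, List.getElem?_cons_succ] at hx ⊢
        exact ih k hx
    | B v' =>
      rcases k with _ | _ | k
      · simp at hx
        subst hx
        simp
      · simp at hx
      · simp only [oa5e_B, List.getElem?_cons_succ] at hx ⊢
        exact ih k hx
    | E v' =>
      rcases k with _ | k
      · simp at hx
      · simp only [oa5e_E, List.getElem?_cons_succ] at hx ⊢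
        exact ih k hx

lemma oa5e_mem {L : List (MStep T)} {x : Rec T} (h : x ∈ oa5e_F L) : ∃ w ∈ L, x ∈ w.recs := by
  simpa [oa5e_F, List.mem_flatMap] using h

lemma oa5e_aft {w : MStep T} {x : Rec T} (h : x ∈ w.recs) {s : T.P × Bool}
    (hs : x.aft = some s) : s = w.tgt := by
  cases w with
  | A p => simp [MStep.recs] at h; subst h; exact (Option.some.inj hs).symm
  | B v =>
    simp [MStep.recs] at h
    rcases h with rfl | rfl
    · simp [Rec.aft] at hs
    · exact (Option.some.inj hs).symm
  | E v => simp [MStep.recs] at h; subst h; exact (Option.some.inj hs).symm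

lemma oa5e_recs_pairwise (w : MStep T) : w.recs.Pairwise
    (fun x y : Rec T => ∀ s t, x.aft = some s → y.aft = some t → ¬ SF T b s t) := by
  cases w with
  | A p => simp [MStep.recs]
  | B v =>
    simp only [MStep.recs, List.pairwise_cons, List.mem_singleton, forall_eq,
      List.not_mem_nil, false_implies, implies_true, List.Pairwise.nil, and_true]
    intro s t h
    simp [Rec.aft] at h
  | E v => simp [MStep.recs]

/-- levels along a chain -/
lemma oa5e_level {N : ℕ} {lam : T.P × Bool → ℕ} {z : Fin N → T.V} (hE : Ends T b)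
    (hL : Levels T b N lam z) (i : Fin N) {s t : T.P × Bool} {L : List (MStep T)}
    (hok : ∀ x ∈ L, MStep.OK b lam z x)
    (h : LinkChain (SF T b) MStep.src MStep.tgt s L t) (hs : s.1 ≠ b)
    (hno : MStep.E (z i) ∉ L) (hle : lam s ≤ i) : lam t ≤ i := by
  induction L generalizing s with
  | nil =>
    have := SF.eq hE lam hL.inv h hs
    rw [← this]; exact hle
  | cons w L ih =>
    obtain ⟨h1, h2⟩ := h
    have e1 := SF.eq hE lam hL.inv h1 hs
    have hw := hok w (by simp)
    have htgt : w.tgt.1 ≠ b := by
      cases w with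
      | A p => exact hw.1
      | B v => exact (l_ne_b hE v).1
      | E v => exact (l_ne_b hE v).2.1
    refine ih (fun x hx => hok x (by simp [hx])) h2 htgt (fun h => hno (by simp [h])) ?_
    cases w with
    | A p =>
      have e2 : lam (p, true) = lam (p, false) := hw.2
      change lam (p, false) ≤ i
      rw [← e2]
      exact le_trans (le_of_eq e1.symm) hle
    | B v =>
      have e2 := hL.nonz v hw
      change lam (T.l v, true) ≤ i
      rw [← e2]
      exact le_trans (le_of_eq e1.symm) hle
    | E v =>
      obtain ⟨j, rfl⟩ := hw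
      have hji : j ≠ i := by
        rintro rfl
        exact hno (by simp)
      have e2 : lam (T.r (z j), false) = j := by
        rw [← hL.zN j, ← lface_N hE]
        exact hL.inv _ (l_ne_b hE _).1
      have e3 := hL.zW j
      change lam (T.r (z j), true) ≤ i
      have e4 : lam s = lam (T.r (z j), false) := e1
      rw [e3]
      have : (j : ℕ) ≤ i := by rw [← e2, ← e4]; exact hle
      have : (j : ℕ) ≠ i := fun h => hji (Fin.ext h)
      omega

/-- [OA5e] existence of the route -/
theorem exists_route (T : Diagram) (b : T.P) (hE : Ends T b) :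
    ∃ (N : ℕ) (lam : T.P × Bool → ℕ) (z : Fin N → T.V) (m : ℕ) (rc : Fin m → Rec T),
      Route T b N lam z m rc := by
  obtain ⟨N, lam, z, hL, hwalk⟩ := exists_levels hE
  have hr : Equivalence (SF T b) := ⟨SF.refl T b, fun h => SF.symm hE h, fun h h' => SF.trans h h'⟩
  obtain ⟨L, hok, hch, hs0, hs⟩ := exists_simple (SF T b) hr MStep.src MStep.tgt
    (MStep.OK b lam z) hwalk
  set F := oa5e_F L with hF
  have hget : ∀ (k : Fin F.length), F[k.val]? = some (F.get k) := fun k => by simp
  have hpb : T.prev b ≠ b := by
    intro h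
    rw [T.prev_eq_iff] at h
    exact hE.ne h.symm
  have hmem : ∀ k : Fin F.length, ∃ w ∈ L, F.get k ∈ w.recs := fun k =>
    oa5e_mem (F.get_mem k)
  have hpw : F.Pairwise
      (fun x y : Rec T => ∀ s t, x.aft = some s → y.aft = some t → ¬ SF T b s t) := by
    rw [hF, oa5e_F, List.pairwise_flatMap]
    refine ⟨fun w _ => oa5e_recs_pairwise w, hs.imp ?_⟩
    intro w w' h x hx y hy s t hs ht
    rw [oa5e_aft hx hs, oa5e_aft hy ht]
    exact h
  refine ⟨N, lam, z, F.length, F.get, ⟨hL, ?_, ?_, ?_, ?_, ?_, ?_, ?_, ?_, ?_, ?_, ?_, ?_⟩⟩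
  · -- stepA
    intro k p hk
    obtain ⟨w, hw, h1⟩ := hmem k
    rw [hk] at h1
    have h2 := hok w hw
    cases w with
    | A q => simp [MStep.recs] at h1; subst h1; exact h2
    | B v => simp [MStep.recs] at h1
    | E v => simp [MStep.recs] at h1
  · -- stepP
    intro k v hk
    obtain ⟨w, hw, h1⟩ := hmem k
    rw [hk] at h1
    have h2 := hok w hw
    cases w with
    | A q => simp [MStep.recs] at h1
    | B v' => simp [MStep.recs] at h1; subst h1; exact h2
    | E v' => simp [MStep.recs] at h1
  · -- stepQ
    intro k v hk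
    obtain ⟨k', h1, h2⟩ := oa5e_stepQ (L := L) k.val v (by rw [← hk]; exact hget k)
    have hk' : k' < F.length := by omega
    refine ⟨⟨k', hk'⟩, h1, ?_⟩
    have := hget ⟨k', hk'⟩
    exact Option.some.inj (this.symm.trans h2)
  · -- stepP'
    intro k v hk
    have h2 := oa5e_stepP (L := L) k.val v (by rw [← hk]; exact hget k)
    have hk' : k.val + 1 < F.length := by
      by_contra h
      rw [← hF, List.getElem?_eq_none (by omega)] at h2
      simp at h2
    refine ⟨⟨k.val + 1, hk'⟩, rfl, ?_⟩
    have := hget ⟨k.val + 1, hk'⟩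
    exact Option.some.inj (this.symm.trans h2)
  · -- stepE
    intro k v hk
    obtain ⟨w, hw, h1⟩ := hmem k
    rw [hk] at h1
    have h2 := hok w hw
    cases w with
    | A q => simp [MStep.recs] at h1
    | B v' => simp [MStep.recs] at h1
    | E v' => simp [MStep.recs] at h1; subst h1; exact h2
  · -- useE
    intro i
    have h1 : MStep.E (z i) ∈ L := by
      by_contra hno
      have := oa5e_level hE hL i hok hch hpb hno (by rw [hL.start]; exact Nat.zero_le _)
      rw [hL.stop] at this
      exact absurd i.2 (by omega)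
    have h2 : Rec.E (z i) ∈ F := by
      rw [hF, oa5e_F, List.mem_flatMap]
      exact ⟨_, h1, by simp [MStep.recs]⟩
    obtain ⟨k, hk⟩ := List.mem_iff_get.1 h2
    exact ⟨k, hk⟩
  · -- first
    intro k hk
    exact oa5e_first hch _ (by rw [← hk]; exact hget k)
  · -- link
    intro k k' hk
    exact oa5e_link hch k.val _ _ (hget k) (by rw [← hk]; exact hget k')
  · -- last
    intro k hk
    exact oa5e_last hch k.val _ (hget k) hk
  · -- empty
    intro h
    exact oa5e_empty hch h
  · -- simple0
    intro k s hk
    obtain ⟨w, hw, h1⟩ := hmem k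
    rw [oa5e_aft h1 hk]
    exact hs0 w hw
  · -- simple
    intro k k' s t hk hk' hst
    rw [List.pairwise_iff_getElem] at hpw
    by_contra hne
    rcases Nat.lt_or_gt_of_ne (fun h => hne (Fin.ext h)) with h | h
    · exact hpw k.val k'.val k.2 k'.2 h s t hk hk' hst
    · exact hpw k'.val k.val k'.2 k.2 h t s hk' hk (SF.symm hE hst)

end OA5e

end Pool.Agent.Lib.MP_b7a6eb_gt
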