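import Pool.Agent.Lib.MP_b7a6eb_gt.Constr
import Pool.Agent.Lib.MP_b7a6eb_gt.Route

namespace Pool.Agent.Lib.MP_b7a6eb_gt

open Equiv Equiv.Perm

/-- [OA7] -/
theorem route_injective {T : Diagram} {b : T.P} {N : ℕ} {lam : T.P × Bool → ℕ}
    {z : Fin N → T.V} {m : ℕ} {rc : Fin m → Rec T} (hR : Route T b N lam z m rc) :
    Function.Injective rc := by
  have key : ∀ k k' s, (rc k).aft = some s → rc k = rc k' → k = k' := by
    intro k k' s h h'
    exact hR.simple k k' s s h (h' ▸ h) ⟨0, rfl⟩
  intro k k' h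
  rcases hk : rc k with p | v | v | v
  · exact key k k' (p, false) (by rw [hk]; rfl) h
  · obtain ⟨j, hj, hj'⟩ := hR.stepP' k v hk
    obtain ⟨j', hj1, hj1'⟩ := hR.stepP' k' v (h ▸ hk)
    have : j = j' := key j j' (T.l v, true) (by rw [hj']; rfl) (hj'.trans hj1'.symm)
    subst this
    exact Fin.ext (by omega)
  · exact key k k' (T.l v, true) (by rw [hk]; rfl) h
  · exact key k k' (T.r v, true) (by rw [hk]; rfl) h

lemma Rec.pt_injective {T : Diagram} : Function.Injective (Rec.pt : Rec T → T.sub4.P) := by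
  have hll : ∀ v w, T.l v = T.l w → v = w := fun v w h => (Prod.mk.inj (T.cr_inj h)).1
  have hrr : ∀ v w, T.r v = T.r w → v = w := fun v w h => (Prod.mk.inj (T.cr_inj h)).1
  have h1 : ∀ {p q : T.P} {k k' : Fin 4}, ((p, k) : T.P × Fin 4) = (q, k') → p = q :=
    fun h => congrArg Prod.fst h
  have h2 : ∀ {p q : T.P} {k k' : Fin 4}, ((p, k) : T.P × Fin 4) = (q, k') → k = k' :=
    fun h => congrArg Prod.snd h
  intro x y h
  rcases x with p | v | v | v <;> rcases y with q | w | w | w
  · exact congrArg Rec.A (h1 h)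
  · exact absurd (h2 h) (by decide)
  · exact absurd (h2 h) (by decide)
  · exact absurd (h2 h) (by decide)
  · exact absurd (h2 h) (by decide)
  · exact congrArg Rec.P (hrr _ _ (T.prev_inj (h1 h)))
  · exact absurd (h2 h) (by decide)
  · exact absurd (h2 h) (by decide)
  · exact absurd (h2 h) (by decide)
  · exact absurd (h2 h) (by decide)
  · exact congrArg Rec.Q (hll _ _ (h1 h))
  · exact absurd (h1 h) (T.l_ne_r _ _)
  · exact absurd (h2 h) (by decide)
  · exact absurd (h2 h) (by decide)
  · exact absurd (h1 h).symm (T.l_ne_r _ _)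
  · exact congrArg Rec.E (hrr _ _ (h1 h))

/-- [OA7] the points passed under by the route are distinct markers -/
theorem route_arcOK {T : Diagram} {b : T.P} {N : ℕ} {lam : T.P × Bool → ℕ} {z : Fin N → T.V}
    {m : ℕ} {rc : Fin m → Rec T} (hR : Route T b N lam z m rc) :
    T.sub4.ArcOK (fun k => (rc k).pt) := by
  refine ⟨Rec.pt_injective.comp (route_injective hR), fun k => ?_⟩
  change T.sub4.lab (rc k).pt = none
  have key : ∀ (p : T.P) (k : Fin 4), k ≠ 0 → T.sub4.lab (p, k) = none := fun p k hk =>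
    (if_neg hk : (if k = 0 then T.lab p else none) = none)
  rcases rc k with p | v | v | v
  · exact key _ _ (by decide)
  · exact key _ _ (by decide)
  · exact key _ _ (by decide)
  · exact key _ _ (by decide)

/-- the new diagram -/
noncomputable def routeD {T : Diagram} {b : T.P} {N : ℕ} {lam : T.P × Bool → ℕ}
    {z : Fin N → T.V} {m : ℕ} {rc : Fin m → Rec T} (hR : Route T b N lam z m rc) : Diagram :=
  T.sub4.overClosure (b, 3) (fun k => (rc k).pt) (fun k => (rc k).sg) (route_arcOK hR)

/-- [OA7] -/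
theorem ends_sub4 {T : Diagram} {b : T.P} (hE : Ends T b) : Ends T.sub4 (b, 3) := by
  have h0 : T.sub4.next (b, (3 : Fin 4)) = (T.next b, (0 : Fin 4)) := rfl
  refine ⟨rfl, ?_, ?_⟩
  · rw [h0]
    exact hE.ha
  · rw [h0]
    intro h
    have h1 : (0 : Fin 4) = 3 := congrArg Prod.snd h
    exact absurd h1 (by decide)

end Pool.Agent.Lib.MP_b7a6eb_gt
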