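import Pool.Agent.Lib.MP_b7a6eb_gt.Constr
import Pool.Agent.Lib.MP_b7a6eb_gt.OA0
import Pool.Agent.Lib.MP_b7a6eb_gt.OA4

namespace Pool.Agent.Lib.MP_b7a6eb_gt

open Equiv Equiv.Perm

section OA6a

variable (T : Diagram) (b : T.P) {m : ℕ} (u : Fin m → T.P) (s : Fin m → Bool) (h : T.ArcOK u)

/-- old points of the closed diagram -/
def oa6_i (p : T.P) : (T.overClosure b u s h).P := Sum.inl p

/-- arc edges -/
noncomputable def oa6_a (k : Fin (m + 1)) : (T.overClosure b u s h).P := T.arcEmb b m k

lemma oa6_a_zero : oa6_a T b u s h 0 = oa6_i T b u s h b := rfl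

lemma oa6_lab_u (k : Fin m) :
    (T.overClosure b u s h).lab (oa6_i T b u s h (u k)) = some (Sum.inr k, false) :=
  ((T.overClosure b u s h).lab_iff _ _).2 rfl

lemma oa6_lab_none {p : T.P} (hp : T.lab p = none) (hu : ∀ k, u k ≠ p) :
    (T.overClosure b u s h).lab (oa6_i T b u s h p) = none := by
  rw [Diagram.lab_eq_none]
  rintro ⟨v | k, x⟩ hx
  · have h1 : (Sum.inl (T.cr (v, x)) : T.P ⊕ Fin m) = Sum.inl p := by
      cases x <;> exact hx
    have h2 := Sum.inl.inj h1
    rw [← h2, Diagram.lab_cr] at hp
    simp at hp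
  · cases x
    · have h1 : (Sum.inl (u k) : T.P ⊕ Fin m) = Sum.inl p := hx
      exact hu k (Sum.inl.inj h1)
    · have h1 : (Sum.inr k : T.P ⊕ Fin m) = Sum.inl p := hx
      simp at h1

lemma oa6_l (v : T.V) : (T.overClosure b u s h).l (Sum.inl v) = oa6_i T b u s h (T.l v) := by
  have : ∀ x, (T.overClosure b u s h).cr (Sum.inl v, x) = oa6_i T b u s h (T.cr (v, x)) :=
    fun x => by cases x <;> rfl
  exact this _

lemma oa6_r (v : T.V) : (T.overClosure b u s h).r (Sum.inl v) = oa6_i T b u s h (T.r v) := by
  have : ∀ x, (T.overClosure b u s h).cr (Sum.inl v, x) = oa6_i T b u s h (T.cr (v, x)) :=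
    fun x => by cases x <;> rfl
  exact this _

lemma oa6_cr_true (k : Fin m) : (T.overClosure b u s h).cr (Sum.inr k, true) =
    oa6_a T b u s h k.succ := rfl

lemma oa6_cr_false (k : Fin m) : (T.overClosure b u s h).cr (Sum.inr k, false) =
    oa6_i T b u s h (u k) := rfl

lemma oa6_lr_true {k : Fin m} (hk : s k = true) :
    (T.overClosure b u s h).l (Sum.inr k) = oa6_a T b u s h k.succ ∧
    (T.overClosure b u s h).r (Sum.inr k) = oa6_i T b u s h (u k) := by
  constructor
  · change (T.overClosure b u s h).cr (Sum.inr k, s k) = _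
    rw [hk]; rfl
  · change (T.overClosure b u s h).cr (Sum.inr k, !(s k)) = _
    rw [hk]; rfl

lemma oa6_lr_false {k : Fin m} (hk : s k = false) :
    (T.overClosure b u s h).l (Sum.inr k) = oa6_i T b u s h (u k) ∧
    (T.overClosure b u s h).r (Sum.inr k) = oa6_a T b u s h k.succ := by
  constructor
  · change (T.overClosure b u s h).cr (Sum.inr k, s k) = _
    rw [hk]; rfl
  · change (T.overClosure b u s h).cr (Sum.inr k, !(s k)) = _
    rw [hk]; rfl

lemma oa6_next {p : T.P} (hp : p ≠ b) :
    (T.overClosure b u s h).next (oa6_i T b u s h p) = oa6_i T b u s h (T.next p) :=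
  (overClosure_next T b u s h).1 p hp

lemma oa6_next_last :
    (T.overClosure b u s h).next (oa6_a T b u s h (Fin.last m)) = oa6_i T b u s h (T.next b) :=
  (overClosure_next T b u s h).2.2

lemma oa6_prev {p : T.P} (hp : p ≠ T.next b) :
    (T.overClosure b u s h).prev (oa6_i T b u s h p) = oa6_i T b u s h (T.prev p) :=
  (overClosure_prev T b u s h).1 p hp

lemma oa6_prev_succ (k : Fin m) :
    (T.overClosure b u s h).prev (oa6_a T b u s h k.succ) = oa6_a T b u s h k.castSucc :=
  (overClosure_prev T b u s h).2.1 k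

lemma oa6_prev_a :
    (T.overClosure b u s h).prev (oa6_i T b u s h (T.next b)) = oa6_a T b u s h (Fin.last m) :=
  (overClosure_prev T b u s h).2.2

lemma sIn_zero : sIn T b u s 0 = (T.prev b, false) := rfl

lemma sIn_succ (k : Fin m) : sIn T b u s k.succ =
    if s k = true then (T.prev (u k), false) else (u k, true) := rfl

lemma sOut_castSucc (k : Fin m) : sOut T b u s k.castSucc =
    if s k = true then (u k, true) else (T.prev (u k), false) := by
  have h : (k.castSucc : Fin (m + 1)).val < m := by simp
  change (if h : (k.castSucc : Fin (m + 1)).val < m then _ else _) = _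
  rw [dif_pos h]
  rfl

lemma sOut_last : sOut T b u s (Fin.last m) = (T.next b, true) := by
  have h : ¬ (Fin.last m : Fin (m + 1)).val < m := by simp
  change (if h : (Fin.last m : Fin (m + 1)).val < m then _ else _) = _
  rw [dif_neg h]

variable {u}

/-- the faces of the closed diagram at the crossings and ends of the arc -/
lemma oa6_face_sIn (hE : Ends T b) (hub : ∀ k, u k ≠ b ∧ u k ≠ T.next b) (k : Fin (m + 1)) :
    (T.overClosure b u s h).face
        (oa6_i T b u s h (sIn T b u s k).1, (sIn T b u s k).2) = (oa6_a T b u s h k, false) := by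
  rcases Fin.eq_zero_or_eq_succ k with rfl | ⟨j, rfl⟩
  · rw [sIn_zero]
    have hpb : T.prev b ≠ b := (fun h => hE.ne ((T.prev_eq_iff.1 h).symm))
    have h1 := oa6_next T b u s h hpb
    rw [T.next_prev] at h1
    have h2 : (T.overClosure b u s h).lab ((T.overClosure b u s h).next
        (oa6_i T b u s h (T.prev b))) = none := by
      rw [h1]; exact oa6_lab_none T b u s h hE.hb (fun k => (hub k).1)
    rw [Diagram.face_false_marker _ h2, h1]
    rfl
  · rw [sIn_succ]
    cases hs : s j
    · obtain ⟨h1, h2⟩ := oa6_lr_false T b u s h hs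
      have := (T.overClosure b u s h).face_N (Sum.inr j)
      rw [h1, h2] at this
      exact this
    · obtain ⟨h1, h2⟩ := oa6_lr_true T b u s h hs
      have := (T.overClosure b u s h).face_E (Sum.inr j)
      rw [h1, h2, oa6_prev T b u s h (hub j).2] at this
      exact this

lemma oa6_face_sOut (hE : Ends T b) (hub : ∀ k, u k ≠ b ∧ u k ≠ T.next b) (k : Fin (m + 1)) :
    (T.overClosure b u s h).face
        (oa6_i T b u s h (sOut T b u s k).1, (sOut T b u s k).2) = (oa6_a T b u s h k, true) := by
  rcases Fin.eq_castSucc_or_eq_last k with ⟨j, rfl⟩ | rfl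
  · rw [sOut_castSucc]
    cases hs : s j
    · obtain ⟨h1, h2⟩ := oa6_lr_false T b u s h hs
      have := (T.overClosure b u s h).face_S (Sum.inr j)
      rw [h1, h2, oa6_prev T b u s h (hub j).2, oa6_prev_succ] at this
      exact this
    · obtain ⟨h1, h2⟩ := oa6_lr_true T b u s h hs
      have := (T.overClosure b u s h).face_W (Sum.inr j)
      rw [h1, h2, oa6_prev_succ] at this
      exact this
  · rw [sOut_last]
    have h2 : (T.overClosure b u s h).lab (oa6_i T b u s h (T.next b)) = none :=
      oa6_lab_none T b u s h hE.ha (fun k => (hub k).2)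
    rw [Diagram.face_true_marker _ h2, oa6_prev_a]

lemma oa6_lface_u_true (hub : ∀ k, u k ≠ b ∧ u k ≠ T.next b) (h : T.ArcOK u) (j : Fin m) :
    lface T b (u j, true) = (T.prev (u j), true) :=
  lface_marker_true (h.marker j) (hub j).1 (hub j).2

lemma oa6_lface_u_false (hub : ∀ k, u k ≠ b ∧ u k ≠ T.next b) (h : T.ArcOK u) (j : Fin m) :
    lface T b (T.prev (u j), false) = (u j, false) := by
  have := lface_marker_false (T := T) (b := b) (p := T.prev (u j))
    (by rw [T.next_prev]; exact h.marker j)
    (fun h' => (hub j).2 (T.prev_eq_iff.1 h')) (by rw [T.next_prev]; exact (hub j).1)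
  rw [this, T.next_prev]

lemma oa6_face_a_false (hE : Ends T b) (hub : ∀ k, u k ≠ b ∧ u k ≠ T.next b)
    (k : Fin (m + 1)) :
    (T.overClosure b u s h).face (oa6_a T b u s h k, false) =
      (oa6_i T b u s h (lface T b (sOut T b u s k)).1, (lface T b (sOut T b u s k)).2) := by
  rcases Fin.eq_castSucc_or_eq_last k with ⟨j, rfl⟩ | rfl
  · rw [sOut_castSucc]
    cases hs : s j
    · obtain ⟨h1, h2⟩ := oa6_lr_false T b u s h hs
      have := (T.overClosure b u s h).face_E (Sum.inr j)
      rw [h1, h2, oa6_prev_succ] at this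
      rw [this]
      simp only [Bool.false_eq_true, if_false]
      rw [oa6_lface_u_false T b hub h j]
    · obtain ⟨h1, h2⟩ := oa6_lr_true T b u s h hs
      have := (T.overClosure b u s h).face_S (Sum.inr j)
      rw [h1, h2, oa6_prev_succ, oa6_prev T b u s h (hub j).2] at this
      rw [this]
      simp only [if_true]
      rw [oa6_lface_u_true T b hub h j]
  · rw [sOut_last, lface_end_a hE]
    have h2 : (T.overClosure b u s h).lab ((T.overClosure b u s h).next
        (oa6_a T b u s h (Fin.last m))) = none := by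
      rw [oa6_next_last]; exact oa6_lab_none T b u s h hE.ha (fun k => (hub k).2)
    rw [Diagram.face_false_marker _ h2, oa6_next_last]

lemma oa6_face_a_true (hE : Ends T b) (hub : ∀ k, u k ≠ b ∧ u k ≠ T.next b)
    (k : Fin (m + 1)) :
    (T.overClosure b u s h).face (oa6_a T b u s h k, true) =
      (oa6_i T b u s h (lface T b (sIn T b u s k)).1, (lface T b (sIn T b u s k)).2) := by
  rcases Fin.eq_zero_or_eq_succ k with rfl | ⟨j, rfl⟩
  · rw [sIn_zero, lface_end_b hE]
    have h2 : (T.overClosure b u s h).lab (oa6_a T b u s h 0) = none :=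
      oa6_lab_none T b u s h hE.hb (fun k => (hub k).1)
    rw [Diagram.face_true_marker _ h2, oa6_a_zero, oa6_prev T b u s h hE.ne.symm]
  · rw [sIn_succ]
    cases hs : s j
    · obtain ⟨h1, h2⟩ := oa6_lr_false T b u s h hs
      have := (T.overClosure b u s h).face_W (Sum.inr j)
      rw [h1, h2, oa6_prev T b u s h (hub j).2] at this
      rw [this]
      simp only [Bool.false_eq_true, if_false]
      rw [oa6_lface_u_true T b hub h j]
    · obtain ⟨h1, h2⟩ := oa6_lr_true T b u s h hs
      have := (T.overClosure b u s h).face_N (Sum.inr j)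
      rw [h1, h2] at this
      rw [this]
      simp only [if_true]
      rw [oa6_lface_u_false T b hub h j]

lemma oa6_face_other (hE : Ends T b) (a : T.P × Bool) (ha : a.1 ≠ b)
    (h1 : ∀ k, a ≠ sIn T b u s k) (h2 : ∀ k, a ≠ sOut T b u s k) :
    (T.overClosure b u s h).face (oa6_i T b u s h a.1, a.2) =
        (oa6_i T b u s h (lface T b a).1, (lface T b a).2) := by
  -- `a` is not a transition
  have hu : ∀ j, a ≠ (u j, true) ∧ a ≠ (T.prev (u j), false) := by
    intro j
    have g1 := h1 j.succ
    have g2 := h2 j.castSucc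
    rw [sIn_succ] at g1
    rw [sOut_castSucc] at g2
    cases hs : s j
    · rw [hs] at g1 g2
      exact ⟨g1, g2⟩
    · rw [hs] at g1 g2
      exact ⟨g2, g1⟩
  have hb0 : a ≠ (T.prev b, false) := h1 0
  have ha0 : a ≠ (T.next b, true) := by
    have := h2 (Fin.last m)
    rwa [sOut_last] at this
  obtain ⟨p, x⟩ := a
  have hp : p ≠ b := ha
  change (T.overClosure b u s h).face (oa6_i T b u s h p, x) = _
  cases x
  · have hn : T.next p ≠ b := by
      intro h'
      apply hb0
      rw [← h']; simp
    rw [oa0_face_false hp hn]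
    rcases T.point_cases (T.next p) with h3 | ⟨v, h3⟩ | ⟨v, h3⟩
    · rw [T.face_false_marker h3]
      have h4 : (T.overClosure b u s h).lab ((T.overClosure b u s h).next
          (oa6_i T b u s h p)) = none := by
        rw [oa6_next T b u s h hp]
        apply oa6_lab_none T b u s h h3
        intro k hk
        apply (hu k).2
        rw [hk]; simp
      rw [Diagram.face_false_marker _ h4, oa6_next T b u s h hp]
    · have h6 : p = T.prev (T.l v) := by rw [← h3]; simp
      subst h6
      rw [T.face_S]
      have := (T.overClosure b u s h).face_S (Sum.inl v)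
      rw [oa6_l, oa6_r, oa6_prev T b u s h (oa0_lab_ne hE (by simp)).2,
        oa6_prev T b u s h (oa0_lab_ne hE (by simp)).2] at this
      exact this
    · have h6 : p = T.prev (T.r v) := by rw [← h3]; simp
      subst h6
      rw [T.face_E]
      have := (T.overClosure b u s h).face_E (Sum.inl v)
      rw [oa6_l, oa6_r, oa6_prev T b u s h (oa0_lab_ne hE (by simp)).2] at this
      exact this
  · have hn : p ≠ T.next b := fun h' => ha0 (by rw [h'])
    rw [oa0_face_true hp hn]
    rcases T.point_cases p with h3 | ⟨v, rfl⟩ | ⟨v, rfl⟩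
    · rw [T.face_true_marker h3]
      have h4 : (T.overClosure b u s h).lab (oa6_i T b u s h p) = none := by
        apply oa6_lab_none T b u s h h3
        intro k hk
        exact (hu k).1 (by rw [hk])
      rw [Diagram.face_true_marker _ h4, oa6_prev T b u s h hn]
    · rw [T.face_N]
      have := (T.overClosure b u s h).face_N (Sum.inl v)
      rw [oa6_l, oa6_r] at this
      exact this
    · rw [T.face_W]
      have := (T.overClosure b u s h).face_W (Sum.inl v)
      rw [oa6_l, oa6_r, oa6_prev T b u s h (oa0_lab_ne hE (by simp)).2] at this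
      exact this

end OA6a

/-- [OA6a] The faces of the closed diagram.  Here `arcEmb b m k` is the `k`-th edge of the arc,
`Prod.map Sum.inl id` is the embedding of the sides of the open diagram. -/
theorem overClosure_face (T : Diagram) (b : T.P) (hE : Ends T b) {m : ℕ}
    (u : Fin m → T.P) (s : Fin m → Bool) (h : T.ArcOK u)
    (hub : ∀ k, u k ≠ b ∧ u k ≠ T.next b) :
    (∀ a : T.P × Bool, a.1 ≠ b → (∀ k, a ≠ sIn T b u s k) → (∀ k, a ≠ sOut T b u s k) →
      (T.overClosure b u s h).face (Sum.inl a.1, a.2) =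
        (Sum.inl (lface T b a).1, (lface T b a).2)) ∧
    (∀ k, (T.overClosure b u s h).face
        (Sum.inl (sIn T b u s k).1, (sIn T b u s k).2) = (T.arcEmb b m k, false)) ∧
    (∀ k, (T.overClosure b u s h).face (T.arcEmb b m k, false) =
      (Sum.inl (lface T b (sOut T b u s k)).1, (lface T b (sOut T b u s k)).2)) ∧
    (∀ k, (T.overClosure b u s h).face
        (Sum.inl (sOut T b u s k).1, (sOut T b u s k).2) = (T.arcEmb b m k, true)) ∧
    (∀ k, (T.overClosure b u s h).face (T.arcEmb b m k, true) =
      (Sum.inl (lface T b (sIn T b u s k)).1, (lface T b (sIn T b u s k)).2)) :=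
  ⟨oa6_face_other T b s h hE, oa6_face_sIn T b s h hE hub, oa6_face_a_false T b s h hE hub,
    oa6_face_sOut T b s h hE hub, oa6_face_a_true T b s h hE hub⟩

/-- [OA6a] the transitions are distinct -/
theorem sIn_sOut_distinct (T : Diagram) (b : T.P) (hE : Ends T b) {m : ℕ}
    (u : Fin m → T.P) (s : Fin m → Bool) (h : T.ArcOK u)
    (hub : ∀ k, u k ≠ b ∧ u k ≠ T.next b) :
    Function.Injective (sIn T b u s) ∧ Function.Injective (sOut T b u s) ∧
    (∀ k k', sIn T b u s k ≠ sOut T b u s k') ∧ (∀ k, (sIn T b u s k).1 ≠ b) ∧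
    (∀ k, (sOut T b u s k).1 ≠ b) := by
  have hpb : T.prev b ≠ b := fun h => hE.ne ((T.prev_eq_iff.1 h).symm)
  have hup : ∀ j, T.prev (u j) ≠ b := fun j h' => (hub j).2 (T.prev_eq_iff.1 h')
  have hupb : ∀ j, T.prev (u j) ≠ T.prev b := fun j h' => (hub j).1 (T.prev_inj h')
  have huu : ∀ i j, T.prev (u i) = T.prev (u j) → i = j := fun i j h' => h.inj (T.prev_inj h')
  refine ⟨?_, ?_, ?_, ?_, ?_⟩
  · intro k k' hk
    rcases Fin.eq_zero_or_eq_succ k with rfl | ⟨i, rfl⟩ <;>
    rcases Fin.eq_zero_or_eq_succ k' with rfl | ⟨j, rfl⟩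
    · rfl
    · rw [sIn_zero, sIn_succ] at hk
      cases hs : s j <;> rw [hs] at hk <;> simp at hk
      exact absurd hk.symm (hupb j)
    · rw [sIn_zero, sIn_succ] at hk
      cases hs : s i <;> rw [hs] at hk <;> simp at hk
      exact absurd hk (hupb i)
    · rw [sIn_succ, sIn_succ] at hk
      cases hs : s i <;> cases hs' : s j <;> rw [hs, hs'] at hk <;> simp at hk
      · rw [h.inj hk]
      · rw [huu _ _ hk]
  · intro k k' hk
    rcases Fin.eq_castSucc_or_eq_last k with ⟨i, rfl⟩ | rfl <;>
    rcases Fin.eq_castSucc_or_eq_last k' with ⟨j, rfl⟩ | rfl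
    · rw [sOut_castSucc, sOut_castSucc] at hk
      cases hs : s i <;> cases hs' : s j <;> rw [hs, hs'] at hk <;> simp at hk
      · rw [huu _ _ hk]
      · rw [h.inj hk]
    · rw [sOut_castSucc, sOut_last] at hk
      cases hs : s i <;> rw [hs] at hk <;> simp at hk
      exact absurd hk (hub i).2
    · rw [sOut_castSucc, sOut_last] at hk
      cases hs : s j <;> rw [hs] at hk <;> simp at hk
      exact absurd hk.symm (hub j).2
    · rfl
  · intro k k' hk
    rcases Fin.eq_zero_or_eq_succ k with rfl | ⟨i, rfl⟩ <;>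
    rcases Fin.eq_castSucc_or_eq_last k' with ⟨j, rfl⟩ | rfl
    · rw [sIn_zero, sOut_castSucc] at hk
      cases hs : s j <;> rw [hs] at hk <;> simp at hk
      exact absurd hk.symm (hupb j)
    · rw [sIn_zero, sOut_last] at hk
      simp at hk
    · rw [sIn_succ, sOut_castSucc] at hk
      cases hs : s i <;> cases hs' : s j <;> rw [hs, hs'] at hk <;> simp at hk
      · have := h.inj hk
        subst this
        rw [hs] at hs'; simp at hs'
      · have := huu _ _ hk
        subst this
        rw [hs] at hs'; simp at hs'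
    · rw [sIn_succ, sOut_last] at hk
      cases hs : s i <;> rw [hs] at hk <;> simp at hk
      exact absurd hk (hub i).2
  · intro k
    rcases Fin.eq_zero_or_eq_succ k with rfl | ⟨i, rfl⟩
    · exact hpb
    · rw [sIn_succ]
      cases hs : s i
      · exact (hub i).1
      · exact hup i
  · intro k
    rcases Fin.eq_castSucc_or_eq_last k with ⟨i, rfl⟩ | rfl
    · rw [sOut_castSucc]
      cases hs : s i
      · exact hup i
      · exact (hub i).1
    · rw [sOut_last]
      exact hE.ne

end Pool.Agent.Lib.MP_b7a6eb_gt
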