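import Pool.Agent.Lib.MP_b7a6eb_gt.Constr
import Pool.Agent.Lib.MP_b7a6eb_gt.OA0
import Pool.Agent.Lib.MP_b7a6eb_gt.OA4
import Pool.Agent.Lib.MP_b7a6eb_gt.OA6a

namespace Pool.Agent.Lib.MP_b7a6eb_gt

open Equiv Equiv.Perm

/-- a side which is no transition of the arc -/
lemma oa6_aux_not (T : Diagram) (b : T.P) {m : ℕ}
    (u : Fin m → T.P) (s : Fin m → Bool) (a : T.P × Bool)
    (h1 : a ≠ (T.prev b, false)) (h2 : ∀ j, a ≠ (T.prev (u j), false))
    (h3 : ∀ j, a ≠ (u j, true)) (h4 : a ≠ (T.next b, true)) :
    (∀ k, a ≠ sIn T b u s k) ∧ ∀ k, a ≠ sOut T b u s k := by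
  constructor
  · intro k
    induction k using Fin.cases with
    | zero => simpa [sIn] using h1
    | succ j =>
      simp only [sIn, Fin.cases_succ]
      split_ifs
      · exact h2 j
      · exact h3 j
  · intro k
    unfold sOut
    split_ifs
    · exact h3 _
    · exact h2 _
    · exact h4

/-- sum of jumps -/
lemma oa6_aux_sum {m : ℕ} (t : Fin (m + 1) → ℤ) {α : Type*} [DecidableEq α] (a : α)
    (f g : Fin (m + 1) → α)
    (k0 : Fin (m + 1)) (hf : Function.Injective f) (h0 : f k0 = a) (hg : ∀ k, g k ≠ a) :
    ∑ k, t k * ((if a = f k then (1 : ℤ) else 0) - (if a = g k then 1 else 0)) = t k0 := by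
  rw [Finset.sum_eq_single k0]
  · rw [if_pos h0.symm, if_neg (fun h => hg k0 h.symm)]
    ring
  · intro k _ hk
    rw [if_neg, if_neg (fun h => hg k h.symm)]
    · ring
    · intro h
      exact hk (hf (h.symm.trans h0.symm))
  · intro h
    exact absurd (Finset.mem_univ _) h

/-- sum of jumps -/
lemma oa6_aux_sum' {m : ℕ} (t : Fin (m + 1) → ℤ) {α : Type*} [DecidableEq α] (a : α)
    (f g : Fin (m + 1) → α)
    (k0 : Fin (m + 1)) (hg : Function.Injective g) (h0 : g k0 = a) (hf : ∀ k, f k ≠ a) :
    ∑ k, t k * ((if a = f k then (1 : ℤ) else 0) - (if a = g k then 1 else 0)) = - t k0 := by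
  rw [Finset.sum_eq_single k0]
  · rw [if_pos h0.symm, if_neg (fun h => hf k0 h.symm)]
    ring
  · intro k _ hk
    rw [if_neg (fun h => hf k h.symm), if_neg]
    · ring
    · intro h
      exact hk (hg (h.symm.trans h0.symm))
  · intro h
    exact absurd (Finset.mem_univ _) h

/-- the flow on the open diagram -/
lemma oa6_aux_flow (T : Diagram) (b : T.P) (hE : Ends T b) {m : ℕ}
    (u : Fin m → T.P) (s : Fin m → Bool) (h : T.ArcOK u)
    (hub : ∀ k, u k ≠ b ∧ u k ≠ T.next b)
    (r : Fin (m + 1) → T.P × Bool → ℤ)
    (h1 : ∀ k a, a.1 ≠ b → open Classical in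
      r k (lface T b a) - r k a =
        (if a = sIn T b u s k then 1 else 0) - (if a = sOut T b u s k then 1 else 0))
    (ψ : T.P ⊕ Fin m → ℤ) (hψ : (T.overClosure b u s h).IsFlow ψ) :
    open Classical in
    T.IsFlow (fun p => if p = b then 0 else ψ (Sum.inl p) -
      ∑ k, ψ (T.arcEmb b m k) * (r k (p, true) - r k (p, false))) := by
  classical
  obtain ⟨hflow1, hflow2⟩ := hψ
  obtain ⟨hp1, hp2, hp3⟩ := overClosure_prev T b u s h
  obtain ⟨hd1, hd2, hd3, hd4, hd5⟩ := sIn_sOut_distinct T b hE u s h hub
  have hprevb : T.prev b ≠ b := by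
    intro h'
    exact hE.ne ((T.prev_eq_iff).1 h').symm
  -- sum form of h1
  have hsum : ∀ a : T.P × Bool, a.1 ≠ b →
      (∑ k, ψ (T.arcEmb b m k) * r k (lface T b a)) - ∑ k, ψ (T.arcEmb b m k) * r k a =
      ∑ k, ψ (T.arcEmb b m k) * ((if a = sIn T b u s k then (1 : ℤ) else 0) -
        (if a = sOut T b u s k then 1 else 0)) := by
    intro a ha
    rw [← Finset.sum_sub_distrib]
    apply Finset.sum_congr rfl
    intro k _
    have h1' := h1 k a ha
    rw [← mul_sub]
    congr 1
  have hsplit : ∀ p, ∑ k, ψ (T.arcEmb b m k) * (r k (p, true) - r k (p, false)) =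
      (∑ k, ψ (T.arcEmb b m k) * r k (p, true)) - ∑ k, ψ (T.arcEmb b m k) * r k (p, false) := by
    intro p
    rw [← Finset.sum_sub_distrib]
    apply Finset.sum_congr rfl
    intro k _
    ring
  have hzero : ∀ a : T.P × Bool, a.1 ≠ b → (∀ k, a ≠ sIn T b u s k) →
      (∀ k, a ≠ sOut T b u s k) →
      (∑ k, ψ (T.arcEmb b m k) * r k (lface T b a)) = ∑ k, ψ (T.arcEmb b m k) * r k a := by
    intro a ha hi ho
    have := hsum a ha
    have h0 : ∑ k, ψ (T.arcEmb b m k) * ((if a = sIn T b u s k then (1 : ℤ) else 0) -
        (if a = sOut T b u s k then 1 else 0)) = 0 := by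
      apply Finset.sum_eq_zero
      intro k _
      rw [if_neg (hi k), if_neg (ho k)]
      ring
    rw [h0] at this
    linarith
  have hin : ∀ (a : T.P × Bool) (k0 : Fin (m + 1)), a.1 ≠ b → a = sIn T b u s k0 →
      (∑ k, ψ (T.arcEmb b m k) * r k (lface T b a)) - ∑ k, ψ (T.arcEmb b m k) * r k a =
        ψ (T.arcEmb b m k0) := by
    intro a k0 ha hk0
    rw [hsum a ha]
    exact oa6_aux_sum _ a _ _ k0 hd1 hk0.symm (fun k => by rw [hk0]; exact (hd3 k0 k).symm)
  have hout : ∀ (a : T.P × Bool) (k0 : Fin (m + 1)), a.1 ≠ b → a = sOut T b u s k0 →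
      (∑ k, ψ (T.arcEmb b m k) * r k (lface T b a)) - ∑ k, ψ (T.arcEmb b m k) * r k a =
        - ψ (T.arcEmb b m k0) := by
    intro a k0 ha hk0
    rw [hsum a ha]
    exact oa6_aux_sum' _ a _ _ k0 hd2 hk0.symm (fun k => by rw [hk0]; exact (hd3 k k0))
  have hmark : ∀ p, T.lab p = none → (∀ j, u j ≠ p) →
      (T.overClosure b u s h).lab (Sum.inl p) = none := by
    intro p hp hu
    have hne : ¬ ∃ k, u k = p := fun ⟨k, hk⟩ => hu k hk
    simp only [Diagram.overClosure, hne, ↓reduceDIte, hp, Option.map_none]
  have hval0 : ψ (T.arcEmb b m 0) = ψ (Sum.inl b) := rfl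
  refine ⟨?_, ?_⟩
  · intro p hp
    by_cases hpb : p = b
    · subst hpb
      have hw := hflow1 (Sum.inl p) (hmark p hE.hb (fun j => (hub j).1))
      rw [hp1 p (fun h' => hE.ne h'.symm)] at hw
      have := hin (T.prev p, false) 0 hprevb rfl
      rw [lface_end_b hE] at this
      simp only [if_neg hprevb, if_true]
      rw [hsplit, hw, ← hval0, this]
      ring
    · by_cases hpa : p = T.next b
      · subst hpa
        have hw := hflow1 (Sum.inl (T.next b)) (hmark _ hE.ha (fun j => (hub j).2))
        rw [hp3] at hw
        have hlast : (T.next b, true) = sOut T b u s (Fin.last m) := by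
          simp [sOut]
        have := hout (T.next b, true) (Fin.last m) hE.ne hlast
        rw [lface_end_a hE] at this
        simp only [Diagram.prev_next, if_true, if_neg hpb]
        rw [hsplit, ← hw]
        linarith
      · have hprev : T.prev p ≠ b := by
          intro h'
          exact hpa ((T.prev_eq_iff).1 h')
        simp only [if_neg hprev, if_neg hpb]
        rw [hsplit, hsplit]
        by_cases hu : ∃ j, u j = p
        · obtain ⟨j, rfl⟩ := hu
          have hw := hflow2 (Sum.inr j)
          have hc1 : (T.overClosure b u s h).cr (Sum.inr j, true) = Sum.inr j := rfl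
          have hc2 : (T.overClosure b u s h).cr (Sum.inr j, false) = Sum.inl (u j) := rfl
          rw [hc1, hc2, hp2, hp1 _ hpa] at hw
          have e1 : ψ (Sum.inr j) = ψ (T.arcEmb b m j.succ) := rfl
          rw [e1] at hw
          have hl1 : lface T b (u j, true) = (T.prev (u j), true) :=
            lface_marker_true hp hpb hpa
          have hl2 : lface T b (T.prev (u j), false) = (u j, false) := by
            have := lface_marker_false (T := T) (b := b) (p := T.prev (u j))
              (by simpa using hp) hprev (by simpa using hpb)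
            simpa using this
          by_cases hs : s j = true
          · have a1 : (T.prev (u j), false) = sIn T b u s j.succ := by simp [sIn, hs]
            have a2 : (u j, true) = sOut T b u s j.castSucc := by simp [sOut, hs]
            have b1 := hin _ _ hprev a1
            have b2 := hout _ _ hpb a2
            rw [hl2] at b1
            rw [hl1] at b2
            linarith
          · have a1 : (u j, true) = sIn T b u s j.succ := by simp [sIn, hs]
            have a2 : (T.prev (u j), false) = sOut T b u s j.castSucc := by simp [sOut, hs]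
            have b1 := hin _ _ hpb a1
            have b2 := hout _ _ hprev a2
            rw [hl1] at b1
            rw [hl2] at b2
            linarith
        · have hu' : ∀ j, u j ≠ p := fun j hj => hu ⟨j, hj⟩
          have hw := hflow1 (Sum.inl p) (hmark p hp hu')
          rw [hp1 _ hpa] at hw
          have hl1 : lface T b (p, true) = (T.prev p, true) :=
            lface_marker_true hp hpb hpa
          have hl2 : lface T b (T.prev p, false) = (p, false) := by
            have := lface_marker_false (T := T) (b := b) (p := T.prev p)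
              (by simpa using hp) hprev (by simpa using hpb)
            simpa using this
          have n1 := oa6_aux_not T b u s (p, true) (by simp)
            (by intro j; simp) (by intro j hj; exact hu' j (Prod.mk.inj hj).1.symm)
            (by intro hj; exact hpa (Prod.mk.inj hj).1)
          have n2 := oa6_aux_not T b u s (T.prev p, false)
            (by intro hj; exact hpb (T.prev_inj (Prod.mk.inj hj).1))
            (by intro j hj; exact hu' j (T.prev_inj (Prod.mk.inj hj).1).symm)
            (by intro j; simp) (by simp)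
          have z1 := hzero _ hpb n1.1 n1.2
          have z2 := hzero (T.prev p, false) hprev n2.1 n2.2
          rw [hl1] at z1
          rw [hl2] at z2
          rw [hw, z1, ← z2]
  · intro v
    have hw := hflow2 (Sum.inl v)
    have hc : ∀ x, (T.overClosure b u s h).cr (Sum.inl v, x) = Sum.inl (T.cr (v, x)) :=
      fun x => rfl
    have hcb : ∀ x, T.cr (v, x) ≠ b := by
      intro x hx
      have := hE.hb
      rw [← hx, T.lab_cr] at this
      exact Option.some_ne_none _ this
    have hca : ∀ x, T.cr (v, x) ≠ T.next b := by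
      intro x hx
      have := hE.ha
      rw [← hx, T.lab_cr] at this
      exact Option.some_ne_none _ this
    have hcu : ∀ x j, T.cr (v, x) ≠ u j := by
      intro x j hx
      have := h.marker j
      rw [← hx, T.lab_cr] at this
      exact Option.some_ne_none _ this
    have hcp : ∀ x, T.prev (T.cr (v, x)) ≠ b := by
      intro x hx
      exact hca x ((T.prev_eq_iff).1 hx)
    rw [hc, hc, hp1 _ (hca _), hp1 _ (hca _)] at hw
    simp only [if_neg (hcb _), if_neg (hcp _)]
    rw [hsplit, hsplit, hsplit, hsplit]
    have nT : ∀ x, (∀ k, (T.cr (v, x), true) ≠ sIn T b u s k) ∧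
        ∀ k, (T.cr (v, x), true) ≠ sOut T b u s k := fun x =>
      oa6_aux_not T b u s (T.cr (v, x), true) (by simp) (by intro j; simp)
        (by intro j hj; exact hcu x j (Prod.mk.inj hj).1)
        (by intro hj; exact hca x (Prod.mk.inj hj).1)
    have nF : ∀ x, (∀ k, (T.prev (T.cr (v, x)), false) ≠ sIn T b u s k) ∧
        ∀ k, (T.prev (T.cr (v, x)), false) ≠ sOut T b u s k := fun x =>
      oa6_aux_not T b u s (T.prev (T.cr (v, x)), false)
        (by intro hj; exact hcb x (T.prev_inj (Prod.mk.inj hj).1))
        (by intro j hj; exact hcu x j (T.prev_inj (Prod.mk.inj hj).1))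
        (by intro j; simp) (by simp)
    have zS := hzero (T.prev (T.l v), false) (hcp _) (nF _).1 (nF _).2
    have zE := hzero (T.prev (T.r v), false) (hcp _) (nF _).1 (nF _).2
    have zN := hzero (T.l v, true) (hcb _) (nT _).1 (nT _).2
    have zW := hzero (T.r v, true) (hcb _) (nT _).1 (nT _).2
    rw [lface_S hE] at zS
    rw [lface_E hE] at zE
    rw [lface_N hE] at zN
    rw [lface_W hE] at zW
    unfold Diagram.l Diagram.r at zS zE zN zW
    cases hsv : T.sign v
    · rw [hsv] at zS zE zN zW
      simp only [Bool.not_false] at zS zE zN zW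
      linarith
    · rw [hsv] at zS zE zN zW
      simp only [Bool.not_true] at zS zE zN zW
      linarith

/-- [OA6] planarity of an over-arc closure -/
theorem overClosure_planar (T : Diagram) (b : T.P) (hE : Ends T b) (hP : LPlanar T b) {m : ℕ}
    (u : Fin m → T.P) (s : Fin m → Bool) (h : T.ArcOK u)
    (hub : ∀ k, u k ≠ b ∧ u k ≠ T.next b)
    (r : Fin (m + 1) → T.P × Bool → ℤ)
    (h1 : ∀ k a, a.1 ≠ b → open Classical in
      r k (lface T b a) - r k a =
        (if a = sIn T b u s k then 1 else 0) - (if a = sOut T b u s k then 1 else 0))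
    (h2 : ∀ k, r k (lface T b (sIn T b u s k)) = r k (sOut T b u s k))
    (h3 : ∀ k, r k (sIn T b u s k) = r k (lface T b (sOut T b u s k)))
    (h4 : ∀ k k', k ≠ k' → r k (sIn T b u s k') = r k (sOut T b u s k'))
    (h5 : ∀ k, SF T b (sIn T b u s k) (sOut T b u s k)) :
    (T.overClosure b u s h).Planar := by
  classical
  intro ψ hψ
  obtain ⟨hd1, hd2, hd3, hd4, hd5⟩ := sIn_sOut_distinct T b hE u s h hub
  obtain ⟨f1, f2, f3, f4, f5⟩ := overClosure_face T b hE u s h hub
  have hflow := oa6_aux_flow T b hE u s h hub r h1 ψ hψ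
  obtain ⟨W, hW1, hW2⟩ := hP _ hflow (by simp)
  -- the potential on the sides of `T`
  set G : T.P × Bool → ℤ := fun a => W a + ∑ k, ψ (T.arcEmb b m k) * r k a with hG
  let U : (T.P ⊕ Fin m) × Bool → ℤ := fun x => match x with
    | (Sum.inl p, y) => if p = b then (if y = true then G (sOut T b u s 0) else G (sIn T b u s 0))
        else G (p, y)
    | (Sum.inr j, y) => if y = true then G (sOut T b u s j.succ) else G (sIn T b u s j.succ)
  have hU1 : ∀ a : T.P × Bool, a.1 ≠ b → U (Sum.inl a.1, a.2) = G a := by
    intro a ha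
    simp only [U, if_neg ha]
  have hU2 : ∀ k, U (T.arcEmb b m k, false) = G (sIn T b u s k) := by
    intro k
    induction k using Fin.cases with
    | zero =>
      change U (Sum.inl b, false) = _
      simp [U]
    | succ j =>
      change U (Sum.inr j, false) = _
      simp [U]
  have hU3 : ∀ k, U (T.arcEmb b m k, true) = G (sOut T b u s k) := by
    intro k
    induction k using Fin.cases with
    | zero =>
      change U (Sum.inl b, true) = _
      simp [U]
    | succ j =>
      change U (Sum.inr j, true) = _
      simp [U]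
  have hcases : ∀ q : T.P ⊕ Fin m, (∃ p, p ≠ b ∧ q = Sum.inl p) ∨ ∃ k, q = T.arcEmb b m k := by
    rintro (p | j)
    · by_cases hp : p = b
      · right; exact ⟨0, by rw [hp]; rfl⟩
      · left; exact ⟨p, hp, rfl⟩
    · right; exact ⟨j.succ, rfl⟩
  have hWio : ∀ k, W (sIn T b u s k) = W (sOut T b u s k) := by
    intro k
    exact SF.eq hE W (fun a _ => hW1 a) (h5 k) (hd4 k)
  -- the other jumps
  have hr_out : ∀ k k', k' ≠ k → r k' (lface T b (sOut T b u s k)) = r k' (sOut T b u s k) := by
    intro k k' hk
    have := h1 k' (sOut T b u s k) (hd5 k)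
    rw [if_neg (fun h' => hd3 k' k h'.symm), if_neg (fun h' => hk (hd2 h').symm)] at this
    linarith
  have hr_in : ∀ k k', k' ≠ k → r k' (lface T b (sIn T b u s k)) = r k' (sIn T b u s k) := by
    intro k k' hk
    have := h1 k' (sIn T b u s k) (hd4 k)
    rw [if_neg (fun h' => hk (hd1 h').symm), if_neg (hd3 k k')] at this
    linarith
  have hGo : ∀ k, G (lface T b (sOut T b u s k)) = G (sIn T b u s k) := by
    intro k
    simp only [hG]
    rw [hW1, hWio]
    congr 1
    apply Finset.sum_congr rfl
    intro k' _
    by_cases hk : k' = k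
    · subst hk
      rw [h3]
    · rw [hr_out k k' hk, h4 k' k hk]
  have hGi : ∀ k, G (lface T b (sIn T b u s k)) = G (sOut T b u s k) := by
    intro k
    simp only [hG]
    rw [hW1, hWio]
    congr 1
    apply Finset.sum_congr rfl
    intro k' _
    by_cases hk : k' = k
    · subst hk
      rw [h2]
    · rw [hr_in k k' hk, h4 k' k hk]
  refine ⟨U, ?_, ?_⟩
  · rintro ⟨q, y⟩
    rcases hcases q with ⟨p, hp, rfl⟩ | ⟨k, rfl⟩
    · by_cases hi : ∃ k, (p, y) = sIn T b u s k
      · obtain ⟨k, hk⟩ := hi
        have := f2 k
        rw [← hk] at this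
        change U ((T.overClosure b u s h).face (Sum.inl (p, y).1, (p, y).2)) = _
        rw [this, hU2, ← hk]
        exact (hU1 (p, y) hp).symm
      · by_cases ho : ∃ k, (p, y) = sOut T b u s k
        · obtain ⟨k, hk⟩ := ho
          have := f4 k
          rw [← hk] at this
          change U ((T.overClosure b u s h).face (Sum.inl (p, y).1, (p, y).2)) = _
          rw [this, hU3, ← hk]
          exact (hU1 (p, y) hp).symm
        · have := f1 (p, y) hp (fun k hk => hi ⟨k, hk⟩) (fun k hk => ho ⟨k, hk⟩)
          change U ((T.overClosure b u s h).face (Sum.inl (p, y).1, (p, y).2)) =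
            U (Sum.inl (p, y).1, (p, y).2)
          rw [this, hU1 _ (lface_ne hE hp), hU1 _ hp]
          simp only [hG]
          rw [hW1]
          congr 1
          apply Finset.sum_congr rfl
          intro k _
          have h1' := h1 k (p, y) hp
          rw [if_neg (fun hk => hi ⟨k, hk⟩), if_neg (fun hk => ho ⟨k, hk⟩)] at h1'
          have : r k (lface T b (p, y)) = r k (p, y) := by linarith
          rw [this]
    · cases y
      · rw [f3 k, hU1 _ (lface_ne hE (hd5 k))]
        exact (hGo k).trans (hU2 k).symm
      · rw [f5 k, hU1 _ (lface_ne hE (hd4 k))]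
        exact (hGi k).trans (hU3 k).symm
  · intro q
    rcases hcases q with ⟨p, hp, rfl⟩ | ⟨k, rfl⟩
    · change U (Sum.inl (p, true).1, (p, true).2) - U (Sum.inl (p, false).1, (p, false).2) = _
      rw [hU1 _ hp, hU1 _ hp]
      have hw := hW2 p hp
      rw [if_neg hp] at hw
      have hsplit : ∑ k, ψ (T.arcEmb b m k) * (r k (p, true) - r k (p, false)) =
          (∑ k, ψ (T.arcEmb b m k) * r k (p, true)) -
            ∑ k, ψ (T.arcEmb b m k) * r k (p, false) := by
        rw [← Finset.sum_sub_distrib]
        apply Finset.sum_congr rfl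
        intro k _
        ring
      simp only [hG]
      rw [hsplit] at hw
      linarith
    · have e2 := hU2 k
      have e3 := hU3 k
      have e4 : U (T.arcEmb b m k, true) - U (T.arcEmb b m k, false) =
          G (sOut T b u s k) - G (sIn T b u s k) := by rw [e2, e3]
      refine e4.trans ?_
      simp only [hG]
      rw [hWio]
      have hdiff : (∑ k', ψ (T.arcEmb b m k') * r k' (sOut T b u s k)) -
          ∑ k', ψ (T.arcEmb b m k') * r k' (sIn T b u s k) = ψ (T.arcEmb b m k) := by
        rw [← Finset.sum_sub_distrib, Finset.sum_eq_single k]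
        · have h1' := h1 k (sIn T b u s k) (hd4 k)
          rw [if_pos rfl, if_neg (hd3 k k), h2] at h1'
          rw [← mul_sub, h1']
          ring
        · intro k' _ hk
          rw [h4 k' k hk]
          ring
        · intro h'
          exact absurd (Finset.mem_univ _) h'
      linarith

end Pool.Agent.Lib.MP_b7a6eb_gt
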