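import Pool.Agent.Lib.MP_b7a6eb_gt.Constr
import Pool.Agent.Lib.MP_b7a6eb_gt.OA0
import Pool.Agent.Lib.MP_b7a6eb_gt.OA7

namespace Pool.Agent.Lib.MP_b7a6eb_gt

open Equiv Equiv.Perm

lemma oa8a_f1 : ∀ k : Fin 4, k ≠ 3 → k + 1 ≠ 0 := by decide
lemma oa8a_f2 : ∀ k : Fin 4, k + 1 - 1 = k := by decide
lemma oa8a_f3 : ∀ k : Fin 4, k + 1 = 3 → k = 2 := by decide

section OA8a

variable {T : Diagram} {b : T.P}

/-- a side of the subdivided diagram -/
def oa8a_s (p : T.P) (k : Fin 4) (x : Bool) : T.sub4.P × Bool := ((p, k), x)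

/-- the gap of the subdivided diagram -/
def oa8a_b (b : T.P) : T.sub4.P := (b, (3 : Fin 4))

/-- points of the subdivided diagram -/
def oa8a_p (p : T.P) (k : Fin 4) : T.sub4.P := (p, k)

lemma oa8a_p_ne {p : T.P} {k : Fin 4} (h : p ≠ b ∨ k ≠ 3) : oa8a_p p k ≠ oa8a_b b := by
  intro h'
  have h1 : p = b := congrArg Prod.fst h'
  have h2 : k = 3 := congrArg Prod.snd h'
  rcases h with h | h
  · exact h h1
  · exact h h2

lemma oa8a_next (p : T.P) {k : Fin 4} (hk : k ≠ 3) :
    T.sub4.next (oa8a_p p k) = oa8a_p p (k + 1) :=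
  (if_neg hk : (if k = 3 then ((T.next p, 0) : T.P × Fin 4) else (p, k + 1)) = (p, k + 1))

lemma oa8a_next3 (p : T.P) : T.sub4.next (oa8a_p p 3) = oa8a_p (T.next p) 0 := rfl

lemma oa8a_prev (p : T.P) {k : Fin 4} (hk : k ≠ 0) :
    T.sub4.prev (oa8a_p p k) = oa8a_p p (k - 1) :=
  (if_neg hk : (if k = 0 then ((T.next.symm p, 3) : T.P × Fin 4) else (p, k - 1)) = (p, k - 1))

lemma oa8a_prev0 (p : T.P) : T.sub4.prev (oa8a_p p 0) = oa8a_p (T.prev p) 3 := rfl

lemma oa8a_lab (p : T.P) {k : Fin 4} (hk : k ≠ 0) : T.sub4.lab (oa8a_p p k) = none :=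
  (if_neg hk : (if k = 0 then T.lab p else none) = none)

lemma oa8a_lab0 (p : T.P) : T.sub4.lab (oa8a_p p 0) = T.lab p := rfl

lemma oa8a_next_b (b : T.P) : T.sub4.next (oa8a_b b) = oa8a_p (T.next b) 0 := rfl

lemma oa8a_l (v : T.V) : T.sub4.l v = oa8a_p (T.l v) 0 := rfl

lemma oa8a_r (v : T.V) : T.sub4.r v = oa8a_p (T.r v) 0 := rfl

/-- forward step inside an edge -/
lemma oa8a_fwd {p : T.P} {k : Fin 4} (hk : k ≠ 3) (h : p ≠ b ∨ k + 1 ≠ 3) :
    lface T.sub4 (oa8a_b b) (oa8a_p p k, false) = (oa8a_p p (k + 1), false) := by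
  have h0 : k + 1 ≠ 0 := oa8a_f1 k hk
  have := lface_marker_false (T := T.sub4) (b := oa8a_b b) (p := oa8a_p p k)
    (by rw [oa8a_next p hk]; exact oa8a_lab p h0) (oa8a_p_ne (Or.inr hk))
    (by rw [oa8a_next p hk]; exact oa8a_p_ne h)
  rw [this, oa8a_next p hk]

/-- backward step inside an edge -/
lemma oa8a_bwd {p : T.P} {k : Fin 4} (hk : k ≠ 0) (h : p ≠ b ∨ k ≠ 3) :
    lface T.sub4 (oa8a_b b) (oa8a_p p k, true) = (oa8a_p p (k - 1), true) := by
  have h1 : oa8a_p p k ≠ T.sub4.next (oa8a_b b) := by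
    rw [oa8a_next_b]
    intro h'
    exact hk (congrArg Prod.snd h')
  have := lface_marker_true (T := T.sub4) (b := oa8a_b b) (oa8a_lab p hk) (oa8a_p_ne h) h1
  rw [this, oa8a_prev p hk]

/-- first side of an edge in the direction of the walk -/
def oa8a_entry (s : T.P × Bool) : T.sub4.P × Bool :=
  if s.2 = true then (oa8a_p s.1 3, true) else (oa8a_p s.1 0, false)

/-- last side of an edge in the direction of the walk -/
def oa8a_exit (s : T.P × Bool) : T.sub4.P × Bool :=
  if s.2 = true then (oa8a_p s.1 0, true) else (oa8a_p s.1 3, false)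

lemma oa8a_exit_step (hE : Ends T b) {p : T.P} {x : Bool} (hp : p ≠ b)
    (hne : (p, x) ≠ (T.prev b, false)) :
    lface T.sub4 (oa8a_b b) (oa8a_exit (p, x)) = oa8a_entry (lface T b (p, x)) := by
  have hE4 : Ends T.sub4 (oa8a_b b) := ends_sub4 hE
  cases x
  · have hn : T.next p ≠ b := by
      intro h
      apply hne
      rw [← h]; simp
    have e1 : oa8a_exit (p, false) = (oa8a_p p 3, false) := rfl
    rw [e1, oa0_face_false hp hn]
    rcases T.point_cases (T.next p) with h | ⟨v, h⟩ | ⟨v, h⟩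
    · rw [T.face_false_marker h]
      have := lface_marker_false (T := T.sub4) (b := oa8a_b b) (p := oa8a_p p 3)
        (by rw [oa8a_next3, oa8a_lab0]; exact h) (oa8a_p_ne (Or.inl hp))
        (by rw [oa8a_next3]; exact oa8a_p_ne (Or.inl hn))
      rw [this, oa8a_next3]
      rfl
    · have h6 : p = T.prev (T.l v) := by rw [← h]; simp
      subst h6
      rw [T.face_S]
      exact lface_S hE4 v
    · have h6 : p = T.prev (T.r v) := by rw [← h]; simp
      subst h6
      rw [T.face_E]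
      exact lface_E hE4 v
  · have e1 : oa8a_exit (p, true) = (oa8a_p p 0, true) := rfl
    rw [e1]
    by_cases hpa : p = T.next b
    · subst hpa
      rw [lface_end_a hE]
      exact lface_end_a hE4
    · rw [oa0_face_true hp hpa]
      rcases T.point_cases p with h | ⟨v, rfl⟩ | ⟨v, rfl⟩
      · rw [T.face_true_marker h]
        have h1 : oa8a_p p 0 ≠ T.sub4.next (oa8a_b b) := by
          rw [oa8a_next_b]
          intro h'
          exact hpa (congrArg Prod.fst h')
        have := lface_marker_true (T := T.sub4) (b := oa8a_b b) (p := oa8a_p p 0)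
          (by rw [oa8a_lab0]; exact h) (oa8a_p_ne (Or.inl hp)) h1
        rw [this, oa8a_prev0]
        rfl
      · rw [T.face_N]
        exact lface_N hE4 v
      · rw [T.face_W]
        exact lface_W hE4 v

lemma oa8a_sf_step (σ : T.sub4.P × Bool) : SF T.sub4 (oa8a_b b) σ (lface T.sub4 (oa8a_b b) σ) :=
  ⟨1, rfl⟩

/-- all sides of a subdivided edge are in one face -/
lemma oa8a_same (hE : Ends T b) {p : T.P} (hp : p ≠ b) (x : Bool) (k : Fin 4) :
    SF T.sub4 (oa8a_b b) (oa8a_p p 0, x) (oa8a_p p k, x) := by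
  have hE4 : Ends T.sub4 (oa8a_b b) := ends_sub4 hE
  have key : ∀ k : Fin 4, k ≠ 3 → SF T.sub4 (oa8a_b b) (oa8a_p p k, x) (oa8a_p p (k + 1), x) := by
    intro k hk
    cases x
    · have := oa8a_sf_step (b := b) (oa8a_p p k, false)
      rwa [oa8a_fwd hk (Or.inl hp)] at this
    · have h0 : k + 1 ≠ 0 := oa8a_f1 k hk
      have := oa8a_sf_step (b := b) (oa8a_p p (k + 1), true)
      rw [oa8a_bwd h0 (Or.inl hp)] at this
      have h1 : k + 1 - 1 = k := oa8a_f2 k
      rw [h1] at this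
      exact this.symm hE4
  have h01 := key 0 (by decide)
  have h12 := key 1 (by decide)
  have h23 := key 2 (by decide)
  fin_cases k
  · exact SF.refl _ _ _
  · exact h01
  · exact h01.trans h12
  · exact (h01.trans h12).trans h23

/-- the dangling edges -/
lemma oa8a_dangle (hE : Ends T b) (k : Fin 4) (hk : k ≠ 3) (x : Bool) :
    SF T.sub4 (oa8a_b b) (oa8a_p (T.prev b) 3, false) (oa8a_p b k, x) ∧
    SF T.sub4 (oa8a_b b) (oa8a_p b k, x) (oa8a_p (T.prev b) 3, true) := by
  have hE4 : Ends T.sub4 (oa8a_b b) := ends_sub4 hE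
  have hpb : T.prev b ≠ b := (fun h => by
    rw [T.prev_eq_iff] at h
    exact hE.ne h.symm)
  have f0 : SF T.sub4 (oa8a_b b) (oa8a_p (T.prev b) 3, false) (oa8a_p b 0, false) := by
    have := lface_marker_false (T := T.sub4) (b := oa8a_b b) (p := oa8a_p (T.prev b) 3)
      (by rw [oa8a_next3, oa8a_lab0, T.next_prev]; exact hE.hb) (oa8a_p_ne (Or.inl hpb))
      (by rw [oa8a_next3]; exact oa8a_p_ne (Or.inr (by decide)))
    rw [oa8a_next3, T.next_prev] at this
    rw [← this]
    exact oa8a_sf_step _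
  have f1 : SF T.sub4 (oa8a_b b) (oa8a_p b 0, false) (oa8a_p b 1, false) := by
    have := oa8a_sf_step (b := b) (oa8a_p b 0, false)
    rwa [oa8a_fwd (by decide) (Or.inr (by decide))] at this
  have f2 : SF T.sub4 (oa8a_b b) (oa8a_p b 1, false) (oa8a_p b 2, false) := by
    have := oa8a_sf_step (b := b) (oa8a_p b 1, false)
    rwa [oa8a_fwd (by decide) (Or.inr (by decide))] at this
  have f3 : SF T.sub4 (oa8a_b b) (oa8a_p b 2, false) (oa8a_p b 2, true) := by
    have h1 := lface_end_b hE4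
    have h2 : T.sub4.prev (oa8a_b b) = oa8a_p b 2 := oa8a_prev b (k := 3) (by decide)
    rw [h2] at h1
    rw [← h1]
    exact oa8a_sf_step _
  have f4 : SF T.sub4 (oa8a_b b) (oa8a_p b 2, true) (oa8a_p b 1, true) := by
    have := oa8a_sf_step (b := b) (oa8a_p b 2, true)
    rwa [oa8a_bwd (by decide) (Or.inr (by decide))] at this
  have f5 : SF T.sub4 (oa8a_b b) (oa8a_p b 1, true) (oa8a_p b 0, true) := by
    have := oa8a_sf_step (b := b) (oa8a_p b 1, true)
    rwa [oa8a_bwd (by decide) (Or.inr (by decide))] at this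
  have f6 : SF T.sub4 (oa8a_b b) (oa8a_p b 0, true) (oa8a_p (T.prev b) 3, true) := by
    have h1 : oa8a_p b 0 ≠ T.sub4.next (oa8a_b b) := by
      rw [oa8a_next_b]
      intro h'
      exact hE.ne (congrArg Prod.fst h').symm
    have := lface_marker_true (T := T.sub4) (b := oa8a_b b) (p := oa8a_p b 0)
      (by rw [oa8a_lab0]; exact hE.hb) (oa8a_p_ne (Or.inr (by decide))) h1
    rw [oa8a_prev0] at this
    rw [← this]
    exact oa8a_sf_step _
  cases x
  · fin_cases k
    · exact ⟨f0, f1.trans (f2.trans (f3.trans (f4.trans (f5.trans f6))))⟩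
    · exact ⟨f0.trans f1, f2.trans (f3.trans (f4.trans (f5.trans f6)))⟩
    · exact ⟨f0.trans (f1.trans f2), f3.trans (f4.trans (f5.trans f6))⟩
    · exact absurd rfl hk
  · fin_cases k
    · exact ⟨f0.trans (f1.trans (f2.trans (f3.trans (f4.trans f5)))), f6⟩
    · exact ⟨f0.trans (f1.trans (f2.trans (f3.trans f4))), f5.trans f6⟩
    · exact ⟨f0.trans (f1.trans (f2.trans f3)), f4.trans (f5.trans f6)⟩
    · exact absurd rfl hk

/-- one step of the open diagram -/
lemma oa8a_step (hE : Ends T b) (s : T.P × Bool) (hs : s.1 ≠ b) :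
    SF T.sub4 (oa8a_b b) (oa8a_p s.1 0, s.2)
      (oa8a_p (lface T b s).1 0, (lface T b s).2) := by
  have hE4 : Ends T.sub4 (oa8a_b b) := ends_sub4 hE
  have hs' := lface_ne hE hs
  obtain ⟨p, x⟩ := s
  have h1 : SF T.sub4 (oa8a_b b) (oa8a_p p 0, x) (oa8a_exit (p, x)) := by
    cases x
    · exact oa8a_same hE hs false 3
    · exact SF.refl _ _ _
  have h3 : SF T.sub4 (oa8a_b b) (oa8a_entry (lface T b (p, x)))
      (oa8a_p (lface T b (p, x)).1 0, (lface T b (p, x)).2) := by
    rcases h : lface T b (p, x) with ⟨q, y⟩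
    rw [h] at hs'
    cases y
    · exact SF.refl _ _ _
    · exact (oa8a_same hE hs' true 3).symm hE4
  refine h1.trans (SF.trans ?_ h3)
  by_cases hne : (p, x) = (T.prev b, false)
  · rw [hne, lface_end_b hE]
    exact (oa8a_dangle hE 0 (by decide) true).1.trans (oa8a_dangle hE 0 (by decide) true).2
  · rw [← oa8a_exit_step hE hs hne]
    exact oa8a_sf_step _

lemma oa8a_lift (hE : Ends T b) {s t : T.P × Bool} (hs : s.1 ≠ b) (h : SF T b s t) :
    SF T.sub4 (oa8a_b b) (oa8a_p s.1 0, s.2) (oa8a_p t.1 0, t.2) := by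
  obtain ⟨n, rfl⟩ := h
  induction n with
  | zero => exact SF.refl _ _ _
  | succ n ih =>
    rw [Function.iterate_succ_apply']
    exact ih.trans (oa8a_step hE _ (SF.ne hE ⟨n, rfl⟩ hs))

/-- projection of the sides -/
noncomputable def oa8a_g (b : T.P) (σ : T.sub4.P × Bool) : T.P × Bool :=
  open Classical in if σ.1.1 = b then (T.prev b, true) else (σ.1.1, σ.2)

lemma oa8a_g_ne {p : T.P} (hp : p ≠ b) (k : Fin 4) (x : Bool) :
    oa8a_g b (oa8a_p p k, x) = (p, x) := by
  have : ¬ (oa8a_p p k).1 = b := hp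
  simp only [oa8a_g, this, if_false]
  rfl

lemma oa8a_g_b (k : Fin 4) (x : Bool) :
    oa8a_g b (oa8a_p b k, x) = (T.prev b, true) := by
  have : (oa8a_p b k).1 = b := rfl
  simp only [oa8a_g, this, if_true]

lemma oa8a_down_step (hE : Ends T b) (σ : T.sub4.P × Bool) (hσ : σ.1 ≠ oa8a_b b) :
    SF T b (oa8a_g b σ) (oa8a_g b (lface T.sub4 (oa8a_b b) σ)) := by
  obtain ⟨⟨p, k⟩, x⟩ := σ
  change SF T b (oa8a_g b (oa8a_p p k, x)) (oa8a_g b (lface T.sub4 (oa8a_b b) (oa8a_p p k, x)))
  have hE4 : Ends T.sub4 (oa8a_b b) := ends_sub4 hE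
  have hpb : T.prev b ≠ b := (fun h => by
    rw [T.prev_eq_iff] at h
    exact hE.ne h.symm)
  by_cases hp : p = b
  · subst hp
    have hk : k ≠ 3 := fun h => hσ (by rw [h]; rfl)
    rw [oa8a_g_b]
    cases x
    · by_cases hk1 : k + 1 = 3
      · have hk2 : k = 2 := oa8a_f3 k hk1
        subst hk2
        have h1 := lface_end_b hE4
        have h2 : T.sub4.prev (oa8a_b p) = oa8a_p p 2 := oa8a_prev p (k := 3) (by decide)
        rw [h2] at h1
        rw [h1, oa8a_g_b]
        exact SF.refl _ _ _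
      · rw [oa8a_fwd hk (Or.inr hk1), oa8a_g_b]
        exact SF.refl _ _ _
    · by_cases hk0 : k = 0
      · subst hk0
        have h1 : oa8a_p p 0 ≠ T.sub4.next (oa8a_b p) := by
          rw [oa8a_next_b]
          intro h'
          exact hE.ne (congrArg Prod.fst h').symm
        have := lface_marker_true (T := T.sub4) (b := oa8a_b p) (p := oa8a_p p 0)
          (by rw [oa8a_lab0]; exact hE.hb) (oa8a_p_ne (Or.inr (by decide))) h1
        rw [oa8a_prev0] at this
        rw [this, oa8a_g_ne hpb]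
        exact SF.refl _ _ _
      · rw [oa8a_bwd hk0 (Or.inr hk), oa8a_g_b]
        exact SF.refl _ _ _
  · rw [oa8a_g_ne hp]
    have hexit : ∀ x, SF T b (p, x) (oa8a_g b (lface T.sub4 (oa8a_b b) (oa8a_exit (p, x)))) := by
      intro x
      by_cases hne : (p, x) = (T.prev b, false)
      · rw [Prod.mk.injEq] at hne
        obtain ⟨rfl, rfl⟩ := hne
        have e1 : oa8a_exit (T.prev b, false) = (oa8a_p (T.prev b) 3, false) := rfl
        have := lface_marker_false (T := T.sub4) (b := oa8a_b b) (p := oa8a_p (T.prev b) 3)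
          (by rw [oa8a_next3, oa8a_lab0, T.next_prev]; exact hE.hb) (oa8a_p_ne (Or.inl hpb))
          (by rw [oa8a_next3]; exact oa8a_p_ne (Or.inr (by decide)))
        rw [oa8a_next3, T.next_prev] at this
        rw [e1, this, oa8a_g_b]
        exact ⟨1, lface_end_b hE⟩
      · rw [oa8a_exit_step hE hp hne]
        have h2 : oa8a_g b (oa8a_entry (lface T b (p, x))) = lface T b (p, x) := by
          have h3 := lface_ne (s := (p, x)) hE hp
          rcases h : lface T b (p, x) with ⟨q, y⟩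
          rw [h] at h3
          cases y
          · exact oa8a_g_ne h3 0 false
          · exact oa8a_g_ne h3 3 true
        rw [h2]
        exact ⟨1, rfl⟩
    cases x
    · by_cases hk3 : k = 3
      · subst hk3; exact hexit false
      · rw [oa8a_fwd hk3 (Or.inl hp), oa8a_g_ne hp]
        exact SF.refl _ _ _
    · by_cases hk0 : k = 0
      · subst hk0; exact hexit true
      · rw [oa8a_bwd hk0 (Or.inl hp), oa8a_g_ne hp]
        exact SF.refl _ _ _

lemma oa8a_down (hE : Ends T b) {σ τ : T.sub4.P × Bool} (hσ : σ.1 ≠ oa8a_b b)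
    (h : SF T.sub4 (oa8a_b b) σ τ) : SF T b (oa8a_g b σ) (oa8a_g b τ) := by
  have hE4 : Ends T.sub4 (oa8a_b b) := ends_sub4 hE
  obtain ⟨n, rfl⟩ := h
  induction n with
  | zero => exact SF.refl _ _ _
  | succ n ih =>
    rw [Function.iterate_succ_apply']
    exact ih.trans (oa8a_down_step hE _ (SF.ne hE4 ⟨n, rfl⟩ hσ))

end OA8a

/-- [OA8a] the faces of the subdivided open diagram -/
theorem sf_sub4 {T : Diagram} {b : T.P} (hE : Ends T b) {p q : T.P} (hp : p ≠ b) (hq : q ≠ b)
    (s t : Bool) (k k' : Fin 4) :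
    SF T.sub4 (b, 3) ((p, k), s) ((q, k'), t) ↔ SF T b (p, s) (q, t) := by
  have hE4 : Ends T.sub4 (oa8a_b b) := ends_sub4 hE
  constructor
  · intro h
    have := oa8a_down hE (σ := (oa8a_p p k, s)) (τ := (oa8a_p q k', t))
      (oa8a_p_ne (Or.inl hp)) h
    rwa [oa8a_g_ne hp, oa8a_g_ne hq] at this
  · intro h
    have h1 := oa8a_lift (s := (p, s)) (t := (q, t)) hE hp h
    exact ((oa8a_same hE hp s k).symm hE4).trans (h1.trans (oa8a_same hE hq t k'))

/-- [OA8a] -/
theorem sf_sub4_b {T : Diagram} {b : T.P} (hE : Ends T b) (k k' : Fin 4) (hk : k ≠ 3)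
    (s t : Bool) : SF T.sub4 (b, 3) ((b, k), s) ((T.prev b, k'), t) := by
  have hE4 : Ends T.sub4 (oa8a_b b) := ends_sub4 hE
  have hpb : T.prev b ≠ b := (fun h => by
    rw [T.prev_eq_iff] at h
    exact hE.ne h.symm)
  obtain ⟨h1, h2⟩ := oa8a_dangle hE k hk s
  have h3 : ∀ x y, SF T.sub4 (oa8a_b b) (oa8a_p (T.prev b) 3, x) (oa8a_p (T.prev b) y, x) :=
    fun x y => ((oa8a_same hE hpb x 3).symm hE4).trans (oa8a_same hE hpb x y)
  cases t
  · exact (h1.symm hE4).trans (h3 false k')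
  · exact h2.trans (h3 true k')

end Pool.Agent.Lib.MP_b7a6eb_gt
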