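import Pool.Agent.Lib.MP_b7a6eb_gt.Constr
import Pool.Agent.Lib.MP_b7a6eb_gt.OA0
import Pool.Agent.Lib.MP_b7a6eb_gt.PM2
import Pool.Agent.Lib.MP_b7a6eb_gt.Route
import Pool.Agent.Lib.MP_b7a6eb_gt.OA6
import Pool.Agent.Lib.MP_b7a6eb_gt.OA6a
import Pool.Agent.Lib.MP_b7a6eb_gt.OA7
import Pool.Agent.Lib.MP_b7a6eb_gt.OA8a

namespace Pool.Agent.Lib.MP_b7a6eb_gt

open Equiv Equiv.Perm

section OA8

variable {T : Diagram} {b : T.P} {N : ℕ} {lam : T.P × Bool → ℕ} {z : Fin N → T.V}
    {m : ℕ} {rc : Fin m → Rec T}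

/-- embedding of the sides -/
def oa8_emb (s : T.P × Bool) : T.sub4.P × Bool := ((s.1, (0 : Fin 4)), s.2)

/-- a side of the subdivided diagram -/
def oa8_s (p : T.P) (k : Fin 4) (x : Bool) : T.sub4.P × Bool := ((p, k), x)

lemma oa8_s_inj {p q : T.P} {k k' : Fin 4} {x y : Bool} (h : oa8_s p k x = oa8_s q k' y) :
    p = q ∧ k = k' ∧ x = y := by
  have h1 := congrArg Prod.fst h
  have h2 := congrArg Prod.snd h
  exact ⟨congrArg Prod.fst h1, congrArg Prod.snd h1, h2⟩

lemma indicator_jump {α : Type*} [DecidableEq α] (g : α → α) (hg : Function.Injective g) {x0 x1 x2 x3 : α}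
    (e0 : g x0 = x1) (e1 : g x1 = x2) (e2 : g x2 = x3) (h01 : x0 ≠ x1) (h02 : x0 ≠ x2)
    (h12 : x1 ≠ x2) (h13 : x1 ≠ x3) (h23 : x2 ≠ x3) : ∃ r : α → ℤ,
    (∀ a, r (g a) - r a = (if a = x0 then 1 else 0) - (if a = x2 then 1 else 0)) ∧
    r (g x0) = r x2 ∧ r x0 = r (g x2) ∧ ∀ y, y ≠ x1 → y ≠ x2 → r y = 0 := by
  refine ⟨fun a => (if a = x1 then 1 else 0) + (if a = x2 then 1 else 0), ?_, ?_, ?_, ?_⟩
  · intro a
    have t1 : g a = x1 ↔ a = x0 := by rw [← e0]; exact hg.eq_iff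
    have t2 : g a = x2 ↔ a = x1 := by rw [← e1]; exact hg.eq_iff
    simp only [t1, t2]
    ring
  · simp [e0, h12, h12.symm]
  · simp [e2, h01, h02, h13.symm, h23.symm]
  · intro y h1 h2
    simp [h1, h2]

abbrev oa8_I (b : T.P) (rc : Fin m → Rec T) : Fin (m + 1) → T.sub4.P × Bool :=
  sIn T.sub4 (b, (3 : Fin 4)) (fun k => (rc k).pt) (fun k => (rc k).sg)

abbrev oa8_O (b : T.P) (rc : Fin m → Rec T) : Fin (m + 1) → T.sub4.P × Bool :=
  sOut T.sub4 (b, (3 : Fin 4)) (fun k => (rc k).pt) (fun k => (rc k).sg)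

lemma oa8_prev (p : T.P) (k : Fin 4) (hk : k ≠ 0) :
    T.sub4.prev (p, k) = (p, k - 1) := by
  exact (if_neg hk : (if k = 0 then ((T.next.symm p, 3) : T.P × Fin 4) else (p, k - 1)) = (p, k - 1))

lemma oa8_prev0 (p : T.P) : T.sub4.prev (p, (0 : Fin 4)) = (T.prev p, (3 : Fin 4)) := by
  exact (if_pos rfl : (if (0 : Fin 4) = 0 then ((T.next.symm p, 3) : T.P × Fin 4)
    else (p, 0 - 1)) = (T.next.symm p, 3))

lemma oa8_I_zero : oa8_I b rc 0 = oa8_s b 2 false := by
  change (T.sub4.prev (b, (3 : Fin 4)), false) = _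
  rw [oa8_prev _ _ (by decide)]; rfl

lemma oa8_I_succ (j : Fin m) : oa8_I b rc j.succ =
    if (rc j).sg = true then (T.sub4.prev (rc j).pt, false) else ((rc j).pt, true) := rfl

lemma oa8_O_castSucc (j : Fin m) : oa8_O b rc j.castSucc =
    if (rc j).sg = true then ((rc j).pt, true) else (T.sub4.prev (rc j).pt, false) := by
  have h : (j.castSucc : Fin (m + 1)).val < m := by simp
  change (if h : (j.castSucc : Fin (m + 1)).val < m then _ else _) = _
  rw [dif_pos h]
  rfl

lemma oa8_O_last : oa8_O b rc (Fin.last m) = oa8_emb (T.next b, true) := by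
  have h : ¬ (Fin.last m : Fin (m + 1)).val < m := by simp
  change (if h : (Fin.last m : Fin (m + 1)).val < m then _ else _) = _
  rw [dif_neg h]
  rfl

lemma oa8_ne_aft (hE : Ends T b) (hR : Route T b N lam z m rc) {j : Fin m} {s : T.P × Bool}
    (h : (rc j).aft = some s) : s.1 ≠ b := by
  rcases hj : rc j with p | v | v | v
  · rw [hj] at h; simp only [Rec.aft, Option.some.injEq] at h; subst h
    exact (hR.stepA j p hj).1
  · rw [hj] at h; simp [Rec.aft] at h
  · rw [hj] at h; simp only [Rec.aft, Option.some.injEq] at h; subst h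
    exact (l_ne_b hE v).1
  · rw [hj] at h; simp only [Rec.aft, Option.some.injEq] at h; subst h
    exact (l_ne_b hE v).2.1

lemma oa8_ne_bef (hE : Ends T b) (hR : Route T b N lam z m rc) {j : Fin m} {s : T.P × Bool}
    (h : (rc j).bef = some s) : s.1 ≠ b := by
  rcases hj : rc j with p | v | v | v
  · rw [hj] at h; simp only [Rec.bef, Option.some.injEq] at h; subst h
    exact (hR.stepA j p hj).1
  · rw [hj] at h; simp only [Rec.bef, Option.some.injEq] at h; subst h
    exact (l_ne_b hE v).2.2.2.1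
  · rw [hj] at h; simp [Rec.bef] at h
  · rw [hj] at h; simp only [Rec.bef, Option.some.injEq] at h; subst h
    exact (l_ne_b hE v).2.1

lemma oa8_sf_aft (hE : Ends T b) (hR : Route T b N lam z m rc) {j : Fin m} {s : T.P × Bool}
    (h : (rc j).aft = some s) : SF T.sub4 (b, (3 : Fin 4)) (oa8_emb s) (oa8_I b rc j.succ) := by
  have hne := oa8_ne_aft hE hR h
  rw [oa8_I_succ]
  rcases hj : rc j with p | v | v | v
  · rw [hj] at h; simp only [Rec.aft, Option.some.injEq] at h; subst h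
    simp only [Rec.sg, Rec.pt, if_true]
    rw [oa8_prev _ _ (by decide)]
    exact (sf_sub4 hE hne hne false false 0 _).2 (SF.refl _ _ _)
  · rw [hj] at h; simp [Rec.aft] at h
  · rw [hj] at h; simp only [Rec.aft, Option.some.injEq] at h; subst h
    simp only [Rec.sg, Rec.pt, Bool.false_eq_true, if_false]
    exact (sf_sub4 hE hne hne true true 0 1).2 (SF.refl _ _ _)
  · rw [hj] at h; simp only [Rec.aft, Option.some.injEq] at h; subst h
    simp only [Rec.sg, Rec.pt, Bool.false_eq_true, if_false]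
    exact (sf_sub4 hE hne hne true true 0 1).2 (SF.refl _ _ _)

lemma oa8_sf_bef (hE : Ends T b) (hR : Route T b N lam z m rc) {j : Fin m} {s : T.P × Bool}
    (h : (rc j).bef = some s) :
    SF T.sub4 (b, (3 : Fin 4)) (oa8_emb s) (oa8_O b rc j.castSucc) := by
  have hne := oa8_ne_bef hE hR h
  rw [oa8_O_castSucc]
  rcases hj : rc j with p | v | v | v
  · rw [hj] at h; simp only [Rec.bef, Option.some.injEq] at h; subst h
    simp only [Rec.sg, Rec.pt, if_true]
    exact (sf_sub4 hE hne hne true true 0 2).2 (SF.refl _ _ _)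
  · rw [hj] at h; simp only [Rec.bef, Option.some.injEq] at h; subst h
    simp only [Rec.sg, Rec.pt, if_true]
    exact (sf_sub4 hE hne hne true true 0 3).2 (SF.refl _ _ _)
  · rw [hj] at h; simp [Rec.bef] at h
  · rw [hj] at h; simp only [Rec.bef, Option.some.injEq] at h; subst h
    simp only [Rec.sg, Rec.pt, Bool.false_eq_true, if_false]
    rw [oa8_prev _ _ (by decide)]
    exact (sf_sub4 hE hne hne false false 0 _).2 (SF.refl _ _ _)

/-- the face of the arc edge `k` -/
def oa8_FS (b : T.P) (rc : Fin m → Rec T) (k : Fin (m + 1)) (s : T.P × Bool) : Prop :=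
  (k = 0 ∧ s = (T.prev b, true)) ∨ ∃ j : Fin m, k = j.succ ∧ (rc j).aft = some s

lemma oa8_FS_ne (hE : Ends T b) (hR : Route T b N lam z m rc) {k : Fin (m + 1)}
    {s : T.P × Bool} (h : oa8_FS b rc k s) : s.1 ≠ b := by
  obtain ⟨-, rfl⟩ | ⟨j, -, h⟩ := h
  · change T.prev b ≠ b
    intro h
    have := congrArg T.next h
    rw [T.next_prev] at this
    exact hE.ne this.symm
  · exact oa8_ne_aft hE hR h

lemma oa8_FS_sf (hE : Ends T b) (hR : Route T b N lam z m rc) {k : Fin (m + 1)}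
    {s : T.P × Bool} (h : oa8_FS b rc k s) :
    SF T.sub4 (b, (3 : Fin 4)) (oa8_emb s) (oa8_I b rc k) := by
  have hE4 := ends_sub4 hE
  obtain ⟨rfl, rfl⟩ | ⟨j, rfl, h⟩ := h
  · rw [oa8_I_zero]
    exact (sf_sub4_b hE 2 0 (by decide) false true).symm hE4
  · exact oa8_sf_aft hE hR h

lemma oa8_FS_out (hE : Ends T b) (hR : Route T b N lam z m rc) {k : Fin (m + 1)}
    {s : T.P × Bool} (h : oa8_FS b rc k s) :
    SF T.sub4 (b, (3 : Fin 4)) (oa8_emb s) (oa8_O b rc k) := by
  have hE4 := ends_sub4 hE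
  have hsne := oa8_FS_ne hE hR h
  -- it is enough to have the next side in the same face
  have key : ∀ t : T.P × Bool, t.1 ≠ b → SF T b s t →
      SF T.sub4 (b, (3 : Fin 4)) (oa8_emb s) (oa8_emb t) := fun t ht hst =>
    (sf_sub4 hE hsne ht s.2 t.2 0 0).2 hst
  rcases Fin.eq_castSucc_or_eq_last k with ⟨k', rfl⟩ | rfl
  · -- the arc edge ends at the crossing `k'`
    obtain ⟨h0, rfl⟩ | ⟨j, hj, h⟩ := h
    · have hk' : k'.val = 0 := by
        have := congrArg Fin.val h0; simpa using this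
      obtain ⟨t, ht, hst⟩ := hR.first k' hk'
      exact (key t (oa8_ne_bef hE hR ht) hst).trans (oa8_sf_bef hE hR ht)
    · have hk' : k'.val = j.val + 1 := by
        have := congrArg Fin.val hj; simpa using this
      obtain ⟨v, hv, -⟩ | ⟨s', t, hs', ht, hst⟩ := hR.link j k' hk'
      · rw [hv] at h; simp [Rec.aft] at h
      · rw [h] at hs'
        obtain rfl := Option.some.inj hs'
        exact (key t (oa8_ne_bef hE hR ht) hst).trans (oa8_sf_bef hE hR ht)
  · rw [oa8_O_last]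
    apply key (T.next b, true) hE.ne
    obtain ⟨h0, rfl⟩ | ⟨j, hj, h⟩ := h
    · apply hR.empty
      have := congrArg Fin.val h0; simpa using this
    · have hk' : j.val + 1 = m := by
        have := congrArg Fin.val hj; simp at this; omega
      obtain ⟨s', hs', hst⟩ := hR.last j hk'
      rw [h] at hs'
      obtain rfl := Option.some.inj hs'
      exact hst

lemma oa8_FS_diff (hE : Ends T b) (hR : Route T b N lam z m rc) {k k' : Fin (m + 1)}
    {s s' : T.P × Bool} (h : oa8_FS b rc k s) (h' : oa8_FS b rc k' s') (hne : k ≠ k') :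
    ¬ SF T b s s' := by
  intro hs
  obtain ⟨rfl, rfl⟩ | ⟨j, rfl, h⟩ := h
  · obtain ⟨rfl, rfl⟩ | ⟨j', rfl, h'⟩ := h'
    · exact hne rfl
    · exact hR.simple0 j' s' h' hs
  · obtain ⟨rfl, rfl⟩ | ⟨j', rfl, h'⟩ := h'
    · exact hR.simple0 j s h (hs.symm hE)
    · exact hne (by rw [hR.simple j j' s s' h h' hs])

lemma oa8_FS_diff4 (hE : Ends T b) (hR : Route T b N lam z m rc) {k k' : Fin (m + 1)}
    {s s' : T.P × Bool} (h : oa8_FS b rc k s) (h' : oa8_FS b rc k' s') (hne : k ≠ k') :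
    ¬ SF T.sub4 (b, (3 : Fin 4)) (oa8_emb s) (oa8_emb s') := fun hs =>
  oa8_FS_diff hE hR h h' hne
    ((sf_sub4 hE (oa8_FS_ne hE hR h) (oa8_FS_ne hE hR h') s.2 s'.2 0 0).1 hs)

/-- an arc edge is either in a face, or it is the edge around the corner east of `v` -/
lemma oa8_cases (rc : Fin m → Rec T) (b : T.P) (k : Fin (m + 1)) :
    (∃ s, oa8_FS b rc k s) ∨ ∃ (j : Fin m) (v : T.V), k = j.succ ∧ rc j = Rec.P v := by
  rcases Fin.eq_zero_or_eq_succ k with rfl | ⟨j, rfl⟩
  · exact Or.inl ⟨_, Or.inl ⟨rfl, rfl⟩⟩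
  · rcases hj : rc j with p | v | v | v
    · exact Or.inl ⟨_, Or.inr ⟨j, rfl, by rw [hj]; rfl⟩⟩
    · exact Or.inr ⟨j, v, rfl, hj⟩
    · exact Or.inl ⟨_, Or.inr ⟨j, rfl, by rw [hj]; rfl⟩⟩
    · exact Or.inl ⟨_, Or.inr ⟨j, rfl, by rw [hj]; rfl⟩⟩

/-- the transitions at a corner -/
lemma oa8_corner (hR : Route T b N lam z m rc) {j : Fin m} {v : T.V} (hj : rc j = Rec.P v) :
    oa8_I b rc j.succ = oa8_s (T.prev (T.r v)) 2 false ∧
    oa8_O b rc j.succ = oa8_s (T.l v) 0 false := by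
  constructor
  · rw [oa8_I_succ, hj]
    simp only [Rec.sg, Rec.pt, if_true]
    rw [oa8_prev _ _ (by decide)]; rfl
  · obtain ⟨k', hk', hk''⟩ := hR.stepP' j v hj
    have h1 : j.succ = k'.castSucc := Fin.ext (by simp [hk'])
    rw [h1, oa8_O_castSucc, hk'']
    simp only [Rec.sg, Rec.pt, Bool.false_eq_true, if_false]
    rw [oa8_prev _ _ (by decide)]; rfl

/-- the two steps around the corner -/
lemma oa8_corner_step (hE : Ends T b) (v : T.V) :
    lface T.sub4 (b, (3 : Fin 4)) (oa8_s (T.prev (T.r v)) 2 false) =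
      oa8_s (T.prev (T.r v)) 3 false ∧
    lface T.sub4 (b, (3 : Fin 4)) (oa8_s (T.prev (T.r v)) 3 false) = oa8_s (T.l v) 0 false := by
  have hE4 := ends_sub4 hE
  have hpr : T.prev (T.r v) ≠ b := (l_ne_b hE v).2.2.2.1
  constructor
  · have hn : T.sub4.next (T.prev (T.r v), (2 : Fin 4)) = (T.prev (T.r v), (3 : Fin 4)) := rfl
    have := lface_marker_false (T := T.sub4) (b := (b, (3 : Fin 4)))
      (p := (T.prev (T.r v), (2 : Fin 4))) (by rw [hn]; rfl)
      (fun h => hpr (congrArg Prod.fst h)) (by rw [hn]; exact fun h => hpr (congrArg Prod.fst h))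
    exact this
  · have h1 : T.sub4.prev (T.sub4.r v) = (T.prev (T.r v), (3 : Fin 4)) := oa8_prev0 (T.r v)
    have h2 := lface_E hE4 v
    rw [h1] at h2
    exact h2

lemma oa8_corner_step' (hE : Ends T b) (v : T.V) :
    lface T.sub4 (b, (3 : Fin 4)) (oa8_s (T.l v) 0 false) = oa8_s (T.l v) 1 false := by
  have hlr : T.l v ≠ b := (l_ne_b hE v).1
  have hn : T.sub4.next (T.l v, (0 : Fin 4)) = (T.l v, (1 : Fin 4)) := rfl
  have := lface_marker_false (T := T.sub4) (b := (b, (3 : Fin 4)))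
    (p := (T.l v, (0 : Fin 4))) (by rw [hn]; rfl)
    (fun h => hlr (congrArg Prod.fst h)) (by rw [hn]; exact fun h => hlr (congrArg Prod.fst h))
  exact this

lemma oa8_hub (hE : Ends T b) (k : Fin m) : (rc k).pt ≠ (b, (3 : Fin 4)) ∧
    (rc k).pt ≠ T.sub4.next (b, (3 : Fin 4)) := by
  have hn : T.sub4.next (b, (3 : Fin 4)) = (T.next b, (0 : Fin 4)) := rfl
  rw [hn]
  have key : ∀ (p q : T.P) (i j : Fin 4), i ≠ j → ((p, i) : T.P × Fin 4) ≠ (q, j) :=
    fun p q i j h h' => h (congrArg Prod.snd h')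
  rcases rc k with p | v | v | v
  · exact ⟨key _ _ _ _ (by decide), key _ _ _ _ (by decide)⟩
  · refine ⟨?_, key _ _ _ _ (by decide)⟩
    intro h
    exact (l_ne_b hE v).2.2.2.1 (congrArg Prod.fst h)
  · exact ⟨key _ _ _ _ (by decide), key _ _ _ _ (by decide)⟩
  · exact ⟨key _ _ _ _ (by decide), key _ _ _ _ (by decide)⟩

/-- the forms of the transitions of right sides -/
lemma oa8_I_form (k : Fin (m + 1)) {q : T.P} {i : Fin 4}
    (h : oa8_I b rc k = oa8_s q i false) : i = 1 ∨ i = 2 := by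
  rcases Fin.eq_zero_or_eq_succ k with rfl | ⟨j, rfl⟩
  · rw [oa8_I_zero] at h
    right
    exact (congrArg (fun x : (T.P × Fin 4) × Bool => x.1.2) h).symm
  · rw [oa8_I_succ] at h
    rcases hj : rc j with p | v | v | v
    · rw [hj] at h
      simp only [Rec.sg, Rec.pt, if_true] at h
      rw [oa8_prev _ _ (by decide)] at h
      left
      exact (congrArg (fun x : (T.P × Fin 4) × Bool => x.1.2) h).symm
    · rw [hj] at h
      simp only [Rec.sg, Rec.pt, if_true] at h
      rw [oa8_prev _ _ (by decide)] at h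
      right
      exact (congrArg (fun x : (T.P × Fin 4) × Bool => x.1.2) h).symm
    · rw [hj] at h
      simp only [Rec.sg, Rec.pt, Bool.false_eq_true, if_false] at h
      exact absurd (congrArg Prod.snd h) (by simp [oa8_s])
    · rw [hj] at h
      simp only [Rec.sg, Rec.pt, Bool.false_eq_true, if_false] at h
      exact absurd (congrArg Prod.snd h) (by simp [oa8_s])

/-- the forms of the transitions of right sides -/
lemma oa8_O_form (k : Fin (m + 1)) {q : T.P} {i : Fin 4}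
    (h : oa8_O b rc k = oa8_s q i false) : i = 0 ∧ ∃ (j : Fin m) (v : T.V),
      k = j.castSucc ∧ ((rc j = Rec.Q v ∧ q = T.l v) ∨ (rc j = Rec.E v ∧ q = T.r v)) := by
  rcases Fin.eq_castSucc_or_eq_last k with ⟨j, rfl⟩ | rfl
  · rw [oa8_O_castSucc] at h
    rcases hj : rc j with p | v | v | v
    · rw [hj] at h
      simp only [Rec.sg, if_true] at h
      exact absurd (congrArg Prod.snd h) (by simp [oa8_s])
    · rw [hj] at h
      simp only [Rec.sg, if_true] at h
      exact absurd (congrArg Prod.snd h) (by simp [oa8_s])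
    · rw [hj] at h
      simp only [Rec.sg, Rec.pt, Bool.false_eq_true, if_false] at h
      rw [oa8_prev _ _ (by decide)] at h
      exact ⟨(congrArg (fun x : (T.P × Fin 4) × Bool => x.1.2) h).symm, j, v, rfl,
        Or.inl ⟨hj, (congrArg (fun x : (T.P × Fin 4) × Bool => x.1.1) h).symm⟩⟩
    · rw [hj] at h
      simp only [Rec.sg, Rec.pt, Bool.false_eq_true, if_false] at h
      rw [oa8_prev _ _ (by decide)] at h
      exact ⟨(congrArg (fun x : (T.P × Fin 4) × Bool => x.1.2) h).symm, j, v, rfl,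
        Or.inr ⟨hj, (congrArg (fun x : (T.P × Fin 4) × Bool => x.1.1) h).symm⟩⟩
  · rw [oa8_O_last] at h
    exact absurd (congrArg Prod.snd h) (by simp [oa8_s, oa8_emb])

lemma oa8_x1 (v : T.V) (k : Fin (m + 1))
    (h : oa8_I b rc k = oa8_s (T.prev (T.r v)) 3 false ∨
      oa8_O b rc k = oa8_s (T.prev (T.r v)) 3 false) : False := by
  rcases h with h | h
  · rcases oa8_I_form k h with h | h <;> exact absurd h (by decide)
  · exact absurd (oa8_O_form k h).1 (by decide)

theorem oa8_cert (hE : Ends T b) (hR : Route T b N lam z m rc) (k : Fin (m + 1)) :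
    ∃ r : T.sub4.P × Bool → ℤ,
      (∀ a, a.1 ≠ (b, (3 : Fin 4)) → open Classical in
        r (lface T.sub4 (b, (3 : Fin 4)) a) - r a =
          (if a = oa8_I b rc k then 1 else 0) - (if a = oa8_O b rc k then 1 else 0)) ∧
      r (lface T.sub4 (b, (3 : Fin 4)) (oa8_I b rc k)) = r (oa8_O b rc k) ∧
      r (oa8_I b rc k) = r (lface T.sub4 (b, (3 : Fin 4)) (oa8_O b rc k)) ∧
      (∀ k', k' ≠ k → r (oa8_I b rc k') = r (oa8_O b rc k')) ∧
      SF T.sub4 (b, (3 : Fin 4)) (oa8_I b rc k) (oa8_O b rc k) := by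
  classical
  have hE4 := ends_sub4 hE
  obtain ⟨hI, hO, hIO, hI1, hO1⟩ := sIn_sOut_distinct T.sub4 (b, (3 : Fin 4)) hE4
    (fun k => (rc k).pt) (fun k => (rc k).sg) (route_arcOK hR) (oa8_hub hE)
  rcases oa8_cases rc b k with ⟨s, hs⟩ | ⟨j, v, rfl, hj⟩
  · -- an edge in a face
    have hsI := oa8_FS_sf hE hR hs
    have hsO := oa8_FS_out hE hR hs
    have hsf : SF T.sub4 (b, (3 : Fin 4)) (oa8_I b rc k) (oa8_O b rc k) :=
      (hsI.symm hE4).trans hsO
    obtain ⟨r, h1, h2, h3, h4⟩ := exists_jump (lfaceP hE4) (hIO k k) ((sf_iff hE4 _ _).1 hsf)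
    refine ⟨r, fun a _ => h1 a, h2, h3, ?_, hsf⟩
    intro k' hk'
    rcases oa8_cases rc b k' with ⟨s', hs'⟩ | ⟨j', v', rfl, hj'⟩
    · have hd := oa8_FS_diff4 hE hR hs hs' hk'.symm
      rw [h4, h4]
      · intro hc
        exact hd (hsI.trans (((sf_iff hE4 _ _).2 hc).trans
          ((oa8_FS_out hE hR hs').symm hE4)))
      · intro hc
        exact hd (hsI.trans (((sf_iff hE4 _ _).2 hc).trans
          ((oa8_FS_sf hE hR hs').symm hE4)))
    · obtain ⟨c1, c2⟩ := oa8_corner hR hj'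
      obtain ⟨e1, e2⟩ := oa8_corner_step hE v'
      have g1 := h1 (oa8_I b rc j'.succ)
      rw [if_neg (fun h => hk' (hI h)), if_neg (hIO _ _)] at g1
      have g2 := h1 (oa8_s (T.prev (T.r v')) 3 false)
      rw [if_neg (fun h => oa8_x1 v' k (Or.inl h.symm)),
        if_neg (fun h => oa8_x1 v' k (Or.inr h.symm))] at g2
      have e1' : lfaceP hE4 (oa8_I b rc j'.succ) = oa8_s (T.prev (T.r v')) 3 false := by
        rw [c1]; exact e1
      have e2' : lfaceP hE4 (oa8_s (T.prev (T.r v')) 3 false) = oa8_O b rc j'.succ := by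
        rw [c2]; exact e2
      rw [e1'] at g1
      rw [e2'] at g2
      linarith
  · -- a corner
    obtain ⟨c1, c2⟩ := oa8_corner hR hj
    obtain ⟨e1, e2⟩ := oa8_corner_step hE v
    have e3 := oa8_corner_step' hE v
    have hx1I : ∀ k' : Fin (m + 1), oa8_s (T.prev (T.r v)) 3 false ≠ oa8_I b rc k' :=
      fun k' h => oa8_x1 v k' (Or.inl h.symm)
    have hx1O : ∀ k' : Fin (m + 1), oa8_s (T.prev (T.r v)) 3 false ≠ oa8_O b rc k' :=
      fun k' h => oa8_x1 v k' (Or.inr h.symm)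
    have hx2I : ∀ k' : Fin (m + 1), oa8_s (T.l v) 0 false ≠ oa8_I b rc k' := fun k' h => by
      rcases oa8_I_form k' h.symm with h | h <;> exact absurd h (by decide)
    have hx2O : ∀ k' : Fin (m + 1), k' ≠ j.succ →
        oa8_s (T.l v) 0 false ≠ oa8_O b rc k' := fun k' hk' h => by
      obtain ⟨-, j', v', rfl, ⟨hj', hl⟩ | ⟨hj', hl⟩⟩ := oa8_O_form k' h.symm
      · have hvv : v = v' := (Prod.mk.inj (T.cr_inj hl)).1
        subst hvv
        obtain ⟨j'', hj'', hj3⟩ := hR.stepP' j v hj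
        have := route_injective hR (hj'.trans hj3.symm)
        subst this
        exact hk' (Fin.ext (by simp [hj'']))
      · exact T.l_ne_r _ _ hl
    obtain ⟨r, r1, r2, r3, r4⟩ := indicator_jump (lface T.sub4 (b, (3 : Fin 4)))
      (lface_injective hE4) e1 e2 e3
      (fun h => absurd (oa8_s_inj h).2.1 (by decide))
      (fun h => absurd (oa8_s_inj h).2.1 (by decide))
      (fun h => absurd (oa8_s_inj h).2.1 (by decide))
      (fun h => absurd (oa8_s_inj h).2.1 (by decide))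
      (fun h => absurd (oa8_s_inj h).2.1 (by decide))
    refine ⟨r, ?_, ?_, ?_, ?_, ?_⟩
    · intro a _
      rw [c1, c2]
      exact r1 a
    · rw [c1, c2]; exact r2
    · rw [c1, c2]; exact r3
    · intro k' hk'
      rw [r4 _ (hx1I k').symm (hx2I k').symm, r4 _ (hx1O k').symm (hx2O k' hk').symm]
    · rw [c1, c2]
      exact ⟨2, (congrArg _ e1).trans e2⟩

theorem route_planar (hE : Ends T b) (hR : Route T b N lam z m rc)
    (hP : LPlanar T.sub4 (b, 3)) :
    (routeD hR).Planar := by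
  classical
  choose r h1 h2 h3 h4 h5 using oa8_cert hE hR
  exact overClosure_planar T.sub4 (b, (3 : Fin 4)) (ends_sub4 hE) hP (fun k => (rc k).pt)
    (fun k => (rc k).sg) (route_arcOK hR) (oa8_hub hE) r h1 h2 h3
    (fun k k' hk => h4 k k' hk.symm) h5

end OA8

end Pool.Agent.Lib.MP_b7a6eb_gt
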