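import Pool.Agent.Lib.MP_b7a6eb_gt.Constr
import Pool.Agent.Lib.MP_b7a6eb_gt.OA0
import Pool.Agent.Lib.MP_b7a6eb_gt.OA4
import Pool.Agent.Lib.MP_b7a6eb_gt.Route
import Pool.Agent.Lib.MP_b7a6eb_gt.OA7
import Pool.Agent.Lib.MP_b7a6eb_gt.OA6a
import Pool.Agent.Lib.MP_b7a6eb_gt.OA8a

namespace Pool.Agent.Lib.MP_b7a6eb_gt

open Equiv Equiv.Perm

section OA9a

variable {T : Diagram} {b : T.P} {N : ℕ} {lam : T.P × Bool → ℕ}
    {z : Fin N → T.V} {m : ℕ} {rc : Fin m → Rec T}

/-- indicator of a level -/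
def oa9_i (i l : ℕ) : ℕ := if l ≤ i then 1 else 0

/-- level of the face in which the arc runs after a crossing -/
def oa9_lr (lam : T.P × Bool → ℕ) : Rec T → ℕ
  | Rec.A p => lam (p, false)
  | Rec.P v => lam (T.prev (T.r v), true)
  | Rec.Q v => lam (T.l v, true)
  | Rec.E v => lam (T.r v, true)

/-- status of the old edges -/
noncomputable def oa9_e (b : T.P) (lam : T.P × Bool → ℕ) (i : ℕ) (p : T.P) : ℕ :=
  open Classical in if p = b then 2 else oa9_i i (lam (p, true)) + oa9_i i (lam (p, false))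

lemma oa9_e_ne {i : ℕ} {p : T.P} (h : p ≠ b) :
    oa9_e b lam i p = oa9_i i (lam (p, true)) + oa9_i i (lam (p, false)) := by
  simp only [oa9_e, h, if_false]

lemma oa9_e_b (i : ℕ) : oa9_e b lam i b = 2 := by
  simp only [oa9_e, if_true]

/-- the status function -/
noncomputable def oa9_st (b : T.P) (lam : T.P × Bool → ℕ) (rc : Fin m → Rec T) (i : ℕ) :
    T.sub4.P ⊕ Fin m → ℕ
  | Sum.inl x => oa9_e b lam i x.1
  | Sum.inr k => 2 * oa9_i i (oa9_lr lam (rc k))

lemma oa9_st_inl (i : ℕ) (p : T.P) (k : Fin 4) :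
    oa9_st b lam rc i (Sum.inl (oa8a_p p k)) = oa9_e b lam i p := rfl

lemma oa9_st_inr (i : ℕ) (k : Fin m) :
    oa9_st b lam rc i (Sum.inr k) = 2 * oa9_i i (oa9_lr lam (rc k)) := rfl

lemma oa9_lr_aft {x : Rec T} {s : T.P × Bool} (h : x.aft = some s) : oa9_lr lam x = lam s := by
  cases x with
  | A p => exact congrArg lam (Option.some.inj h)
  | P v => simp [Rec.aft] at h
  | Q v => exact congrArg lam (Option.some.inj h)
  | E v => exact congrArg lam (Option.some.inj h)

lemma oa9_aft_ne (hE : Ends T b) (hR : Route T b N lam z m rc) {j : Fin m} {s : T.P × Bool}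
    (h : (rc j).aft = some s) : s.1 ≠ b := by
  rcases hj : rc j with p | v | v | v
  · rw [hj] at h; simp only [Rec.aft, Option.some.injEq] at h; subst h
    exact (hR.stepA j p hj).1
  · rw [hj] at h; simp [Rec.aft] at h
  · rw [hj] at h; simp only [Rec.aft, Option.some.injEq] at h; subst h
    exact (l_ne_b hE v).1
  · rw [hj] at h; simp only [Rec.aft, Option.some.injEq] at h; subst h
    exact (l_ne_b hE v).2.1

lemma l_ne_b_prev' (hE : Ends T b) : T.prev b ≠ b :=
  fun h => hE.ne ((T.prev_eq_iff.1 h).symm)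

/-- status of the arc before the crossing `k` -/
lemma oa9_bef (hE : Ends T b) (hR : Route T b N lam z m rc) (i : ℕ) (k : Fin m)
    {s : T.P × Bool} (hs : (rc k).bef = some s) :
    oa9_st b lam rc i (T.sub4.arcEmb (oa8a_b b) m k.castSucc) = 2 * oa9_i i (lam s) := by
  rcases Nat.eq_zero_or_pos k.val with h0 | h0
  · obtain ⟨s', h1, h2⟩ := hR.first k h0
    rw [hs] at h1
    obtain rfl := Option.some.inj h1
    have h3 := SF.eq hE lam hR.lev.inv h2 (l_ne_b_prev' hE)
    rw [hR.lev.start] at h3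
    have h4 : k.castSucc = 0 := Fin.ext (by simpa using h0)
    rw [h4, ← h3]
    change oa9_e b lam i b = _
    rw [oa9_e_b]
    simp [oa9_i]
  · have hj : k.val - 1 < m := by omega
    obtain ⟨v, h1, h2⟩ | ⟨s', t', h1, h2, h3⟩ := hR.link ⟨k.val - 1, hj⟩ k
      (by simp only; omega)
    · rw [h2] at hs; simp [Rec.bef] at hs
    · rw [hs] at h2
      obtain rfl := Option.some.inj h2
      have h4 := SF.eq hE lam hR.lev.inv h3 (oa9_aft_ne hE hR h1)
      have h5 : k.castSucc = (⟨k.val - 1, hj⟩ : Fin m).succ :=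
        Fin.ext (by simp; omega)
      rw [h5]
      change 2 * oa9_i i (oa9_lr lam (rc ⟨k.val - 1, hj⟩)) = _
      rw [oa9_lr_aft h1, h4]

lemma oa9_bef_Q (hR : Route T b N lam z m rc) (i : ℕ) (k : Fin m)
    {v : T.V} (hs : rc k = Rec.Q v) :
    oa9_st b lam rc i (T.sub4.arcEmb (oa8a_b b) m k.castSucc) =
      2 * oa9_i i (lam (T.prev (T.r v), true)) := by
  obtain ⟨k', h1, h2⟩ := hR.stepQ k v hs
  have h5 : k.castSucc = k'.succ := Fin.ext (by simp; omega)
  rw [h5]
  change 2 * oa9_i i (oa9_lr lam (rc k')) = _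
  rw [h2]
  rfl

lemma oa9_last (hE : Ends T b) (hR : Route T b N lam z m rc) (i : Fin N) :
    oa9_st b lam rc i (T.sub4.arcEmb (oa8a_b b) m (Fin.last m)) = 0 := by
  rcases Nat.eq_zero_or_pos m with h0 | h0
  · exfalso
    have h1 := SF.eq hE lam hR.lev.inv (hR.empty h0) (l_ne_b_prev' hE)
    rw [hR.lev.start, hR.lev.stop] at h1
    have := i.2
    omega
  · have hj : m - 1 < m := by omega
    obtain ⟨s, h1, h2⟩ := hR.last ⟨m - 1, hj⟩ (by simp only; omega)
    have h4 := SF.eq hE lam hR.lev.inv h2 (oa9_aft_ne hE hR h1)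
    have h5 : Fin.last m = (⟨m - 1, hj⟩ : Fin m).succ := Fin.ext (by simp; omega)
    rw [h5]
    change 2 * oa9_i i (oa9_lr lam (rc ⟨m - 1, hj⟩)) = _
    rw [oa9_lr_aft h1, h4, hR.lev.stop]
    have := i.2
    simp [oa9_i]

end OA9a

/-- [OA9a] the status function at level `i` -/
theorem route_status {T : Diagram} {b : T.P} {N : ℕ} {lam : T.P × Bool → ℕ}
    {z : Fin N → T.V} {m : ℕ} {rc : Fin m → Rec T} (hE : Ends T b)
    (hR : Route T b N lam z m rc) (hT : ∀ v, T.sign v = true) (i : Fin N) :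
    ∃ st : (routeD hR).P → ℕ,
    (∀ p, (routeD hR).lab p = none → st ((routeD hR).prev p) = st p) ∧
    (∀ v ∈ routeY T z rc, ∀ x, st ((routeD hR).prev ((routeD hR).cr (v, x))) =
      st ((routeD hR).cr (v, !x))) ∧
    (∀ k v, rc k = Rec.P v → ∀ x, st ((routeD hR).prev ((routeD hR).cr (Sum.inr k, x))) =
      st ((routeD hR).cr (Sum.inr k, x))) ∧
    (∀ k v, rc k = Rec.Q v → ∀ x, st ((routeD hR).prev ((routeD hR).cr (Sum.inr k, x))) =
      st ((routeD hR).cr (Sum.inr k, x))) ∧
    (∀ i', i' ≠ i → ∀ x y, st ((routeD hR).prev ((routeD hR).cr (Sum.inl (z i'), x))) =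
      st ((routeD hR).cr (Sum.inl (z i'), y))) ∧
    (∀ i' k, i' ≠ i → rc k = Rec.E (z i') → ∀ x y,
      st ((routeD hR).prev ((routeD hR).cr (Sum.inr k, x))) =
        st ((routeD hR).cr (Sum.inr k, y))) ∧
    (st ((routeD hR).prev ((routeD hR).cr (Sum.inl (z i), true))) = 0 ∧
      st ((routeD hR).cr (Sum.inl (z i), true)) = 2 ∧
      st ((routeD hR).prev ((routeD hR).cr (Sum.inl (z i), false))) = 1 ∧
      st ((routeD hR).cr (Sum.inl (z i), false)) = 1) ∧
    ∀ k, rc k = Rec.E (z i) →
      st ((routeD hR).prev ((routeD hR).cr (Sum.inr k, true))) = 2 ∧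
      st ((routeD hR).cr (Sum.inr k, true)) = 0 ∧
      st ((routeD hR).prev ((routeD hR).cr (Sum.inr k, false))) = 1 ∧
      st ((routeD hR).cr (Sum.inr k, false)) = 1 := by
  have hub : ∀ k, (rc k).pt ≠ T.sub4.next (oa8a_b b) := by
    intro k
    rw [oa8a_next_b]
    have key : ∀ (p q : T.P) (i j : Fin 4), i ≠ j → oa8a_p p i ≠ oa8a_p q j :=
      fun p q i j h h' => h (congrArg Prod.snd h')
    rcases rc k with p | v | v | v
    · exact key _ _ _ _ (by decide)
    · exact key _ _ _ _ (by decide)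
    · exact key _ _ _ _ (by decide)
    · exact key _ _ _ _ (by decide)
  have hlev := hR.lev
  have hinv := hlev.inv
  -- levels at a crossing
  have lW : ∀ v, lam (T.prev (T.l v), true) = lam (T.r v, true) := fun v => by
    rw [← lface_W hE v]; exact hinv _ (l_ne_b hE v).2.1
  have lS : ∀ v, lam (T.prev (T.r v), true) = lam (T.prev (T.l v), false) := fun v => by
    rw [← lface_S hE v]; exact hinv _ (l_ne_b hE v).2.2.1
  have lN : ∀ v, lam (T.r v, false) = lam (T.l v, true) := fun v => by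
    rw [← lface_N hE v]; exact hinv _ (l_ne_b hE v).1
  have lE : ∀ v, lam (T.l v, false) = lam (T.prev (T.r v), false) := fun v => by
    rw [← lface_E hE v]; exact hinv _ (l_ne_b hE v).2.2.2.1
  -- status of the four edges at a crossing
  have e_pl : ∀ v, oa9_e b lam i (T.prev (T.l v)) =
      oa9_i i (lam (T.r v, true)) + oa9_i i (lam (T.prev (T.r v), true)) := fun v => by
    rw [oa9_e_ne (l_ne_b hE v).2.2.1, lW, ← lS]
  have e_pr : ∀ v, oa9_e b lam i (T.prev (T.r v)) =
      oa9_i i (lam (T.prev (T.r v), true)) + oa9_i i (lam (T.l v, false)) := fun v => by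
    rw [oa9_e_ne (l_ne_b hE v).2.2.2.1, lE]
  have e_l : ∀ v, oa9_e b lam i (T.l v) =
      oa9_i i (lam (T.l v, true)) + oa9_i i (lam (T.l v, false)) := fun v => by
    rw [oa9_e_ne (l_ne_b hE v).1]
  have e_r : ∀ v, oa9_e b lam i (T.r v) =
      oa9_i i (lam (T.r v, true)) + oa9_i i (lam (T.l v, true)) := fun v => by
    rw [oa9_e_ne (l_ne_b hE v).2.1, lN]
  -- predecessors of old points
  have hpi : ∀ x : T.sub4.P, x ≠ T.sub4.next (oa8a_b b) →
      (routeD hR).prev (Sum.inl x) = Sum.inl (T.sub4.prev x) := fun x hx =>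
    oa6_prev T.sub4 (oa8a_b b) (fun k => (rc k).pt) (fun k => (rc k).sg) (route_arcOK hR) hx
  have hpr : ∀ k : Fin m, (routeD hR).prev (Sum.inr k) =
      T.sub4.arcEmb (oa8a_b b) m k.castSucc := fun k =>
    oa6_prev_succ T.sub4 (oa8a_b b) (fun k => (rc k).pt) (fun k => (rc k).sg) (route_arcOK hR) k
  have hcr : ∀ (v : T.V) (x : Bool), (routeD hR).cr (Sum.inl v, x) =
      Sum.inl (oa8a_p (T.cr (v, x)) 0) :=
    fun v x => by cases x <;> rfl
  have hcrt : ∀ k : Fin m, (routeD hR).cr (Sum.inr k, true) = Sum.inr k := fun k => rfl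
  have hcrf : ∀ k : Fin m, (routeD hR).cr (Sum.inr k, false) = Sum.inl (rc k).pt := fun k => rfl
  have hprevcr : ∀ (v : T.V) (x : Bool), (routeD hR).prev ((routeD hR).cr (Sum.inl v, x)) =
      Sum.inl (oa8a_p (T.prev (T.cr (v, x))) 3) := by
    intro v x
    rw [hcr, hpi]
    · rfl
    · rw [oa8a_next_b]
      intro h
      have h1 : T.cr (v, x) = T.next b := congrArg Prod.fst h
      have h2 := hE.ha
      rw [← h1] at h2
      simp at h2
  have hlt : ∀ v, T.cr (v, true) = T.l v := fun v => by rw [Diagram.l, hT]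
  have hrf : ∀ v, T.cr (v, false) = T.r v := fun v => by rw [Diagram.r, hT]; rfl
  have s_cr_t : ∀ v : T.V, oa9_st b lam rc i ((routeD hR).cr (Sum.inl v, true)) =
      oa9_e b lam i (T.l v) := fun v => by rw [hcr, hlt]; rfl
  have s_cr_f : ∀ v : T.V, oa9_st b lam rc i ((routeD hR).cr (Sum.inl v, false)) =
      oa9_e b lam i (T.r v) := fun v => by rw [hcr, hrf]; rfl
  have s_p_t : ∀ v : T.V, oa9_st b lam rc i ((routeD hR).prev ((routeD hR).cr (Sum.inl v, true))) =
      oa9_e b lam i (T.prev (T.l v)) := fun v => by rw [hprevcr, hlt]; rfl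
  have s_p_f : ∀ v : T.V, oa9_st b lam rc i ((routeD hR).prev ((routeD hR).cr (Sum.inl v, false))) =
      oa9_e b lam i (T.prev (T.r v)) := fun v => by rw [hprevcr, hrf]; rfl
  -- the crossings of the arc
  have s_a_t : ∀ k : Fin m, oa9_st b lam rc i ((routeD hR).cr (Sum.inr k, true)) =
      2 * oa9_i i (oa9_lr lam (rc k)) := fun k => rfl
  have s_a_f : ∀ k : Fin m, oa9_st b lam rc i ((routeD hR).cr (Sum.inr k, false)) =
      oa9_e b lam i (rc k).pt.1 := fun k => rfl
  have s_pa_t : ∀ (k : Fin m) (s : T.P × Bool), (rc k).bef = some s →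
      oa9_st b lam rc i ((routeD hR).prev ((routeD hR).cr (Sum.inr k, true))) =
      2 * oa9_i i (lam s) := fun k s hs => by
    rw [hcrt, hpr]; exact oa9_bef hE hR i k hs
  have s_pa_f : ∀ k : Fin m, oa9_st b lam rc i ((routeD hR).prev
      ((routeD hR).cr (Sum.inr k, false))) = oa9_e b lam i (rc k).pt.1 := by
    intro k
    rw [hcrf, hpi _ (hub k)]
    have key : ∀ (p : T.P) (k : Fin 4), k ≠ 0 →
        oa9_st b lam rc i (Sum.inl (T.sub4.prev (oa8a_p p k))) = oa9_e b lam i p := by
      intro p k hk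
      rw [oa8a_prev p hk]; rfl
    rcases rc k with p | v | v | v
    · exact key _ _ (by decide)
    · exact key _ _ (by decide)
    · exact key _ _ (by decide)
    · exact key _ _ (by decide)
  have hi1 : ∀ j : Fin N, j ≠ i → oa9_i i (j.val + 1) = oa9_i i j.val := by
    intro j hj
    have : j.val ≠ i.val := fun h => hj (Fin.ext h)
    simp only [oa9_i]
    by_cases h : j.val ≤ i.val
    · rw [if_pos h, if_pos (by omega)]
    · rw [if_neg h, if_neg (by omega)]
  have hi0 : oa9_i i i.val = 1 := by simp [oa9_i]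
  have hi2 : oa9_i i (i.val + 1) = 0 := by simp [oa9_i]
  have zl : ∀ j, oa9_e b lam i (T.l (z j)) = 2 * oa9_i i j.val := fun j => by
    rw [e_l, hlev.zN, hlev.zE]; ring
  have zr : ∀ j, oa9_e b lam i (T.r (z j)) = oa9_i i (j.val + 1) + oa9_i i j.val := fun j => by
    rw [e_r, hlev.zN, hlev.zW]
  have zpl : ∀ j, oa9_e b lam i (T.prev (T.l (z j))) = 2 * oa9_i i (j.val + 1) := fun j => by
    rw [e_pl, hlev.zW, hlev.zS]; ring
  have zpr : ∀ j, oa9_e b lam i (T.prev (T.r (z j))) =
      oa9_i i (j.val + 1) + oa9_i i j.val := fun j => by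
    rw [e_pr, hlev.zS, hlev.zE]
  refine ⟨oa9_st b lam rc i, ?_, ?_, ?_, ?_, ?_, ?_, ?_, ?_⟩
  · -- markers
    rintro (⟨q, k⟩ | k) hp
    · change oa9_st b lam rc i ((routeD hR).prev (Sum.inl (oa8a_p q k))) =
        oa9_st b lam rc i (Sum.inl (oa8a_p q k))
      by_cases hk : k = 0
      · subst hk
        have hq : T.lab q = none := by
          rcases hq : T.lab q with _ | ⟨v, x⟩
          · rfl
          · exfalso
            have h1 := T.cr_of_lab hq
            subst h1
            have h2 : (routeD hR).lab ((routeD hR).cr (Sum.inl v, x)) = none := by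
              rw [hcr]; exact hp
            rw [Diagram.lab_cr] at h2
            simp at h2
        by_cases hqa : q = T.next b
        · subst hqa
          have h1 : (routeD hR).prev (Sum.inl (oa8a_p (T.next b) 0)) =
            T.sub4.arcEmb (oa8a_b b) m (Fin.last m) :=
              oa6_prev_a T.sub4 (oa8a_b b) (fun k => (rc k).pt) (fun k => (rc k).sg)
                (route_arcOK hR)
          rw [h1, oa9_last hE hR i, oa9_st_inl, oa9_e_ne hE.ne]
          have h2 : lam (T.next b, false) = N := by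
            rw [← lface_end_a hE, hinv _ hE.ne, hlev.stop]
          rw [h2, hlev.stop]
          have h4 := i.2
          have h5 : ¬ N ≤ (i : ℕ) := by omega
          simp [oa9_i, h5]
        · rw [hpi _ (fun h => hqa (congrArg Prod.fst h)), oa8a_prev0, oa9_st_inl, oa9_st_inl]
          have h3 : T.prev q ≠ b := fun h => hqa (T.prev_eq_iff.1 h)
          by_cases hqb : q = b
          · subst hqb
            rw [oa9_e_b, oa9_e_ne h3, hlev.start]
            have h4 : lam (T.prev q, false) = 0 := by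
              rw [← hinv _ h3, lface_end_b hE, hlev.start]
            rw [h4]
            simp [oa9_i]
          · rw [oa9_e_ne h3, oa9_e_ne hqb]
            have h4 : lam (T.prev q, true) = lam (q, true) := by
              rw [← lface_marker_true hq hqb hqa]; exact hinv _ hqb
            have h5 : lam (q, false) = lam (T.prev q, false) := by
              have := lface_marker_false (T := T) (b := b) (p := T.prev q)
                (by simpa using hq) h3 (by simpa using hqb)
              rw [T.next_prev] at this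
              rw [← this]; exact hinv _ h3
            rw [h4, h5]
      · rw [hpi _ (fun h => hk (congrArg Prod.snd h)), oa8a_prev q hk]
        rfl
    · exact absurd hp (by
        have : (routeD hR).lab ((routeD hR).cr (Sum.inr k, true)) = some (Sum.inr k, true) :=
          Diagram.lab_cr _ _
        rw [hcrt] at this
        rw [this]; simp)
  · -- smoothed crossings
    rintro v (⟨v, rfl, hv⟩ | ⟨k, p, rfl, hk⟩) x
    · have h1 := hlev.nonz v hv
      cases x
      · exact (s_p_f v).trans (Eq.trans (by rw [e_pr, e_l, h1]) (s_cr_t v).symm)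
      · exact (s_p_t v).trans (Eq.trans (by rw [e_pl, e_r, h1]) (s_cr_f v).symm)
    · obtain ⟨h1, h2⟩ := hR.stepA k p hk
      have h3 : oa9_e b lam i (rc k).pt.1 = 2 * oa9_i i (lam (p, true)) := by
        rw [hk]
        change oa9_e b lam i p = _
        rw [oa9_e_ne h1, h2]; ring
      cases x
      · refine (s_pa_f k).trans (Eq.trans ?_ (s_a_t k).symm)
        rw [h3, hk, h2]
        rfl
      · refine (s_pa_t k (p, true) (by rw [hk]; rfl)).trans (Eq.trans ?_ (s_a_f k).symm)
        rw [h3]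
  · -- P
    intro k v hk x
    cases x
    · rw [s_pa_f, s_a_f]
    · rw [s_pa_t k (T.prev (T.r v), true) (by rw [hk]; rfl), s_a_t, hk]
      rfl
  · -- Q
    intro k v hk x
    cases x
    · rw [s_pa_f, s_a_f]
    · rw [hcrt, hpr, oa9_bef_Q hR i k hk, oa9_st_inr, hk]
      obtain ⟨k', h1, h2⟩ := hR.stepQ k v hk
      have h3 := hlev.nonz v (hR.stepP k' v h2)
      rw [h3]
      rfl
  · -- other z
    intro j hj x y
    have h1 := hi1 j hj
    have h2 : ∀ y, oa9_st b lam rc i ((routeD hR).cr (Sum.inl (z j), y)) =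
        2 * oa9_i i j.val := by
      intro y
      cases y
      · rw [s_cr_f, zr, h1]; ring
      · rw [s_cr_t, zl]
    have h3 : ∀ y, oa9_st b lam rc i ((routeD hR).prev
        ((routeD hR).cr (Sum.inl (z j), y))) = 2 * oa9_i i j.val := by
      intro y
      cases y
      · rw [s_p_f, zpr, h1]; ring
      · rw [s_p_t, zpl, h1]
    rw [h2, h3]
  · -- other E
    intro j k hj hk x y
    have h1 := hi1 j hj
    have h0 : oa9_e b lam i (rc k).pt.1 = 2 * oa9_i i j.val := by
      rw [hk]
      change oa9_e b lam i (T.r (z j)) = _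
      rw [zr, h1]; ring
    have h2 : ∀ y, oa9_st b lam rc i ((routeD hR).cr (Sum.inr k, y)) =
        2 * oa9_i i j.val := by
      intro y
      cases y
      · rw [s_a_f, h0]
      · rw [s_a_t, hk]
        change 2 * oa9_i i (lam (T.r (z j), true)) = _
        rw [hlev.zW, h1]
    have h3 : ∀ y, oa9_st b lam rc i ((routeD hR).prev
        ((routeD hR).cr (Sum.inr k, y))) = 2 * oa9_i i j.val := by
      intro y
      cases y
      · rw [s_pa_f, h0]
      · rw [s_pa_t k (T.r (z j), false) (by rw [hk]; rfl), lN, hlev.zN]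
    rw [h2, h3]
  · -- values at `z i`
    refine ⟨?_, ?_, ?_, ?_⟩
    · rw [s_p_t, zpl, hi2]
    · rw [s_cr_t, zl, hi0]
    · rw [s_p_f, zpr, hi2, hi0]
    · rw [s_cr_f, zr, hi2, hi0]
  · -- values at `E (z i)`
    intro k hk
    have h0 : oa9_e b lam i (rc k).pt.1 = 1 := by
      rw [hk]
      change oa9_e b lam i (T.r (z i)) = _
      rw [zr, hi2, hi0]
    refine ⟨?_, ?_, ?_, ?_⟩
    · rw [s_pa_t k (T.r (z i), false) (by rw [hk]; rfl), lN, hlev.zN, hi0]
    · rw [s_a_t, hk]
      change 2 * oa9_i i (lam (T.r (z i), true)) = _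
      rw [hlev.zW, hi2]
    · rw [s_pa_f, h0]
    · rw [s_a_f, h0]

end Pool.Agent.Lib.MP_b7a6eb_gt
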