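import Pool.Agent.Lib.MP_b7a6eb_gt.Constr
import Pool.Agent.Lib.MP_b7a6eb_gt.OA0
import Pool.Agent.Lib.MP_b7a6eb_gt.OA4
import Pool.Agent.Lib.MP_b7a6eb_gt.Route
import Pool.Agent.Lib.MP_b7a6eb_gt.OA7
import Pool.Agent.Lib.MP_b7a6eb_gt.OA9a

namespace Pool.Agent.Lib.MP_b7a6eb_gt

open Equiv Equiv.Perm

/-- [OA9] -/
theorem route_pairs {T : Diagram} {b : T.P} {N : ℕ} {lam : T.P × Bool → ℕ} {z : Fin N → T.V}
    {m : ℕ} {rc : Fin m → Rec T} (hE : Ends T b) (hR : Route T b N lam z m rc)
    (hT : ∀ v, T.sign v = true) :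
    ∃ (I J : Type) (zc ec : I → T.V ⊕ Fin m) (pc qc mv : J → T.V ⊕ Fin m) (mx : J → Bool),
      Pairs (routeD hR) (routeY T z rc) I J zc ec pc qc mv mx := by
  have hinj := route_injective hR
  have hzinj : Function.Injective z := by
    intro i i' h
    have h1 := hR.lev.zN i
    rw [h, hR.lev.zN i'] at h1
    exact Fin.ext h1.symm
  choose e he using hR.useE
  have hP : ∀ j : {k : Fin m // ∃ v, rc k = Rec.P v}, ∃ (v : T.V) (k' : Fin m),
      rc j.1 = Rec.P v ∧ k'.val = j.1.val + 1 ∧ rc k' = Rec.Q v := by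
    rintro ⟨k, v, hv⟩
    obtain ⟨k', h1, h2⟩ := hR.stepP' k v hv
    exact ⟨v, k', hv, h1, h2⟩
  choose w q hw hq hq' using hP
  have hnext : ∀ x : T.sub4.P, x ≠ oa8a_b b → (routeD hR).next (Sum.inl x) =
      Sum.inl (T.sub4.next x) := fun x hx =>
    oa6_next T.sub4 (oa8a_b b) (fun k => (rc k).pt) (fun k => (rc k).sg) (route_arcOK hR) hx
  have hcr : ∀ (v : T.V) (x : Bool), (routeD hR).cr (Sum.inl v, x) =
      Sum.inl (oa8a_p (T.cr (v, x)) 0) := fun v x => by cases x <;> rfl
  have hlt : ∀ v : T.V, T.cr (v, true) = T.l v := fun v => by rw [Diagram.l, hT]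
  have hrf : ∀ v : T.V, T.cr (v, false) = T.r v := fun v => by rw [Diagram.r, hT]; rfl
  have hz_not : ∀ i, (Sum.inl (z i) : T.V ⊕ Fin m) ∉ routeY T z rc := by
    rintro i (⟨v, h1, h2⟩ | ⟨k, p, h1, -⟩)
    · exact h2 i (Sum.inl.inj h1)
    · simp at h1
  have hk_not : ∀ k : Fin m, (∀ p, rc k ≠ Rec.A p) →
      (Sum.inr k : T.V ⊕ Fin m) ∉ routeY T z rc := by
    rintro k hk (⟨v, h1, -⟩ | ⟨k', p, h1, h2⟩)
    · simp at h1
    · have := Sum.inr.inj h1
      subst this
      exact hk p h2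
  refine ⟨Fin N, {k : Fin m // ∃ v, rc k = Rec.P v}, fun i => Sum.inl (z i),
    fun i => Sum.inr (e i), fun j => Sum.inr j.1, fun j => Sum.inr (q j),
    fun j => Sum.inl (w j), fun _ => false, ?_⟩
  refine
    { finI := inferInstance
      finJ := inferInstance
      cover := ?_
      zY := hz_not
      eY := ?_
      pY := ?_
      qY := ?_
      zinj := ?_
      einj := ?_
      pinj := ?_
      qinj := ?_
      ze := ?_
      zp := ?_
      zq := ?_
      ep := ?_
      eq := ?_
      pq := ?_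
      zs := ?_
      es := ?_
      ps := ?_
      qs := ?_
      zu := ?_
      po := ?_
      mY := ?_
      pu := ?_
      qu := ?_
      status := ?_ }
  · rintro (v | k) hv
    · left
      by_contra hcon
      push Not at hcon
      exact hv (Or.inl ⟨v, rfl, fun i hi => hcon i (by rw [hi]; rfl)⟩)
    · right
      rcases hk : rc k with p | v | v | v
      · exact absurd (Or.inr ⟨k, p, rfl, hk⟩) hv
      · right; left
        exact ⟨⟨k, v, hk⟩, rfl⟩
      · right; right
        obtain ⟨k', h1, h2⟩ := hR.stepQ k v hk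
        refine ⟨⟨k', v, h2⟩, ?_⟩
        have : q ⟨k', v, h2⟩ = k := Fin.ext (by rw [hq]; exact h1)
        rw [this]
        rfl
      · left
        obtain ⟨i, rfl⟩ := hR.stepE k v hk
        refine ⟨i, ?_⟩
        rw [hinj ((he i).trans hk.symm)]
        rfl
  · intro i
    apply hk_not
    intro p h
    rw [he] at h; simp at h
  · intro j
    apply hk_not
    intro p h
    rw [hw] at h; simp at h
  · intro j
    apply hk_not
    intro p h
    rw [hq'] at h; simp at h
  · intro i i' h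
    exact hzinj (Sum.inl.inj h)
  · intro i i' h
    have h1 := Sum.inr.inj h
    have h2 := he i
    rw [h1, he] at h2
    exact hzinj (Rec.E.inj h2).symm
  · intro j j' h
    exact Subtype.ext (Sum.inr.inj h)
  · intro j j' h
    have h1 := congrArg Fin.val (Sum.inr.inj h)
    rw [hq, hq] at h1
    exact Subtype.ext (Fin.ext (by omega))
  · intro i i' h; simp at h
  · intro i i' h; simp at h
  · intro i i' h; simp at h
  · intro i j h
    have h1 := Sum.inr.inj h
    have h2 := he i
    rw [h1, hw] at h2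
    simp at h2
  · intro i j h
    have h1 := Sum.inr.inj h
    have h2 := he i
    rw [h1, hq'] at h2
    simp at h2
  · intro j j' h
    have h1 := Sum.inr.inj h
    have h2 := hw j
    rw [h1, hq'] at h2
    simp at h2
  · intro i; exact hT (z i)
  · intro i
    change (rc (e i)).sg = false
    rw [he]; rfl
  · intro j
    change (rc j.1).sg = true
    rw [hw]; rfl
  · intro j
    change (rc (q j)).sg = false
    rw [hq']; rfl
  · -- zu
    intro i
    have h1 : (routeD hR).cr (Sum.inl (z i), false) = Sum.inl (oa8a_p (T.r (z i)) 0) := by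
      rw [hcr, hrf]
    have h2 : (routeD hR).cr (Sum.inr (e i), false) = Sum.inl (rc (e i)).pt := rfl
    refine (congrArg _ h1).trans (Eq.trans ?_ h2.symm)
    rw [hnext _ (oa8a_p_ne (Or.inr (by decide))), he, oa8a_next _ (by decide)]
    rfl
  · -- po
    intro j
    have h1 : (j.1 : Fin m).succ = (q j).castSucc := Fin.ext (by simp [hq])
    have h2 := (overClosure_next T.sub4 (oa8a_b b) (fun k => (rc k).pt) (fun k => (rc k).sg)
      (route_arcOK hR)).2.1 (q j)
    rw [← h1] at h2
    exact h2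
  · -- mY
    intro j
    exact Or.inl ⟨w j, rfl, hR.stepP j.1 (w j) (hw j)⟩
  · -- pu
    intro j
    have h1 : (routeD hR).cr (Sum.inl (w j), false) = Sum.inl (oa8a_p (T.r (w j)) 0) := by
      rw [hcr, hrf]
    have h2 : (routeD hR).cr (Sum.inr j.1, false) = Sum.inl (rc j.1).pt := rfl
    refine (congrArg _ h2).trans (Eq.trans ?_ h1.symm)
    have h3 : (rc j.1).pt = oa8a_p (T.prev (T.r (w j))) 3 := by rw [hw]; rfl
    rw [h3, hnext _ (oa8a_p_ne (Or.inl (l_ne_b hE _).2.2.2.1)), oa8a_next3, T.next_prev]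
  · -- qu
    intro j
    have h1 : (routeD hR).cr (Sum.inl (w j), true) = Sum.inl (oa8a_p (T.l (w j)) 0) := by
      rw [hcr, hlt]
    have h2 : (routeD hR).cr (Sum.inr (q j), false) = Sum.inl (rc (q j)).pt := rfl
    refine (congrArg _ h1).trans (Eq.trans ?_ h2.symm)
    have h3 : (rc (q j)).pt = oa8a_p (T.l (w j)) 1 := by rw [hq']; rfl
    rw [h3, hnext _ (oa8a_p_ne (Or.inr (by decide))), oa8a_next _ (by decide)]
    rfl
  · -- status
    intro i
    obtain ⟨st, h1, h2, h3, h4, h5, h6, ⟨h7a, h7b, h7c, h7d⟩, h8⟩ := route_status hE hR hT i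
    obtain ⟨h8a, h8b, h8c, h8d⟩ := h8 (e i) (he i)
    exact ⟨st, h1, h2, fun j x => h3 j.1 (w j) (hw j) x, fun j x => h4 (q j) (w j) (hq' j) x,
      h5, fun i' hi' x y => h6 i' (e i') hi' (he i') x y, h7a, h7b, h7c, h7d, h8a, h8b, h8c, h8d⟩

end Pool.Agent.Lib.MP_b7a6eb_gt
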