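import Pool.Agent.Lib.MP_b7a6eb_gt.Constr
import Pool.Agent.Lib.MP_b7a6eb_gt.Criterion
import Pool.Agent.Lib.MP_b7a6eb_gt.OA1
import Pool.Agent.Lib.MP_b7a6eb_gt.OA2
import Pool.Agent.Lib.MP_b7a6eb_gt.OA4
import Pool.Agent.Lib.MP_b7a6eb_gt.OA5e
import Pool.Agent.Lib.MP_b7a6eb_gt.OA7
import Pool.Agent.Lib.MP_b7a6eb_gt.OA8
import Pool.Agent.Lib.MP_b7a6eb_gt.OA9
import Pool.Agent.Lib.MP_b7a6eb_gt.OA10
import Pool.Agent.Lib.MP_b7a6eb_gt.OA11
import Pool.Agent.Lib.MP_b7a6eb_gt.MK2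
import Pool.Agent.Lib.MP_b7a6eb_gt.MK4

namespace Pool.Agent.Lib.MP_b7a6eb_gt

open Equiv Equiv.Perm

theorem exists_good {D : Diagram} (hD : D.Planar) (hW : WSAP D) :
    ∃ (D' : Diagram) (Y : Set D'.V), D'.Good Y ∧ Isotopic D D' := by
  obtain ⟨T0, b0, hA0, hT0⟩ := hW
  obtain ⟨T, b, D1, hA, hD1, hI, hT, hE⟩ := exists_ends hA0 hD hT0
  have hne1 : Nonempty D1.P := by
    obtain ⟨i, _⟩ := hA
    exact ⟨i b⟩
  have hA4 := overArc_sub4 hA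
  have hM := mSub_sub4 D1
  have hD4 : D1.sub4.Planar := hM.planar_iff.1 hD1
  have hLP := lplanar_of_overArc hA4 hD4 (ends_sub4 hE)
  obtain ⟨N, lam, z, m, rc, hR⟩ := exists_route T b hE
  have hP := route_planar hE hR hLP
  obtain ⟨I, J, zc, ec, pc, qc, mv, mx, hpairs⟩ := route_pairs hE hR hT
  refine ⟨routeD hR, routeY T z rc, ⟨⟨Sum.inl (b, 3)⟩, hP, ?_, ?_⟩, ?_⟩
  · rintro w (⟨v, rfl, hv⟩ | ⟨k, p, rfl, hk⟩)
    · exact hT v
    · change (rc k).sg = true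
      rw [hk]; rfl
  · intro H _ _
    rw [hpairs.ncol_eq H, hpairs.cyc_eq]
  · refine hI.trans ((hM.isotopic hne1 hD1).trans ?_)
    exact Relation.EqvGen.rel _ _ ⟨hD4, hP, T.sub4, (b, 3), hA4,
      overArc_overClosure _ _ _ _ _⟩

/-- The main theorem: every weakly successively almost positive link is quasipositive. -/
theorem main (D : Diagram) (hD : D.Planar) (hW : WSAP D) :
    ∃ (n : ℕ) (c : List (Word n × Fin n)), Isotopic D (closure n (qpWord c)) := by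
  obtain ⟨D', Y, g, i⟩ := exists_good hD hW
  obtain ⟨n, c, i'⟩ := criterion g
  exact ⟨n, c, i.trans i'⟩

end Pool.Agent.Lib.MP_b7a6eb_gt
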